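import Pool.Agent.Lib.MF.Mecke

/-!
# Basic facts on the gas
-/

set_option autoImplicit false

namespace Pool.Agent.HdGas

open MeasureTheory Filter Topology

variable {S : Type} [MeasurableSpace S]

theorem meas_hc {C : S → S → Prop} (hC : MeasurableSet {p : S × S | C p.1 p.2}) :
    MeasurableSet {ω : Om S | hc C ω} := by
  rw [MeasurableSpace.measurableSet_iInf]
  intro n
  have e : {x : Fin n → S | hc C ⟨n, x⟩} =
      ⋂ i : Fin n, ⋂ j : Fin n, {x | i ≠ j → ¬ C (x i) (x j)} := by
    ext x
    simp [hc]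
  show MeasurableSet {x : Fin n → S | hc C ⟨n, x⟩}
  rw [e]
  refine MeasurableSet.iInter fun i => MeasurableSet.iInter fun j => ?_
  by_cases h : i = j
  · simp [h]
  · have e2 : {x : Fin n → S | i ≠ j → ¬ C (x i) (x j)} =
        ((fun x : Fin n → S => (x i, x j)) ⁻¹' {p : S × S | C p.1 p.2})ᶜ := by
      ext x
      simp [h]
    rw [e2]
    exact (((measurable_pi_apply i).prodMk (measurable_pi_apply j)) hC).compl

theorem pois_apply (m : Measure S) (lam : ℝ) (L : Set S) {A : Set (Om S)}
    (hA : MeasurableSet A) : pois m lam L A =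
      ∑' n : ℕ, ENNReal.ofReal (lam ^ n / n.factorial) *
        (Measure.pi fun _ : Fin n => m.restrict L) {x | (⟨n, x⟩ : Om S) ∈ A} := by
  unfold pois
  rw [Measure.sum_apply _ hA]
  refine tsum_congr fun n => ?_
  rw [Measure.smul_apply, Measure.map_apply (measurable_mk n) hA, smul_eq_mul]
  rfl

theorem hasSum_exp' (x : ℝ) : HasSum (fun n : ℕ => x ^ n / n.factorial) (Real.exp x) := by
  rw [Real.exp_eq_exp_ℝ]
  exact NormedSpace.expSeries_div_hasSum_exp x

theorem pois_univ (m : Measure S) [SigmaFinite m] {lam : ℝ} (hlam : 0 ≤ lam) {L : Set S}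
    (hL : m L ≠ ⊤) : pois m lam L Set.univ = ENNReal.ofReal (Real.exp (lam * (m L).toReal)) := by
  rw [pois_apply m lam L MeasurableSet.univ, ← (hasSum_exp' _).tsum_eq,
    ENNReal.ofReal_tsum_of_nonneg (fun n => by positivity) (hasSum_exp' _).summable]
  refine tsum_congr fun n => ?_
  have h1 : (Measure.pi fun _ : Fin n => m.restrict L)
      {x | (⟨n, x⟩ : Om S) ∈ (Set.univ : Set (Om S))} = m L ^ n := by
    have : {x : Fin n → S | (⟨n, x⟩ : Om S) ∈ (Set.univ : Set (Om S))} = Set.univ := by
      ext x; simp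
    rw [this, Measure.pi_univ]
    simp
  rw [h1, mul_pow, mul_div_right_comm, ENNReal.ofReal_mul (by positivity),
    ENNReal.ofReal_pow ENNReal.toReal_nonneg, ENNReal.ofReal_toReal hL]

/-- Row BAS. -/
theorem bas : BAS := by
  intro S _ m _ C L lam hC hL hfin hlam
  have hm := meas_hc hC
  have h1 : IsFiniteMeasure (pois m lam L) := by
    constructor
    rw [pois_univ m hlam hfin]
    exact ENNReal.ofReal_lt_top
  have h2 : IsFiniteMeasure (gib m C lam L) := by
    unfold gib
    infer_instance
  have h3 : gib m C lam L Set.univ = ∑' n : ℕ, ENNReal.ofReal (lam ^ n / n.factorial) *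
      (Measure.pi fun _ : Fin n => m.restrict L) {x | hc C ⟨n, x⟩} := by
    unfold gib
    rw [Measure.restrict_apply_univ, pois_apply m lam L hm]
    rfl
  have h4 : HasSum (fun n : ℕ => lam ^ n / n.factorial * ((Measure.pi fun _ : Fin n => m.restrict L)
      {x | hc C ⟨n, x⟩}).toReal) (Xi m C lam L) := by
    have hne : ∑' n : ℕ, ENNReal.ofReal (lam ^ n / n.factorial) *
      (Measure.pi fun _ : Fin n => m.restrict L) {x | hc C ⟨n, x⟩} ≠ ⊤ := by
      rw [← h3]
      exact measure_ne_top _ _
    have h5 := ENNReal.hasSum_toReal hne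
    rw [← ENNReal.tsum_toReal_eq (fun n => ENNReal.ne_top_of_tsum_ne_top hne n), ← h3] at h5
    have h6 : Xi m C lam L = ((gib m C lam L) Set.univ).toReal := rfl
    rw [h6]
    convert h5 using 2 with n
    rw [ENNReal.toReal_mul, ENNReal.toReal_ofReal (by positivity)]
  refine ⟨hm, h1, h2, ?_, ?_, h4⟩
  · have h6 := le_hasSum h4 0 fun n _ => by positivity
    have h7 : {x : Fin 0 → S | hc C ⟨0, x⟩} = Set.univ := by
      ext x
      simp [hc]
    rw [h7, Measure.pi_univ] at h6
    simpa using h6
  · have h8 : gib m C lam L Set.univ ≤ ENNReal.ofReal (Real.exp (lam * (m L).toReal)) := by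
      rw [← pois_univ m hlam hfin]
      exact Measure.restrict_apply_le _ _
    unfold Xi
    refine (ENNReal.toReal_mono ENNReal.ofReal_ne_top h8).trans ?_
    rw [ENNReal.toReal_ofReal (Real.exp_pos _).le]

end Pool.Agent.HdGas
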