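import Pool.Agent.Lib.MF.Mecke

/-!
# Measurability
-/

set_option autoImplicit false

namespace Pool.Agent.HdGas

open MeasureTheory Filter Topology

variable {S : Type} [MeasurableSpace S]

theorem emb_mk (n : ℕ) : MeasurableEmbedding fun x : Fin n → S => (⟨n, x⟩ : Om S) := by
  refine ⟨?_, measurable_mk n, ?_⟩
  · intro x y h
    simpa using h
  · intro s hs
    rw [MeasurableSpace.measurableSet_iInf]
    intro k
    show MeasurableSet ((fun x : Fin k → S => (⟨k, x⟩ : Om S)) ⁻¹'
      ((fun x : Fin n → S => (⟨n, x⟩ : Om S)) '' s))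
    by_cases h : k = n
    · subst h
      rw [Set.preimage_image_eq _ (by intro x y h; simpa using h)]
      exact hs
    · convert MeasurableSet.empty
      ext x
      simp only [Set.mem_preimage, Set.mem_image, Set.mem_empty_iff_false, iff_false, not_exists,
        not_and]
      intro y _ e
      exact h (congrArg Sigma.fst e).symm

theorem measurableSet_prod_om {T : Type*} [MeasurableSpace T] {A : Set (T × Om S)}
    (h : ∀ n, MeasurableSet {q : T × (Fin n → S) | (q.1, (⟨n, q.2⟩ : Om S)) ∈ A}) :
    MeasurableSet A := by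
  have e : A = ⋃ n, (Prod.map (id : T → T) fun x : Fin n → S => (⟨n, x⟩ : Om S)) ''
      {q : T × (Fin n → S) | (q.1, (⟨n, q.2⟩ : Om S)) ∈ A} := by
    ext ⟨t, n, x⟩
    simp only [Set.mem_iUnion, Set.mem_image, Set.mem_ofPred_eq]
    constructor
    · intro hA
      exact ⟨n, (t, x), hA, rfl⟩
    · rintro ⟨k, ⟨s, y⟩, hy, e⟩
      rw [← e]
      exact hy
  rw [e]
  exact MeasurableSet.iUnion fun n =>
    (MeasurableEmbedding.id.prodMap (emb_mk n)).measurableSet_image' (h n)

theorem measurable_prod_om {T : Type*} [MeasurableSpace T] {β : Type*} [MeasurableSpace β]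
    {f : T × Om S → β}
    (h : ∀ n, Measurable fun q : T × (Fin n → S) => f (q.1, (⟨n, q.2⟩ : Om S))) :
    Measurable f := fun _ ht => measurableSet_prod_om fun n => h n ht

section
variable {C : S → S → Prop} (hC : MeasurableSet {p : S × S | C p.1 p.2})
include hC

theorem meas_fr {K : S → Prop} (hK : MeasurableSet {x | K x}) :
    MeasurableSet {q : S × Om S | fr C K q.1 q.2} := by
  refine measurableSet_prod_om fun n => ?_
  have e : {q : S × (Fin n → S) | (q.1, (⟨n, q.2⟩ : Om S)) ∈ {q : S × Om S | fr C K q.1 q.2}} =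
      ⋂ i : Fin n, ({q | K (q.2 i)} ∩ {q | C q.1 (q.2 i)})ᶜ := by
    ext q
    simp [fr]
  rw [e]
  refine MeasurableSet.iInter fun i => (MeasurableSet.inter ?_ ?_).compl
  · exact hK.preimage ((measurable_pi_apply i).comp measurable_snd)
  · exact hC.preimage (measurable_fst.prodMk ((measurable_pi_apply i).comp measurable_snd))

theorem meas_T {K : S → Prop} (hK : MeasurableSet {x | K x}) {L : Set S} (hL : MeasurableSet L) :
    MeasurableSet {q : (S × S) × Om S | q.1.2 ∈ Tk C L K q.1.1 q.2} := by
  refine measurableSet_prod_om fun n => ?_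
  have e : {q : (S × S) × (Fin n → S) | (q.1, (⟨n, q.2⟩ : Om S)) ∈
      {q : (S × S) × Om S | q.1.2 ∈ Tk C L K q.1.1 q.2}} =
      {q | q.1.2 ∈ L} ∩ ({q | C q.1.1 q.1.2} ∩
        ⋂ i : Fin n, ({q | K (q.2 i)} ∩ ({q | C q.1.1 (q.2 i)}ᶜ ∩ {q | C q.1.2 (q.2 i)}))ᶜ) := by
    ext q
    simp only [Tk, Set.mem_ofPred_eq, Set.mem_inter_iff, Set.mem_iInter, Set.mem_compl_iff,
      not_and]
  have hi : ∀ i : Fin n, Measurable fun q : (S × S) × (Fin n → S) => q.2 i := fun i =>
    (measurable_pi_apply i).comp measurable_snd
  rw [e]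
  refine MeasurableSet.inter ?_ (MeasurableSet.inter ?_ (MeasurableSet.iInter fun i =>
    (MeasurableSet.inter ?_ (MeasurableSet.inter (MeasurableSet.compl ?_) ?_)).compl))
  · exact hL.preimage (measurable_snd.comp measurable_fst)
  · exact hC.preimage measurable_fst
  · exact hK.preimage (hi i)
  · exact hC.preimage ((measurable_fst.comp measurable_fst).prodMk (hi i))
  · exact hC.preimage ((measurable_snd.comp measurable_fst).prodMk (hi i))

end

theorem meas : MEAS := by
  intro S _ m _ C L lam hC hL hfin hlam
  refine ⟨fun K hK => ?_, fun v => ?_⟩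
  · have h1 : Measurable fun q : S × Om S => chi C K q.1 q.2 := by
      unfold chi
      exact Measurable.ite (meas_fr hC hK) measurable_const measurable_const
    have h2 : Measurable fun q : S × Om S => Yk m C lam L K q.1 q.2 := by
      unfold Yk
      refine Measurable.const_mul ?_ _
      have hT : MeasurableSet {r : (S × Om S) × S | r.2 ∈ Tk C L K r.1.1 r.1.2} :=
        (meas_T hC hK hL).preimage (f := fun r : (S × Om S) × S => ((r.1.1, r.2), r.1.2))
          ((((measurable_fst.comp measurable_fst).prodMk measurable_snd)).prodMk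
            (measurable_snd.comp measurable_fst))
      exact (measurable_measure_prodMk_left hT).ennreal_toReal
    refine ⟨h1, h2, h1.sub (h2.neg.exp), fun v ω => ?_, fun v => ?_⟩
    · have hm : Measurable fun z : S => (((v, z), ω) : (S × S) × Om S) :=
        (measurable_const.prodMk measurable_id).prodMk measurable_const
      exact (meas_T hC hK hL).preimage hm
    · have hfr : ∀ (n : ℕ) (x : Fin n → S) (σ : Equiv.Perm (Fin n)),
          fr C K v ⟨n, x ∘ σ⟩ ↔ fr C K v ⟨n, x⟩ := by
        intro n x σ
        unfold fr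
        exact σ.forall_congr (fun i => Iff.rfl)
      have hT : ∀ (n : ℕ) (x : Fin n → S) (σ : Equiv.Perm (Fin n)),
          Tk C L K v ⟨n, x ∘ σ⟩ = Tk C L K v ⟨n, x⟩ := by
        intro n x σ
        ext z
        unfold Tk
        simp only [Set.mem_ofPred_eq]
        exact and_congr Iff.rfl (and_congr Iff.rfl (σ.forall_congr (fun i => Iff.rfl)))
      have s1 : Sym (chi C K v) := by
        intro n x σ
        unfold chi
        by_cases h : fr C K v ⟨n, x⟩
        · rw [if_pos h, if_pos ((hfr n x σ).2 h)]
        · rw [if_neg h, if_neg (fun h' => h ((hfr n x σ).1 h'))]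
      have s2 : Sym (Yk m C lam L K v) := by
        intro n x σ
        unfold Yk
        rw [hT n x σ]
      refine ⟨s1, s2, ?_⟩
      intro n x σ
      unfold Dk
      rw [s1 n x σ, s2 n x σ]
  · have hK : MeasurableSet {x : S | Al S x} := by
      have : {x : S | Al S x} = Set.univ := by
        ext x
        simp [Al]
      rw [this]
      exact MeasurableSet.univ
    have hTo : MeasurableSet {r : Om S × S | r.2 ∈ Tk C L (Al S) v r.1} :=
      (meas_T hC hK hL).preimage (f := fun r : Om S × S => (((v, r.2), r.1) : (S × S) × Om S))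
        ((measurable_const.prodMk measurable_snd).prodMk measurable_fst)
    have hTω : ∀ ω, MeasurableSet (Tk C L (Al S) v ω) := fun ω =>
      hTo.preimage (measurable_const.prodMk measurable_id : Measurable fun z : S => (ω, z))
    have hhc : ∀ n : ℕ, MeasurableSet {x : Fin n → S | hc C ⟨n, x⟩} := by
      intro n
      have e : {x : Fin n → S | hc C ⟨n, x⟩} = ⋂ i : Fin n, ⋂ j : Fin n,
          {x : Fin n → S | i ≠ j → ¬ C (x i) (x j)} := by
        ext x
        simp [hc]
      rw [e]
      refine MeasurableSet.iInter fun i => MeasurableSet.iInter fun j => ?_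
      by_cases hij : i = j
      · simp [hij]
      · have : {x : Fin n → S | i ≠ j → ¬ C (x i) (x j)} = {x | C (x i) (x j)}ᶜ := by
          ext x
          simp [hij]
        rw [this]
        exact (hC.preimage (f := fun x : Fin n → S => (x i, x j))
          ((measurable_pi_apply i).prodMk (measurable_pi_apply j))).compl
    have hHC : MeasurableSet {ω : Om S | hc C ω} := by
      rw [MeasurableSpace.measurableSet_iInf]
      exact hhc
    have key : (fun ω => Xi m C lam (Tk C L (Al S) v ω)) = fun ω =>
        (∑' n : ℕ, ENNReal.ofReal (lam ^ n / n.factorial) *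
          (Measure.pi fun _ : Fin n => m)
            {x | hc C ⟨n, x⟩ ∧ ∀ i, x i ∈ Tk C L (Al S) v ω}).toReal := by
      funext ω
      unfold Xi gib
      rw [Measure.restrict_apply_univ]
      congr 1
      unfold pois
      rw [Measure.sum_apply _ hHC]
      refine tsum_congr fun n => ?_
      rw [Measure.smul_apply, Measure.map_apply (measurable_mk n) hHC, smul_eq_mul]
      congr 1
      have hp : (Measure.pi fun _ : Fin n => m.restrict (Tk C L (Al S) v ω)) =
          (Measure.pi fun _ : Fin n => m).restrict
            (Set.univ.pi fun _ : Fin n => Tk C L (Al S) v ω) :=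
        (Measure.restrict_pi_pi (fun _ : Fin n => m) fun _ => Tk C L (Al S) v ω).symm
      rw [hp, Measure.restrict_apply ((measurable_mk n) hHC)]
      congr 1
      ext x
      simp
    rw [key]
    refine Measurable.ennreal_toReal (Measurable.ennreal_tsum fun n => Measurable.const_mul ?_ _)
    have hs : MeasurableSet {r : Om S × (Fin n → S) |
        hc C ⟨n, r.2⟩ ∧ ∀ i, r.2 i ∈ Tk C L (Al S) v r.1} := by
      have e : {r : Om S × (Fin n → S) |
          hc C ⟨n, r.2⟩ ∧ ∀ i, r.2 i ∈ Tk C L (Al S) v r.1} =
          {r | hc C ⟨n, r.2⟩} ∩ ⋂ i : Fin n, {r | r.2 i ∈ Tk C L (Al S) v r.1} := by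
        ext r
        simp
      rw [e]
      refine MeasurableSet.inter ((hhc n).preimage measurable_snd)
        (MeasurableSet.iInter fun i => ?_)
      exact hTo.preimage (f := fun r : Om S × (Fin n → S) => (r.1, r.2 i))
        (measurable_fst.prodMk ((measurable_pi_apply i).comp measurable_snd))
    exact measurable_measure_prodMk_left hs

end Pool.Agent.HdGas
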