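import Pool.Agent.Lib.MF.BRows
import Pool.Agent.Lib.MF.Bas
import Pool.Agent.Lib.MF.Meas

/-!
# The generator of the birth and death dynamics and the Dirichlet form
-/

set_option autoImplicit false

namespace Pool.Agent.HdGas

open MeasureTheory Filter Topology

namespace Adj16

variable {S : Type}

theorem cons_succAbove {n : ℕ} (x : Fin (n + 1) → S) (i : Fin (n + 1)) :
    (Fin.cons (x i) fun j => x (i.succAbove j) : Fin (n + 1) → S) = x ∘ i.cycleRange.symm := by
  funext j
  refine Fin.cases ?_ (fun j => ?_) j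
  · rw [Fin.cons_zero, Function.comp, Fin.cycleRange_symm_zero]
  · rw [Fin.cons_succ, Function.comp, Fin.cycleRange_symm_succ]

theorem rem_mul (F G : Om S → ℝ) (hG : Sym G) (ω : Om S) :
    rem (fun x η => gr x F η) ω * G ω = rem (fun x η => gr x F η * G (ins x η)) ω := by
  obtain ⟨n, x⟩ := ω
  cases n with
  | zero => simp [rem]
  | succ n =>
    simp only [rem]
    rw [Finset.sum_mul]
    refine Finset.sum_congr rfl fun i _ => ?_
    congr 1
    unfold ins
    simp only
    rw [cons_succAbove, hG]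

end Adj16

open Adj16 in
theorem adj_of (hMK : MK) (hNIC : NIC) : ADJ := by
  intro S _ m _ C lam L M hFew F G hF hG
  obtain ⟨hmhc, hfp, hfg, hXi1, -, -⟩ := bas S m C L lam hFew.meas hFew.measL hFew.fin
    hFew.pos.le
  obtain ⟨hmeas, -⟩ := meas S m C L lam hFew.meas hFew.measL hFew.fin hFew.pos.le
  obtain ⟨hchi, -, -, -, hsym⟩ := hmeas (Al S) MeasurableSet.univ
  have : IsFiniteMeasure (m.restrict L) := ⟨by
    rw [Measure.restrict_apply_univ]; exact lt_top_iff_ne_top.2 hFew.fin⟩
  obtain ⟨hgenF, hgrF, hgrFn, hFi⟩ := hNIC S m C lam L M hFew F hF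
  obtain ⟨-, hgrG, hgrGn, hGi⟩ := hNIC S m C lam L M hFew G hG
  obtain ⟨BF, hBF⟩ := hF.bdd
  obtain ⟨BG, hBG⟩ := hG.bdd
  have hBF0 : 0 ≤ BF := le_trans (abs_nonneg _) (hBF ⟨0, Fin.elim0⟩)
  have hBG0 : 0 ≤ BG := le_trans (abs_nonneg _) (hBG ⟨0, Fin.elim0⟩)
  have hgrb : ∀ (p : S) (ω : Om S), |gr p F ω| ≤ 2 * BF := by
    intro p ω
    unfold gr
    refine (abs_sub _ _).trans ?_
    linarith [hBF (ins p ω), hBF ω]
  have hins : ∀ (p : S) (ω : Om S), G (ins p ω) = gr p G ω + G ω := by
    intro p ω; unfold gr; ring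
  have hGsnd : Measurable fun q : S × Om S => G q.2 := hG.meas.comp measurable_snd
  have hGins : Measurable fun q : S × Om S => G (ins q.1 q.2) := by
    simp only [hins]
    exact hgrG.add hGsnd
  -- Mecke
  have hk := hMK S m C lam L M hFew (fun p ω => gr p F ω * G (ins p ω)) (hgrF.mul hGins)
    (fun p n x σ => by
      show gr p F _ * G (ins p _) = gr p F _ * G (ins p _)
      rw [hins, hins, (hgrFn p).sym n x σ, (hgrGn p).sym n x σ, hG.sym n x σ])
    ⟨2 * BF * BG, fun p ω => by
      rw [abs_mul]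
      exact mul_le_mul (hgrb p ω) (hBG _) (abs_nonneg _) (by positivity)⟩
  obtain ⟨hki, hkm⟩ := hk
  -- the function on the product space
  set P : S × Om S → ℝ := fun q => chi C (Al S) q.1 q.2 * gr q.1 F q.2 * G q.2 with hP
  have hPm : Measurable P := (hchi.mul hgrF).mul hGsnd
  have hchib : ∀ (p : S) (ω : Om S), |chi C (Al S) p ω| ≤ 1 := by
    intro p ω
    unfold chi
    split_ifs <;> simp
  have hPb : ∀ q, |P q| ≤ 2 * BF * BG := by
    intro q
    rw [hP]
    simp only
    rw [abs_mul, abs_mul]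
    have h1 := hchib q.1 q.2
    have h2 := hgrb q.1 q.2
    have h3 := hBG q.2
    calc |chi C (Al S) q.1 q.2| * |gr q.1 F q.2| * |G q.2| ≤ 1 * (2 * BF) * BG := by gcongr
      _ = 2 * BF * BG := by ring
  have hPi : Integrable P ((m.restrict L).prod (gib m C lam L)) :=
    Integrable.mono' (integrable_const (2 * BF * BG)) hPm.aestronglyMeasurable
      (ae_of_all _ fun q => by rw [Real.norm_eq_abs]; exact hPb q)
  have hFub : ∫ ω, ∫ p in L, P (p, ω) ∂m ∂gib m C lam L =
      ∫ p in L, ∫ ω, P (p, ω) ∂gib m C lam L ∂m := by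
    exact (integral_integral_swap (f := fun p ω => P (p, ω)) hPi).symm
  have hPi2 : Integrable (fun ω => ∫ p in L, P (p, ω) ∂m) (gib m C lam L) :=
    hPi.integral_prod_right
  -- the generator
  have hgen : ∫ ω, genM m C lam L M F ω * G ω ∂gib m C lam L =
      ∫ ω, (rem (fun p ω => gr p F ω * G (ins p ω)) ω - lam * ∫ p in L, P (p, ω) ∂m)
        ∂gib m C lam L := by
    refine integral_congr_ae ?_
    filter_upwards [hFew.few] with ω hω
    unfold genM
    rw [if_pos hω, sub_mul, rem_mul F G hG.sym, mul_assoc, ← integral_mul_const]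
  rw [hgen, integral_sub hki (hPi2.const_mul lam), hkm, integral_const_mul, hFub, ← mul_sub]
  unfold dir
  congr 1
  rw [← integral_sub]
  · refine integral_congr_ae (ae_of_all _ fun p => ?_)
    show (∫ ω, chi C (Al S) p ω * (gr p F ω * G (ins p ω)) ∂gib m C lam L) -
      (∫ ω, P (p, ω) ∂gib m C lam L) = _
    have hchip : Measurable fun ω => chi C (Al S) p ω :=
      hchi.comp (measurable_prodMk_left (x := p))
    have hgrp : Measurable fun ω => gr p F ω := hgrF.comp (measurable_prodMk_left (x := p))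
    have hGp : Measurable fun ω => G (ins p ω) := hGins.comp (measurable_prodMk_left (x := p))
    rw [← integral_sub]
    · refine integral_congr_ae (ae_of_all _ fun ω => ?_)
      simp only [hP, gr]
      ring
    · refine Integrable.mono' (integrable_const (2 * BF * BG))
        (hchip.mul (hgrp.mul hGp)).aestronglyMeasurable (ae_of_all _ fun ω => ?_)
      rw [Real.norm_eq_abs, abs_mul, abs_mul]
      have h1 := hchib p ω
      have h2 := hgrb p ω
      have h3 := hBG (ins p ω)
      calc |chi C (Al S) p ω| * (|gr p F ω| * |G (ins p ω)|) ≤ 1 * ((2 * BF) * BG) := by gcongr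
        _ = 2 * BF * BG := by ring
    · exact Integrable.mono' (integrable_const (2 * BF * BG))
        (hPm.comp (measurable_prodMk_left (x := p))).aestronglyMeasurable
        (ae_of_all _ fun ω => by rw [Real.norm_eq_abs]; exact hPb (p, ω))
  · have hQ : Integrable (fun q : S × Om S => chi C (Al S) q.1 q.2 *
        (gr q.1 F q.2 * G (ins q.1 q.2))) ((m.restrict L).prod (gib m C lam L)) := by
      refine Integrable.mono' (integrable_const (2 * BF * BG))
        (hchi.mul (hgrF.mul hGins)).aestronglyMeasurable (ae_of_all _ fun q => ?_)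
      rw [Real.norm_eq_abs, abs_mul, abs_mul]
      have h1 := hchib q.1 q.2
      have h2 := hgrb q.1 q.2
      have h3 := hBG (ins q.1 q.2)
      calc |chi C (Al S) q.1 q.2| * (|gr q.1 F q.2| * |G (ins q.1 q.2)|) ≤
          1 * ((2 * BF) * BG) := by gcongr
        _ = 2 * BF * BG := by ring
    exact hQ.integral_prod_left
  · exact hPi.integral_prod_left

end Pool.Agent.HdGas
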