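import Pool.Agent.Lib.MF.Rows

/-! # Project MF, row AVG: averages of the volumes of intersections.  helper26. -/

set_option autoImplicit false

open MeasureTheory
open scoped ENNReal

namespace Pool.Agent.HdGas

namespace AvgR

section

variable {S : Type} [MeasurableSpace S] {m : Measure S} [SigmaFinite m] {C : S → S → Prop}
  {L : Set S} {b κ : ℝ}

theorem measSet (hG : Geo m C L b κ) (u : S) : MeasurableSet {z | C u z} :=
  measurable_prodMk_left (x := u) hG.meas

/-- the indicator of the relation. -/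
noncomputable def ind (C : S → S → Prop) (p : S × S) : ℝ≥0∞ :=
  {p : S × S | C p.1 p.2}.indicator 1 p

theorem measurable_ind (hG : Geo m C L b κ) : Measurable (ind C) :=
  measurable_one.indicator hG.meas

theorem inter_le_left (hG : Geo m C L b κ) (v w : S) :
    m {z | C v z ∧ C w z} ≤ ENNReal.ofReal b :=
  (measure_mono fun _ hz => hz.1).trans (hG.ball v)

theorem inter_le (hG : Geo m C L b κ) (v w : S) :
    m {z | C v z ∧ C w z} ≤ ENNReal.ofReal (κ * b) + ENNReal.ofReal b * ind C (v, w) := by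
  by_cases h : C v w
  · have : ind C (v, w) = 1 := Set.indicator_of_mem (s := {p : S × S | C p.1 p.2}) h 1
    rw [this, mul_one]
    exact (inter_le_left hG v w).trans le_add_self
  · exact (hG.far v w h).trans le_self_add

/-- close pairs, iterated form. -/
theorem lintegral_ind (hG : Geo m C L b κ) (u : S) :
    ∫⁻ v in {v | C u v}, ∫⁻ w in {w | C u w}, ind C (v, w) ∂m ∂m ≤
      ENNReal.ofReal (2 * κ * b) * ENNReal.ofReal b := by
  have hA : MeasurableSet {v | C u v} := measSet hG u
  have e : ∫⁻ v in {v | C u v}, ∫⁻ w in {w | C u w}, ind C (v, w) ∂m ∂m =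
      (m.prod m) {p : S × S | p.1 ∈ {v | C u v} ∧ p.2 ∈ {v | C u v} ∧ C p.1 p.2} := by
    rw [← lintegral_prod (fun p : S × S => ind C p) (measurable_ind hG).aemeasurable,
      Measure.prod_restrict]
    show ∫⁻ p in {v | C u v} ×ˢ {v | C u v},
      {p : S × S | C p.1 p.2}.indicator (1 : S × S → ℝ≥0∞) p ∂(m.prod m) = _
    rw [lintegral_indicator_one hG.meas, Measure.restrict_apply hG.meas]
    congr 1
    ext p
    simp only [Set.mem_inter_iff, Set.mem_setOf_eq, Set.mem_prod]
    tauto
  rw [e]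
  refine (hG.pair u {v | C u v} hA le_rfl).trans ?_
  gcongr
  exact hG.ball u

theorem setLIntegral_affine {A : Set S} (c d : ℝ≥0∞) (hd : d ≠ ∞) (f : S → ℝ≥0∞) :
    ∫⁻ v in A, (c + d * f v) ∂m = c * m A + d * ∫⁻ v in A, f v ∂m := by
  rw [lintegral_add_left measurable_const, setLIntegral_const, lintegral_const_mul' _ _ hd]

/-- an iterated integral of an affine function. -/
theorem iter_affine (hG : Geo m C L b κ) (u : S) (c d : ℝ≥0∞) (hd : d ≠ ∞)
    (f : S → S → ℝ≥0∞) :
    ∫⁻ v in {v | C u v}, ∫⁻ w in {w | C u w}, (c + d * f v w) ∂m ∂m ≤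
      c * ENNReal.ofReal b * ENNReal.ofReal b +
        d * ∫⁻ v in {v | C u v}, ∫⁻ w in {w | C u w}, f v w ∂m ∂m := by
  calc ∫⁻ v in {v | C u v}, ∫⁻ w in {w | C u w}, (c + d * f v w) ∂m ∂m
      = ∫⁻ v in {v | C u v}, (c * m {w | C u w} + d * ∫⁻ w in {w | C u w}, f v w ∂m) ∂m := by
        refine lintegral_congr fun v => ?_
        rw [setLIntegral_affine c d hd]
    _ = c * m {w | C u w} * m {w | C u w} +
        d * ∫⁻ v in {v | C u v}, ∫⁻ w in {w | C u w}, f v w ∂m ∂m := by
        rw [setLIntegral_affine _ d hd]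
    _ ≤ _ := by
        gcongr
        · exact hG.ball u
        · exact hG.ball u

theorem avg_inter (hG : Geo m C L b κ) (u : S) :
    ∫⁻ v in {v | C u v}, ∫⁻ w in {w | C u w}, m {z | C v z ∧ C w z} ∂m ∂m ≤
      ENNReal.ofReal (3 * κ * b ^ 3) := by
  have hb := hG.b_pos.le
  have hk := hG.kap_pos.le
  calc ∫⁻ v in {v | C u v}, ∫⁻ w in {w | C u w}, m {z | C v z ∧ C w z} ∂m ∂m
      ≤ ∫⁻ v in {v | C u v}, ∫⁻ w in {w | C u w},
          (ENNReal.ofReal (κ * b) + ENNReal.ofReal b * ind C (v, w)) ∂m ∂m :=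
        lintegral_mono fun v => lintegral_mono fun w => inter_le hG v w
    _ ≤ _ := iter_affine hG u _ _ ENNReal.ofReal_ne_top fun v w => ind C (v, w)
    _ ≤ ENNReal.ofReal (κ * b) * ENNReal.ofReal b * ENNReal.ofReal b +
          ENNReal.ofReal b * (ENNReal.ofReal (2 * κ * b) * ENNReal.ofReal b) := by
        gcongr
        exact lintegral_ind hG u
    _ = ENNReal.ofReal (3 * κ * b ^ 3) := by
        rw [← ENNReal.ofReal_mul (by positivity), ← ENNReal.ofReal_mul (by positivity),
          ← ENNReal.ofReal_mul (by positivity), ← ENNReal.ofReal_mul (by positivity),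
          ← ENNReal.ofReal_add (by positivity) (by positivity)]
        congr 1
        ring

theorem Q_le (hG : Geo m C L b κ) (v w : S) :
    ∫⁻ p in {p | C v p}, m {z | C p z ∧ C w z} ∂m ≤
      ENNReal.ofReal (κ * b) * ENNReal.ofReal b +
        ENNReal.ofReal b * m {z | C v z ∧ C w z} := by
  calc ∫⁻ p in {p | C v p}, m {z | C p z ∧ C w z} ∂m
      ≤ ∫⁻ p in {p | C v p}, (ENNReal.ofReal (κ * b) + ENNReal.ofReal b * ind C (p, w)) ∂m :=
        lintegral_mono fun p => inter_le hG p w
    _ = ENNReal.ofReal (κ * b) * m {p | C v p} +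
        ENNReal.ofReal b * ∫⁻ p in {p | C v p}, ind C (p, w) ∂m :=
        setLIntegral_affine _ _ ENNReal.ofReal_ne_top _
    _ = ENNReal.ofReal (κ * b) * m {p | C v p} +
        ENNReal.ofReal b * m {z | C v z ∧ C w z} := by
        congr 2
        have e : ∀ p, ind C (p, w) = {p | C w p}.indicator (1 : S → ℝ≥0∞) p := by
          intro p
          unfold ind
          by_cases h : C p w
          · rw [Set.indicator_of_mem (s := {p : S × S | C p.1 p.2}) h,
              Set.indicator_of_mem (s := {p | C w p}) (hG.symm _ _ h)]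
            rfl
          · rw [Set.indicator_of_notMem (s := {p : S × S | C p.1 p.2}) h,
              Set.indicator_of_notMem (s := {p | C w p}) fun h' => h (hG.symm _ _ h')]
        simp_rw [e]
        rw [lintegral_indicator_one (measSet hG w), Measure.restrict_apply (measSet hG w)]
        congr 1
        ext z
        simp only [Set.mem_inter_iff, Set.mem_setOf_eq]
        tauto
    _ ≤ _ := by
        gcongr
        exact hG.ball v

theorem avg_Q (hG : Geo m C L b κ) (u : S) :
    ∫⁻ v in {v | C u v}, ∫⁻ w in {w | C u w},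
      (∫⁻ p in {p | C v p}, m {z | C p z ∧ C w z} ∂m) ∂m ∂m ≤
      ENNReal.ofReal (4 * κ * b ^ 4) := by
  have hb := hG.b_pos.le
  have hk := hG.kap_pos.le
  calc ∫⁻ v in {v | C u v}, ∫⁻ w in {w | C u w},
        (∫⁻ p in {p | C v p}, m {z | C p z ∧ C w z} ∂m) ∂m ∂m
      ≤ ∫⁻ v in {v | C u v}, ∫⁻ w in {w | C u w}, (ENNReal.ofReal (κ * b) * ENNReal.ofReal b +
        ENNReal.ofReal b * m {z | C v z ∧ C w z}) ∂m ∂m :=
        lintegral_mono fun v => lintegral_mono fun w => Q_le hG v w
    _ ≤ _ := iter_affine hG u _ _ ENNReal.ofReal_ne_top fun v w => m {z | C v z ∧ C w z}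
    _ ≤ ENNReal.ofReal (κ * b) * ENNReal.ofReal b * ENNReal.ofReal b * ENNReal.ofReal b +
          ENNReal.ofReal b * ENNReal.ofReal (3 * κ * b ^ 3) := by
        gcongr
        exact avg_inter hG u
    _ = ENNReal.ofReal (4 * κ * b ^ 4) := by
        rw [← ENNReal.ofReal_mul (by positivity), ← ENNReal.ofReal_mul (by positivity),
          ← ENNReal.ofReal_mul (by positivity), ← ENNReal.ofReal_mul (by positivity),
          ← ENNReal.ofReal_add (by positivity) (by positivity)]
        congr 1
        ring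

end

end AvgR

/-- Row AVG. -/
theorem avg_of : AVG := fun _ _ _ _ _ _ _ _ hG u => ⟨AvgR.avg_inter hG u, AvgR.avg_Q hG u⟩

end Pool.Agent.HdGas
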