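import Pool.Agent.Lib.MF.Em

/-!
# No first-order transition of hard spheres: the rows (captain helper39)

Birth and death dynamics of the hard-core gas, Bochner identity, Poincaré inequality, pressure.
-/

set_option autoImplicit false

namespace Pool.Agent.HdGas

open MeasureTheory Filter Topology Pool.Agent.SquareWellGas Pool.Agent.KacGas Pool.Agent.VdwGas

noncomputable section

/-- The sum of `H x (ω without x)` over the points `x` of `ω`. -/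
def rem {S : Type} (H : S → Om S → ℝ) : Om S → ℝ
  | ⟨0, _⟩ => 0
  | ⟨n + 1, x⟩ => ∑ i : Fin (n + 1), H (x i) ⟨n, fun j => x (i.succAbove j)⟩

/-- The gradient: change of `F` when the point `p` is added. -/
def gr {S : Type} (p : S) (F : Om S → ℝ) (ω : Om S) : ℝ := F (ins p ω) - F ω

/-- Bounded measurable symmetric functions. -/
structure Nice {S : Type} [MeasurableSpace S] (F : Om S → ℝ) : Prop where
  meas : Measurable F
  sym : Sym F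
  bdd : ∃ B, ∀ ω, |F ω| ≤ B

/-- A gas with at most `M` points. -/
structure Few {S : Type} [MeasurableSpace S] (m : Measure S) (C : S → S → Prop) (lam : ℝ)
    (L : Set S) (M : ℕ) : Prop where
  meas : MeasurableSet {p : S × S | C p.1 p.2}
  symm : ∀ x y, C x y → C y x
  measL : MeasurableSet L
  fin : m L ≠ ⊤
  pos : 0 < lam
  few : ∀ᵐ ω ∂gib m C lam L, ω.1 ≤ M

/-- Dirichlet form (not normalised). -/
def dir {S : Type} [MeasurableSpace S] (m : Measure S) (C : S → S → Prop) (lam : ℝ) (L : Set S)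
    (F G : Om S → ℝ) : ℝ :=
  lam * ∫ p in L, ∫ ω, chi C (Al S) p ω * (gr p F ω * gr p G ω) ∂gib m C lam L ∂m

/-- Minus the generator of the birth and death process, cut off at `M` points. -/
def genM {S : Type} [MeasurableSpace S] (m : Measure S) (C : S → S → Prop) (lam : ℝ) (L : Set S)
    (M : ℕ) (F : Om S → ℝ) (ω : Om S) : ℝ :=
  if ω.1 ≤ M then rem (fun x η => gr x F η) ω - lam * ∫ p in L, chi C (Al S) p ω * gr p F ω ∂m
  else 0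

/-- Row MK (Mecke formula for the gas): `mk_of`. -/
def MK : Prop := ∀ (S : Type) [MeasurableSpace S] (m : Measure S) [SigmaFinite m]
  (C : S → S → Prop) (lam : ℝ) (L : Set S) (M : ℕ), Few m C lam L M → ∀ H : S → Om S → ℝ,
  Measurable (fun q : S × Om S => H q.1 q.2) → (∀ p, Sym (H p)) → (∃ B, ∀ p ω, |H p ω| ≤ B) →
    Integrable (rem H) (gib m C lam L) ∧
    ∫ ω, rem H ω ∂gib m C lam L =
      lam * ∫ p in L, ∫ ω, chi C (Al S) p ω * H p ω ∂gib m C lam L ∂m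

/-- Row NIC (closure properties of `Nice`): `nic_of`. -/
def NIC : Prop := ∀ (S : Type) [MeasurableSpace S] (m : Measure S) [SigmaFinite m]
  (C : S → S → Prop) (lam : ℝ) (L : Set S) (M : ℕ), Few m C lam L M → ∀ F : Om S → ℝ, Nice F →
    Nice (genM m C lam L M F) ∧ (Measurable fun q : S × Om S => gr q.1 F q.2) ∧
    (∀ p, Nice (gr p F)) ∧ Integrable F (gib m C lam L)

/-- Row NUL: no place is free when there are `M` points. `nul_of`. -/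
def NUL : Prop := ∀ (S : Type) [MeasurableSpace S] (m : Measure S) [SigmaFinite m]
  (C : S → S → Prop) (lam : ℝ) (L : Set S) (M : ℕ), Few m C lam L M →
    ∀ᵐ q ∂(m.restrict L).prod (gib m C lam L), chi C (Al S) q.1 q.2 ≠ 0 → q.2.1 + 1 ≤ M

/-- Row ADJ (the generator and the Dirichlet form): `adj_of`. -/
def ADJ : Prop := ∀ (S : Type) [MeasurableSpace S] (m : Measure S) [SigmaFinite m]
  (C : S → S → Prop) (lam : ℝ) (L : Set S) (M : ℕ), Few m C lam L M → ∀ F G : Om S → ℝ,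
  Nice F → Nice G →
    ∫ ω, genM m C lam L M F ω * G ω ∂gib m C lam L = dir m C lam L F G

/-- Row COM (the commutation): the value of `dir (genM F) F`. `com_of`. -/
def COM : Prop := ∀ (S : Type) [MeasurableSpace S] (m : Measure S) [SigmaFinite m]
  (C : S → S → Prop) (lam : ℝ) (L : Set S) (M : ℕ), Few m C lam L M → ∀ F : Om S → ℝ, Nice F →
    dir m C lam L F F + lam ^ 2 * ∫ ω, ∫ p in L, (chi C (Al S) p ω * gr p F ω) *
      ∫ q in {q | C p q} ∩ L, chi C (Al S) q ω * gr q F ω ∂m ∂m ∂gib m C lam L ≤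
      dir m C lam L (genM m C lam L M F) F

/-- Row BOC (Bochner inequality): `boc_of`. -/
def BOC : Prop := ∀ (S : Type) [MeasurableSpace S] (m : Measure S) [SigmaFinite m]
  (C : S → S → Prop) (lam : ℝ) (L : Set S) (M : ℕ), Few m C lam L M → ∀ b ε : ℝ, 0 ≤ b → 0 ≤ ε →
  Posi m C L b ε → ∀ F : Om S → ℝ, Nice F →
    (1 - lam * b * ε) * dir m C lam L F F ≤ ∫ ω, genM m C lam L M F ω ^ 2 ∂gib m C lam L

/-- Row DUP: the Dirichlet form is bounded. `dup_of`. -/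
def DUP : Prop := ∀ (S : Type) [MeasurableSpace S] (m : Measure S) [SigmaFinite m]
  (C : S → S → Prop) (lam : ℝ) (L : Set S) (M : ℕ), Few m C lam L M → ∃ a : ℝ, 0 < a ∧
  ∀ F : Om S → ℝ, Nice F →
    0 ≤ dir m C lam L F F ∧ dir m C lam L F F ≤ a * ∫ ω, F ω ^ 2 ∂gib m C lam L

/-- Row CRU: crude Poincaré inequality in a finite volume. `cru_of`. -/
def CRU : Prop := ∀ (S : Type) [MeasurableSpace S] (m : Measure S) [SigmaFinite m]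
  (C : S → S → Prop) (lam : ℝ) (L : Set S) (M : ℕ), Few m C lam L M → ∃ K : ℝ, 0 < K ∧
  ∀ F : Om S → ℝ, Nice F → ∫ ω, F ω ∂gib m C lam L = 0 →
    ∫ ω, F ω ^ 2 ∂gib m C lam L ≤ K * dir m C lam L F F

/-- Row ITE (linear algebra): from `‖A F‖² ≥ δ D(F)` to the spectral gap. `ite_of`.
`V` a real vector space, `B` a symmetric form, `A` linear, `D F = B (A F) F`. -/
def ITE : Prop := ∀ (V : Type) [AddCommGroup V] [Module ℝ V] (B : V →ₗ[ℝ] V →ₗ[ℝ] ℝ)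
  (A : V →ₗ[ℝ] V) (V0 : Submodule ℝ V) (a K δ : ℝ), (∀ x y, B x y = B y x) →
  (∀ x, 0 ≤ B x x) → (∀ x y, B (A x) y = B x (A y)) → (∀ x, 0 ≤ B (A x) x) → 0 < a →
  (∀ x, B (A x) x ≤ a * B x x) → 0 < K → (∀ x ∈ V0, B x x ≤ K * B (A x) x) →
  (∀ x ∈ V0, A x ∈ V0) → 0 < δ → (∀ x, δ * B (A x) x ≤ B (A x) (A x)) →
    ∀ x ∈ V0, δ * B x x ≤ B (A x) x

/-- Row POI (Poincaré inequality): `poi_of`. -/
def POI : Prop := ∀ (S : Type) [MeasurableSpace S] (m : Measure S) [SigmaFinite m]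
  (C : S → S → Prop) (lam : ℝ) (L : Set S) (M : ℕ), Few m C lam L M → ∀ b ε : ℝ, 0 ≤ b → 0 ≤ ε →
  Posi m C L b ε → lam * b * ε < 1 → ∀ F : Om S → ℝ, Nice F →
    (1 - lam * b * ε) * (ex m C lam L (fun ω => F ω ^ 2) - ex m C lam L F ^ 2) ≤
      dir m C lam L F F / Xi m C lam L

/-- Row VAR (fluctuations of the number of points): `var_of`. -/
def VAR : Prop := ∀ (S : Type) [MeasurableSpace S] (m : Measure S) [SigmaFinite m]
  (C : S → S → Prop) (lam : ℝ) (L : Set S) (M : ℕ), Few m C lam L M → ∀ b ε : ℝ, 0 ≤ b → 0 ≤ ε →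
  Posi m C L b ε → lam * b * ε < 1 →
    (1 - lam * b * ε) * (ex m C lam L (fun ω => (ω.1 : ℝ) ^ 2) -
      ex m C lam L (fun ω => (ω.1 : ℝ)) ^ 2) ≤ ex m C lam L (fun ω => (ω.1 : ℝ))

/-- Row SECM (second difference of `log Ξ`): `sec_of`. -/
def SECM : Prop := ∀ (S : Type) [MeasurableSpace S] (m : Measure S) [SigmaFinite m]
  (C : S → S → Prop) (L : Set S) (M : ℕ), (∀ lam : ℝ, 0 < lam → Few m C lam L M) →
  ∀ b ε : ℝ, 0 ≤ b → 0 ≤ ε → Posi m C L b ε → ∀ μ h : ℝ, 0 ≤ h → Real.exp (μ + h) * b * ε < 1 →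
    Real.log (Xi m C (Real.exp (μ + h)) L) + Real.log (Xi m C (Real.exp (μ - h)) L) -
      2 * Real.log (Xi m C (Real.exp μ) L) ≤
      h ^ 2 * (Real.exp (μ + h) * (m L).toReal / (1 - Real.exp (μ + h) * b * ε))

/-- Row LOW (lower bound for the number of points): `low_of`. -/
def LOW : Prop := ∀ (S : Type) [MeasurableSpace S] (m : Measure S) [SigmaFinite m]
  (C : S → S → Prop) (L : Set S) (b κ lam : ℝ), Geo m C L b κ → 0 ≤ lam →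
    lam * (m L).toReal ≤ (1 + lam * b) * ex m C lam L (fun ω => (ω.1 : ℝ))

/-- Row FEW (bounded regions contain few hard spheres): `few_of`. -/
def FEW : Prop := ∀ d : ℕ, 1 ≤ d → ∀ L : Set (Fin d → ℝ), MeasurableSet L →
  (∃ ℓ : ℝ, ∀ x ∈ L, ∀ k, |x k| ≤ ℓ) → ∃ M : ℕ, ∀ lam : ℝ, 0 < lam →
    Few volume (Cb d) lam L M

/-- Row PSE (second difference of the pressure, diameter one): `pse_of`. -/
def PSE : Prop := ∀ d : ℕ, 1 ≤ d → ∀ P : ℝ → ℝ, IsPr d P → ∀ μ h : ℝ, 0 ≤ h →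
  Real.exp (μ + h) * bv d * emd d < 1 →
    P (μ + h) + P (μ - h) - 2 * P μ ≤
      h ^ 2 * (Real.exp (μ + h) / (1 - Real.exp (μ + h) * bv d * emd d))

/-- Row PLO (slopes of the pressure from below, diameter one): `plo_of`. -/
def PLO : Prop := ∀ d : ℕ, 1 ≤ d → ∀ P : ℝ → ℝ, IsPr d P → ∀ μ h : ℝ, 0 ≤ h →
  h * Real.exp μ ≤ (1 + Real.exp μ * bv d) * (P (μ + h) - P μ)

/-- Row NOJ (diameter one): one density for each chemical potential, no affine piece. `noj_of`. -/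
def NOJ : Prop := ∀ d : ℕ, 1 ≤ d → ∀ (f : ℝ → ℝ) (r : ℝ), IsF d (1 / 2) (fun _ => 0) f r →
  (∀ μ₁ μ₂ ρ₁ ρ₂ : ℝ, μ₁ ≤ μ₂ → Real.exp μ₂ * bv d * emd d < 1 → ρ₁ ∈ Set.Ioo 0 r →
    ρ₂ ∈ Set.Ioo 0 r → (∀ x ∈ Set.Ioo 0 r, f x + μ₁ * x ≤ f ρ₁ + μ₁ * ρ₁) →
    (∀ x ∈ Set.Ioo 0 r, f x + μ₂ * x ≤ f ρ₂ + μ₂ * ρ₂) →
      (1 - Real.exp μ₂ * bv d * emd d) * (ρ₂ - ρ₁) ≤ (μ₂ - μ₁) * Real.exp μ₂) ∧
  ∀ m q ρ₁ ρ₂ : ℝ, 0 < ρ₁ → ρ₁ < ρ₂ → ρ₂ < r → (∀ x ∈ Set.Ioo 0 r, f x ≤ m * x + q) →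
    f ρ₁ = m * ρ₁ + q → f ρ₂ = m * ρ₂ + q → 1 / (1 + emd d) ≤ ρ₁ * bv d

/-- Row NOH (high dimension, diameter one): no affine piece up to density `d / 50`. `noh_of`. -/
def NOH : Prop := ∃ d0 : ℕ, ∀ d : ℕ, d0 ≤ d → ∀ (f : ℝ → ℝ) (r : ℝ),
  IsF d (1 / 2) (fun _ => 0) f r → ∀ m q ρ₁ ρ₂ : ℝ, 0 < ρ₁ → ρ₁ < ρ₂ → ρ₂ < r →
    (∀ x ∈ Set.Ioo 0 r, f x ≤ m * x + q) → f ρ₁ = m * ρ₁ + q → f ρ₂ = m * ρ₂ + q →
      (d : ℝ) / 50 < ρ₁ * bv d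

/-- The weight of the configurations with `n` points in `L`: spheres of radius `a`, activity
`lam`. -/
def wt (d : ℕ) (a lam : ℝ) (L : Set (Fin d → ℝ)) (n : ℕ) : ℝ :=
  lam ^ n / n.factorial * (volume {x : Fin n → Fin d → ℝ | (∀ i, x i ∈ L) ∧
    ∀ i j, i ≠ j → (2 * a) ^ 2 ≤ ∑ k, (x i k - x j k) ^ 2}).toReal

/-- Moments of the number of points (not normalised). -/
def mom (d : ℕ) (a lam : ℝ) (L : Set (Fin d → ℝ)) (j : ℕ) : ℝ :=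
  ∑' n : ℕ, (n : ℝ) ^ j * wt d a lam L n

/-- Row MOM: moments and expectations, diameter one; scaling. `mom_of`. -/
def MOM : Prop := ∀ d : ℕ, 1 ≤ d → ∀ L : Set (Fin d → ℝ), MeasurableSet L →
  (∃ ℓ : ℝ, ∀ x ∈ L, ∀ k, |x k| ≤ ℓ) → ∀ a lam : ℝ, 0 < a → 0 < lam → ∀ j : ℕ,
    mom d a lam L j = ∫ ω, (ω.1 : ℝ) ^ j ∂gib volume (Cb d) (lam * (2 * a) ^ d)
      ((fun x : Fin d → ℝ => fun k => x k / (2 * a)) '' L)

/-- The theorem. -/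
def NOFIRST : Prop :=
  (∀ d : ℕ, 2 ≤ d → ∀ a lam : ℝ, 0 < a → 0 < lam → lam * ball d a * emd d < 1 →
    ∀ L : Set (Fin d → ℝ), MeasurableSet L → (∃ ℓ : ℝ, ∀ x ∈ L, ∀ k, |x k| ≤ ℓ) →
      mom d a lam L 2 / mom d a lam L 0 - (mom d a lam L 1 / mom d a lam L 0) ^ 2 ≤
        (mom d a lam L 1 / mom d a lam L 0) / (1 - lam * ball d a * emd d)) ∧
  ∃ d0 : ℕ, ∀ d : ℕ, 2 ≤ d → ∀ a : ℝ, 0 < a → ∃ (f : ℝ → ℝ) (ρ₀ : ℝ),
    IsF d a (fun _ => 0) f ρ₀ ∧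
    (∀ μ₁ μ₂ ρ₁ ρ₂ : ℝ, μ₁ ≤ μ₂ → Real.exp μ₂ * ball d a * emd d < 1 → ρ₁ ∈ Set.Ioo 0 ρ₀ →
      ρ₂ ∈ Set.Ioo 0 ρ₀ → (∀ x ∈ Set.Ioo 0 ρ₀, f x + μ₁ * x ≤ f ρ₁ + μ₁ * ρ₁) →
      (∀ x ∈ Set.Ioo 0 ρ₀, f x + μ₂ * x ≤ f ρ₂ + μ₂ * ρ₂) →
        (1 - Real.exp μ₂ * ball d a * emd d) * (ρ₂ - ρ₁) ≤ (μ₂ - μ₁) * Real.exp μ₂) ∧
    ∀ m q ρ₁ ρ₂ : ℝ, 0 < ρ₁ → ρ₁ < ρ₂ → ρ₂ < ρ₀ → (∀ x ∈ Set.Ioo 0 ρ₀, f x ≤ m * x + q) →
      f ρ₁ = m * ρ₁ + q → f ρ₂ = m * ρ₂ + q →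
        1 / (1 + emd d) ≤ ρ₁ * ball d a ∧ (d0 ≤ d → (d : ℝ) / 50 < ρ₁ * ball d a)

end

end Pool.Agent.HdGas
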