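import Pool.Agent.Lib.MF.Top

/-!
# Project MF (MP_09cbbd_mp), row BALLF: the Fourier transform of the ball (helper59)
-/

set_option autoImplicit false

namespace Pool.Agent.HdGas

open MeasureTheory Filter Topology Set Pointwise

noncomputable section

/-- The open ball of square radius `q`. -/
def Sb (n : ℕ) (q : ℝ) : Set (Fin n → ℝ) := {x | ∑ k, x k ^ 2 < q}

theorem Sb_open (n : ℕ) (q : ℝ) : IsOpen (Sb n q) :=
  isOpen_lt (by fun_prop) continuous_const

theorem Sb_subset (n : ℕ) : Sb n 1 ⊆ Icc (fun _ => (-1 : ℝ)) (fun _ => 1) := by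
  intro x hx
  have h : ∀ k, x k ^ 2 < 1 := fun k =>
    (Finset.single_le_sum (f := fun k => x k ^ 2) (fun i _ => sq_nonneg _)
      (Finset.mem_univ k)).trans_lt hx
  refine ⟨fun k => ?_, fun k => ?_⟩
  · exact (abs_le_of_sq_le_sq' (by simpa using (h k).le) one_pos.le).1
  · exact (abs_le_of_sq_le_sq' (by simpa using (h k).le) one_pos.le).2

theorem Sb_fin (n : ℕ) : volume (Sb n 1) ≠ ⊤ :=
  ((measure_mono (Sb_subset n)).trans_lt isCompact_Icc.measure_lt_top).ne

/-- The volume of a ball. -/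
theorem Sb_vol (n : ℕ) {r : ℝ} (hr : 0 < r) :
    (volume (Sb n (r ^ 2))).toReal = r ^ n * (volume (Sb n 1)).toReal := by
  have h : Sb n (r ^ 2) = r • Sb n 1 := by
    ext x
    rw [mem_smul_set_iff_inv_smul_mem₀ hr.ne']
    simp only [Sb, mem_ofPred_eq, Pi.smul_apply, smul_eq_mul, mul_pow, ← Finset.mul_sum]
    rw [inv_pow, inv_mul_lt_iff₀ (by positivity), mul_one]
  rw [h, Measure.addHaar_smul, Module.finrank_fin_fun, ENNReal.toReal_mul,
    ENNReal.toReal_ofReal (abs_nonneg _), abs_of_nonneg (by positivity)]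

theorem Sb_vol_slice (n : ℕ) (u : ℝ) :
    (volume {z : Fin n → ℝ | u ^ 2 + ∑ k, z k ^ 2 < 1}).toReal =
      (Ioo (-1 : ℝ) 1).indicator (fun u => √(1 - u ^ 2) ^ n * (volume (Sb n 1)).toReal) u := by
  by_cases hu : u ∈ Ioo (-1 : ℝ) 1
  · rw [indicator_of_mem hu]
    have h1 : 0 < 1 - u ^ 2 := by nlinarith [hu.1, hu.2]
    rw [← Sb_vol n (Real.sqrt_pos.2 h1), Real.sq_sqrt h1.le]
    congr 2
    ext z
    simp only [Sb, mem_ofPred_eq]
    constructor <;> intro h <;> linarith
  · rw [indicator_of_notMem hu]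
    have h1 : 1 ≤ u ^ 2 := by
      by_contra hc
      push Not at hc
      exact hu (abs_lt.1 ((sq_lt_one_iff_abs_lt_one u).1 hc))
    have h2 : {z : Fin n → ℝ | u ^ 2 + ∑ k, z k ^ 2 < 1} = ∅ := by
      ext z
      simp only [mem_ofPred_eq, mem_empty_iff_false, iff_false, not_lt]
      have : 0 ≤ ∑ k, z k ^ 2 := Finset.sum_nonneg fun i _ => sq_nonneg _
      linarith
    rw [h2]; simp

/-- Slices. -/
theorem slice (n : ℕ) (s : ℝ) :
    ∫ x in Sb (n + 1) 1, Real.cos (s * x 0) =
      (volume (Sb n 1)).toReal * ∫ u in (-1 : ℝ)..1, Real.cos (s * u) * √(1 - u ^ 2) ^ n := by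
  have hmp := (volume_preserving_piFinSuccAbove (fun _ : Fin (n + 1) => ℝ) 0).symm
  set e := (MeasurableEquiv.piFinSuccAbove (fun _ : Fin (n + 1) => ℝ) 0).symm with he
  set B : Set (ℝ × (Fin n → ℝ)) := {p | p.1 ^ 2 + ∑ k, p.2 k ^ 2 < 1} with hB
  have hBm : MeasurableSet B := by
    have : IsOpen B := isOpen_lt (by fun_prop) continuous_const
    exact this.measurableSet
  have hpre : e ⁻¹' (Sb (n + 1) 1) = B := by
    ext p
    simp [he, hB, Sb, Fin.sum_univ_succ, MeasurableEquiv.piFinSuccAbove]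
  have h0 : ∀ p, e p 0 = p.1 := by
    intro p
    simp [he, MeasurableEquiv.piFinSuccAbove]
  have h1 : ∫ x in Sb (n + 1) 1, Real.cos (s * x 0) = ∫ p in B, Real.cos (s * p.1) := by
    have := hmp.setIntegral_preimage_emb e.measurableEmbedding
      (fun x : Fin (n + 1) → ℝ => Real.cos (s * x 0)) (Sb (n + 1) 1)
    rw [← this, hpre]
    simp only [h0]
  have hBf : volume B ≠ ⊤ := by
    rw [← hpre, hmp.measure_preimage_emb e.measurableEmbedding]
    exact Sb_fin _
  have hint : Integrable (B.indicator fun p : ℝ × (Fin n → ℝ) => Real.cos (s * p.1))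
      (volume.prod volume) := by
    rw [integrable_indicator_iff hBm]
    have : IsFiniteMeasure ((volume.prod volume : Measure (ℝ × (Fin n → ℝ))).restrict B) :=
      ⟨by rw [Measure.restrict_apply_univ]; exact lt_top_iff_ne_top.2 hBf⟩
    refine Integrable.of_bound (C := 1) ?_ ?_
    · exact (by fun_prop : Continuous fun p : ℝ × (Fin n → ℝ) =>
        Real.cos (s * p.1)).aestronglyMeasurable
    · exact Eventually.of_forall fun p => by
        rw [Real.norm_eq_abs]; exact Real.abs_cos_le_one _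
  rw [h1, ← integral_indicator hBm, Measure.volume_eq_prod, integral_prod _ hint]
  have h2 : ∀ u : ℝ, ∫ z : Fin n → ℝ, B.indicator (fun p => Real.cos (s * p.1)) (u, z) =
      (Ioo (-1 : ℝ) 1).indicator (fun u => (volume (Sb n 1)).toReal *
        (Real.cos (s * u) * √(1 - u ^ 2) ^ n)) u := by
    intro u
    have h3 : (fun z : Fin n → ℝ => B.indicator (fun p => Real.cos (s * p.1)) (u, z)) =
        {z : Fin n → ℝ | u ^ 2 + ∑ k, z k ^ 2 < 1}.indicator fun _ => Real.cos (s * u) := by
      ext z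
      by_cases hz : (u, z) ∈ B
      · rw [indicator_of_mem hz, indicator_of_mem (by exact hz)]
      · rw [indicator_of_notMem hz, indicator_of_notMem (by exact hz)]
    have hm : MeasurableSet {z : Fin n → ℝ | u ^ 2 + ∑ k, z k ^ 2 < 1} := by
      have : IsOpen {z : Fin n → ℝ | u ^ 2 + ∑ k, z k ^ 2 < 1} :=
        isOpen_lt (by fun_prop) continuous_const
      exact this.measurableSet
    rw [h3, integral_indicator hm, setIntegral_const, smul_eq_mul, Measure.real, Sb_vol_slice]
    by_cases hu : u ∈ Ioo (-1 : ℝ) 1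
    · rw [indicator_of_mem hu, indicator_of_mem hu]; ring
    · rw [indicator_of_notMem hu, indicator_of_notMem hu]; ring
  simp_rw [h2]
  rw [integral_indicator measurableSet_Ioo, ← integral_Ioc_eq_integral_Ioo,
    ← intervalIntegral.integral_of_le (by norm_num), intervalIntegral.integral_const_mul]

/-- Rotations. -/
theorem rot (d : ℕ) (ξ η : Fin d → ℝ) (h : ∑ k, ξ k ^ 2 = ∑ k, η k ^ 2) :
    ∫ x in Sb d 1, Real.cos (∑ k, x k * ξ k) = ∫ x in Sb d 1, Real.cos (∑ k, x k * η k) := by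
  have hmp := EuclideanSpace.volume_preserving_symm_measurableEquiv_toLp (Fin d)
  have key : ∀ ζ : Fin d → ℝ, ∫ x in Sb d 1, Real.cos (∑ k, x k * ζ k) =
      ∫ x in Metric.ball (0 : EuclideanSpace ℝ (Fin d)) 1,
        Real.cos (inner ℝ x (WithLp.toLp 2 ζ)) := by
    intro ζ
    have h1 := hmp.setIntegral_preimage_emb
      (MeasurableEquiv.toLp 2 (Fin d → ℝ)).symm.measurableEmbedding
      (fun x : Fin d → ℝ => Real.cos (∑ k, x k * ζ k)) (Sb d 1)
    rw [← h1]
    have h2 : (MeasurableEquiv.toLp 2 (Fin d → ℝ)).symm ⁻¹' (Sb d 1) =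
        Metric.ball (0 : EuclideanSpace ℝ (Fin d)) 1 := by
      ext x
      rw [mem_ball_zero_iff, ← sq_lt_one_iff₀ (norm_nonneg x), EuclideanSpace.norm_sq_eq]
      simp [Sb]
    rw [h2]
    apply setIntegral_congr_fun Metric.isOpen_ball.measurableSet
    intro x _
    simp only
    congr 1
    rw [PiLp.inner_apply]
    apply Finset.sum_congr rfl
    intro k _
    simp [mul_comm]
  rw [key, key]
  set a : EuclideanSpace ℝ (Fin d) := WithLp.toLp 2 ξ
  set b : EuclideanSpace ℝ (Fin d) := WithLp.toLp 2 η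
  have hn : ‖a‖ = ‖b‖ := by
    rw [EuclideanSpace.norm_eq, EuclideanSpace.norm_eq]
    congr 1
    simpa [a, b] using h
  set A := Submodule.reflection (ℝ ∙ (a - b))ᗮ with hA
  have hAa : A a = b := Submodule.reflection_sub hn
  have h3 := A.measurePreserving.setIntegral_preimage_emb A.toMeasurableEquiv.measurableEmbedding
    (fun x : EuclideanSpace ℝ (Fin d) => Real.cos (inner ℝ x b)) (Metric.ball 0 1)
  rw [← h3]
  have h4 : A ⁻¹' Metric.ball (0 : EuclideanSpace ℝ (Fin d)) 1 = Metric.ball 0 1 := by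
    ext x
    simp
  rw [h4]
  apply setIntegral_congr_fun Metric.isOpen_ball.measurableSet
  intro x _
  simp only
  rw [← hAa, A.inner_map_map]

/-- **Row BALLF.** -/
theorem ballF : BALLF := by
  intro d hd ξ
  obtain ⟨n, rfl⟩ : ∃ n, d = n + 1 := ⟨d - 1, by omega⟩
  set s : ℝ := √(∑ k, ξ k ^ 2) with hs
  have hs2 : s ^ 2 = ∑ k, ξ k ^ 2 := Real.sq_sqrt (Finset.sum_nonneg fun i _ => sq_nonneg _)
  have h1 := rot (n + 1) ξ (fun k => if k = 0 then s else 0) (by
    rw [← hs2, Finset.sum_eq_single 0]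
    · simp
    · intro b _ hb; simp [hb]
    · intro hc; exact absurd (Finset.mem_univ _) hc)
  have h2 : ∀ x : Fin (n + 1) → ℝ, ∑ k, x k * (if k = 0 then s else 0) = s * x 0 := by
    intro x
    rw [Finset.sum_eq_single 0]
    · simp [mul_comm]
    · intro b _ hb; simp [hb]
    · intro hc; exact absurd (Finset.mem_univ _) hc
  simp only [h2] at h1
  have hs0 : bv (n + 1) = (volume (Sb n 1)).toReal * ∫ u in (-1 : ℝ)..1, √(1 - u ^ 2) ^ n := by
    have := slice n 0
    simp only [zero_mul, Real.cos_zero, one_mul] at this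
    rw [← this, setIntegral_const, smul_eq_mul, mul_one]
    rfl
  have hpos : 0 < ∫ u in (-1 : ℝ)..1, √(1 - u ^ 2) ^ n := by
    apply intervalIntegral.intervalIntegral_pos_of_pos_on
    · apply Continuous.intervalIntegrable; fun_prop
    · intro u hu
      apply pow_pos
      apply Real.sqrt_pos.2
      nlinarith [hu.1, hu.2]
    · norm_num
  change ∫ x in Sb (n + 1) 1, Real.cos (∑ k, x k * ξ k) = _
  rw [h1, slice, hs0, Phi, Nat.add_sub_cancel]
  field_simp

end

end Pool.Agent.HdGas
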