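import Pool.Agent.Lib.MF.Rows

/-!
# Row CORR: correlations of `D`
-/

set_option autoImplicit false

namespace Pool.Agent.HdGas

open MeasureTheory Filter Topology

namespace Corr16

variable {S : Type} [MeasurableSpace S]

theorem meas_sec {C : S → S → Prop} (hC : MeasurableSet {p : S × S | C p.1 p.2}) (v : S) :
    MeasurableSet {z | C v z} :=
  (measurable_prodMk_left (x := v)) hC

theorem meas_sec' {C : S → S → Prop} (hC : MeasurableSet {p : S × S | C p.1 p.2}) (v : S) :
    MeasurableSet {z | C z v} :=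
  (measurable_prodMk_right (y := v)) hC

theorem chi_nonneg (C : S → S → Prop) (K : S → Prop) (v : S) (ω : Om S) : 0 ≤ chi C K v ω := by
  unfold chi; split_ifs <;> norm_num

theorem chi_le_one (C : S → S → Prop) (K : S → Prop) (v : S) (ω : Om S) : chi C K v ω ≤ 1 := by
  unfold chi; split_ifs <;> norm_num

theorem Yk_nonneg (m : Measure S) (C : S → S → Prop) {lam : ℝ} (hl : 0 ≤ lam) (L : Set S)
    (K : S → Prop) (v : S) (ω : Om S) : 0 ≤ Yk m C lam L K v ω :=
  mul_nonneg hl ENNReal.toReal_nonneg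

theorem abs_Dk_le (m : Measure S) (C : S → S → Prop) {lam : ℝ} (hl : 0 ≤ lam) (L : Set S)
    (K : S → Prop) (v : S) (ω : Om S) : |Dk m C lam L K v ω| ≤ 1 := by
  unfold Dk
  have h1 := chi_nonneg C K v ω
  have h2 := chi_le_one C K v ω
  have h3 := Real.exp_pos (-Yk m C lam L K v ω)
  have h4 : Real.exp (-Yk m C lam L K v ω) ≤ 1 :=
    Real.exp_le_one_iff.2 (by linarith [Yk_nonneg m C hl L K v ω])
  rw [abs_le]
  constructor <;> linarith

/-- The points of `η` do not matter if they do not satisfy `K`. -/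
theorem fr_app {C : S → S → Prop} {K : S → Prop} {w : S} {ω η : Om S}
    (h : ∀ j, ¬ K (η.2 j)) : fr C K w (app ω η) ↔ fr C K w ω := by
  unfold fr app
  constructor
  · intro H i hK
    have := H (Fin.castAdd η.1 i)
    simpa [Fin.append_left] using this (by simpa [Fin.append_left] using hK)
  · intro H i
    refine Fin.addCases (fun i => ?_) (fun j => ?_) i
    · intro hK
      simpa [Fin.append_left] using H i (by simpa [Fin.append_left] using hK)
    · intro hK
      exact absurd (by simpa [Fin.append_right] using hK) (h j)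

theorem Tk_app {C : S → S → Prop} {L : Set S} {K : S → Prop} {w : S} {ω η : Om S}
    (h : ∀ j, ¬ K (η.2 j)) : Tk C L K w (app ω η) = Tk C L K w ω := by
  ext z
  simp only [Tk, Set.mem_ofPred_eq, app]
  refine and_congr_right fun _ => and_congr_right fun _ => ?_
  constructor
  · intro H i hK hn
    have := H (Fin.castAdd η.1 i)
    simp only [Fin.append_left] at this
    exact this hK hn
  · intro H i
    refine Fin.addCases (fun i => ?_) (fun j => ?_) i
    · simp only [Fin.append_left]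
      exact H i
    · simp only [Fin.append_right]
      intro hK
      exact absurd hK (h j)

theorem Dk_app (m : Measure S) {C : S → S → Prop} (lam : ℝ) {L : Set S} {K : S → Prop} {w : S}
    {ω η : Om S} (h : ∀ j, ¬ K (η.2 j)) :
    Dk m C lam L K w (app ω η) = Dk m C lam L K w ω := by
  unfold Dk Yk chi
  rw [Tk_app h]
  congr 1
  by_cases h1 : fr C K w ω
  · rw [if_pos h1, if_pos ((fr_app h).2 h1)]
  · rw [if_neg h1, if_neg (fun h2 => h1 ((fr_app h).1 h2))]

open Classical in
/-- Difference of the free indicators. -/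
theorem chi_diff (C : S → S → Prop) (v w : S) (ω : Om S) :
    |chi C (Al S) w ω - chi C (fun p => ¬ C v p) w ω| ≤
      ∑ i, Set.indicator {p | C v p ∧ C w p} (fun _ => (1 : ℝ)) (ω.2 i) := by
  have hnn : ∀ i, 0 ≤ Set.indicator {p | C v p ∧ C w p} (fun _ => (1 : ℝ)) (ω.2 i) :=
    fun i => Set.indicator_nonneg (fun _ _ => zero_le_one) _
  by_cases h : ∃ i, C v (ω.2 i) ∧ C w (ω.2 i)
  · obtain ⟨i, hi⟩ := h
    have h1 : (1 : ℝ) ≤ ∑ i, Set.indicator {p | C v p ∧ C w p} (fun _ => (1 : ℝ)) (ω.2 i) := by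
      have := Finset.single_le_sum (f := fun i => Set.indicator {p | C v p ∧ C w p}
        (fun _ => (1 : ℝ)) (ω.2 i)) (fun i _ => hnn i) (Finset.mem_univ i)
      have e : Set.indicator {p | C v p ∧ C w p} (fun _ => (1 : ℝ)) (ω.2 i) = 1 :=
        Set.indicator_of_mem (show ω.2 i ∈ {p | C v p ∧ C w p} from hi) _
      rw [e] at this
      exact this
    refine le_trans ?_ h1
    have a1 := chi_nonneg C (Al S) w ω
    have a2 := chi_le_one C (Al S) w ω
    have a3 := chi_nonneg C (fun p => ¬ C v p) w ω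
    have a4 := chi_le_one C (fun p => ¬ C v p) w ω
    rw [abs_le]
    constructor <;> linarith
  · have e : fr C (Al S) w ω ↔ fr C (fun p => ¬ C v p) w ω := by
      unfold fr
      constructor
      · intro H i _
        exact H i trivial
      · intro H i _ hc
        by_cases h1 : C v (ω.2 i)
        · exact h ⟨i, h1, hc⟩
        · exact H i h1 hc
    have e2 : chi C (Al S) w ω = chi C (fun p => ¬ C v p) w ω := by
      unfold chi
      by_cases h1 : fr C (Al S) w ω
      · rw [if_pos h1, if_pos (e.1 h1)]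
      · rw [if_neg h1, if_neg (fun h2 => h1 (e.2 h2))]
    rw [e2, sub_self, abs_zero]
    exact Finset.sum_nonneg fun i _ => hnn i

/-- The function whose sum bounds the difference of the `Y`. -/
noncomputable def gq (m : Measure S) (C : S → S → Prop) (v w : S) (p : S) : ℝ :=
  Set.indicator {p | C v p} (fun p => (m {z | C p z ∧ C w z}).toReal) p

theorem gq_nonneg (m : Measure S) (C : S → S → Prop) (v w : S) (p : S) : 0 ≤ gq m C v w p :=
  Set.indicator_nonneg (fun _ _ => ENNReal.toReal_nonneg) _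

theorem meas_q {m : Measure S} [SigmaFinite m] {C : S → S → Prop}
    (hC : MeasurableSet {p : S × S | C p.1 p.2}) (w : S) :
    Measurable fun p => m {z | C p z ∧ C w z} := by
  have h2 : MeasurableSet {p : S × S | C p.1 p.2 ∧ C w p.2} :=
    hC.inter (measurable_snd (meas_sec hC w))
  exact measurable_measure_prodMk_left h2

theorem gq_meas {m : Measure S} [SigmaFinite m] {C : S → S → Prop}
    (hC : MeasurableSet {p : S × S | C p.1 p.2}) (v w : S) : Measurable (gq m C v w) :=
  ((meas_q hC w).ennreal_toReal).indicator (meas_sec hC v)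

theorem Y_diff {m : Measure S} {C : S → S → Prop} {L : Set S} {b κ lam : ℝ}
    (hg : Geo m C L b κ) (hl : 0 ≤ lam) (v w : S)
    (hm : ∀ K : S → Prop, ∀ ω, MeasurableSet {x | K x} → MeasurableSet (Tk C L K w ω)) (ω : Om S) :
    |Yk m C lam L (Al S) w ω - Yk m C lam L (fun p => ¬ C v p) w ω| ≤
      ∑ i, lam * gq m C v w (ω.2 i) := by
  have hKA : MeasurableSet {x : S | Al S x} := by simp [Al]
  have hKv : MeasurableSet {x : S | ¬ C v x} := (meas_sec hg.meas v).compl
  set A := Tk C L (Al S) w ω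
  set B := Tk C L (fun p => ¬ C v p) w ω
  have hAB : A ⊆ B := by
    intro z hz
    exact ⟨hz.1, hz.2.1, fun i _ hn => hz.2.2 i trivial hn⟩
  have hfin : ∀ u, m {z | C u z} ≠ ⊤ := fun u => ne_top_of_le_ne_top ENNReal.ofReal_ne_top (hg.ball u)
  have hBfin : m B ≠ ⊤ :=
    ne_top_of_le_ne_top (hfin w) (measure_mono fun z hz => hz.2.1)
  have hAfin : m A ≠ ⊤ := ne_top_of_le_ne_top hBfin (measure_mono hAB)
  -- the difference
  have hcov : B ⊆ A ∪ ⋃ i ∈ {i : Fin ω.1 | C v (ω.2 i)}, {z | C (ω.2 i) z ∧ C w z} := by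
    intro z hz
    by_cases h : z ∈ A
    · exact Or.inl h
    · right
      simp only [A, Tk, Set.mem_ofPred_eq, not_and, not_forall, not_not] at h
      obtain ⟨i, _, hn, hc⟩ := h hz.1 hz.2.1
      simp only [Set.mem_iUnion, Set.mem_ofPred_eq]
      refine ⟨i, ?_, hg.symm _ _ hc, hz.2.1⟩
      by_contra h1
      exact hz.2.2 i h1 hn hc
  have hle : (m B).toReal ≤ (m A).toReal + ∑ i, gq m C v w (ω.2 i) := by
    have h1 : m B ≤ m A + ∑ i, ENNReal.ofReal (gq m C v w (ω.2 i)) := by
      refine (measure_mono hcov).trans ((measure_union_le _ _).trans ?_)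
      gcongr
      have h2 : (⋃ i ∈ {i : Fin ω.1 | C v (ω.2 i)}, {z | C (ω.2 i) z ∧ C w z}) ⊆
          ⋃ i ∈ (Finset.univ : Finset (Fin ω.1)), {z | C v (ω.2 i) ∧ C (ω.2 i) z ∧ C w z} := by
        intro z hz
        simp only [Set.mem_iUnion, Set.mem_ofPred_eq, Finset.mem_univ, exists_prop, true_and] at hz ⊢
        obtain ⟨i, h3, h4⟩ := hz
        exact ⟨i, h3, h4⟩
      refine (measure_mono h2).trans ((measure_biUnion_finset_le _ _).trans ?_)
      refine Finset.sum_le_sum fun i _ => ?_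
      by_cases h3 : C v (ω.2 i)
      · have e : gq m C v w (ω.2 i) = (m {z | C (ω.2 i) z ∧ C w z}).toReal :=
          Set.indicator_of_mem (show ω.2 i ∈ {p | C v p} from h3) _
        rw [e, ENNReal.ofReal_toReal]
        · exact measure_mono fun z hz => hz.2
        · exact ne_top_of_le_ne_top (hfin w) (measure_mono fun z hz => hz.2)
      · have e : {z | C v (ω.2 i) ∧ C (ω.2 i) z ∧ C w z} = ∅ := by
          ext z; simp [h3]
        rw [e]; simp
    have h4 : m A + ∑ i, ENNReal.ofReal (gq m C v w (ω.2 i)) ≠ ⊤ :=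
      ENNReal.add_ne_top.2 ⟨hAfin, (ENNReal.sum_ne_top).2 fun i _ => ENNReal.ofReal_ne_top⟩
    have h5 := ENNReal.toReal_mono h4 h1
    rw [ENNReal.toReal_add hAfin ((ENNReal.sum_ne_top).2 fun i _ => ENNReal.ofReal_ne_top),
      ENNReal.toReal_sum (fun i _ => ENNReal.ofReal_ne_top)] at h5
    simpa [ENNReal.toReal_ofReal (gq_nonneg m C v w _)] using h5
  have hle2 : (m A).toReal ≤ (m B).toReal := ENNReal.toReal_mono hBfin (measure_mono hAB)
  have e1 : Yk m C lam L (Al S) w ω = lam * (m A).toReal := rfl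
  have e2 : Yk m C lam L (fun p => ¬ C v p) w ω = lam * (m B).toReal := rfl
  rw [e1, e2, ← Finset.mul_sum, ← mul_sub, abs_mul, abs_of_nonneg hl]
  refine mul_le_mul_of_nonneg_left ?_ hl
  rw [abs_le]
  constructor
  · linarith
  · linarith [Finset.sum_nonneg fun i (_ : i ∈ Finset.univ) => gq_nonneg m C v w (ω.2 i)]

theorem exp_diff {x y : ℝ} (hx : 0 ≤ x) (hy : 0 ≤ y) :
    |Real.exp (-x) - Real.exp (-y)| ≤ |x - y| := by
  wlog h : x ≤ y generalizing x y
  · rw [abs_sub_comm, abs_sub_comm x y]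
    exact this hy hx (le_of_not_ge h)
  have h1 : Real.exp (-y) ≤ Real.exp (-x) := Real.exp_le_exp.2 (by linarith)
  rw [abs_of_nonneg (by linarith), abs_of_nonpos (by linarith)]
  have h2 : 1 - (y - x) ≤ Real.exp (-(y - x)) := by
    have := Real.add_one_le_exp (-(y - x)); linarith
  have h3 : Real.exp (-y) = Real.exp (-x) * Real.exp (-(y - x)) := by
    rw [← Real.exp_add]; ring_nf
  have h4 : Real.exp (-x) ≤ 1 := Real.exp_le_one_iff.2 (by linarith)
  have h5 := Real.exp_pos (-x)
  have h6 : Real.exp (-x) * (1 - (y - x)) ≤ Real.exp (-x) * Real.exp (-(y - x)) :=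
    mul_le_mul_of_nonneg_left h2 h5.le
  rw [h3]
  nlinarith

end Corr16

open Corr16 in
theorem corr_of (hB : BAS) (hM : MEAS) (hI : INT) (hD : DCOND) : CORR := by
  intro S _ m _ C L b κ lam hg hl hk v w
  have hfin : ∀ u, m {z | C u z} ≠ ⊤ := fun u => ne_top_of_le_ne_top ENNReal.ofReal_ne_top (hg.ball u)
  obtain ⟨-, -, hGf, hX1, -, -⟩ := hB S m C L lam hg.meas hg.measL hg.fin hl
  haveI := hGf
  obtain ⟨hMK, -⟩ := hM S m C L lam hg.meas hg.measL hg.fin hl
  have hKA : MeasurableSet {x : S | Al S x} := by simp [Al]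
  have hKv : MeasurableSet {x : S | ¬ C v x} := (meas_sec hg.meas v).compl
  obtain ⟨-, -, mD, mT, sD⟩ := hMK (Al S) hKA
  obtain ⟨-, -, mD', mT', sD'⟩ := hMK (fun p => ¬ C v p) hKv
  have hX : 0 < Xi m C lam L := lt_of_lt_of_le one_pos hX1
  set G := gib m C lam L with hGdef
  -- the functions
  set Dv := fun ω => Dk m C lam L (Al S) v ω with hDv
  set Dw := fun ω => Dk m C lam L (Al S) w ω with hDw
  set Dw' := fun ω => Dk m C lam L (fun p => ¬ C v p) w ω with hDw'
  have mDv : Measurable Dv := mD.comp (measurable_prodMk_left (x := v))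
  have mDw : Measurable Dw := mD.comp (measurable_prodMk_left (x := w))
  have mDw' : Measurable Dw' := mD'.comp (measurable_prodMk_left (x := w))
  have bDv : ∀ ω, |Dv ω| ≤ 1 := fun ω => abs_Dk_le m C hl L _ v ω
  have bDw : ∀ ω, |Dw ω| ≤ 1 := fun ω => abs_Dk_le m C hl L _ w ω
  have bDw' : ∀ ω, |Dw' ω| ≤ 1 := fun ω => abs_Dk_le m C hl L _ w ω
  -- first term
  have h1 : |ex m C lam L (fun ω => Dv ω * Dw' ω)| ≤ lam * b * κ := by
    refine hD S m C L b κ lam hg hl hk v Dw' mDw' (sD' w).2.2 bDw' ?_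
    intro ω η hη
    exact Dk_app m lam (fun j h => h (hη j))
  -- the bounding sums
  set g1 : S → ℝ := Set.indicator {p | C v p ∧ C w p} (fun _ => (1 : ℝ)) with hg1
  set g2 : S → ℝ := gq m C v w with hg2
  have mset1 : MeasurableSet {p | C v p ∧ C w p} :=
    (meas_sec hg.meas v).inter (meas_sec hg.meas w)
  have mg1 : Measurable g1 := measurable_const.indicator mset1
  have mg2 : Measurable g2 := gq_meas hg.meas v w
  have hbd2 : ∀ p, (m {z | C p z ∧ C w z}).toReal ≤ b := by
    intro p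
    have : m {z | C p z ∧ C w z} ≤ ENNReal.ofReal b :=
      (measure_mono fun z hz => hz.2).trans (hg.ball w)
    exact (ENNReal.toReal_mono ENNReal.ofReal_ne_top this).trans
      (le_of_eq (ENNReal.toReal_ofReal hg.b_pos.le))
  obtain ⟨hI0, -⟩ := hI S m C L b κ lam hg hl
  obtain ⟨i1, e1⟩ := hI0 g1 mg1 (fun x => Set.indicator_nonneg (fun _ _ => zero_le_one) _)
    ⟨1, fun x => by
      rw [hg1]
      by_cases hx : x ∈ {p | C v p ∧ C w p}
      · rw [Set.indicator_of_mem hx]
      · rw [Set.indicator_of_notMem hx]; exact zero_le_one⟩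
  obtain ⟨i2, e2⟩ := hI0 g2 mg2 (gq_nonneg m C v w)
    ⟨b, fun x => by
      rw [hg2]; unfold gq
      by_cases hx : x ∈ {p | C v p}
      · rw [Set.indicator_of_mem hx]; exact hbd2 x
      · rw [Set.indicator_of_notMem hx]; exact hg.b_pos.le⟩
  -- pointwise
  have hpt : ∀ ω, Dv ω * Dw ω ≤ Dv ω * Dw' ω + (∑ i, g1 (ω.2 i) + lam * ∑ i, g2 (ω.2 i)) := by
    intro ω
    have a1 : |Dw ω - Dw' ω| ≤ ∑ i, g1 (ω.2 i) + lam * ∑ i, g2 (ω.2 i) := by
      have b1 := chi_diff C v w ω
      have b2 := Y_diff hg hl v w (fun K ω hK => (hMK K hK).2.2.2.1 w ω) ω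
      have b3 := exp_diff (Yk_nonneg m C hl L (Al S) w ω) (Yk_nonneg m C hl L (fun p => ¬ C v p) w ω)
      have b4 : Dw ω - Dw' ω = (chi C (Al S) w ω - chi C (fun p => ¬ C v p) w ω) -
          (Real.exp (-Yk m C lam L (Al S) w ω) -
            Real.exp (-Yk m C lam L (fun p => ¬ C v p) w ω)) := by
        simp only [hDw, hDw', Dk]; ring
      rw [b4]
      refine (abs_sub _ _).trans (add_le_add b1 ?_)
      rw [Finset.mul_sum]
      exact b3.trans b2
    have a2 : Dv ω * (Dw ω - Dw' ω) ≤ |Dw ω - Dw' ω| := by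
      calc Dv ω * (Dw ω - Dw' ω) ≤ |Dv ω * (Dw ω - Dw' ω)| := le_abs_self _
        _ = |Dv ω| * |Dw ω - Dw' ω| := abs_mul _ _
        _ ≤ 1 * |Dw ω - Dw' ω| := mul_le_mul_of_nonneg_right (bDv ω) (abs_nonneg _)
        _ = _ := one_mul _
    linarith
  -- integrability
  have iD : Integrable (fun ω => Dv ω * Dw ω) G :=
    Integrable.of_bound (mDv.mul mDw).aestronglyMeasurable 1
      (Eventually.of_forall fun ω => by
        rw [Real.norm_eq_abs, abs_mul]
        exact mul_le_one₀ (bDv ω) (abs_nonneg _) (bDw ω))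
  have iD' : Integrable (fun ω => Dv ω * Dw' ω) G :=
    Integrable.of_bound (mDv.mul mDw').aestronglyMeasurable 1
      (Eventually.of_forall fun ω => by
        rw [Real.norm_eq_abs, abs_mul]
        exact mul_le_one₀ (bDv ω) (abs_nonneg _) (bDw' ω))
  have h2 : ex m C lam L (fun ω => Dv ω * Dw ω) ≤ ex m C lam L (fun ω => Dv ω * Dw' ω) +
      (ex m C lam L (fun ω => ∑ i, g1 (ω.2 i)) + lam * ex m C lam L (fun ω => ∑ i, g2 (ω.2 i))) := by
    unfold ex
    rw [← mul_div_assoc, ← add_div, ← add_div]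
    refine div_le_div_of_nonneg_right ?_ hX.le
    have i12 : Integrable (fun ω => ∑ i, g1 (ω.2 i) + lam * ∑ i, g2 (ω.2 i)) G :=
      i1.add (i2.const_mul lam)
    have key : ∫ ω, Dv ω * Dw ω ∂G ≤
        ∫ ω, (Dv ω * Dw' ω + (∑ i, g1 (ω.2 i) + lam * ∑ i, g2 (ω.2 i))) ∂G :=
      integral_mono iD (iD'.add i12) hpt
    rw [integral_add iD' i12, integral_add i1 (i2.const_mul lam), integral_const_mul] at key
    exact key
  -- the integrals
  have f1 : ∫ x in L, g1 x ∂m ≤ (m {z | C v z ∧ C w z}).toReal := by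
    rw [hg1, integral_indicator mset1, setIntegral_const, smul_eq_mul, mul_one]
    rw [measureReal_def]
    refine ENNReal.toReal_mono (ne_top_of_le_ne_top (hfin v) (measure_mono fun z hz => hz.1)) ?_
    exact Measure.restrict_apply_le _ _
  have f2 : ∫ x in L, g2 x ∂m ≤ (∫⁻ p in {p | C v p}, m {z | C p z ∧ C w z} ∂m).toReal := by
    have hq := meas_q (m := m) hg.meas w
    have hlt : ∫⁻ p in {p | C v p}, m {z | C p z ∧ C w z} ∂m ≠ ⊤ := by
      have : ∫⁻ p in {p | C v p}, m {z | C p z ∧ C w z} ∂m ≤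
          ∫⁻ p in {p | C v p}, ENNReal.ofReal b ∂m :=
        lintegral_mono fun p => (measure_mono fun z hz => hz.2).trans (hg.ball w)
      refine ne_top_of_le_ne_top ?_ this
      rw [setLIntegral_const]
      exact ENNReal.mul_ne_top ENNReal.ofReal_ne_top (hfin v)
    rw [hg2]
    unfold gq
    rw [integral_indicator (meas_sec hg.meas v), integral_toReal hq.aemeasurable]
    · refine ENNReal.toReal_mono hlt ?_
      refine lintegral_mono' ?_ le_rfl
      rw [Measure.restrict_restrict (meas_sec hg.meas v)]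
      exact Measure.restrict_mono Set.inter_subset_left le_rfl
    · exact Eventually.of_forall fun p => lt_of_le_of_lt
        ((measure_mono fun z hz => hz.2).trans (hg.ball w)) ENNReal.ofReal_lt_top
  have h3 : ex m C lam L (fun ω => Dv ω * Dw' ω) ≤ lam * b * κ := (le_abs_self _).trans h1
  calc ex m C lam L (fun ω => Dv ω * Dw ω) ≤ _ := h2
    _ ≤ lam * b * κ + (lam * ∫ x in L, g1 x ∂m + lam * (lam * ∫ x in L, g2 x ∂m)) := by
        refine add_le_add h3 (add_le_add e1 (mul_le_mul_of_nonneg_left e2 hl))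
    _ ≤ lam * b * κ + (lam * (m {z | C v z ∧ C w z}).toReal +
        lam * (lam * (∫⁻ p in {p | C v p}, m {z | C p z ∧ C w z} ∂m).toReal)) := by
        gcongr
    _ = _ := by ring

end Pool.Agent.HdGas
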