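import Pool.Agent.Lib.MF.Defs

/-!
# Hard-core gases on a measure space: the rows of the proof
-/

set_option autoImplicit false

namespace Pool.Agent.HdGas

open MeasureTheory Filter Topology

/-- Configurations in a disjoint union. -/
def SPLIT : Prop := ∀ (S : Type) [MeasurableSpace S] (m : Measure S) [SigmaFinite m] (lam : ℝ),
  0 ≤ lam → ∀ A B : Set S, MeasurableSet A → MeasurableSet B → Disjoint A B →
  ∀ F : Om S → ENNReal, Measurable F → Sym F →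
    ∫⁻ ω, F ω ∂pois m lam (A ∪ B) = ∫⁻ ω, ∫⁻ η, F (app ω η) ∂pois m lam B ∂pois m lam A

/-- Mecke formula. -/
def MECKE : Prop := ∀ (S : Type) [MeasurableSpace S] (m : Measure S) [SigmaFinite m] (lam : ℝ),
  0 ≤ lam → ∀ L : Set S, MeasurableSet L → ∀ F : Om S → ENNReal, Measurable F → Sym F →
  ∀ g : S → ENNReal, Measurable g →
    ∫⁻ ω, F ω * ∑ i, g (ω.2 i) ∂pois m lam L =
      ENNReal.ofReal lam * ∫⁻ p in L, g p * ∫⁻ ω, F (ins p ω) ∂pois m lam L ∂m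

/-- Basic facts: the gas is a finite measure, `Ξ ≥ 1`, `Ξ` as a series. -/
def BAS : Prop := ∀ (S : Type) [MeasurableSpace S] (m : Measure S) [SigmaFinite m]
  (C : S → S → Prop) (L : Set S) (lam : ℝ), MeasurableSet {p : S × S | C p.1 p.2} →
  MeasurableSet L → m L ≠ ⊤ → 0 ≤ lam →
    MeasurableSet {ω : Om S | hc C ω} ∧ IsFiniteMeasure (pois m lam L) ∧
    IsFiniteMeasure (gib m C lam L) ∧ 1 ≤ Xi m C lam L ∧
    Xi m C lam L ≤ Real.exp (lam * (m L).toReal) ∧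
    HasSum (fun n : ℕ => lam ^ n / n.factorial * ((Measure.pi fun _ : Fin n => m.restrict L)
      {x | hc C ⟨n, x⟩}).toReal) (Xi m C lam L)

/-- Measurability. -/
def MEAS : Prop := ∀ (S : Type) [MeasurableSpace S] (m : Measure S) [SigmaFinite m]
  (C : S → S → Prop) (L : Set S) (lam : ℝ), MeasurableSet {p : S × S | C p.1 p.2} →
  MeasurableSet L → m L ≠ ⊤ → 0 ≤ lam →
    (∀ K : S → Prop, MeasurableSet {x | K x} →
      (Measurable fun q : S × Om S => chi C K q.1 q.2) ∧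
      (Measurable fun q : S × Om S => Yk m C lam L K q.1 q.2) ∧
      (Measurable fun q : S × Om S => Dk m C lam L K q.1 q.2) ∧
      (∀ v ω, MeasurableSet (Tk C L K v ω)) ∧
      ∀ v, Sym (chi C K v) ∧ Sym (Yk m C lam L K v) ∧ Sym (Dk m C lam L K v)) ∧
    ∀ v, Measurable fun ω => Xi m C lam (Tk C L (Al S) v ω)

/-- Intensities. -/
def INT : Prop := ∀ (S : Type) [MeasurableSpace S] (m : Measure S) [SigmaFinite m]
  (C : S → S → Prop) (L : Set S) (b κ lam : ℝ), Geo m C L b κ → 0 ≤ lam →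
    (∀ g : S → ℝ, Measurable g → (∀ x, 0 ≤ g x) → (∃ M, ∀ x, g x ≤ M) →
      Integrable (fun ω => ∑ i, g (ω.2 i)) (gib m C lam L) ∧
      ex m C lam L (fun ω => ∑ i, g (ω.2 i)) ≤ lam * ∫ x in L, g x ∂m) ∧
    ex m C lam L (fun ω => (ω.1 : ℝ)) = lam * ∫ v in L, ex m C lam L (chi C (Al S) v) ∂m

/-- The gas inside one excluded region is nearly ideal. -/
def IDEAL : Prop := ∀ (S : Type) [MeasurableSpace S] (m : Measure S) [SigmaFinite m]
  (C : S → S → Prop) (L : Set S) (b κ lam : ℝ), Geo m C L b κ → 0 ≤ lam →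
  ∀ (u : S) (T : Set S), MeasurableSet T → T ⊆ {z | C u z} →
    Real.exp (lam * (m T).toReal) * (1 - lam * (m T).toReal * (lam * b * κ)) ≤ Xi m C lam T ∧
    Xi m C lam T ≤ Real.exp (lam * (m T).toReal)

/-- Markov property. -/
def MARKOV : Prop := ∀ (S : Type) [MeasurableSpace S] (m : Measure S) [SigmaFinite m]
  (C : S → S → Prop) (L : Set S) (b κ lam : ℝ), Geo m C L b κ → 0 ≤ lam →
  ∀ (v : S) (h : Om S → ℝ), Measurable h → Sym h → (∃ M, ∀ ω, |h ω| ≤ M) →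
    (∀ ω η, (∀ j, C v (η.2 j)) → h (app ω η) = h ω) →
    ex m C lam L (fun ω => chi C (Al S) v ω * h ω) =
      ex m C lam L (fun ω => h ω / Xi m C lam (Tk C L (Al S) v ω))

/-- The free indicator and `exp (-Y)` have nearly the same expectation given the outside. -/
def DCOND : Prop := ∀ (S : Type) [MeasurableSpace S] (m : Measure S) [SigmaFinite m]
  (C : S → S → Prop) (L : Set S) (b κ lam : ℝ), Geo m C L b κ → 0 ≤ lam →
  (lam * b) ^ 2 * κ ≤ 1 / 2 →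
  ∀ (v : S) (h : Om S → ℝ), Measurable h → Sym h → (∀ ω, |h ω| ≤ 1) →
    (∀ ω η, (∀ j, C v (η.2 j)) → h (app ω η) = h ω) →
    |ex m C lam L (fun ω => Dk m C lam L (Al S) v ω * h ω)| ≤ lam * b * κ

/-- `Y` and the free volume. -/
def YCHI : Prop := ∀ (S : Type) [MeasurableSpace S] (m : Measure S) [SigmaFinite m]
  (C : S → S → Prop) (L : Set S) (b κ lam : ℝ), Geo m C L b κ → 0 ≤ lam →
  ∀ u : S, (∀ ω, 0 ≤ Yk m C lam L (Al S) u ω -
      lam * ∫ v in {v | v ∈ L ∧ C u v}, chi C (Al S) v ω ∂m ∧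
    Yk m C lam L (Al S) u ω - lam * ∫ v in {v | v ∈ L ∧ C u v}, chi C (Al S) v ω ∂m ≤ lam * b) ∧
    ex m C lam L (fun ω => Yk m C lam L (Al S) u ω -
      lam * ∫ v in {v | v ∈ L ∧ C u v}, chi C (Al S) v ω ∂m) ≤ 2 * (lam * b) ^ 2 * κ

/-- Geometry of three and four sets. -/
def AVG : Prop := ∀ (S : Type) [MeasurableSpace S] (m : Measure S) [SigmaFinite m]
  (C : S → S → Prop) (L : Set S) (b κ : ℝ), Geo m C L b κ → ∀ u : S,
    (∫⁻ v in {v | C u v}, ∫⁻ w in {w | C u w}, m {z | C v z ∧ C w z} ∂m ∂m ≤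
      ENNReal.ofReal (3 * κ * b ^ 3)) ∧
    ∫⁻ v in {v | C u v}, ∫⁻ w in {w | C u w},
      (∫⁻ p in {p | C v p}, m {z | C p z ∧ C w z} ∂m) ∂m ∂m ≤ ENNReal.ofReal (4 * κ * b ^ 4)

/-- Correlations of `D`. -/
def CORR : Prop := ∀ (S : Type) [MeasurableSpace S] (m : Measure S) [SigmaFinite m]
  (C : S → S → Prop) (L : Set S) (b κ lam : ℝ), Geo m C L b κ → 0 ≤ lam →
  (lam * b) ^ 2 * κ ≤ 1 / 2 → ∀ v w : S,
    ex m C lam L (fun ω => Dk m C lam L (Al S) v ω * Dk m C lam L (Al S) w ω) ≤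
      lam * b * κ + lam * (m {z | C v z ∧ C w z}).toReal +
        lam ^ 2 * (∫⁻ p in {p | C v p}, m {z | C p z ∧ C w z} ∂m).toReal

/-- Law of large numbers. -/
def LLN : Prop := ∀ (S : Type) [MeasurableSpace S] (m : Measure S) [SigmaFinite m]
  (C : S → S → Prop) (L : Set S) (b κ lam : ℝ), Geo m C L b κ → 0 ≤ lam →
  (lam * b) ^ 2 * κ ≤ 1 / 2 → ∀ u : S,
    ex m C lam L (fun ω => (∫ v in {v | v ∈ L ∧ C u v}, Dk m C lam L (Al S) v ω ∂m) ^ 2) ≤
      4 * (lam * b) * (1 + lam * b) * κ * b ^ 2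

/-- The self-consistency equation. -/
def SELF : Prop := ∀ (S : Type) [MeasurableSpace S] (m : Measure S) [SigmaFinite m]
  (C : S → S → Prop) (L : Set S) (b κ lam : ℝ), Geo m C L b κ → 0 ≤ lam →
  (lam * b) ^ 2 * κ ≤ 1 / 2 → ∀ u : S,
    ex m C lam L (fun ω => (Yk m C lam L (Al S) u ω -
      lam * ∫ v in {v | v ∈ L ∧ C u v}, Real.exp (-Yk m C lam L (Al S) v ω) ∂m) ^ 2) ≤
      12 * (lam * b) ^ 3 * (1 + lam * b) * κ

/-- Total mass missing at the boundary. -/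
noncomputable def Bd {S : Type} [MeasurableSpace S] (m : Measure S) (C : S → S → Prop) (L : Set S)
    (b c : ℝ) : ℝ := ∫ u in L, c * (1 - (m {z | z ∈ L ∧ C u z}).toReal / b) ∂m

/-- Uniqueness by convexity. -/
def CONV : Prop := ∀ (S : Type) [MeasurableSpace S] (m : Measure S) [SigmaFinite m]
  (C : S → S → Prop) (L : Set S) (b κ ε lam c : ℝ), Geo m C L b κ → Posi m C L b ε → 0 ≤ lam →
  (lam * b) ^ 2 * κ ≤ 1 / 2 → lam * b * ε ≤ 1 / 2 → 0 ≤ ε → 0 ≤ c → c * Real.exp c = lam * b →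
    ex m C lam L (fun ω => ∫ u in L,
      (Real.exp (-Yk m C lam L (Al S) u ω) - Real.exp (-c)) ^ 2 ∂m) ≤
      (2 * √(12 * (lam * b) ^ 3 * (1 + lam * b) * κ) * √(m L).toReal + √(2 * Bd m C L b c)) ^ 2

/-- The mean number of points. -/
def GAS : Prop := ∀ (S : Type) [MeasurableSpace S] (m : Measure S) [SigmaFinite m]
  (C : S → S → Prop) (L : Set S) (b κ ε lam c : ℝ), Geo m C L b κ → Posi m C L b ε → 0 ≤ lam →
  (lam * b) ^ 2 * κ ≤ 1 / 2 → lam * b * ε ≤ 1 / 2 → 0 ≤ ε → 0 ≤ c → c * Real.exp c = lam * b →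
    |b * ex m C lam L (fun ω => (ω.1 : ℝ)) - c * (m L).toReal| ≤
      lam * b * (√(m L).toReal * (2 * √(12 * (lam * b) ^ 3 * (1 + lam * b) * κ) *
        √(m L).toReal + √(2 * Bd m C L b c)) + lam * b * κ * (m L).toReal)

/-- Jensen: the mean number of points is a slope of `log Ξ (e^μ)`. -/
def JEN : Prop := ∀ (S : Type) [MeasurableSpace S] (m : Measure S) [SigmaFinite m]
  (C : S → S → Prop) (L : Set S), MeasurableSet {p : S × S | C p.1 p.2} →
  MeasurableSet L → m L ≠ ⊤ → ∀ μ h : ℝ,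
    h * ex m C (Real.exp μ) L (fun ω => (ω.1 : ℝ)) ≤
      Real.log (Xi m C (Real.exp (μ + h)) L) - Real.log (Xi m C (Real.exp μ) L)

end Pool.Agent.HdGas
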