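import Mathlib
import Pool.Agent.Lib.MF.Rows

/-! MF, row DCOND: the free indicator and `exp (-Y)` have nearly the same expectation given the
outside.  helper33. -/

set_option autoImplicit false

namespace Pool.Agent.HdGas

open MeasureTheory

namespace Dc

/-- `0 ≤ 1/Ξ - e^{-Y} ≤ θ` -/
lemma numer {Y θ X : ℝ} (hY : 0 ≤ Y) (hθ : 0 ≤ θ) (h1 : Y * θ ≤ 1 / 2)
    (hlo : Real.exp Y * (1 - Y * θ) ≤ X) (hhi : X ≤ Real.exp Y) :
    |1 / X - Real.exp (-Y)| ≤ θ := by
  have he := Real.exp_pos Y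
  have hX : 0 < X := lt_of_lt_of_le (mul_pos he (by linarith)) hlo
  have e1 : Real.exp (-Y) = 1 / Real.exp Y := by rw [Real.exp_neg, one_div]
  have h0 : 0 ≤ 1 / X - Real.exp (-Y) := by
    rw [e1, sub_nonneg]
    exact one_div_le_one_div_of_le hX hhi
  rw [abs_of_nonneg h0]
  have h2 : 1 / X ≤ 1 / (Real.exp Y * (1 - Y * θ)) :=
    one_div_le_one_div_of_le (mul_pos he (by linarith)) hlo
  have h3 : 1 / (Real.exp Y * (1 - Y * θ)) - 1 / Real.exp Y =
      (1 / Real.exp Y) * (Y * θ / (1 - Y * θ)) := by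
    have : 1 - Y * θ ≠ 0 := by linarith
    field_simp
    ring
  have h4 : Y * θ / (1 - Y * θ) ≤ 2 * (Y * θ) := by
    rw [div_le_iff₀ (by linarith)]
    nlinarith [mul_nonneg hY hθ]
  have h5 : 2 * Y ≤ Real.exp Y := by
    have h7 := Real.add_one_le_exp (Y - 1)
    have h8 : Real.exp Y = Real.exp 1 * Real.exp (Y - 1) := by
      rw [← Real.exp_add]; ring_nf
    have h9 : (2 : ℝ) ≤ Real.exp 1 := by
      have := Real.add_one_le_exp 1
      linarith
    rw [h8]
    nlinarith
  have h6 : (1 / Real.exp Y) * (2 * (Y * θ)) ≤ θ := by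
    rw [one_div, inv_mul_le_iff₀ he]
    nlinarith
  have h10 : (1 / Real.exp Y) * (Y * θ / (1 - Y * θ)) ≤ (1 / Real.exp Y) * (2 * (Y * θ)) :=
    mul_le_mul_of_nonneg_left h4 (by positivity)
  rw [e1]
  linarith

end Dc

open Dc in
theorem dcond_of (hmk : MARKOV) (hid : IDEAL) (hmeas : MEAS) (hbas : BAS) : DCOND := by
  intro S _ m _ C L b κ lam hG hlam hsm v h hh hhs hh1 hhl
  have hb := hG.b_pos
  have hκ := hG.kap_pos
  obtain ⟨-, -, hfin, hXi1, -, -⟩ := hbas S m C L lam hG.meas hG.measL hG.fin hlam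
  obtain ⟨hM1, hM2⟩ := hmeas S m C L lam hG.meas hG.measL hG.fin hlam
  obtain ⟨hchi, hY, hD, hTk, -⟩ := hM1 (Al S) (by
    have : {x : S | Al S x} = Set.univ := by ext; simp [Al]
    rw [this]; exact MeasurableSet.univ)
  have hpair : Measurable fun ω : Om S => (v, ω) := measurable_const.prodMk measurable_id
  have hchi' : Measurable fun ω => chi C (Al S) v ω := hchi.comp hpair
  have hY' : Measurable fun ω => Yk m C lam L (Al S) v ω := hY.comp hpair
  have hX' := hM2 v
  have hsub : ∀ ω, Tk C L (Al S) v ω ⊆ {z | C v z} := fun ω z hz => hz.2.1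
  have hle : ∀ ω, (m (Tk C L (Al S) v ω)).toReal ≤ b := by
    intro ω
    have h1 := (measure_mono (hsub ω)).trans (hG.ball v)
    have h2 := ENNReal.toReal_mono ENNReal.ofReal_ne_top h1
    rwa [ENNReal.toReal_ofReal hb.le] at h2
  have hkey : ∀ ω, |1 / Xi m C lam (Tk C L (Al S) v ω) -
      Real.exp (-Yk m C lam L (Al S) v ω)| ≤ lam * b * κ := by
    intro ω
    obtain ⟨h1, h2⟩ := hid S m C L b κ lam hG hlam v (Tk C L (Al S) v ω) (hTk v ω) (hsub ω)
    refine numer (mul_nonneg hlam ENNReal.toReal_nonneg) (by positivity) ?_ h1 h2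
    calc Yk m C lam L (Al S) v ω * (lam * b * κ)
        ≤ (lam * b) * (lam * b * κ) :=
          mul_le_mul_of_nonneg_right (mul_le_mul_of_nonneg_left (hle ω) hlam) (by positivity)
      _ = (lam * b) ^ 2 * κ := by ring
      _ ≤ 1 / 2 := hsm
  have hXpos : ∀ ω, 1 ≤ Xi m C lam (Tk C L (Al S) v ω) := by
    intro ω
    have hne : m (Tk C L (Al S) v ω) ≠ ⊤ :=
      (((measure_mono (hsub ω)).trans (hG.ball v)).trans_lt ENNReal.ofReal_lt_top).ne
    exact (hbas S m C _ lam hG.meas (hTk v ω) hne hlam).2.2.2.1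
  have hYpos : ∀ ω, 0 ≤ Yk m C lam L (Al S) v ω := fun ω =>
    mul_nonneg hlam ENNReal.toReal_nonneg
  have hbd : ∀ {f : Om S → ℝ} {M : ℝ}, Measurable f → (∀ ω, |f ω| ≤ M) →
      Integrable f (gib m C lam L) := by
    intro f M hf hM
    exact Integrable.of_bound hf.aestronglyMeasurable M (Filter.Eventually.of_forall hM)
  have hi1 : Integrable (fun ω => chi C (Al S) v ω * h ω) (gib m C lam L) := by
    refine hbd (M := 1) (hchi'.mul hh) fun ω => ?_
    rw [abs_mul]
    have : |chi C (Al S) v ω| ≤ 1 := by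
      unfold chi
      split_ifs <;> simp
    calc _ ≤ 1 * 1 := mul_le_mul this (hh1 ω) (abs_nonneg _) zero_le_one
      _ = 1 := by ring
  have hi2 : Integrable (fun ω => Real.exp (-Yk m C lam L (Al S) v ω) * h ω)
      (gib m C lam L) := by
    refine hbd (M := 1) (((hY'.neg).exp).mul hh) fun ω => ?_
    rw [abs_mul, Real.abs_exp]
    have : Real.exp (-Yk m C lam L (Al S) v ω) ≤ 1 := by
      rw [Real.exp_le_one_iff]
      linarith [hYpos ω]
    calc _ ≤ 1 * 1 := mul_le_mul this (hh1 ω) (abs_nonneg _) zero_le_one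
      _ = 1 := by ring
  have hi3 : Integrable (fun ω => h ω / Xi m C lam (Tk C L (Al S) v ω)) (gib m C lam L) := by
    refine hbd (M := 1) (hh.div hX') fun ω => ?_
    rw [abs_div, abs_of_nonneg (by linarith [hXpos ω] : 0 ≤ Xi m C lam (Tk C L (Al S) v ω)),
      div_le_one (by linarith [hXpos ω])]
    exact (hh1 ω).trans (hXpos ω)
  have e1 : ex m C lam L (fun ω => Dk m C lam L (Al S) v ω * h ω) =
      ex m C lam L (fun ω => (1 / Xi m C lam (Tk C L (Al S) v ω) -
        Real.exp (-Yk m C lam L (Al S) v ω)) * h ω) := by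
    have hm := hmk S m C L b κ lam hG hlam v h hh hhs ⟨1, hh1⟩ hhl
    unfold ex at hm ⊢
    have hX0 : Xi m C lam L ≠ 0 := by linarith
    rw [div_left_inj' hX0] at hm ⊢
    have e2 : (fun ω => Dk m C lam L (Al S) v ω * h ω) = fun ω => chi C (Al S) v ω * h ω -
        Real.exp (-Yk m C lam L (Al S) v ω) * h ω := by
      funext ω
      unfold Dk
      ring
    have e3 : (fun ω => (1 / Xi m C lam (Tk C L (Al S) v ω) -
        Real.exp (-Yk m C lam L (Al S) v ω)) * h ω) = fun ω =>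
        h ω / Xi m C lam (Tk C L (Al S) v ω) - Real.exp (-Yk m C lam L (Al S) v ω) * h ω := by
      funext ω
      ring
    rw [e2, e3, integral_sub hi1 hi2, integral_sub hi3 hi2, hm]
  rw [e1]
  unfold ex
  have hX0 : 0 < Xi m C lam L := by linarith
  rw [abs_div, abs_of_pos hX0, div_le_iff₀ hX0]
  have hb1 : ∀ ω, ‖(1 / Xi m C lam (Tk C L (Al S) v ω) -
        Real.exp (-Yk m C lam L (Al S) v ω)) * h ω‖ ≤ lam * b * κ := by
    intro ω
    rw [Real.norm_eq_abs, abs_mul]
    calc _ ≤ lam * b * κ * 1 :=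
          mul_le_mul (hkey ω) (hh1 ω) (abs_nonneg _) (by positivity)
      _ = _ := by ring
  exact norm_integral_le_of_norm_le_const (Filter.Eventually.of_forall hb1)

end Pool.Agent.HdGas
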