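import Mathlib

/-!
# Hard-core gases on a measure space

`S` is a space of places with a measure `m`, `C x y` means that points at `x` and `y` exclude each
other. Configurations are finite families of points.
-/

set_option autoImplicit false

namespace Pool.Agent.HdGas

open MeasureTheory

noncomputable section

/-- Finite configurations: a number `n` and `n` points. -/
abbrev Om (S : Type) := Σ n : ℕ, (Fin n → S)

variable {S : Type} [MeasurableSpace S]

/-- Two configurations together. -/
def app (ω η : Om S) : Om S := ⟨ω.1 + η.1, Fin.append ω.2 η.2⟩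

/-- A configuration with one more point. -/
def ins (p : S) (ω : Om S) : Om S := ⟨ω.1 + 1, Fin.cons p ω.2⟩

/-- Functions which do not depend on the order of the points. -/
def Sym {α : Type} (F : Om S → α) : Prop :=
  ∀ (n : ℕ) (x : Fin n → S) (σ : Equiv.Perm (Fin n)), F ⟨n, x ∘ σ⟩ = F ⟨n, x⟩

/-- The a priori measure `∑ (λ^n / n!) m^n` on the configurations in `L`. -/
def pois (m : Measure S) (lam : ℝ) (L : Set S) : Measure (Om S) :=
  Measure.sum fun n : ℕ => ENNReal.ofReal (lam ^ n / n.factorial) •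
    (Measure.pi fun _ : Fin n => m.restrict L).map fun x => (⟨n, x⟩ : Om S)

/-- No two points exclude each other. -/
def hc (C : S → S → Prop) (ω : Om S) : Prop := ∀ i j, i ≠ j → ¬ C (ω.2 i) (ω.2 j)

/-- The gas (not normalised). -/
def gib (m : Measure S) (C : S → S → Prop) (lam : ℝ) (L : Set S) : Measure (Om S) :=
  (pois m lam L).restrict {ω | hc C ω}

/-- Partition function. -/
def Xi (m : Measure S) (C : S → S → Prop) (lam : ℝ) (L : Set S) : ℝ :=
  (gib m C lam L Set.univ).toReal

/-- Expectation. -/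
def ex (m : Measure S) (C : S → S → Prop) (lam : ℝ) (L : Set S) (f : Om S → ℝ) : ℝ :=
  (∫ ω, f ω ∂gib m C lam L) / Xi m C lam L

/-- The place `v` is free for the points which satisfy `K`. -/
def fr (C : S → S → Prop) (K : S → Prop) (v : S) (ω : Om S) : Prop :=
  ∀ i, K (ω.2 i) → ¬ C v (ω.2 i)

open Classical in
/-- Indicator of `fr`. -/
def chi (C : S → S → Prop) (K : S → Prop) (v : S) (ω : Om S) : ℝ := if fr C K v ω then 1 else 0

/-- The places in `L`, near `v`, which are free for the points satisfying `K` not near `v`. -/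
def Tk (C : S → S → Prop) (L : Set S) (K : S → Prop) (v : S) (ω : Om S) : Set S :=
  {z | z ∈ L ∧ C v z ∧ ∀ i, K (ω.2 i) → ¬ C v (ω.2 i) → ¬ C z (ω.2 i)}

/-- `λ` times the volume of `Tk`. -/
def Yk (m : Measure S) (C : S → S → Prop) (lam : ℝ) (L : Set S) (K : S → Prop) (v : S)
    (ω : Om S) : ℝ := lam * (m (Tk C L K v ω)).toReal

/-- `χ_v - exp (-Y_v)`. -/
def Dk (m : Measure S) (C : S → S → Prop) (lam : ℝ) (L : Set S) (K : S → Prop) (v : S)
    (ω : Om S) : ℝ := chi C K v ω - Real.exp (-Yk m C lam L K v ω)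

/-- No condition on the points. -/
def Al (S : Type) : S → Prop := fun _ => True

/-- Geometry of the exclusion relation: `b` is the volume of the places excluded by one point. -/
structure Geo (m : Measure S) (C : S → S → Prop) (L : Set S) (b κ : ℝ) : Prop where
  meas : MeasurableSet {p : S × S | C p.1 p.2}
  refl : ∀ x, C x x
  symm : ∀ x y, C x y → C y x
  measL : MeasurableSet L
  fin : m L ≠ ⊤
  b_pos : 0 < b
  kap_pos : 0 < κ
  kap_le : κ ≤ 1
  ball : ∀ u, m {z | C u z} ≤ ENNReal.ofReal b
  far : ∀ v w, ¬ C v w → m {z | C v z ∧ C w z} ≤ ENNReal.ofReal (κ * b)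
  pair : ∀ u (T : Set S), MeasurableSet T → T ⊆ {z | C u z} →
    (m.prod m) {p : S × S | p.1 ∈ T ∧ p.2 ∈ T ∧ C p.1 p.2} ≤ ENNReal.ofReal (2 * κ * b) * m T

/-- The exclusion relation is positive definite up to `ε`. -/
def Posi (m : Measure S) (C : S → S → Prop) (L : Set S) (b ε : ℝ) : Prop :=
  ∀ g : S → ℝ, Measurable g → (∀ x, |g x| ≤ 1) → (∀ x, x ∉ L → g x = 0) →
    -(ε * b * ∫ x, g x ^ 2 ∂m) ≤ ∫ x, g x * ∫ y in {y | C x y}, g y ∂m ∂m

end

end Pool.Agent.HdGas
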