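import Pool.Agent.Lib.MF.Geob

/-! # Project MF, row DENS: the density at a chemical potential.  helper26. -/

set_option autoImplicit false

namespace Pool.Agent.HdGas

open MeasureTheory Filter Topology Pool.Agent.SquareWellGas Pool.Agent.KacGas Pool.Agent.VdwGas

namespace DensR

theorem kap_pos (d : ℕ) : 0 < kap d := by
  unfold kap
  positivity

theorem exp_le (d : ℕ) : Real.exp (-(d : ℝ) / 8) ≤ √(kap d) := by
  refine Real.le_sqrt_of_sq_le ?_
  have h1 : Real.exp (-(d : ℝ) / 8) ^ 2 = Real.exp (-(1 / 4)) ^ d := by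
    rw [← Real.exp_nat_mul, ← Real.exp_nat_mul]
    congr 1
    push_cast
    ring
  rw [h1]
  unfold kap
  refine pow_le_pow_left₀ (Real.exp_pos _).le ?_ d
  have h2 : Real.exp (-(1 / 4)) ≤ 4 / 5 := by
    rw [Real.exp_neg, inv_le_comm₀ (Real.exp_pos _) (by norm_num)]
    have := Real.add_one_le_exp (1 / 4 : ℝ)
    linarith
  have h3 : (8 / 5 : ℝ) ≤ √3 := Real.le_sqrt_of_sq_le (by norm_num)
  linarith

theorem side {d : ℕ} {t : ℝ} (ht : 0 ≤ t) (h : (1 + t) ^ 3 * √(kap d) ≤ 1 / 8) :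
    t ^ 2 * kap d < 1 / 2 ∧ t * epd d < 1 / 2 := by
  have hq : 0 ≤ √(kap d) := Real.sqrt_nonneg _
  have h1 : t ≤ (1 + t) ^ 3 := by nlinarith [sq_nonneg t, mul_nonneg ht (sq_nonneg t)]
  have h2 : t * √(kap d) ≤ 1 / 8 := (mul_le_mul_of_nonneg_right h1 hq).trans h
  have h2' : 0 ≤ t * √(kap d) := by positivity
  constructor
  · have e : t ^ 2 * kap d = (t * √(kap d)) ^ 2 := by
      rw [mul_pow, Real.sq_sqrt (kap_pos d).le]
    rw [e]
    nlinarith
  · unfold epd
    have h3 : √2 ≤ 2 := by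
      rw [Real.sqrt_le_left (by norm_num)]
      norm_num
    have h4 : t * Real.exp (-(d : ℝ) / 8) ≤ 1 / 8 :=
      (mul_le_mul_of_nonneg_left (exp_le d) ht).trans h2
    have h5 : 0 ≤ t * Real.exp (-(d : ℝ) / 8) := by positivity
    calc t * (√2 * Real.exp (-(d : ℝ) / 8)) = √2 * (t * Real.exp (-(d : ℝ) / 8)) := by ring
      _ ≤ 2 * (1 / 8) := mul_le_mul h3 h4 h5 (by norm_num)
      _ < 1 / 2 := by norm_num

/-- `t` as a function of `c`. -/
noncomputable def tt (c : ℝ) : ℝ := c * Real.exp c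

theorem tt_cont : Continuous tt := by
  unfold tt
  fun_prop

theorem er_cont (d : ℕ) : Continuous (er d) := by
  unfold er
  fun_prop

theorem tt_strict {x y : ℝ} (hx : 0 < x) (h : x < y) : tt x < tt y := by
  unfold tt
  have := Real.exp_lt_exp.2 h
  have h1 := Real.exp_pos x
  nlinarith

theorem exists_mu {b c : ℝ} (hb : 0 < b) (hc : 0 < c) :
    tt c = Real.exp (Real.log (tt c / b)) * b := by
  have h : 0 < tt c := mul_pos hc (Real.exp_pos _)
  rw [Real.exp_log (by positivity)]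
  field_simp

variable {d : ℕ} {P : ℝ → ℝ} {μ c ρ : ℝ}

/-- the slope inequality from a neighbouring point. -/
theorem nbr (hS : SLOPE) (hd : 1 ≤ d) (hP : IsPr d P) (hρ : ∀ h, P μ + h * ρ ≤ P (μ + h))
    {c' : ℝ} (hc' : 0 < c') (h1 : tt c' ^ 2 * kap d ≤ 1 / 2) (h2 : tt c' * epd d ≤ 1 / 2) :
    (μ - Real.log (tt c' / bv d)) * c' -
      |μ - Real.log (tt c' / bv d)| * er d (tt c') ≤
      (μ - Real.log (tt c' / bv d)) * (ρ * bv d) := by
  set μ' := Real.log (tt c' / bv d) with hμ'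
  have hb : 0 < bv d := GeobR.bv_pos d
  have e : tt c' = Real.exp μ' * bv d := exists_mu hb hc'
  have h := hS d hd P hP μ' c' hc'.le e (e ▸ h1) (e ▸ h2) (μ - μ')
  rw [← e] at h
  have e2 : μ' + (μ - μ') = μ := by ring
  rw [e2] at h
  have h3 := hρ (μ' - μ)
  have e3 : μ + (μ' - μ) = μ' := by ring
  rw [e3] at h3
  have h4 : bv d * (P μ - P μ') ≤ bv d * ((μ - μ') * ρ) := by
    refine mul_le_mul_of_nonneg_left ?_ hb.le
    linarith
  linarith

theorem upper (hS : SLOPE) (hd : 1 ≤ d) (hP : IsPr d P) (hρ : ∀ h, P μ + h * ρ ≤ P (μ + h))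
    (hc : 0 < c) (hμ : tt c = Real.exp μ * bv d) (h1 : tt c ^ 2 * kap d < 1 / 2)
    (h2 : tt c * epd d < 1 / 2) : ρ * bv d ≤ c + er d (tt c) := by
  have hb : 0 < bv d := GeobR.bv_pos d
  have hlim : Tendsto (fun x => x + er d (tt x)) (𝓝[>] c) (𝓝 (c + er d (tt c))) := by
    have hc : Continuous fun x => x + er d (tt x) :=
      continuous_id.add ((er_cont d).comp tt_cont)
    exact (hc.tendsto c).mono_left nhdsWithin_le_nhds
  refine ge_of_tendsto hlim ?_
  have g1 : ∀ᶠ x in 𝓝[>] c, tt x ^ 2 * kap d < 1 / 2 := by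
    have hc : Continuous fun x => tt x ^ 2 * kap d := (tt_cont.pow 2).mul continuous_const
    exact ((hc.tendsto c).mono_left nhdsWithin_le_nhds).eventually (gt_mem_nhds h1)
  have g2 : ∀ᶠ x in 𝓝[>] c, tt x * epd d < 1 / 2 := by
    have hc : Continuous fun x => tt x * epd d := tt_cont.mul continuous_const
    exact ((hc.tendsto c).mono_left nhdsWithin_le_nhds).eventually (gt_mem_nhds h2)
  have g3 : ∀ᶠ x in 𝓝[>] c, c < x := eventually_mem_nhdsWithin
  filter_upwards [g1, g2, g3] with x k1 k2 k3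
  have hx : 0 < x := hc.trans k3
  have h := nbr hS hd hP hρ hx k1.le k2.le
  have hlt : μ < Real.log (tt x / bv d) := by
    have hp : 0 < tt x / bv d := div_pos (mul_pos hx (Real.exp_pos _)) hb
    rw [Real.lt_log_iff_exp_lt hp, lt_div_iff₀ hb, ← hμ]
    exact tt_strict hc k3
  set z := Real.log (tt x / bv d) - μ with hz
  have hz0 : 0 < z := sub_pos.2 hlt
  have e1 : μ - Real.log (tt x / bv d) = -z := by ring
  rw [e1, abs_neg, abs_of_pos hz0] at h
  have : z * (ρ * bv d) ≤ z * (x + er d (tt x)) := by linarith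
  exact le_of_mul_le_mul_left this hz0

theorem lower (hS : SLOPE) (hd : 1 ≤ d) (hP : IsPr d P) (hρ : ∀ h, P μ + h * ρ ≤ P (μ + h))
    (hc : 0 < c) (hμ : tt c = Real.exp μ * bv d) (h1 : tt c ^ 2 * kap d < 1 / 2)
    (h2 : tt c * epd d < 1 / 2) : c - er d (tt c) ≤ ρ * bv d := by
  have hb : 0 < bv d := GeobR.bv_pos d
  have hlim : Tendsto (fun x => x - er d (tt x)) (𝓝[<] c) (𝓝 (c - er d (tt c))) := by
    have hc : Continuous fun x => x - er d (tt x) :=
      continuous_id.sub ((er_cont d).comp tt_cont)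
    exact (hc.tendsto c).mono_left nhdsWithin_le_nhds
  refine le_of_tendsto hlim ?_
  have g1 : ∀ᶠ x in 𝓝[<] c, tt x ^ 2 * kap d < 1 / 2 := by
    have hc : Continuous fun x => tt x ^ 2 * kap d := (tt_cont.pow 2).mul continuous_const
    exact ((hc.tendsto c).mono_left nhdsWithin_le_nhds).eventually (gt_mem_nhds h1)
  have g2 : ∀ᶠ x in 𝓝[<] c, tt x * epd d < 1 / 2 := by
    have hc : Continuous fun x => tt x * epd d := tt_cont.mul continuous_const
    exact ((hc.tendsto c).mono_left nhdsWithin_le_nhds).eventually (gt_mem_nhds h2)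
  have g3 : ∀ᶠ x in 𝓝[<] c, x < c := eventually_mem_nhdsWithin
  have g4 : ∀ᶠ x in 𝓝[<] c, 0 < x :=
    (tendsto_id.mono_left nhdsWithin_le_nhds).eventually (lt_mem_nhds hc)
  filter_upwards [g1, g2, g3, g4] with x k1 k2 k3 hx
  have h := nbr hS hd hP hρ hx k1.le k2.le
  have hlt : Real.log (tt x / bv d) < μ := by
    have hp : 0 < tt x / bv d := div_pos (mul_pos hx (Real.exp_pos _)) hb
    rw [Real.log_lt_iff_lt_exp hp, div_lt_iff₀ hb, ← hμ]
    exact tt_strict hx k3
  set z := μ - Real.log (tt x / bv d) with hz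
  have hz0 : 0 < z := sub_pos.2 hlt
  rw [abs_of_pos hz0] at h
  have : z * (x - er d (tt x)) ≤ z * (ρ * bv d) := by linarith
  exact le_of_mul_le_mul_left this hz0

end DensR

open DensR in
/-- Row DENS. -/
theorem dens_of (hT : THERMO) (hS : SLOPE) : DENS := by
  intro d hd f r hF μ c ρ hc0 hμ ht hρ hmax
  obtain ⟨P, hP, -, hL⟩ := hT d hd f r hF
  have hb : 0 < bv d := GeobR.bv_pos d
  have htpos : 0 < Real.exp μ * bv d := mul_pos (Real.exp_pos _) hb
  have hc : 0 < c := by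
    rcases hc0.lt_or_eq with h | h
    · exact h
    · rw [← hμ, ← h, zero_mul] at htpos
      exact absurd htpos (lt_irrefl _)
  have hPμ : P μ = f ρ + μ * ρ := by
    refine le_antisymm (le_of_forall_pos_le_add fun δ hδ => ?_) ((hL μ).1 ρ hρ)
    obtain ⟨x, hx, h⟩ := (hL μ).2 δ hδ
    have := hmax x hx
    linarith
  have hρ' : ∀ h, P μ + h * ρ ≤ P (μ + h) := by
    intro h
    have := (hL (μ + h)).1 ρ hρ
    rw [hPμ]
    linarith
  obtain ⟨s1, s2⟩ := side htpos.le ht
  have hμ' : tt c = Real.exp μ * bv d := hμ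
  rw [← hμ'] at s1 s2
  have u := upper hS hd hP hρ' hc hμ' s1 s2
  have l := lower hS hd hP hρ' hc hμ' s1 s2
  rw [← hμ', abs_le]
  constructor <;> linarith

end Pool.Agent.HdGas
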