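import Pool.Agent.Lib.MF.Top2

/-!
# Positivity of the exclusion relation of hard spheres: the rows EP2, EP3, MON, POE
-/

set_option autoImplicit false

namespace Pool.Agent.HdGas

open MeasureTheory

noncomputable section

/-- Bound for the negative part of the Fourier transform of the ball. -/
def emd (d : ℕ) : ℝ := if d = 2 then 2 / 15 else if 3 ≤ d then min (1 / 11) (epd d) else epd d

/-- Row EP2. `ep2`. -/
def EP2 : Prop := ∀ s : ℝ, 0 ≤ s → -(2 / 15) ≤ Phi 2 s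

/-- Row EP3. `ep3`. -/
def EP3 : Prop := ∀ s : ℝ, 0 ≤ s → -(1 / 11) ≤ Phi 3 s

/-- Row MON (balls are mixtures of lower dimensional balls): `mon`. -/
def MON : Prop := ∀ (d : ℕ) (ε : ℝ), 1 ≤ d → 0 ≤ ε → (∀ s : ℝ, 0 ≤ s → -ε ≤ Phi d s) →
  ∀ s : ℝ, 0 ≤ s → -ε ≤ Phi (d + 1) s

/-- Row POE: `poe_of`. -/
def POE : Prop := ∀ d : ℕ, 1 ≤ d → 0 < emd d ∧ ∀ L : Set (Fin d → ℝ), MeasurableSet L →
  volume L ≠ ⊤ → Posi volume (Cb d) L (bv d) (emd d)

end

end Pool.Agent.HdGas
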