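import Pool.Agent.Lib.MF.Fou1

/-!
# Project MF (MP_09cbbd), row FOU, part 2 (helper1): `Φ ≥ - √2 e^(-d/8)`

`Φ(s) = ∫_(-1)^1 cos(s u) (1-u²)^((d-1)/2) du / ∫_(-1)^1 (1-u²)^((d-1)/2) du`.
-/

set_option autoImplicit false

namespace Pool.Agent.MF.Fou

open Set Real MeasureTheory intervalIntegral

noncomputable section

/-- the weight. -/
def wt (d : ℕ) (u : ℝ) : ℝ := (1 - u ^ 2) ^ (((d : ℝ) - 1) / 2)

/-- normalised Fourier transform of the `d`-dimensional ball, as a one-dimensional integral. -/
def Phi (d : ℕ) (s : ℝ) : ℝ :=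
  (∫ u in (-1 : ℝ)..1, cos (s * u) * (1 - u ^ 2) ^ (((d : ℝ) - 1) / 2)) /
    ∫ u in (-1 : ℝ)..1, (1 - u ^ 2) ^ (((d : ℝ) - 1) / 2)

theorem wt_continuous {d : ℕ} (hd : 1 ≤ d) : Continuous (wt d) := by
  unfold wt
  refine Continuous.rpow_const (by fun_prop) fun x => Or.inr ?_
  have : (1 : ℝ) ≤ d := by exact_mod_cast hd
  linarith

/-- differentiation under the integral sign. -/
theorem der {g f f' : ℝ → ℝ} (hg : Continuous g) (hf : ∀ x, HasDerivAt f (f' x) x)
    (hf' : Continuous f') (hb : ∀ x, |f' x| ≤ 1) (s : ℝ) :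
    HasDerivAt (fun s => ∫ u in (-1 : ℝ)..1, g u * f (s * u))
      (∫ u in (-1 : ℝ)..1, g u * (u * f' (s * u))) s := by
  have hfc : Continuous f := continuous_iff_continuousAt.2 fun x => (hf x).continuousAt
  have h := intervalIntegral.hasDerivAt_integral_of_dominated_loc_of_deriv_le (μ := volume)
    (a := -1) (b := 1) (F := fun s u => g u * f (s * u)) (F' := fun s u => g u * (u * f' (s * u)))
    (x₀ := s) (s := univ) (bound := fun u => |g u|) Filter.univ_mem
    (Filter.Eventually.of_forall fun x => (by fun_prop : Continuous fun u => g u * f (x * u)).aestronglyMeasurable)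
    ((by fun_prop : Continuous fun u => g u * f (s * u)).intervalIntegrable _ _)
    ((by fun_prop : Continuous fun u => g u * (u * f' (s * u))).aestronglyMeasurable)
    (Filter.Eventually.of_forall fun u hu x _ => ?_)
    ((hg.abs).intervalIntegrable _ _)
    (Filter.Eventually.of_forall fun u hu x _ => ?_)
  · exact h.2
  · rw [uIoc_of_le (by norm_num : (-1 : ℝ) ≤ 1)] at hu
    rw [norm_mul, Real.norm_eq_abs, Real.norm_eq_abs, abs_mul]
    have h1 : |u| ≤ 1 := abs_le.2 ⟨hu.1.le, hu.2⟩
    have h2 : |u| * |f' (x * u)| ≤ 1 := by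
      calc |u| * |f' (x * u)| ≤ 1 * 1 := mul_le_mul h1 (hb _) (abs_nonneg _) zero_le_one
        _ = 1 := one_mul 1
    calc |g u| * (|u| * |f' (x * u)|) ≤ |g u| * 1 := mul_le_mul_of_nonneg_left h2 (abs_nonneg _)
      _ = |g u| := mul_one _
  · have h1 : HasDerivAt (fun x : ℝ => x * u) u x := by
      simpa using (hasDerivAt_id x).mul_const u
    have h2 := ((hf (x * u)).comp x h1).const_mul (g u)
    refine h2.congr_deriv ?_
    ring

/-- the integral of the weight is positive. -/
theorem wt_pos {d : ℕ} (hd : 1 ≤ d) : 0 < ∫ u in (-1 : ℝ)..1, wt d u := by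
  refine intervalIntegral.intervalIntegral_pos_of_pos_on
    ((wt_continuous hd).intervalIntegrable _ _) (fun u hu => ?_) (by norm_num)
  unfold wt
  refine rpow_pos_of_pos ?_ _
  nlinarith [hu.1, hu.2]

/-- integration by parts. -/
theorem parts {d : ℕ} (hd : 1 ≤ d) (s : ℝ) :
    s * (∫ u in (-1 : ℝ)..1, wt d u * (u * (u * cos (s * u)))) =
      s * (∫ u in (-1 : ℝ)..1, wt d u * cos (s * u)) -
        (d + 1) * ∫ u in (-1 : ℝ)..1, wt d u * (u * sin (s * u)) := by
  have hd1 : (1 : ℝ) ≤ d := by exact_mod_cast hd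
  have hwc := wt_continuous hd
  set m : ℝ := ((d : ℝ) - 1) / 2 with hm
  have hm0 : 0 ≤ m := by rw [hm]; linarith
  have hU : Continuous fun u : ℝ => (1 - u ^ 2) ^ (m + 1) :=
    Continuous.rpow_const (by fun_prop) fun x => Or.inr (by linarith)
  have h1 := intervalIntegral.integral_mul_deriv_eq_deriv_mul_of_hasDerivAt (a := -1) (b := 1)
    (u := fun u : ℝ => (1 - u ^ 2) ^ (m + 1)) (v := fun u : ℝ => sin (s * u))
    (u' := fun u : ℝ => -(d + 1) * (u * wt d u)) (v' := fun u : ℝ => s * cos (s * u))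
    hU.continuousOn (by fun_prop : Continuous fun u : ℝ => sin (s * u)).continuousOn
    (fun x hx => ?_) (fun x hx => ?_)
    ((by fun_prop : Continuous fun u : ℝ => -((d : ℝ) + 1) * (u * wt d u)).intervalIntegrable _ _)
    ((by fun_prop : Continuous fun u : ℝ => s * cos (s * u)).intervalIntegrable _ _)
  · have h2 : ((1 : ℝ) - 1 ^ 2) ^ (m + 1) = 0 := by
      rw [one_pow, sub_self, zero_rpow (by linarith)]
    have h3 : ((1 : ℝ) - (-1) ^ 2) ^ (m + 1) = 0 := by
      rw [neg_one_sq, sub_self, zero_rpow (by linarith)]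
    rw [h2, h3, zero_mul, zero_mul, sub_zero, zero_sub] at h1
    have h4 : ∫ u in (-1 : ℝ)..1, (1 - u ^ 2) ^ (m + 1) * (s * cos (s * u)) =
        s * (∫ u in (-1 : ℝ)..1, wt d u * cos (s * u)) -
          s * (∫ u in (-1 : ℝ)..1, wt d u * (u * (u * cos (s * u)))) := by
      rw [← intervalIntegral.integral_const_mul, ← intervalIntegral.integral_const_mul,
        ← intervalIntegral.integral_sub]
      · refine intervalIntegral.integral_congr fun u hu => ?_
        rw [uIcc_of_le (by norm_num : (-1 : ℝ) ≤ 1)] at hu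
        have h5 : (0 : ℝ) ≤ 1 - u ^ 2 := by nlinarith [hu.1, hu.2]
        have h6 : (1 - u ^ 2) ^ (m + 1) = (1 - u ^ 2) ^ m * (1 - u ^ 2) := by
          rw [rpow_add_one' h5 (by linarith)]
        rw [h6]
        unfold wt
        rw [← hm]
        ring
      · exact (by fun_prop : Continuous fun u : ℝ => s * (wt d u * cos (s * u))).intervalIntegrable _ _
      · exact (by fun_prop : Continuous fun u : ℝ =>
          s * (wt d u * (u * (u * cos (s * u))))).intervalIntegrable _ _
    have h7 : ∫ u in (-1 : ℝ)..1, -((d : ℝ) + 1) * (u * wt d u) * sin (s * u) =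
        -((d + 1) * ∫ u in (-1 : ℝ)..1, wt d u * (u * sin (s * u))) := by
      rw [← intervalIntegral.integral_const_mul, ← intervalIntegral.integral_neg]
      refine intervalIntegral.integral_congr fun u _ => ?_
      ring
    rw [h4, h7] at h1
    linarith
  · have hx' : x ∈ Ioo (-1 : ℝ) 1 := by
      rwa [min_eq_left (by norm_num : (-1 : ℝ) ≤ 1), max_eq_right (by norm_num : (-1 : ℝ) ≤ 1)] at hx
    have h5 : (0 : ℝ) < 1 - x ^ 2 := by nlinarith [hx'.1, hx'.2]
    have h6 : HasDerivAt (fun u : ℝ => 1 - u ^ 2) (-(2 * x)) x := by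
      have := (hasDerivAt_pow 2 x).const_sub 1
      refine this.congr_deriv ?_
      simp
    have h7 := h6.rpow_const (p := m + 1) (Or.inl h5.ne')
    refine h7.congr_deriv ?_
    unfold wt
    rw [← hm, add_sub_cancel_right]
    have : (d : ℝ) + 1 = 2 * (m + 1) := by rw [hm]; ring
    rw [this]
    ring
  · have h6 : HasDerivAt (fun u : ℝ => s * u) s x := by
      simpa using (hasDerivAt_id x).const_mul s
    refine (h6.sin).congr_deriv ?_
    ring

/-- the system for the ball. -/
theorem sys_ball {d : ℕ} (hd : 1 ≤ d) : Sys d (fun s => ∫ u in (-1 : ℝ)..1, wt d u * cos (s * u))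
    (fun s => ∫ u in (-1 : ℝ)..1, wt d u * (u * sin (s * u)))
    (fun s => ∫ u in (-1 : ℝ)..1, wt d u * (u * (u * cos (s * u)))) := by
  have hwc := wt_continuous hd
  refine ⟨fun s => ?_, fun s => ?_, fun s => parts hd s, ?_⟩
  · have h1 := der (g := wt d) (f := cos) (f' := fun x => -sin x) hwc
      (fun x => Real.hasDerivAt_cos x) (by fun_prop) (fun x => by
        rw [abs_neg]; exact abs_sin_le_one x) s
    refine h1.congr_deriv ?_
    rw [← intervalIntegral.integral_neg]
    refine intervalIntegral.integral_congr fun u _ => ?_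
    ring
  · have h1 := der (g := fun u => wt d u * u) (f := sin) (f' := cos) (by fun_prop)
      (fun x => Real.hasDerivAt_sin x) (by fun_prop) (fun x => abs_cos_le_one x) s
    have h2 : (fun s => ∫ u in (-1 : ℝ)..1, wt d u * u * sin (s * u)) =
        fun s => ∫ u in (-1 : ℝ)..1, wt d u * (u * sin (s * u)) := by
      funext s
      refine intervalIntegral.integral_congr fun u _ => ?_
      ring
    rw [h2] at h1
    refine h1.congr_deriv ?_
    refine intervalIntegral.integral_congr fun u _ => ?_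
    ring
  · simpa using wt_pos hd

/-- **FOU, the one-dimensional part**: `Φ(s) ≥ - √2 e^(-d/8)`. -/
theorem Phi_ge {d : ℕ} (hd : 1 ≤ d) (s : ℝ) : -(√2 * exp (-(d / 8))) ≤ Phi d s := by
  have hpos := wt_pos hd
  have key : ∀ s : ℝ, 0 ≤ s → -(√2 * exp (-((d : ℝ) / 8))) ≤ Phi d s := by
    intro s hs
    have h1 := (sys_ball hd).bound s hs
    simp only [zero_mul, cos_zero, mul_one] at h1
    have h2 : Phi d s = (∫ u in (-1 : ℝ)..1, wt d u * cos (s * u)) / ∫ u in (-1 : ℝ)..1, wt d u := by
      unfold Phi wt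
      congr 1
      refine intervalIntegral.integral_congr fun u _ => ?_
      ring
    rw [h2, le_div_iff₀ hpos]
    exact h1
  rcases le_total 0 s with hs | hs
  · exact key s hs
  · have h1 := key (-s) (by linarith)
    have h2 : Phi d (-s) = Phi d s := by
      unfold Phi
      congr 1
      refine intervalIntegral.integral_congr fun u _ => ?_
      simp only [neg_mul, cos_neg]
    rw [h2] at h1
    exact h1

end

end Pool.Agent.MF.Fou
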