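import Pool.Agent.Lib.MF.Top
import Pool.Agent.Lib.MF.Fou2

/-!
# Project MF, row PHI (helper1)
-/

set_option autoImplicit false

namespace Pool.Agent.HdGas

open MeasureTheory

noncomputable section

theorem phi_eq {d : ℕ} (hd : 1 ≤ d) (s : ℝ) : Phi d s = Pool.Agent.MF.Fou.Phi d s := by
  have key : ∀ u ∈ Set.uIcc (-1 : ℝ) 1, √(1 - u ^ 2) ^ (d - 1) = (1 - u ^ 2) ^ (((d : ℝ) - 1) / 2) := by
    intro u hu
    rw [Set.uIcc_of_le (by norm_num : (-1 : ℝ) ≤ 1)] at hu
    have h5 : (0 : ℝ) ≤ 1 - u ^ 2 := by nlinarith [hu.1, hu.2]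
    rw [Real.sqrt_eq_rpow, ← Real.rpow_natCast, ← Real.rpow_mul h5]
    congr 1
    rw [Nat.cast_sub hd]
    push_cast
    ring
  unfold Phi Pool.Agent.MF.Fou.Phi
  congr 1
  · refine intervalIntegral.integral_congr fun u hu => ?_
    rw [key u hu]
  · exact intervalIntegral.integral_congr fun u hu => key u hu

theorem phi : PHI := by
  intro d hd s _
  have h := Pool.Agent.MF.Fou.Phi_ge hd s
  rw [phi_eq hd s]
  unfold epd
  have e : -(d : ℝ) / 8 = -((d : ℝ) / 8) := by ring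
  rw [e]
  exact h

end

end Pool.Agent.HdGas
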