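import Pool.Agent.Lib.MF.Em
import Pool.Agent.Lib.MF.RowPhi

/-!
# Row EP2: the Fourier transform of the disk is at least `-2/15` (helper1)

`Φ'' + (3/s) Φ' + Φ = 0`. Alternating Taylor bounds for `Φ` and `Φ'` by repeated integration; a
polynomial inequality on `[0, 5]`; energy `Φ² + Φ'²` after `5`.
-/

set_option autoImplicit false

namespace Pool.Agent.MF.Fou

open Set Real

noncomputable section

variable {C S K : ℝ → ℝ}

theorem Sys.energy {d : ℕ} (h : Sys d C S K) :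
    AntitoneOn (fun x => C x ^ 2 + S x ^ 2) (Ici 0) := by
  have hder : ∀ x, HasDerivAt (fun x => C x ^ 2 + S x ^ 2)
      (2 * C x * (-S x) + 2 * S x * K x) x := by
    intro x
    have h1 := ((h.hC x).pow 2).add ((h.hS x).pow 2)
    refine h1.congr_deriv ?_
    simp
  refine antitoneOn_of_deriv_nonpos (convex_Ici 0)
    (fun x _ => (hder x).continuousAt.continuousWithinAt)
    (fun x _ => (hder x).differentiableAt.differentiableWithinAt) fun x hx => ?_
  rw [(hder x).deriv]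
  rw [interior_Ici] at hx
  have hx0 : 0 < x := hx
  have h1 := h.ode x
  have h2 : x * (2 * C x * (-S x) + 2 * S x * K x) = -(2 * (d + 1) * S x ^ 2) := by
    have : x * (2 * C x * (-S x) + 2 * S x * K x) = 2 * S x * (x * K x) - 2 * S x * (x * C x) := by
      ring
    rw [this, h1]
    ring
  by_contra hpos
  push Not at hpos
  have h3 := mul_pos hx0 hpos
  rw [h2] at h3
  have : 0 ≤ 2 * ((d : ℝ) + 1) * S x ^ 2 := by positivity
  linarith

theorem Sys.abs_le {d : ℕ} (h : Sys d C S K) {s : ℝ} (hs : 0 ≤ s) : |C s| ≤ C 0 := by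
  have h1 := h.energy (mem_Ici.2 le_rfl) (mem_Ici.2 hs) hs
  simp only [h.S0] at h1
  have h2 : C s ^ 2 ≤ C 0 ^ 2 := by nlinarith [sq_nonneg (S s)]
  exact abs_le_of_sq_le_sq h2 h.h0.le

namespace E2

/-- Taylor coefficients -/
def cc (k : ℕ) : ℝ := 1 / (4 ^ k * k.factorial * (k + 1).factorial)

/-- Taylor polynomials -/
def pp (n : ℕ) (s : ℝ) : ℝ := ∑ k ∈ Finset.range (n + 1), (-1) ^ k * cc k * s ^ (2 * k)

/-- their derivatives -/
def pd (n : ℕ) (s : ℝ) : ℝ :=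
  ∑ k ∈ Finset.range (n + 1), (-1) ^ k * cc k * (((2 * k : ℕ) : ℝ) * s ^ (2 * k - 1))

theorem cc_succ (k : ℕ) : cc (k + 1) * ((2 * k + 2) * (2 * k + 4)) = cc k := by
  unfold cc
  have h1 : ((k + 1).factorial : ℝ) = (k + 1) * k.factorial := by
    rw [Nat.factorial_succ]
    push_cast
    ring
  have h2 : ((k + 1 + 1).factorial : ℝ) = (k + 2) * ((k + 1) * k.factorial) := by
    rw [Nat.factorial_succ, Nat.factorial_succ]
    push_cast
    ring
  have h3 : (k.factorial : ℝ) ≠ 0 := by positivity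
  have h4 : (k : ℝ) + 1 ≠ 0 := by positivity
  have h5 : (k : ℝ) + 2 ≠ 0 := by positivity
  rw [h2, h1, pow_succ]
  field_simp
  ring

theorem hasDerivAt_pp (n : ℕ) (s : ℝ) : HasDerivAt (pp n) (pd n s) s := by
  unfold pp pd
  refine HasDerivAt.fun_sum fun k _ => ?_
  exact (hasDerivAt_pow (2 * k) s).const_mul _

theorem pd_shift (n : ℕ) (s : ℝ) : s ^ 3 * pd (n + 1) s =
    ∑ k ∈ Finset.range (n + 1), (-1) ^ (k + 1) * cc (k + 1) * ((2 * k + 2) * s ^ (2 * k + 4)) := by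
  unfold pd
  rw [Finset.sum_range_succ', mul_add]
  simp only [mul_zero, Nat.cast_zero, zero_mul, add_zero]
  rw [Finset.mul_sum]
  refine Finset.sum_congr rfl fun k _ => ?_
  have : 2 * (k + 1) - 1 = 2 * k + 1 := by omega
  rw [this]
  push_cast
  ring

theorem hasDerivAt_shift (n : ℕ) (s : ℝ) :
    HasDerivAt (fun s => s ^ 3 * pd (n + 1) s) (-(s ^ 3 * pp n s)) s := by
  have e : (fun s => s ^ 3 * pd (n + 1) s) = fun s => ∑ k ∈ Finset.range (n + 1),
      (-1) ^ (k + 1) * cc (k + 1) * ((2 * k + 2) * s ^ (2 * k + 4)) := by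
    funext s
    exact pd_shift n s
  rw [e]
  have h1 : HasDerivAt (fun s : ℝ => ∑ k ∈ Finset.range (n + 1),
      (-1) ^ (k + 1) * cc (k + 1) * ((2 * k + 2) * s ^ (2 * k + 4)))
      (∑ k ∈ Finset.range (n + 1), (-1) ^ (k + 1) * cc (k + 1) * ((2 * k + 2) *
        (((2 * k + 4 : ℕ) : ℝ) * s ^ (2 * k + 4 - 1)))) s := by
    refine HasDerivAt.fun_sum fun k _ => ?_
    exact ((hasDerivAt_pow (2 * k + 4) s).const_mul _).const_mul _
  refine h1.congr_deriv ?_
  unfold pp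
  rw [Finset.mul_sum, ← Finset.sum_neg_distrib]
  refine Finset.sum_congr rfl fun k _ => ?_
  have h2 : 2 * k + 4 - 1 = 2 * k + 3 := by omega
  rw [h2, ← cc_succ k]
  push_cast
  ring

/-- the alternating bounds -/
theorem main (h : Sys 2 C S K) (h1 : C 0 = 1) (n : ℕ) :
    (∀ s, 0 ≤ s → 0 ≤ (-1) ^ n * (pp n s - C s)) ∧
      ∀ s, 0 < s → 0 ≤ (-1) ^ (n + 1) * (pd (n + 1) s + S s) := by
  have step : ∀ n : ℕ, (∀ s, 0 ≤ s → 0 ≤ (-1) ^ n * (pp n s - C s)) →
      ∀ s, 0 < s → 0 ≤ (-1) ^ (n + 1) * (pd (n + 1) s + S s) := by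
    intro n hn s hs
    have hd : ∀ x : ℝ, HasDerivAt (fun x => (-1) ^ (n + 1) * (x ^ 3 * pd (n + 1) x + x ^ (2 + 1) * S x))
        ((-1) ^ (n + 1) * (-(x ^ 3 * pp n x) + x ^ (2 + 1) * C x)) x := fun x =>
      ((hasDerivAt_shift n x).add (h.hP x)).const_mul _
    have hm : MonotoneOn (fun x => (-1 : ℝ) ^ (n + 1) * (x ^ 3 * pd (n + 1) x + x ^ (2 + 1) * S x))
        (Ici 0) := by
      refine monotoneOn_of_deriv_nonneg (convex_Ici 0)
        (fun x _ => (hd x).continuousAt.continuousWithinAt)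
        (fun x _ => (hd x).differentiableAt.differentiableWithinAt) fun x hx => ?_
      rw [(hd x).deriv]
      rw [interior_Ici] at hx
      have hx0 : (0 : ℝ) < x := hx
      have h2 := hn x hx0.le
      have h3 : (-1 : ℝ) ^ (n + 1) * (-(x ^ 3 * pp n x) + x ^ (2 + 1) * C x) =
          x ^ 3 * ((-1) ^ n * (pp n x - C x)) := by
        rw [pow_succ]
        ring
      rw [h3]
      positivity
    have h2 := hm (mem_Ici.2 le_rfl) (mem_Ici.2 hs.le) hs.le
    simp only at h2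
    have h3 : (-1 : ℝ) ^ (n + 1) * ((0 : ℝ) ^ 3 * pd (n + 1) 0 + (0 : ℝ) ^ (2 + 1) * S 0) = 0 := by
      norm_num
    rw [h3] at h2
    have h4 : (-1 : ℝ) ^ (n + 1) * (s ^ 3 * pd (n + 1) s + s ^ (2 + 1) * S s) =
        s ^ 3 * ((-1) ^ (n + 1) * (pd (n + 1) s + S s)) := by ring
    rw [h4] at h2
    exact nonneg_of_mul_nonneg_right h2 (by positivity)
  induction n with
  | zero =>
    have h0 : ∀ s, 0 ≤ s → 0 ≤ (-1 : ℝ) ^ 0 * (pp 0 s - C s) := by
      intro s hs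
      have h2 : pp 0 s = 1 := by
        unfold pp cc
        simp
      have h3 := (abs_le.1 (h.abs_le hs)).2
      rw [h1] at h3
      rw [h2]
      linarith
    exact ⟨h0, step 0 h0⟩
  | succ n ih =>
    have h0 : ∀ s, 0 ≤ s → 0 ≤ (-1 : ℝ) ^ (n + 1) * (pp (n + 1) s - C s) := by
      intro s hs
      have hd : ∀ x : ℝ, HasDerivAt (fun x => (-1) ^ (n + 1) * (pp (n + 1) x - C x))
          ((-1) ^ (n + 1) * (pd (n + 1) x - (-S x))) x := fun x =>
        ((hasDerivAt_pp (n + 1) x).sub (h.hC x)).const_mul _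
      have hm : MonotoneOn (fun x => (-1 : ℝ) ^ (n + 1) * (pp (n + 1) x - C x)) (Ici 0) := by
        refine monotoneOn_of_deriv_nonneg (convex_Ici 0)
          (fun x _ => (hd x).continuousAt.continuousWithinAt)
          (fun x _ => (hd x).differentiableAt.differentiableWithinAt) fun x hx => ?_
        rw [(hd x).deriv, sub_neg_eq_add]
        rw [interior_Ici] at hx
        exact ih.2 x hx
      have h2 := hm (mem_Ici.2 le_rfl) (mem_Ici.2 hs) hs
      simp only at h2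
      have h3 : pp (n + 1) 0 = 1 := by
        unfold pp
        rw [Finset.sum_range_succ']
        simp [cc]
      rw [h3, h1, sub_self, mul_zero] at h2
      exact h2
    exact ⟨h0, step (n + 1) h0⟩

theorem pp7 (s : ℝ) : pp 7 s = 1 - s ^ 2 / 8 + s ^ 4 / 192 - s ^ 6 / 9216 + s ^ 8 / 737280 -
    s ^ 10 / 88473600 + s ^ 12 / 14863564800 - s ^ 14 / 3329438515200 := by
  unfold pp cc
  simp only [Finset.sum_range_succ, Finset.sum_range_zero]
  norm_num [Nat.factorial]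
  ring

theorem pp8 (s : ℝ) : pp 8 s = pp 7 s + s ^ 16 / 958878292377600 := by
  unfold pp cc
  rw [Finset.sum_range_succ]
  norm_num [Nat.factorial]
  ring

theorem pd7 (s : ℝ) : pd 7 s = -(s / 4) + s ^ 3 / 48 - s ^ 5 / 1536 + s ^ 7 / 92160 -
    s ^ 9 / 8847360 + s ^ 11 / 1238630400 - s ^ 13 / 237817036800 := by
  unfold pd cc
  simp only [Finset.sum_range_succ, Finset.sum_range_zero]
  norm_num [Nat.factorial]
  ring

theorem pd8 (s : ℝ) : pd 8 s = pd 7 s + s ^ 15 / 59929893273600 := by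
  unfold pd cc
  rw [Finset.sum_range_succ]
  norm_num [Nat.factorial]
  ring

/-- the polynomial inequality -/
theorem poly {x : ℝ} (h0 : 0 ≤ x) (h1 : x ≤ 25 / 4) :
    0 ≤ 2 / 15 + (1 - x / 2 + x ^ 2 / 12 - x ^ 3 / 144 + x ^ 4 / 2880 - x ^ 5 / 86400 +
      x ^ 6 / 3628800 - x ^ 7 / 203212800) := by
  obtain ⟨t, ht⟩ : ∃ t : ℝ, t = 4 / 25 * x := ⟨_, rfl⟩
  have hx : x = 25 / 4 * t := by rw [ht]; ring
  have ht0 : 0 ≤ t := by rw [ht]; positivity
  have ht1 : 0 ≤ 1 - t := by rw [ht]; linarith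
  have e : 2 / 15 + (1 - x / 2 + x ^ 2 / 12 - x ^ 3 / 144 + x ^ 4 / 2880 - x ^ 5 / 86400 +
      x ^ 6 / 3628800 - x ^ 7 / 203212800) =
      17 / 15 * (1 - t) ^ 7 + 7 * (577 / 840) * (t * (1 - t) ^ 6) +
      21 * (1139 / 2880) * (t ^ 2 * (1 - t) ^ 5) + 35 * (67943 / 322560) * (t ^ 3 * (1 - t) ^ 4) +
      35 * (511213 / 5160960) * (t ^ 4 * (1 - t) ^ 3) +
      21 * (13866211 / 371589120) * (t ^ 5 * (1 - t) ^ 2) +
      7 * (186732941 / 20808990720) * (t ^ 6 * (1 - t)) + 1433654987 / 665887703040 * t ^ 7 := by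
    rw [hx]
    ring
  rw [e]
  positivity

theorem final (h : Sys 2 C S K) (h1 : C 0 = 1) {s : ℝ} (hs : 0 ≤ s) : -(2 / 15) ≤ C s := by
  rcases le_total s 5 with h5 | h5
  · have h2 := (main h h1 7).1 s hs
    have h3 : (-1 : ℝ) ^ 7 * (pp 7 s - C s) = C s - pp 7 s := by ring
    rw [h3] at h2
    have h4 := poly (x := s ^ 2 / 4) (by positivity) (by nlinarith)
    have h6 : 1 - s ^ 2 / 4 / 2 + (s ^ 2 / 4) ^ 2 / 12 - (s ^ 2 / 4) ^ 3 / 144 +
        (s ^ 2 / 4) ^ 4 / 2880 - (s ^ 2 / 4) ^ 5 / 86400 + (s ^ 2 / 4) ^ 6 / 3628800 -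
        (s ^ 2 / 4) ^ 7 / 203212800 = pp 7 s := by
      rw [pp7]
      ring
    rw [h6] at h4
    linarith
  · have h2 := h.energy (mem_Ici.2 (by norm_num : (0 : ℝ) ≤ 5)) (mem_Ici.2 hs) h5
    simp only at h2
    have a1 := (main h h1 7).1 5 (by norm_num)
    have a2 := (main h h1 8).1 5 (by norm_num)
    have b1 := (main h h1 6).2 5 (by norm_num)
    have b2 := (main h h1 7).2 5 (by norm_num)
    have c1 : (-1 : ℝ) ^ 7 * (pp 7 5 - C 5) = C 5 - pp 7 5 := by ring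
    have c2 : (-1 : ℝ) ^ 8 * (pp 8 5 - C 5) = pp 8 5 - C 5 := by ring
    have c3 : (-1 : ℝ) ^ (6 + 1) * (pd (6 + 1) 5 + S 5) = -(pd 7 5) - S 5 := by ring
    have c4 : (-1 : ℝ) ^ (7 + 1) * (pd (7 + 1) 5 + S 5) = pd 8 5 + S 5 := by ring
    rw [c1, pp7] at a1
    rw [c2, pp8, pp7] at a2
    rw [c3, pd7] at b1
    rw [c4, pd8, pd7] at b2
    norm_num at a1 a2 b1 b2
    have d1 : -(1312 / 10000) ≤ C 5 := by linarith
    have d2 : C 5 ≤ -(1310 / 10000) := by linarith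
    have d3 : S 5 ≤ 191 / 10000 := by linarith
    have d4 : 185 / 10000 ≤ S 5 := by linarith
    have e1 : C 5 ^ 2 ≤ (1312 / 10000) ^ 2 := by nlinarith
    have e2 : S 5 ^ 2 ≤ (191 / 10000) ^ 2 := by nlinarith
    have e3 : C s ^ 2 ≤ (2 / 15) ^ 2 := by nlinarith [sq_nonneg (S s)]
    exact (abs_le.1 (abs_le_of_sq_le_sq e3 (by norm_num))).1

end E2

end

end Pool.Agent.MF.Fou

namespace Pool.Agent.HdGas

open MeasureTheory Pool.Agent.MF.Fou

noncomputable section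

/-- **EP2**. -/
theorem ep2 : EP2 := by
  intro s hs
  rw [phi_eq (by norm_num : 1 ≤ 2) s]
  have hpos := wt_pos (d := 2) (by norm_num)
  have h := sys_ball (d := 2) (by norm_num)
  set c0 : ℝ := ∫ u in (-1 : ℝ)..1, wt 2 u with hc0
  have hsys : Pool.Agent.MF.Fou.Sys 2
      (fun s => c0⁻¹ * ∫ u in (-1 : ℝ)..1, wt 2 u * Real.cos (s * u))
      (fun s => c0⁻¹ * ∫ u in (-1 : ℝ)..1, wt 2 u * (u * Real.sin (s * u)))
      (fun s => c0⁻¹ * ∫ u in (-1 : ℝ)..1, wt 2 u * (u * (u * Real.cos (s * u)))) := by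
    refine ⟨fun s => ?_, fun s => (h.hS s).const_mul _, fun s => ?_, ?_⟩
    · have := (h.hC s).const_mul c0⁻¹
      rwa [mul_neg] at this
    · have := h.ode s
      linear_combination c0⁻¹ * this
    · exact mul_pos (inv_pos.2 hpos) h.h0
  have h1 : c0⁻¹ * (∫ u in (-1 : ℝ)..1, wt 2 u * Real.cos (0 * u)) = 1 := by
    simp only [zero_mul, Real.cos_zero, mul_one]
    exact inv_mul_cancel₀ hpos.ne'
  have h2 := E2.final hsys h1 hs
  refine h2.trans (le_of_eq ?_)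
  unfold Pool.Agent.MF.Fou.Phi
  rw [div_eq_inv_mul]
  congr 1
  refine intervalIntegral.integral_congr fun u _ => ?_
  unfold wt
  ring

end

end Pool.Agent.HdGas
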