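import Pool.Agent.Lib.MF.Em

/-!
# Project MF (MP_09cbbd), row EP3 (helper40): `3 (sin s - s cos s) / s³ ≥ -1/11`
-/

set_option autoImplicit false

namespace Pool.Agent.HdGas

open MeasureTheory Set Real intervalIntegral

noncomputable section

/-- A function with nonnegative derivative on the half line stays nonnegative. -/
theorem ep3_mono {f f' : ℝ → ℝ} (h0 : f 0 = 0) (hd : ∀ x, HasDerivAt f (f' x) x)
    (hp : ∀ x, 0 ≤ x → 0 ≤ f' x) {x : ℝ} (hx : 0 ≤ x) : 0 ≤ f x := by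
  have hm : MonotoneOn f (Ici 0) := by
    refine monotoneOn_of_deriv_nonneg (convex_Ici 0)
      (fun y _ => (hd y).continuousAt.continuousWithinAt)
      (fun y _ => (hd y).differentiableAt.differentiableWithinAt) fun y hy => ?_
    rw [interior_Ici] at hy
    rw [(hd y).deriv]
    exact hp y (le_of_lt hy)
  have := hm (mem_Ici.2 le_rfl) (mem_Ici.2 hx) hx
  rwa [h0] at this

theorem ep3_sin1 {x : ℝ} (hx : 0 ≤ x) : 0 ≤ sin x - (x - x ^ 3 / 6) := by
  refine ep3_mono (f := fun x => sin x - (x - x ^ 3 / 6))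
    (f' := fun x => cos x - (1 - x ^ 2 / 2)) (by simp) (fun y => ?_) (fun y _ => ?_) hx
  · have h := (hasDerivAt_sin y).sub (((hasDerivAt_id y)).sub (((hasDerivAt_pow 3 y)).div_const 6))
    refine h.congr_deriv ?_
    simp
    ring
  · have := one_sub_sq_div_two_le_cos (x := y)
    linarith

theorem ep3_cos1 {x : ℝ} (hx : 0 ≤ x) : 0 ≤ (1 - x ^ 2 / 2 + x ^ 4 / 24) - cos x := by
  refine ep3_mono (f := fun x => (1 - x ^ 2 / 2 + x ^ 4 / 24) - cos x)
    (f' := fun x => sin x - (x - x ^ 3 / 6)) (by simp) (fun y => ?_)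
    (fun y hy => ep3_sin1 hy) hx
  have h := ((((hasDerivAt_const y (1 : ℝ))).sub (((hasDerivAt_pow 2 y)).div_const 2)).add
    (((hasDerivAt_pow 4 y)).div_const 24)).sub (hasDerivAt_cos y)
  refine h.congr_deriv ?_
  simp
  ring

theorem ep3_sin2 {x : ℝ} (hx : 0 ≤ x) : 0 ≤ (x - x ^ 3 / 6 + x ^ 5 / 120) - sin x := by
  refine ep3_mono (f := fun x => (x - x ^ 3 / 6 + x ^ 5 / 120) - sin x)
    (f' := fun x => (1 - x ^ 2 / 2 + x ^ 4 / 24) - cos x) (by simp) (fun y => ?_)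
    (fun y hy => ep3_cos1 hy) hx
  have h := ((((hasDerivAt_id y)).sub (((hasDerivAt_pow 3 y)).div_const 6)).add
    (((hasDerivAt_pow 5 y)).div_const 120)).sub (hasDerivAt_sin y)
  refine h.congr_deriv ?_
  simp
  ring

/-- Up to `π`. -/
theorem ep3_low {s : ℝ} (h0 : 0 ≤ s) (h1 : s ≤ π) : s * cos s - sin s ≤ 0 := by
  have hd : ∀ y : ℝ, HasDerivAt (fun s : ℝ => s * cos s - sin s) (-(y * sin y)) y := fun y => by
    have h := ((hasDerivAt_id y).mul (hasDerivAt_cos y)).sub (hasDerivAt_sin y)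
    refine h.congr_deriv ?_
    simp
  have hm : AntitoneOn (fun s : ℝ => s * cos s - sin s) (Icc 0 π) := by
    refine antitoneOn_of_deriv_nonpos (convex_Icc 0 π)
      (fun y _ => (hd y).continuousAt.continuousWithinAt)
      (fun y _ => (hd y).differentiableAt.differentiableWithinAt) fun y hy => ?_
    rw [interior_Icc] at hy
    rw [(hd y).deriv]
    have := mul_nonneg hy.1.le (sin_nonneg_of_nonneg_of_le_pi hy.1.le hy.2.le)
    linarith
  have := hm (left_mem_Icc.2 pi_pos.le) ⟨h0, h1⟩ h0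
  simpa using this

/-- The polynomial inequality in one variable. -/
theorem ep3_poly1 {t : ℝ} (h0 : 12 / 25 ≤ t) (h1 : t ≤ 5 / 2) :
    0 ≤ 12329 / 10000 - 3589 / 1000 * t + 37126 / 10000 * t ^ 2 - 4 / 11 * t ^ 3
      - 2618 / 10000 * t ^ 4 + 1 / 30 * t ^ 5 := by
  have key : ∀ a b : ℝ, 0 < a → a ≤ t → t ≤ b → 0 ≤ 2618 / 10000 - a / 30 →
      (37126 / 10000 - 4 / 11 * b - (2618 / 10000 - a / 30) * b ^ 2) * t ^ 2
        - 3589 / 1000 * t + 12329 / 10000 ≤
      12329 / 10000 - 3589 / 1000 * t + 37126 / 10000 * t ^ 2 - 4 / 11 * t ^ 3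
      - 2618 / 10000 * t ^ 4 + 1 / 30 * t ^ 5 := by
    intro a b ha hat htb hc
    have ht : 0 ≤ t := by linarith
    have e1 : t ^ 3 ≤ b * t ^ 2 := by
      have := mul_le_mul_of_nonneg_right htb (sq_nonneg t)
      nlinarith
    have e2 : a * t ^ 4 ≤ t ^ 5 := by
      have := mul_le_mul_of_nonneg_right hat (by positivity : 0 ≤ t ^ 4)
      nlinarith
    have e3 : t ^ 4 ≤ b ^ 2 * t ^ 2 := by
      have h4 : t ^ 2 ≤ b ^ 2 := by nlinarith
      have := mul_le_mul_of_nonneg_right h4 (sq_nonneg t)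
      nlinarith
    have e4 := mul_le_mul_of_nonneg_left e3 hc
    nlinarith
  rcases le_total t (6 / 5) with h | h
  · refine le_trans ?_ (key (12 / 25) (6 / 5) (by norm_num) h0 h (by norm_num))
    nlinarith [sq_nonneg (t - 62 / 100)]
  rcases le_total t (9 / 5) with h' | h'
  · refine le_trans ?_ (key (6 / 5) (9 / 5) (by norm_num) h h' (by norm_num))
    nlinarith
  rcases le_total t (11 / 5) with h'' | h''
  · refine le_trans ?_ (key (9 / 5) (11 / 5) (by norm_num) h' h'' (by norm_num))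
    nlinarith
  · refine le_trans ?_ (key (11 / 5) (5 / 2) (by norm_num) h'' h1 (by norm_num))
    nlinarith

/-- The polynomial inequality. -/
theorem ep3_poly {t q : ℝ} (h0 : 12 / 25 ≤ t) (h1 : t ≤ 5 / 2) (hq : 6283 / 1000 ≤ q)
    (hq2 : q ≤ 62832 / 10000) :
    (q - t) * (1 - t ^ 2 / 2 + t ^ 4 / 24) + (t - t ^ 3 / 6 + t ^ 5 / 120) ≤ (q - t) ^ 3 / 33 := by
  have e : (q - t) ^ 3 / 33 - ((q - t) * (1 - t ^ 2 / 2 + t ^ 4 / 24) +
      (t - t ^ 3 / 6 + t ^ 5 / 120)) = (q ^ 3 / 33 - q) - (q ^ 2 / 11) * t + (13 * q / 22) * t ^ 2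
      - 4 / 11 * t ^ 3 - (q / 24) * t ^ 4 + 1 / 30 * t ^ 5 := by ring
  have ht : 0 ≤ t := by linarith
  have q2 : (6283 / 1000) ^ 2 ≤ q ^ 2 := by nlinarith
  have q2' : q ^ 2 ≤ (62832 / 10000) ^ 2 := by nlinarith
  have c0 : 12329 / 10000 ≤ q ^ 3 / 33 - q := by
    have q3 : (6283 / 1000) ^ 2 * q ≤ q ^ 3 := by
      have := mul_le_mul_of_nonneg_right q2 (by linarith : 0 ≤ q)
      nlinarith
    nlinarith
  have m1 : (q ^ 2 / 11) * t ≤ 3589 / 1000 * t :=
    mul_le_mul_of_nonneg_right (by nlinarith) ht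
  have m2 : 37126 / 10000 * t ^ 2 ≤ (13 * q / 22) * t ^ 2 :=
    mul_le_mul_of_nonneg_right (by linarith) (sq_nonneg t)
  have m3 : (q / 24) * t ^ 4 ≤ 2618 / 10000 * t ^ 4 :=
    mul_le_mul_of_nonneg_right (by linarith) (by positivity)
  have := ep3_poly1 h0 h1
  linarith

/-- From `π` to `5.8`. -/
theorem ep3_mid {s : ℝ} (h0 : π ≤ s) (h1 : s ≤ 29 / 5) : s * cos s - sin s ≤ s ^ 3 / 33 := by
  have hp1 : (3.1415 : ℝ) < π := pi_gt_d4
  have hp2 : π < (3.1416 : ℝ) := pi_lt_d4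
  have ht : 0 ≤ 2 * π - s := by linarith
  have hs0 : 0 ≤ s := by linarith
  rcases le_total s (π + 13 / 20) with h | h
  · have hc : cos s = -cos (s - π) := by rw [cos_sub_pi]; ring
    have hs : sin s = -sin (s - π) := by rw [sin_sub_pi]; ring
    have h2 := one_sub_sq_div_two_le_cos (x := s - π)
    have h3 := sin_le (sub_nonneg.2 h0)
    have h4 : (s - π) ^ 2 ≤ (13 / 20) ^ 2 := by nlinarith
    have h5 : (3 / 4 : ℝ) ≤ cos (s - π) := by nlinarith
    have h6 : 0 ≤ s ^ 3 / 33 := by positivity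
    have h7 : 3 * (3 / 4) ≤ s * cos (s - π) := by nlinarith
    rw [hc, hs]
    linarith
  · have hc : cos s = cos (2 * π - s) := by rw [cos_two_pi_sub]
    have hs : sin s = -sin (2 * π - s) := by rw [sin_two_pi_sub]; ring
    have h2 := ep3_cos1 ht
    have h3 := ep3_sin2 ht
    have h4 := ep3_poly (t := 2 * π - s) (q := 2 * π) (by linarith) (by linarith) (by linarith)
      (by linarith)
    have e : 2 * π - (2 * π - s) = s := by ring
    rw [e] at h4
    have h5 := mul_le_mul_of_nonneg_left (sub_nonneg.1 h2) hs0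
    rw [hc, hs]
    linarith

/-- From `5.8` on. -/
theorem ep3_high {s : ℝ} (h1 : 29 / 5 ≤ s) : s * cos s - sin s ≤ s ^ 3 / 33 := by
  have hs := sin_sq_add_cos_sq s
  have h2 : (s * cos s - sin s) ^ 2 ≤ 1 + s ^ 2 := by
    nlinarith [sq_nonneg (s * sin s + cos s)]
  have h3 : 1 + s ^ 2 ≤ (s ^ 3 / 33) ^ 2 := by
    have h4 : (29 / 5) ^ 2 ≤ s ^ 2 := by nlinarith
    have h5 : (29 / 5) ^ 4 ≤ s ^ 4 := by nlinarith
    nlinarith
  exact (abs_le_of_sq_le_sq' (h2.trans h3) (by positivity)).2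

theorem ep3_ineq {s : ℝ} (h0 : 0 ≤ s) : s * cos s - sin s ≤ s ^ 3 / 33 := by
  rcases le_total s π with h | h
  · exact (ep3_low h0 h).trans (by positivity)
  rcases le_total s (29 / 5) with h' | h'
  · exact ep3_mid h h'
  · exact ep3_high h'

theorem ep3_int {s : ℝ} (hs : 0 < s) : ∫ u in (-1 : ℝ)..1, cos (s * u) * (1 - u ^ 2) =
    4 * (sin s - s * cos s) / s ^ 3 := by
  have hd : ∀ u : ℝ, HasDerivAt (fun u : ℝ => (1 - u ^ 2) * sin (s * u) / s -
      2 * u * cos (s * u) / s ^ 2 + 2 * sin (s * u) / s ^ 3) (cos (s * u) * (1 - u ^ 2)) u := by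
    intro u
    have hl : HasDerivAt (fun u : ℝ => s * u) s u := by simpa using (hasDerivAt_id u).const_mul s
    have hsin : HasDerivAt (fun u : ℝ => sin (s * u)) (cos (s * u) * s) u := hl.sin
    have hcos : HasDerivAt (fun u : ℝ => cos (s * u)) (-sin (s * u) * s) u := hl.cos
    have hq : HasDerivAt (fun u : ℝ => 1 - u ^ 2) (-(2 * u)) u := by
      have := (hasDerivAt_pow 2 u).const_sub 1
      simpa using this
    have h2u : HasDerivAt (fun u : ℝ => 2 * u) 2 u := by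
      simpa using (hasDerivAt_id u).const_mul (2 : ℝ)
    have h := (((hq.mul hsin).div_const s).sub ((h2u.mul hcos).div_const (s ^ 2))).add
      ((hsin.const_mul 2).div_const (s ^ 3))
    refine h.congr_deriv ?_
    field_simp
    ring
  rw [integral_eq_sub_of_hasDerivAt (fun u _ => hd u)
    ((by fun_prop : Continuous fun u : ℝ => cos (s * u) * (1 - u ^ 2)).intervalIntegrable _ _)]
  simp only [mul_one, mul_neg, sin_neg, cos_neg]
  field_simp
  ring

/-- The Fourier transform of the ball in dimension three. -/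
theorem Phi_three {s : ℝ} (hs : 0 < s) : Phi 3 s = 3 * (sin s - s * cos s) / s ^ 3 := by
  have hw : ∀ u ∈ uIcc (-1 : ℝ) 1, √(1 - u ^ 2) ^ (3 - 1) = 1 - u ^ 2 := by
    intro u hu
    rw [uIcc_of_le (by norm_num)] at hu
    have : 0 ≤ 1 - u ^ 2 := by nlinarith [hu.1, hu.2]
    exact sq_sqrt this
  have e1 : ∫ u in (-1 : ℝ)..1, cos (s * u) * √(1 - u ^ 2) ^ (3 - 1) =
      ∫ u in (-1 : ℝ)..1, cos (s * u) * (1 - u ^ 2) :=
    integral_congr fun u hu => by simp only [hw u hu]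
  have e2 : ∫ u in (-1 : ℝ)..1, √(1 - u ^ 2) ^ (3 - 1) = ∫ u in (-1 : ℝ)..1, (1 - u ^ 2) :=
    integral_congr fun u hu => by simp only [hw u hu]
  unfold Phi
  rw [e1, e2, ep3_int hs]
  have : ∫ u in (-1 : ℝ)..1, (1 - u ^ 2) = 4 / 3 := by
    rw [integral_sub (by simp)
      ((by fun_prop : Continuous fun u : ℝ => u ^ 2).intervalIntegrable _ _)]
    simp
    norm_num
  rw [this]
  field_simp

theorem Phi_three_zero : Phi 3 0 = 1 := by
  have hw : ∀ u ∈ uIcc (-1 : ℝ) 1, √(1 - u ^ 2) ^ (3 - 1) = 1 - u ^ 2 := by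
    intro u hu
    rw [uIcc_of_le (by norm_num)] at hu
    have : 0 ≤ 1 - u ^ 2 := by nlinarith [hu.1, hu.2]
    exact sq_sqrt this
  have e1 : ∫ u in (-1 : ℝ)..1, cos (0 * u) * √(1 - u ^ 2) ^ (3 - 1) =
      ∫ u in (-1 : ℝ)..1, (1 - u ^ 2) :=
    integral_congr fun u hu => by simp only [hw u hu]; simp
  have e2 : ∫ u in (-1 : ℝ)..1, √(1 - u ^ 2) ^ (3 - 1) = ∫ u in (-1 : ℝ)..1, (1 - u ^ 2) :=
    integral_congr fun u hu => by simp only [hw u hu]
  have : ∫ u in (-1 : ℝ)..1, (1 - u ^ 2) = 4 / 3 := by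
    rw [integral_sub (by simp)
      ((by fun_prop : Continuous fun u : ℝ => u ^ 2).intervalIntegrable _ _)]
    simp
    norm_num
  unfold Phi
  rw [e1, e2, this]
  norm_num

/-- Row EP3. -/
theorem ep3 : EP3 := by
  intro s hs
  rcases hs.eq_or_lt with rfl | hs0
  · rw [Phi_three_zero]; norm_num
  · rw [Phi_three hs0, le_div_iff₀ (by positivity)]
    have := ep3_ineq hs
    linarith

end

end Pool.Agent.HdGas
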