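import Pool.Agent.Lib.MF.Top

/-!
# Hard spheres: the local density in a region of any shape
-/

set_option autoImplicit false

namespace Pool.Agent.HdGas

open MeasureTheory Filter Topology Pointwise Pool.Agent.SquareWellGas Pool.Agent.KacGas
  Pool.Agent.VdwGas

noncomputable section

/-- Geometry in any region. -/
def GEOL : Prop := ∀ d : ℕ, 1 ≤ d → ∀ L : Set (Fin d → ℝ), MeasurableSet L → volume L ≠ ⊤ →
  Geo volume (Cb d) L (bv d) (kap d)

/-- Positivity in any region. -/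
def POSL : Prop := ∀ d : ℕ, 1 ≤ d → ∀ L : Set (Fin d → ℝ), MeasurableSet L → volume L ≠ ⊤ →
  Posi volume (Cb d) L (bv d) (epd d)

/-- The local density in terms of partition functions. -/
def EXCHI : Prop := ∀ (S : Type) [MeasurableSpace S] (m : Measure S) [SigmaFinite m]
  (C : S → S → Prop) (L : Set S) (b κ lam : ℝ), Geo m C L b κ → 0 ≤ lam → ∀ v : S,
    ex m C lam L (chi C (Al S) v) = Xi m C lam (L \ {z | C v z}) / Xi m C lam L

/-- The local density is nearly constant. -/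
def PROF : Prop := ∀ (S : Type) [MeasurableSpace S] (m : Measure S) [SigmaFinite m]
  (C : S → S → Prop) (L : Set S) (b κ ε lam c : ℝ), Geo m C L b κ → Posi m C L b ε → 0 ≤ lam →
  (lam * b) ^ 2 * κ ≤ 1 / 2 → lam * b * ε ≤ 1 / 2 → 0 ≤ ε → 0 ≤ c → c * Real.exp c = lam * b →
    ∫ v in L, (lam * b * ex m C lam L (chi C (Al S) v) - c) ^ 2 ∂m ≤
      200 * (lam * b) ^ 4 * (1 + lam * b) ^ 2 * κ * (m L).toReal +
        8 * (lam * b) ^ 2 * Bd m C L b c

/-- Partition function of the hard spheres of radius `a` in `L` at activity `lam`. -/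
def XiR (d : ℕ) (a lam : ℝ) (L : Set (Fin d → ℝ)) : ℝ :=
  ∑' n : ℕ, lam ^ n / n.factorial * (volume {x : Fin n → Fin d → ℝ | (∀ i, x i ∈ L) ∧
    ∀ i j, i ≠ j → (2 * a) ^ 2 ≤ ∑ k, (x i k - x j k) ^ 2}).toReal

/-- Scaling of the partition function. -/
def SCL : Prop := ∀ d : ℕ, 1 ≤ d → ∀ a lam : ℝ, 0 < a → 0 ≤ lam → ∀ L : Set (Fin d → ℝ),
  MeasurableSet L → volume L ≠ ⊤ →
    XiR d a lam L = Xi volume (Cb d) (lam * (2 * a) ^ d) ((2 * a)⁻¹ • L)

/-- The local density of hard spheres in a region of any shape. -/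
def LOCAL : Prop := ∀ d : ℕ, 1 ≤ d → ∀ a lam c : ℝ, 0 < a → 0 ≤ lam → 0 ≤ c →
  c * Real.exp c = lam * ball d a →
  (1 + lam * ball d a) ^ 3 * (3 / 4 : ℝ) ^ ((d : ℝ) / 4) ≤ 1 / 8 →
  ∀ L : Set (Fin d → ℝ), MeasurableSet L → volume L ≠ ⊤ →
    ∫ v in L, (ball d a * (lam * XiR d a lam {z | z ∈ L ∧ (2 * a) ^ 2 ≤ ∑ k, (v k - z k) ^ 2} /
      XiR d a lam L) - c) ^ 2 ≤
    200 * (lam * ball d a) ^ 4 * (1 + lam * ball d a) ^ 2 * (3 / 4 : ℝ) ^ ((d : ℝ) / 2) *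
      (volume L).toReal + 8 * (lam * ball d a) ^ 2 * ∫ v in L, c * (1 -
        (volume {z | z ∈ L ∧ ∑ k, (v k - z k) ^ 2 < (2 * a) ^ 2}).toReal / ball d a)

end

end Pool.Agent.HdGas
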