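import Pool.Agent.Lib.MF.Markov
import Pool.Agent.Lib.MF.Top2

/-!
# The local density as a quotient of partition functions
-/

set_option autoImplicit false

namespace Pool.Agent.HdGas

open MeasureTheory Filter Topology

theorem exchi_of (hB : BAS) (hM : MEAS) : EXCHI := by
  classical
  intro S _ m _ C L b κ lam hG hlam v
  obtain ⟨hmhc, hfp, hfg, hXi1, -, -⟩ := hB S m C L lam hG.meas hG.measL hG.fin hlam
  obtain ⟨hmeas, hXim⟩ := hM S m C L lam hG.meas hG.measL hG.fin hlam
  obtain ⟨hchi, -, -, hTm, -⟩ := hmeas (Al S) MeasurableSet.univ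
  have hchim : Measurable fun ω => chi C (Al S) v ω :=
    hchi.comp (measurable_prodMk_left (x := v))
  have hV : MeasurableSet {z | C v z} := (measurable_prodMk_left (x := v)) hG.meas
  have hA : MeasurableSet (L \ {z | C v z}) := hG.measL.diff hV
  have h1m : Measurable ({ω : Om S | hc C ω}.indicator (fun _ => (1 : ENNReal))) :=
    measurable_const.indicator hmhc
  unfold ex
  congr 1
  rw [integral_eq_lintegral_of_nonneg_ae (ae_of_all _ fun ω => chi_nonneg C (Al S) v ω)
    hchim.aestronglyMeasurable]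
  unfold Xi
  congr 1
  have e1 : gib m C lam (L \ {z | C v z}) Set.univ =
      ∫⁻ ω, {ω : Om S | hc C ω}.indicator (fun _ => (1 : ENNReal)) ω
        ∂pois m lam (L \ {z | C v z}) := by
    rw [lintegral_indicator_const hmhc, one_mul]
    unfold gib
    rw [Measure.restrict_apply_univ]
  rw [e1, ← Mark.lint_sub m lam hA Set.sdiff_subset h1m]
  unfold gib
  rw [← lintegral_indicator hmhc]
  refine lintegral_congr_ae ?_
  filter_upwards [Mark.ae_mem m lam hG.measL] with ω hω
  by_cases a1 : hc C ω
  · by_cases a2 : ∀ i, ω.2 i ∈ L \ {z | C v z}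
    · have a3 : fr C (Al S) v ω := fun i _ => (a2 i).2
      rw [Set.indicator_of_mem (s := {ω : Om S | ∀ i, ω.2 i ∈ L \ {z | C v z}}) (by exact a2)]
      simp [Set.indicator_apply, a1, chi, a3]
    · have a3 : ¬ fr C (Al S) v ω := fun h => a2 fun i => ⟨hω i, h i trivial⟩
      rw [Set.indicator_of_notMem (s := {ω : Om S | ∀ i, ω.2 i ∈ L \ {z | C v z}}) (by exact a2)]
      simp [Set.indicator_apply, chi, a3]
  · simp [Set.indicator_apply, a1]

end Pool.Agent.HdGas
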