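import Pool.Agent.Lib.MF.Top
import Pool.Agent.Lib.MP_09cbbd_vw.End

/-!
# Mean field theory for hard spheres in high dimension: the final step
-/

set_option autoImplicit false

namespace Pool.Agent.HdGas

open MeasureTheory Filter Topology Pointwise Pool.Agent.SquareWellGas Pool.Agent.KacGas Pool.Agent.VdwGas
  Pool.Agent.Vdw

theorem ball_eq (d : ℕ) {a : ℝ} (ha : 0 < a) : ball d a = (2 * a) ^ d * bv d := by
  unfold ball bv
  have hs : 0 < 2 * a := by positivity
  have e : {x : Fin d → ℝ | ∑ k, x k ^ 2 < (2 * a) ^ 2} =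
      (2 * a) • {x : Fin d → ℝ | ∑ k, x k ^ 2 < 1} := by
    ext x
    rw [Set.mem_smul_set_iff_inv_smul_mem₀ hs.ne']
    have e1 : ∑ k, ((2 * a)⁻¹ • x) k ^ 2 = ((2 * a) ^ 2)⁻¹ * ∑ k, x k ^ 2 := by
      rw [Finset.mul_sum]
      refine Finset.sum_congr rfl fun k _ => ?_
      rw [Pi.smul_apply, smul_eq_mul, mul_pow, inv_pow]
    rw [Set.mem_ofPred_eq, Set.mem_ofPred_eq, e1, inv_mul_lt_iff₀ (by positivity), mul_one]
  rw [e, Measure.addHaar_smul, ENNReal.toReal_mul, Module.finrank_fin_fun,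
    abs_of_pos (by positivity), ENNReal.toReal_ofReal (by positivity)]

theorem rpow_eq (d : ℕ) : (3 / 4 : ℝ) ^ ((d : ℝ) / 4) = √(kap d) := by
  have h1 : kap d = ((3 / 4 : ℝ) ^ ((d : ℝ) / 4)) ^ 2 := by
    unfold kap
    have h2 : √3 / 2 = (3 / 4 : ℝ) ^ (1 / 2 : ℝ) := by
      rw [← Real.sqrt_eq_rpow, Real.sqrt_div (by norm_num)]
      congr 1
      rw [show (4 : ℝ) = 2 ^ 2 by norm_num, Real.sqrt_sq (by norm_num)]
    rw [h2, ← Real.rpow_natCast, ← Real.rpow_natCast, ← Real.rpow_mul (by norm_num),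
      ← Real.rpow_mul (by norm_num)]
    congr 1
    push_cast
    ring
  rw [h1, Real.sqrt_sq (by positivity)]

theorem final_of (h1 : DENS) (h2 : FREE) (h3 : GEOB) : THEOREM := by
  obtain ⟨d0, h2⟩ := h2
  refine ⟨d0, fun d hd a ha => ?_⟩
  obtain ⟨g, r, hF, hconc, -, -⟩ := exists_F (d := d) hd
  obtain ⟨s, hs⟩ : ∃ s, s = 2 * a := ⟨_, rfl⟩
  have hs0 : 0 < s := by rw [hs]; positivity
  have hsd : 0 < s ^ d := by positivity
  have has : a / s = 1 / 2 := by rw [hs]; field_simp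
  have hb : 0 < bv d := (h3 d hd 1).b_pos
  have hF' : IsF d a (fun _ => 0) (sc d s g) (r / s ^ d) := by
    refine IsF.scale hs0 ?_
    rw [has]
    exact hF
  have hball : ball d a = s ^ d * bv d := by rw [ball_eq d ha, hs]
  have hsc : ∀ μ x : ℝ, sc d s g x + μ * x =
      (g (x * s ^ d) + (μ + d * Real.log s) * (x * s ^ d)) / s ^ d := by
    intro μ x
    unfold sc
    field_simp
    ring
  have hexp : ∀ μ : ℝ, Real.exp (μ + d * Real.log s) * bv d = Real.exp μ * ball d a := by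
    intro μ
    rw [Real.exp_add, hball, mul_assoc]
    congr 2
    rw [Real.exp_nat_mul, Real.exp_log hs0]
  have hI : ∀ x : ℝ, x ∈ Set.Ioo 0 (r / s ^ d) ↔ x * s ^ d ∈ Set.Ioo 0 r := by
    intro x
    rw [Set.mem_Ioo, Set.mem_Ioo, lt_div_iff₀ hsd, mul_pos_iff_of_pos_right hsd]
  have hI' : ∀ y : ℝ, y ∈ Set.Ioo 0 r → y / s ^ d ∈ Set.Ioo 0 (r / s ^ d) := by
    intro y hy
    rw [hI, div_mul_cancel₀ _ hsd.ne']
    exact hy
  have hρb : ∀ ρ : ℝ, ρ * ball d a = ρ * s ^ d * bv d := by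
    intro ρ; rw [hball]; ring
  refine ⟨sc d s g, r / s ^ d, hF', ?_, fun hd0 => ?_⟩
  · intro μ c ρ hc hct ht hρ hmax
    rw [rpow_eq] at ht ⊢
    rw [← hexp] at hct ht ⊢
    rw [hρb]
    refine h1 d hd g r hF (μ + d * Real.log s) c (ρ * s ^ d) hc hct ht ((hI ρ).mp hρ) ?_
    intro y hy
    have := hmax _ (hI' y hy)
    rw [hsc, hsc, div_mul_cancel₀ _ hsd.ne', div_le_div_iff_of_pos_right hsd] at this
    exact this
  · obtain ⟨k1, k2, k3⟩ := h2 d hd0 g r hF hconc
    refine ⟨?_, ?_, ?_⟩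
    · rw [hρb, div_mul_cancel₀ _ hsd.ne']
      exact k1
    · intro ρ hρ hρd
      rw [hρb] at hρd
      have g1 := k2 (ρ * s ^ d) (by positivity) hρd
      have e : sc d s g ρ - (ρ - ρ * Real.log ρ - ball d a / 2 * ρ ^ 2) =
          (g (ρ * s ^ d) - (ρ * s ^ d - ρ * s ^ d * Real.log (ρ * s ^ d) -
            bv d / 2 * (ρ * s ^ d) ^ 2)) / s ^ d := by
        rw [hball, Real.log_mul hρ.ne' hsd.ne', Real.log_pow]
        unfold sc
        field_simp
        ring
      rw [e, abs_div, abs_of_pos hsd, hball, mul_comm (s ^ d) (bv d), ← div_div]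
      gcongr
    · intro m q ρ₁ ρ₂ h01 h12 h2r hρd hle heq1 heq2
      rw [hρb] at hρd
      have e2 : (ρ₂ - ρ₁) * ball d a = (ρ₂ * s ^ d - ρ₁ * s ^ d) * bv d := by rw [hball]; ring
      rw [e2]
      have hcv : ∀ x : ℝ, sc d s g x ≤ m * x + q ↔
          g (x * s ^ d) ≤ (m - d * Real.log s) * (x * s ^ d) + q * s ^ d := by
        intro x
        unfold sc
        rw [← sub_nonneg, ← sub_nonneg (b := g (x * s ^ d))]
        have e3 : (m - d * Real.log s) * (x * s ^ d) + q * s ^ d - g (x * s ^ d) =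
            (m * x + q - (x * (d * Real.log s) + g (x * s ^ d) / s ^ d)) * s ^ d := by
          field_simp
          ring
        rw [e3, mul_nonneg_iff_of_pos_right hsd]
      have hcve : ∀ x : ℝ, sc d s g x = m * x + q →
          g (x * s ^ d) = (m - d * Real.log s) * (x * s ^ d) + q * s ^ d := by
        intro x hx
        unfold sc at hx
        have : g (x * s ^ d) / s ^ d = m * x + q - x * (d * Real.log s) := by linarith
        rw [div_eq_iff hsd.ne'] at this
        rw [this]; ring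
      refine k3 (m - d * Real.log s) (q * s ^ d) (ρ₁ * s ^ d) (ρ₂ * s ^ d) (by positivity)
        (by gcongr) ?_ hρd ?_ (hcve _ heq1) (hcve _ heq2)
      · rwa [lt_div_iff₀ hsd] at h2r
      · intro y hy
        have := (hcv _).mp (hle _ (hI' y hy))
        rwa [div_mul_cancel₀ _ hsd.ne'] at this

end Pool.Agent.HdGas
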