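import Mathlib

/-!
# Project MF (MP_09cbbd), row FOU, part 1 (helper1): the ordinary differential equation

`C' = -S`, `s S' = s C - (d+1) S`: then `C ≥ - √2 e^(-d/8) C(0)` on `[0, ∞)`.
-/

set_option autoImplicit false

namespace Pool.Agent.MF.Fou

open Set Real

noncomputable section

variable {d : ℕ} {C S K : ℝ → ℝ}

/-- the differential system. -/
structure Sys (d : ℕ) (C S K : ℝ → ℝ) : Prop where
  hC : ∀ s, HasDerivAt C (-S s) s
  hS : ∀ s, HasDerivAt S (K s) s
  ode : ∀ s, s * K s = s * C s - (d + 1) * S s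
  h0 : 0 < C 0

theorem Sys.S0 (h : Sys d C S K) : S 0 = 0 := by
  have h1 := h.ode 0
  have h2 : ((d : ℝ) + 1) ≠ 0 := by positivity
  simp only [zero_mul, zero_sub] at h1
  have h3 : ((d : ℝ) + 1) * S 0 = 0 := by linarith
  exact (mul_eq_zero.1 h3).resolve_left h2

/-- the derivative of `s^(d+1) S`. -/
theorem Sys.hP (h : Sys d C S K) (s : ℝ) :
    HasDerivAt (fun s => s ^ (d + 1) * S s) (s ^ (d + 1) * C s) s := by
  have h1 := (hasDerivAt_pow (d + 1) s).mul (h.hS s)
  refine h1.congr_deriv ?_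
  have h2 := h.ode s
  simp only [Nat.add_sub_cancel, Nat.cast_add, Nat.cast_one]
  have h3 : s ^ (d + 1) * K s = s ^ d * (s * K s) := by ring
  rw [h3, h2]
  ring

/-- if `C ≥ 0` on `[0, t]` then `S ≥ 0` there. -/
theorem Sys.S_nonneg (h : Sys d C S K) {t : ℝ} (hC : ∀ s ∈ Icc 0 t, 0 ≤ C s) :
    ∀ s ∈ Icc 0 t, 0 ≤ S s := by
  intro s hs
  rcases eq_or_lt_of_le hs.1 with h0 | h0
  · rw [← h0, h.S0]
  have hm : MonotoneOn (fun s => s ^ (d + 1) * S s) (Icc 0 t) := by
    refine monotoneOn_of_deriv_nonneg (convex_Icc 0 t)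
      (fun x _ => (h.hP x).continuousAt.continuousWithinAt)
      (fun x _ => (h.hP x).differentiableAt.differentiableWithinAt) fun x hx => ?_
    rw [(h.hP x).deriv]
    rw [interior_Icc] at hx
    exact mul_nonneg (pow_nonneg hx.1.le _) (hC x ⟨hx.1.le, hx.2.le⟩)
  have h1 := hm ⟨le_refl 0, hs.1.trans hs.2⟩ hs hs.1
  simp only [ne_eq, Nat.add_eq_zero_iff, one_ne_zero, and_false, not_false_eq_true, zero_pow,
    zero_mul] at h1
  have h2 : 0 < s ^ (d + 1) := pow_pos h0 _
  exact (mul_nonneg_iff_of_pos_left h2).1 h1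

/-- if `S ≥ 0` on `[0, t]`, `t ≤ (d+1)/2`, then `C - S > 0` there. -/
theorem Sys.u_pos (h : Sys d C S K) {t : ℝ} (ht : t ≤ (d + 1) / 2)
    (hS : ∀ s ∈ Icc 0 t, 0 ≤ S s) : ∀ s ∈ Icc 0 t, 0 < C s - S s := by
  intro s hs
  have hd : ∀ x, HasDerivAt (fun x => exp x * (C x - S x))
      (exp x * (C x - S x) + exp x * (-S x - K x)) x := fun x =>
    (Real.hasDerivAt_exp x).mul ((h.hC x).sub (h.hS x))
  have hm : MonotoneOn (fun x => exp x * (C x - S x)) (Icc 0 t) := by
    refine monotoneOn_of_deriv_nonneg (convex_Icc 0 t)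
      (fun x _ => (hd x).continuousAt.continuousWithinAt)
      (fun x _ => (hd x).differentiableAt.differentiableWithinAt) fun x hx => ?_
    rw [(hd x).deriv]
    rw [interior_Icc] at hx
    have h1 := h.ode x
    have h2 : 0 ≤ S x := hS x ⟨hx.1.le, hx.2.le⟩
    have h3 : 0 ≤ x * (C x - 2 * S x - K x) := by
      have h4 : x * (C x - 2 * S x - K x) = (d + 1 - 2 * x) * S x := by linarith
      rw [h4]
      refine mul_nonneg ?_ h2
      have := hx.2
      linarith
    have h5 : 0 ≤ C x - 2 * S x - K x := (mul_nonneg_iff_of_pos_left hx.1).1 h3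
    have h6 : exp x * (C x - S x) + exp x * (-S x - K x) = exp x * (C x - 2 * S x - K x) := by ring
    rw [h6]
    exact mul_nonneg (exp_pos x).le h5
  have h1 := hm ⟨le_refl 0, hs.1.trans hs.2⟩ hs hs.1
  simp only [exp_zero, h.S0, sub_zero, one_mul] at h1
  have h2 : 0 < exp s * (C s - S s) := lt_of_lt_of_le h.h0 h1
  exact (mul_pos_iff_of_pos_left (exp_pos s)).1 h2

/-- `C > 0` on `[0, (d+1)/2]`. -/
theorem Sys.C_pos (h : Sys d C S K) : ∀ s ∈ Icc (0 : ℝ) ((d + 1) / 2), 0 < C s := by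
  have hcont : Continuous C := continuous_iff_continuousAt.2 fun x => (h.hC x).continuousAt
  by_contra hne
  push Not at hne
  obtain ⟨s₀, hs₀, hC₀⟩ := hne
  set A : Set ℝ := {s ∈ Icc (0 : ℝ) ((d + 1) / 2) | C s ≤ 0} with hA
  have hAc : IsClosed A := by
    have : A = Icc (0 : ℝ) ((d + 1) / 2) ∩ C ⁻¹' Iic 0 := rfl
    rw [this]
    exact isClosed_Icc.inter (isClosed_Iic.preimage hcont)
  have hAne : A.Nonempty := ⟨s₀, hs₀, hC₀⟩
  have hAb : BddBelow A := ⟨0, fun s hs => hs.1.1⟩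
  have hmem : sInf A ∈ A := hAc.csInf_mem hAne hAb
  set t := sInf A with ht
  have hlt : ∀ s, 0 ≤ s → s < t → 0 < C s := by
    intro s hs0 hst
    by_contra hle
    push Not at hle
    have : s ∈ A := ⟨⟨hs0, hst.le.trans hmem.1.2⟩, hle⟩
    exact absurd (csInf_le hAb this) (not_le.2 hst)
  have ht0 : 0 < t := by
    rcases eq_or_lt_of_le hmem.1.1 with h1 | h1
    · exfalso
      have := hmem.2
      rw [← h1] at this
      exact absurd h.h0 (not_lt.2 this)
    · exact h1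
  have hCt : 0 ≤ C t := by
    have h1 : t ∈ closure (Ico 0 t) := by
      rw [closure_Ico ht0.ne]
      exact ⟨ht0.le, le_refl t⟩
    have h2 : Ico 0 t ⊆ C ⁻¹' Ici 0 := fun s hs => (hlt s hs.1 hs.2).le
    exact closure_minimal h2 (isClosed_Ici.preimage hcont) h1
  have hCn : ∀ s ∈ Icc 0 t, 0 ≤ C s := by
    intro s hs
    rcases eq_or_lt_of_le hs.2 with h1 | h1
    · rw [h1]; exact hCt
    · exact (hlt s hs.1 h1).le
  have hSn := h.S_nonneg hCn
  have hu := h.u_pos hmem.1.2 hSn t ⟨ht0.le, le_refl t⟩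
  have hSt := hSn t ⟨ht0.le, le_refl t⟩
  have := hmem.2
  linarith

/-- `C((d+1)/2) ≤ e^(-d/8) C(0)`. -/
theorem Sys.C_le (h : Sys d C S K) : C ((d + 1) / 2) ≤ exp (-(d / 8)) * C 0 := by
  have hCp := h.C_pos
  have hSn := h.S_nonneg fun s hs => (hCp s hs).le
  set t : ℝ := (d + 1) / 2 with ht
  have ht0 : 0 < t := by positivity
  have hd2 : (0 : ℝ) < d + 2 := by positivity
  -- `S ≥ s C / (d+2)`
  have hq : ∀ s ∈ Icc 0 t, 0 ≤ S s - s * C s / (d + 2) := by
    intro s hs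
    rcases eq_or_lt_of_le hs.1 with h0 | h0
    · rw [← h0, h.S0]; simp
    have hder : ∀ x, HasDerivAt (fun x => x ^ (d + 1) * S x - x ^ (d + 2) * C x / (d + 2))
        (x ^ (d + 2) * S x / (d + 2)) x := by
      intro x
      have h1 := (h.hP x).sub (((hasDerivAt_pow (d + 2) x).mul (h.hC x)).div_const ((d : ℝ) + 2))
      refine h1.congr_deriv ?_
      simp only [Nat.cast_add, Nat.cast_ofNat]
      have : d + 2 - 1 = d + 1 := rfl
      rw [this]
      field_simp
      ring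
    have hm : MonotoneOn (fun x => x ^ (d + 1) * S x - x ^ (d + 2) * C x / (d + 2)) (Icc 0 t) := by
      refine monotoneOn_of_deriv_nonneg (convex_Icc 0 t)
        (fun x _ => (hder x).continuousAt.continuousWithinAt)
        (fun x _ => (hder x).differentiableAt.differentiableWithinAt) fun x hx => ?_
      rw [(hder x).deriv]
      rw [interior_Icc] at hx
      exact div_nonneg (mul_nonneg (pow_nonneg hx.1.le _) (hSn x ⟨hx.1.le, hx.2.le⟩)) hd2.le
    have h1 := hm ⟨le_refl 0, hs.1.trans hs.2⟩ hs hs.1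
    simp only [ne_eq, Nat.add_eq_zero_iff, one_ne_zero, and_false, not_false_eq_true, zero_pow,
      zero_mul, OfNat.ofNat_ne_zero, zero_div, sub_zero] at h1
    have h2 : s ^ (d + 1) * S s - s ^ (d + 2) * C s / (d + 2) =
        s ^ (d + 1) * (S s - s * C s / (d + 2)) := by ring
    rw [h2] at h1
    exact (mul_nonneg_iff_of_pos_left (pow_pos h0 _)).1 h1
  have hder2 : ∀ x, HasDerivAt (fun x => C x * exp (x ^ 2 / (2 * (d + 2))))
      (-S x * exp (x ^ 2 / (2 * (d + 2))) +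
        C x * (exp (x ^ 2 / (2 * (d + 2))) * (2 * x / (2 * (d + 2))))) x := by
    intro x
    have h1 : HasDerivAt (fun x : ℝ => x ^ 2 / (2 * ((d : ℝ) + 2))) (2 * x / (2 * (d + 2))) x := by
      have := (hasDerivAt_pow 2 x).div_const (2 * ((d : ℝ) + 2))
      refine this.congr_deriv ?_
      simp
    exact (h.hC x).mul h1.exp
  have hm : AntitoneOn (fun x => C x * exp (x ^ 2 / (2 * (d + 2)))) (Icc 0 t) := by
    refine antitoneOn_of_deriv_nonpos (convex_Icc 0 t)
      (fun x _ => (hder2 x).continuousAt.continuousWithinAt)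
      (fun x _ => (hder2 x).differentiableAt.differentiableWithinAt) fun x hx => ?_
    rw [(hder2 x).deriv]
    rw [interior_Icc] at hx
    have h1 := hq x ⟨hx.1.le, hx.2.le⟩
    have h2 : -S x * exp (x ^ 2 / (2 * (d + 2))) +
        C x * (exp (x ^ 2 / (2 * (d + 2))) * (2 * x / (2 * (d + 2)))) =
        -(exp (x ^ 2 / (2 * (d + 2))) * (S x - x * C x / (d + 2))) := by
      field_simp
      ring
    rw [h2]
    exact neg_nonpos.2 (mul_nonneg (exp_pos _).le h1)
  have h1 := hm ⟨le_refl 0, ht0.le⟩ ⟨ht0.le, le_refl t⟩ ht0.le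
  simp only [ne_eq, OfNat.ofNat_ne_zero, not_false_eq_true, zero_pow, zero_div, exp_zero,
    mul_one] at h1
  have h2 : (d : ℝ) / 8 ≤ t ^ 2 / (2 * (d + 2)) := by
    rw [ht, le_div_iff₀ (by positivity)]
    ring_nf
    nlinarith [sq_nonneg (d : ℝ)]
  have h3 : exp ((d : ℝ) / 8) ≤ exp (t ^ 2 / (2 * (d + 2))) := exp_le_exp.2 h2
  have h4 : C t * exp ((d : ℝ) / 8) ≤ C 0 :=
    (mul_le_mul_of_nonneg_left h3 (hCp t ⟨ht0.le, le_refl t⟩).le).trans h1
  rw [exp_neg, inv_mul_eq_div, le_div_iff₀ (exp_pos _)]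
  exact h4

/-- **ODE**: the lower bound. -/
theorem Sys.bound (h : Sys d C S K) (s : ℝ) (hs : 0 ≤ s) :
    -(√2 * exp (-(d / 8))) * C 0 ≤ C s := by
  set t : ℝ := (d + 1) / 2 with ht
  have ht0 : 0 < t := by positivity
  have hneg : -(√2 * exp (-((d : ℝ) / 8))) * C 0 ≤ 0 := by
    have := h.h0
    have h1 : 0 ≤ √2 * exp (-((d : ℝ) / 8)) := by positivity
    nlinarith
  by_cases hst : s ≤ t
  · exact hneg.trans (h.C_pos s ⟨hs, hst⟩).le
  push Not at hst
  have hCp := h.C_pos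
  have hSn := h.S_nonneg fun s hs => (hCp s hs).le
  have hu := h.u_pos (le_refl _) hSn t ⟨ht0.le, le_refl t⟩
  have hder : ∀ x, HasDerivAt (fun x => C x ^ 2 + S x ^ 2)
      (2 * C x * (-S x) + 2 * S x * K x) x := by
    intro x
    have h1 := ((h.hC x).pow 2).add ((h.hS x).pow 2)
    refine h1.congr_deriv ?_
    simp
  have hm : AntitoneOn (fun x => C x ^ 2 + S x ^ 2) (Ici t) := by
    refine antitoneOn_of_deriv_nonpos (convex_Ici t)
      (fun x _ => (hder x).continuousAt.continuousWithinAt)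
      (fun x _ => (hder x).differentiableAt.differentiableWithinAt) fun x hx => ?_
    rw [(hder x).deriv]
    rw [interior_Ici] at hx
    have hx0 : 0 < x := ht0.trans hx
    have h1 := h.ode x
    have h2 : x * (2 * C x * (-S x) + 2 * S x * K x) = -(2 * (d + 1) * S x ^ 2) := by
      have : x * (2 * C x * (-S x) + 2 * S x * K x) = 2 * S x * (x * K x) - 2 * S x * (x * C x) := by
        ring
      rw [this, h1]
      ring
    by_contra hpos
    push Not at hpos
    have h3 := mul_pos hx0 hpos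
    rw [h2] at h3
    have : 0 ≤ 2 * ((d : ℝ) + 1) * S x ^ 2 := by positivity
    linarith
  have h1 := hm (mem_Ici.2 (le_refl t)) (mem_Ici.2 hst.le) hst.le
  simp only at h1
  have hSt := hSn t ⟨ht0.le, le_refl t⟩
  have hCt := h.C_le
  rw [← ht] at hCt
  have hCt0 := hCp t ⟨ht0.le, le_refl t⟩
  have h2 : C s ^ 2 ≤ (√2 * (exp (-((d : ℝ) / 8)) * C 0)) ^ 2 := by
    rw [mul_pow, Real.sq_sqrt (by norm_num)]
    have h3 : S t ^ 2 ≤ C t ^ 2 := by nlinarith
    have h4 : C t ^ 2 ≤ (exp (-((d : ℝ) / 8)) * C 0) ^ 2 := by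
      apply pow_le_pow_left₀ hCt0.le hCt
    nlinarith [sq_nonneg (S s)]
  have h3 := abs_le_of_sq_le_sq h2 (by
    have := h.h0
    positivity)
  have h4 := (abs_le.1 h3).1
  linarith

end

end Pool.Agent.MF.Fou
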