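import Mathlib

/-!
# Project MF, row FOU, second half (helper62), part 1: a lower bound for a quadratic form

If the Fourier transform of the kernel `k` is at least `-m`, then
`∫∫ g(u) g(v) k(u - v) ≥ -m ∫ g²`.
-/

set_option autoImplicit false

namespace Pool.Agent.MF

open MeasureTheory Real Filter Topology FourierTransform Convolution Complex Module

open scoped RealInnerProductSpace

noncomputable section

variable {V : Type*} [NormedAddCommGroup V] [InnerProductSpace ℝ V] [MeasurableSpace V]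
  [BorelSpace V] [FiniteDimensional ℝ V]

namespace FouQ

/-- the Gaussian with mass one, as the Fourier transform of a Gaussian -/
theorem gauss_flip {f : V → ℂ} (hf : Integrable f) {c : ℝ} (hc : 0 < c) :
    ∫ w : V, ((π * c : ℂ) ^ (finrank ℝ V / 2 : ℂ) * cexp (-π ^ 2 * c * ‖(0 : V) - w‖ ^ 2)) • f w =
      ∫ w : V, cexp (-(c : ℂ)⁻¹ * ‖w‖ ^ 2) • (𝓕 f) w := by
  have hb : 0 < ((c : ℂ)⁻¹).re := by
    rw [← Complex.ofReal_inv, Complex.ofReal_re]
    exact inv_pos.2 hc
  have J : Integrable (fun w : V => cexp (-(c : ℂ)⁻¹ * ‖w‖ ^ 2)) := by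
    have := GaussianFourier.integrable_cexp_neg_mul_sq_norm_add hb 0 (0 : V)
    simpa using this
  have h := VectorFourier.integral_fourierIntegral_smul_eq_flip (L := innerₗ V)
    Real.continuous_fourierChar continuous_inner J hf
  have h2 : ∀ w : V, 𝓕 (fun w : V => cexp (-(c : ℂ)⁻¹ * ‖w‖ ^ 2)) w =
      (π * c : ℂ) ^ (finrank ℝ V / 2 : ℂ) * cexp (-π ^ 2 * c * ‖(0 : V) - w‖ ^ 2) := by
    intro w
    rw [fourier_gaussian_innerProductSpace hb]
    congr 1
    · congr 1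
      field_simp
    · congr 1
      rw [zero_sub, norm_neg]
      field_simp
  have h3 : ∫ w : V, 𝓕 (fun w : V => cexp (-(c : ℂ)⁻¹ * ‖w‖ ^ 2)) w • f w =
      ∫ w : V, cexp (-(c : ℂ)⁻¹ * ‖w‖ ^ 2) • (𝓕 f) w := by
    simpa using! h
  rw [← h3]
  exact integral_congr_ae (Eventually.of_forall fun w => by simp only [h2])

/-- the value at `0` by Gaussian summation -/
theorem tendsto_gauss {f : V → ℂ} (hf : Integrable f) (h0 : ContinuousAt f 0) :
    Tendsto (fun c : ℝ => ∫ w : V, cexp (-(c : ℂ)⁻¹ * ‖w‖ ^ 2) • (𝓕 f) w) atTop (𝓝 (f 0)) := by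
  have h := Real.tendsto_integral_gaussian_smul' hf h0
  refine h.congr' ?_
  filter_upwards [Ioi_mem_atTop 0] with c (hc : 0 < c)
  exact gauss_flip hf hc

theorem norm_gauss_le {f : V → ℂ} (hf : Integrable f) {M : ℝ} (hM : ∀ w, ‖f w‖ ≤ M) {c : ℝ}
    (hc : 0 < c) : ‖∫ w : V, cexp (-(c : ℂ)⁻¹ * ‖w‖ ^ 2) • (𝓕 f) w‖ ≤ M := by
  rw [← gauss_flip hf hc]
  have hn : ∀ w : V, ‖((π * c : ℂ) ^ (finrank ℝ V / 2 : ℂ) *
      cexp (-π ^ 2 * c * ‖(0 : V) - w‖ ^ 2))‖ =
      (π * c) ^ (finrank ℝ V / 2 : ℝ) * rexp (-(π ^ 2 * c) * ‖w‖ ^ 2) := by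
    intro w
    rw [norm_mul, Complex.norm_exp, zero_sub, norm_neg]
    congr 1
    · rw [← Complex.ofReal_mul, ← Complex.ofReal_natCast, show ((finrank ℝ V : ℝ) : ℂ) / 2 =
        ((finrank ℝ V / 2 : ℝ) : ℂ) by push_cast; ring, Complex.norm_cpow_eq_rpow_re_of_pos
        (by positivity), Complex.ofReal_re]
    · congr 1
      norm_cast
      ring
  have hI := GaussianFourier.integral_rexp_neg_mul_sq_norm (V := V) (b := π ^ 2 * c)
    (by positivity)
  have hint : Integrable fun w : V => rexp (-(π ^ 2 * c) * ‖w‖ ^ 2) := by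
    by_contra hcon
    rw [integral_undef hcon] at hI
    have : 0 < (π / (π ^ 2 * c)) ^ (finrank ℝ V / 2 : ℝ) := by positivity
    linarith
  have h1 : ∫ w : V, (π * c) ^ (finrank ℝ V / 2 : ℝ) * rexp (-(π ^ 2 * c) * ‖w‖ ^ 2) = 1 := by
    rw [integral_const_mul, hI, ← Real.mul_rpow (by positivity) (by positivity)]
    have : π * c * (π / (π ^ 2 * c)) = 1 := by
      have := Real.pi_pos.ne'
      field_simp
    rw [this, Real.one_rpow]
  calc ‖∫ w : V, ((π * c : ℂ) ^ (finrank ℝ V / 2 : ℂ) *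
        cexp (-π ^ 2 * c * ‖(0 : V) - w‖ ^ 2)) • f w‖
      ≤ ∫ w : V, ‖((π * c : ℂ) ^ (finrank ℝ V / 2 : ℂ) *
        cexp (-π ^ 2 * c * ‖(0 : V) - w‖ ^ 2)) • f w‖ := norm_integral_le_integral_norm _
    _ ≤ ∫ w : V, (π * c) ^ (finrank ℝ V / 2 : ℝ) * rexp (-(π ^ 2 * c) * ‖w‖ ^ 2) * M := by
        refine integral_mono_of_nonneg (Eventually.of_forall fun w => norm_nonneg _)
          ((hint.const_mul _).mul_const _) (Eventually.of_forall fun w => ?_)
        simp only []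
        rw [norm_smul, hn]
        exact mul_le_mul_of_nonneg_left (hM w) (by positivity)
    _ = M := by rw [integral_mul_const, h1, one_mul]

theorem fourier_neg_real {g : V → ℝ} (w : V) :
    𝓕 (fun x : V => ((g (-x) : ℝ) : ℂ)) w =
      (starRingEnd ℂ) (𝓕 (fun x : V => ((g x : ℝ) : ℂ)) w) := by
  rw [Real.fourier_eq', Real.fourier_eq', ← integral_conj,
    ← integral_neg_eq_self (fun x : V => cexp (↑(-2 * π * ⟪x, w⟫) * I) • ((g (-x) : ℝ) : ℂ))]
  refine integral_congr_ae (Eventually.of_forall fun x => ?_)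
  simp only [neg_neg, smul_eq_mul, map_mul, Complex.conj_ofReal]
  rw [← Complex.exp_conj]
  congr 2
  simp [inner_neg_left, Complex.conj_ofNat]

end FouQ

open FouQ

/-- **Quadratic form of a kernel with Fourier transform `≥ -m`.** -/
theorem quad_ge {k : V → ℝ} (hk : Integrable k)
    (hkc : Tendsto (fun z : V => ∫ x, |k (z + x) - k x|) (𝓝 0) (𝓝 0)) {m : ℝ} (hm : 0 ≤ m)
    (hF : ∀ ξ : V, -m ≤ (𝓕 (fun x : V => ((k x : ℝ) : ℂ)) ξ).re) {g : V → ℝ}
    (hg : Integrable g) {C : ℝ} (hgb : ∀ x, |g x| ≤ C) :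
    -(m * ∫ x, g x ^ 2) ≤ ∫ u, g u * ∫ v, k (u - v) * g v := by
  set kc : V → ℂ := fun x => ((k x : ℝ) : ℂ) with hkc'
  set gc : V → ℂ := fun x => ((g x : ℝ) : ℂ) with hgc'
  set gr : V → ℂ := fun x => ((g (-x) : ℝ) : ℂ) with hgr'
  have hC : 0 ≤ C := (abs_nonneg _).trans (hgb 0)
  have ikc : Integrable kc := hk.ofReal
  have igc : Integrable gc := hg.ofReal
  have igr : Integrable gr := hg.comp_neg.ofReal
  set h : V → ℂ := kc ⋆[ContinuousLinearMap.mul ℂ ℂ, volume] gc with hh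
  have ih : Integrable h := ikc.integrable_convolution _ igc
  have hval : ∀ x, h x = ∫ t, kc t * gc (x - t) := fun x => rfl
  have hval2 : ∀ x, h x = ∫ t, kc (x - t) * gc t := by
    intro x
    rw [hval, ← integral_sub_left_eq_self _ _ x]
    simp only [sub_sub_cancel]
  have hgcb : ∀ x, ‖gc x‖ ≤ C := fun x => by
    rw [hgc']
    simp only [Complex.norm_real, Real.norm_eq_abs]
    exact hgb x
  have hbd : ∀ x, ‖h x‖ ≤ ∫ t, |k t| * C := by
    intro x
    rw [hval]
    refine norm_integral_le_of_norm_le (hk.abs.mul_const C) (Eventually.of_forall fun t => ?_)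
    rw [norm_mul]
    refine mul_le_mul (le_of_eq ?_) (hgcb _) (norm_nonneg _) (abs_nonneg _)
    rw [hkc']
    simp only [Complex.norm_real, Real.norm_eq_abs]
  have hint : ∀ x, Integrable fun t => kc t * gc (x - t) := by
    intro x
    refine ikc.mul_bdd ?_ (Eventually.of_forall fun t => hgcb (x - t))
    exact ((igc.comp_sub_left x).aestronglyMeasurable)
  have hcont : Continuous h := by
    rw [continuous_iff_continuousAt]
    intro x
    have key : ∀ z, ‖h (x + z) - h x‖ ≤ (∫ t, |k (z + t) - k t|) * C := by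
      intro z
      have e1 : h (x + z) = ∫ t, kc (z + t) * gc (x - t) := by
        rw [hval, ← integral_add_left_eq_self _ z]
        refine integral_congr_ae (Eventually.of_forall fun t => ?_)
        simp only []
        congr 2
        abel
      have i1 : Integrable fun t => kc (z + t) * gc (x - t) := by
        refine (ikc.comp_add_left z).mul_bdd ?_ (Eventually.of_forall fun t => hgcb (x - t))
        exact ((igc.comp_sub_left x).aestronglyMeasurable)
      rw [e1, hval, ← integral_sub i1 (hint x), ← integral_mul_const]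
      refine norm_integral_le_of_norm_le (((hk.comp_add_left z).sub hk).abs.mul_const C)
        (Eventually.of_forall fun t => ?_)
      rw [← sub_mul, norm_mul]
      refine mul_le_mul (le_of_eq ?_) (hgcb _) (norm_nonneg _) (abs_nonneg _)
      rw [hkc']
      simp only []
      rw [← Complex.ofReal_sub, Complex.norm_real, Real.norm_eq_abs]
    have t1 : Tendsto (fun z => h (x + z) - h x) (𝓝 0) (𝓝 0) := by
      refine squeeze_zero_norm key ?_
      simpa using hkc.mul_const C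
    have t2 : Tendsto (fun z => h (x + z)) (𝓝 0) (𝓝 (h x)) := by
      simpa using t1.add_const (h x)
    have t3 : Tendsto (fun y => y - x) (𝓝 x) (𝓝 0) := by
      have hc2 : Continuous fun y : V => y - x := by fun_prop
      simpa using hc2.tendsto x
    have t4 := t2.comp t3
    refine t4.congr fun y => ?_
    simp
  set Ψ : V → ℂ := h ⋆[ContinuousLinearMap.mul ℂ ℂ, volume] gr with hΨ
  have iΨ : Integrable Ψ := ih.integrable_convolution _ igr
  have cΨ : Continuous Ψ := by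
    refine BddAbove.continuous_convolution_left_of_integrable _ ?_ hcont igr
    refine ⟨∫ t, |k t| * C, ?_⟩
    rintro _ ⟨x, rfl⟩
    exact hbd x
  set Ψ0 : V → ℂ := gc ⋆[ContinuousLinearMap.mul ℂ ℂ, volume] gr with hΨ0
  have iΨ0 : Integrable Ψ0 := igc.integrable_convolution _ igr
  have FΨ : ∀ ξ, 𝓕 Ψ ξ = 𝓕 kc ξ * (𝓕 gc ξ * (starRingEnd ℂ) (𝓕 gc ξ)) := by
    intro ξ
    rw [hΨ, Real.fourier_mul_convolution_eq ih igr, hh, Real.fourier_mul_convolution_eq ikc igc,
      hgr', fourier_neg_real, mul_assoc]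
  have FΨ0 : ∀ ξ, 𝓕 Ψ0 ξ = 𝓕 gc ξ * (starRingEnd ℂ) (𝓕 gc ξ) := by
    intro ξ
    rw [hΨ0, Real.fourier_mul_convolution_eq igc igr, hgr', fourier_neg_real]
  -- squares
  have hg2 : Integrable fun x => g x ^ 2 := by
    have : Integrable fun x => g x * g x :=
      hg.mul_bdd hg.aestronglyMeasurable (Eventually.of_forall fun x => by
        rw [Real.norm_eq_abs]; exact hgb x)
    simpa [sq] using this
  have bΨ0 : ∀ x, ‖Ψ0 x‖ ≤ ∫ x, g x ^ 2 := by
    intro x
    have e : Ψ0 x = ∫ t, gc t * gr (x - t) := rfl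
    rw [e]
    have h2 : ∫ t, (g t ^ 2 + g (t - x) ^ 2) / 2 = ∫ x, g x ^ 2 := by
      rw [integral_div, integral_add hg2 (hg2.comp_sub_right x),
        integral_sub_right_eq_self (fun t => g t ^ 2) x]
      ring
    rw [← h2]
    refine norm_integral_le_of_norm_le ((hg2.add (hg2.comp_sub_right x)).div_const 2)
      (Eventually.of_forall fun t => ?_)
    rw [norm_mul, hgc', hgr']
    simp only [Complex.norm_real, Real.norm_eq_abs, neg_sub]
    nlinarith [sq_nonneg (|g t| - |g (t - x)|), sq_abs (g t), sq_abs (g (t - x))]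
  -- the value at zero
  have e0 : (Ψ 0).re = ∫ u, g u * ∫ v, k (u - v) * g v := by
    have e1 : Ψ 0 = ∫ t, h t * gr (0 - t) := rfl
    have e2 : ∀ t, h t * gr (0 - t) = ((g t * ∫ v, k (t - v) * g v : ℝ) : ℂ) := by
      intro t
      rw [hval2]
      simp only [hkc', hgc', hgr', zero_sub, neg_neg]
      rw [Complex.ofReal_mul, ← integral_complex_ofReal, mul_comm]
      simp only [Complex.ofReal_mul]
    rw [e1]
    simp only [e2]
    rw [integral_complex_ofReal, Complex.ofReal_re]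
  -- the Fourier side
  have hgauss : ∀ {c : ℝ}, 0 < c → Integrable (fun w : V => cexp (-(c : ℂ)⁻¹ * ‖w‖ ^ 2)) := by
    intro c hc
    have hb : 0 < ((c : ℂ)⁻¹).re := by
      rw [← Complex.ofReal_inv, Complex.ofReal_re]
      exact inv_pos.2 hc
    have := GaussianFourier.integrable_cexp_neg_mul_sq_norm_add hb 0 (0 : V)
    simpa using this
  have iF : ∀ {c : ℝ}, 0 < c → ∀ {f : V → ℂ}, Integrable f →
      Integrable fun w : V => cexp (-(c : ℂ)⁻¹ * ‖w‖ ^ 2) • (𝓕 f) w := by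
    intro c hc f hf
    have hcf : Continuous (𝓕 f) := VectorFourier.fourierIntegral_continuous
      Real.continuous_fourierChar continuous_inner hf
    refine (hgauss hc).mul_bdd (c := ∫ v, ‖f v‖) hcf.aestronglyMeasurable
      (Eventually.of_forall fun w => ?_)
    exact VectorFourier.norm_fourierIntegral_le_integral_norm _ _ _ _ _
  have main : ∀ c : ℝ, 0 < c → -(m * ∫ x, g x ^ 2) ≤
      (∫ w : V, cexp (-(c : ℂ)⁻¹ * ‖w‖ ^ 2) • (𝓕 Ψ) w).re := by
    intro c hc
    have n0 := norm_gauss_le iΨ0 bΨ0 hc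
    have r0 : (∫ w : V, cexp (-(c : ℂ)⁻¹ * ‖w‖ ^ 2) • (𝓕 Ψ0) w).re ≤ ∫ x, g x ^ 2 :=
      (Complex.re_le_norm _).trans n0
    have r1 : -(m * (∫ w : V, cexp (-(c : ℂ)⁻¹ * ‖w‖ ^ 2) • (𝓕 Ψ0) w).re) ≤
        (∫ w : V, cexp (-(c : ℂ)⁻¹ * ‖w‖ ^ 2) • (𝓕 Ψ) w).re := by
      have q0 : (∫ w : V, cexp (-(c : ℂ)⁻¹ * ‖w‖ ^ 2) • (𝓕 Ψ0) w).re =
          ∫ w : V, (cexp (-(c : ℂ)⁻¹ * ‖w‖ ^ 2) • (𝓕 Ψ0) w).re :=
        (integral_re (iF hc iΨ0)).symm
      have q1 : (∫ w : V, cexp (-(c : ℂ)⁻¹ * ‖w‖ ^ 2) • (𝓕 Ψ) w).re =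
          ∫ w : V, (cexp (-(c : ℂ)⁻¹ * ‖w‖ ^ 2) • (𝓕 Ψ) w).re :=
        (integral_re (iF hc iΨ)).symm
      rw [q0, q1, ← neg_mul, ← integral_const_mul]
      refine integral_mono (((iF hc iΨ0).re).const_mul _) ((iF hc iΨ).re) fun w => ?_
      simp only []
      have ge : cexp (-(c : ℂ)⁻¹ * ‖w‖ ^ 2) = ((rexp (-c⁻¹ * ‖w‖ ^ 2) : ℝ) : ℂ) := by
        push_cast
        rfl
      have mc : 𝓕 gc w * (starRingEnd ℂ) (𝓕 gc w) = ((Complex.normSq (𝓕 gc w) : ℝ) : ℂ) :=
        Complex.mul_conj _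
      rw [FΨ, FΨ0, ge, mc, smul_eq_mul, smul_eq_mul, Complex.re_ofReal_mul, Complex.re_ofReal_mul,
        Complex.re_mul_ofReal, Complex.ofReal_re]
      have p1 : 0 < rexp (-c⁻¹ * ‖w‖ ^ 2) := Real.exp_pos _
      have p2 : 0 ≤ Complex.normSq (𝓕 gc w) := Complex.normSq_nonneg _
      have p3 := hF w
      have p4 : 0 ≤ rexp (-c⁻¹ * ‖w‖ ^ 2) * Complex.normSq (𝓕 gc w) := by positivity
      nlinarith [mul_le_mul_of_nonneg_right p3 p4]
    have r2 : m * (∫ w : V, cexp (-(c : ℂ)⁻¹ * ‖w‖ ^ 2) • (𝓕 Ψ0) w).re ≤ m * ∫ x, g x ^ 2 :=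
      mul_le_mul_of_nonneg_left r0 hm
    linarith
  have lim := tendsto_gauss iΨ cΨ.continuousAt
  have lim2 := (Complex.continuous_re.tendsto _).comp lim
  rw [e0] at lim2
  refine ge_of_tendsto lim2 ?_
  filter_upwards [Ioi_mem_atTop 0] with c (hc : 0 < c)
  exact main c hc

end

end Pool.Agent.MF
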