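import Pool.Agent.Lib.MF.Top

/-!
# Project MF, row BDRY (helper1)
-/

set_option autoImplicit false

namespace Pool.Agent.HdGas

open MeasureTheory Pool.Agent.SquareWellGas

noncomputable section

namespace Bdr

variable {d : ℕ}

/-- the unit ball. -/
def UB (d : ℕ) : Set (Fin d → ℝ) := {x | ∑ k, x k ^ 2 < 1}

theorem UB_open : IsOpen (UB d) := isOpen_lt (by fun_prop) continuous_const

theorem UB_meas : MeasurableSet (UB d) := UB_open.measurableSet

theorem UB_sub : UB d ⊆ Set.pi Set.univ fun _ => Set.Icc (-1 : ℝ) 1 := by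
  intro x hx k _
  have h1 : x k ^ 2 ≤ ∑ k, x k ^ 2 :=
    Finset.single_le_sum (f := fun k => x k ^ 2) (fun i _ => sq_nonneg _) (Finset.mem_univ k)
  have h2 : x k ^ 2 < 1 := lt_of_le_of_lt h1 hx
  have h3 : |x k| < 1 := by
    rw [← sq_lt_one_iff_abs_lt_one]
    exact h2
  exact ⟨(abs_lt.1 h3).1.le, (abs_lt.1 h3).2.le⟩

theorem UB_fin : volume (UB d) ≠ ⊤ := by
  refine ((measure_mono UB_sub).trans_lt ?_).ne
  have : IsCompact (Set.pi Set.univ fun _ : Fin d => Set.Icc (-1 : ℝ) 1) :=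
    isCompact_univ_pi fun _ => isCompact_Icc
  exact this.measure_lt_top

theorem bv_eq : bv d = (volume (UB d)).toReal := rfl

theorem bv_pos : 0 < bv d := by
  rw [bv_eq]
  refine ENNReal.toReal_pos (UB_open.measure_pos volume ⟨0, ?_⟩).ne' UB_fin
  unfold UB
  simp

theorem Cb_eq (u : Fin d → ℝ) : {z | Cb d u z} = (fun z => u - z) ⁻¹' UB d := rfl

theorem vol_Cb (u : Fin d → ℝ) : volume {z | Cb d u z} = volume (UB d) := by
  rw [Cb_eq]
  exact (Measure.measurePreserving_sub_left volume u).measure_preimage UB_meas.nullMeasurableSet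

theorem vol_le (u : Fin d → ℝ) (L : Set (Fin d → ℝ)) :
    (volume {z | z ∈ L ∧ Cb d u z}).toReal ≤ bv d := by
  rw [bv_eq, ← vol_Cb u]
  exact ENNReal.toReal_mono (by rw [vol_Cb]; exact UB_fin) (measure_mono fun z hz => hz.2)

/-- the inner box. -/
def Inn (d : ℕ) (ℓ : ℝ) : Set (Fin d → ℝ) := Set.pi Set.univ fun _ => Set.Ico (1 : ℝ) (ℓ - 1)

theorem Box_eq (ℓ : ℝ) : Box d ℓ = Set.pi Set.univ fun _ => Set.Ico (0 : ℝ) ℓ := by
  ext x
  simp [Box, Set.mem_pi]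

theorem Box_meas (ℓ : ℝ) : MeasurableSet (Box d ℓ) := by
  rw [Box_eq]
  exact MeasurableSet.univ_pi fun _ => measurableSet_Ico

theorem Inn_meas (ℓ : ℝ) : MeasurableSet (Inn d ℓ) := MeasurableSet.univ_pi fun _ => measurableSet_Ico

theorem Inn_sub (ℓ : ℝ) : Inn d ℓ ⊆ Box d ℓ := by
  intro x hx k
  have h := hx k (Set.mem_univ k)
  exact ⟨by linarith [h.1], by linarith [h.2]⟩

theorem vol_Box {ℓ : ℝ} (hℓ : 0 ≤ ℓ) : (volume (Box d ℓ)).toReal = ℓ ^ d := by
  rw [Box_eq, Real.volume_pi_Ico_toReal (fun _ => hℓ)]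
  simp

theorem vol_Box_fin (ℓ : ℝ) : volume (Box d ℓ) ≠ ⊤ := by
  rw [Box_eq, Real.volume_pi_Ico]
  exact ENNReal.prod_ne_top fun _ _ => ENNReal.ofReal_ne_top

theorem vol_Inn {ℓ : ℝ} (hℓ : 2 ≤ ℓ) : (volume (Inn d ℓ)).toReal = (ℓ - 2) ^ d := by
  unfold Inn
  rw [Real.volume_pi_Ico_toReal (fun _ => by linarith)]
  simp only [Finset.prod_const, Finset.card_univ, Fintype.card_fin]
  congr 1
  ring

theorem inner_vol {ℓ : ℝ} {u : Fin d → ℝ} (hu : u ∈ Inn d ℓ) :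
    {z | z ∈ Box d ℓ ∧ Cb d u z} = {z | Cb d u z} := by
  ext z
  refine ⟨fun h => h.2, fun h => ⟨fun k => ?_, h⟩⟩
  have h1 := UB_sub (show (u - z) ∈ UB d from h)
  have h2 : (u k - z k) ^ 2 ≤ ∑ k, (u k - z k) ^ 2 :=
    Finset.single_le_sum (f := fun k => (u k - z k) ^ 2) (fun i _ => sq_nonneg _)
      (Finset.mem_univ k)
  have h3 : (u k - z k) ^ 2 < 1 := lt_of_le_of_lt h2 h
  have h4 : |u k - z k| < 1 := by
    rw [← sq_lt_one_iff_abs_lt_one]
    exact h3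
  have h5 := abs_lt.1 h4
  have h6 := hu k (Set.mem_univ k)
  exact ⟨by linarith [h6.1], by linarith [h6.2]⟩

end Bdr

open Bdr

theorem bdry : BDRY := by
  intro d _ c hc ℓ hℓ
  unfold Bd
  set f : (Fin d → ℝ) → ℝ := fun u =>
    c * (1 - (volume {z | z ∈ Box d ℓ ∧ Cb d u z}).toReal / bv d) with hf
  have hb := bv_pos (d := d)
  have h0 : ∀ u, 0 ≤ f u := by
    intro u
    have h1 := vol_le u (Box d ℓ)
    refine mul_nonneg hc ?_
    rw [sub_nonneg, div_le_one hb]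
    exact h1
  have h1 : ∀ u, f u ≤ c := by
    intro u
    have h2 : 0 ≤ (volume {z | z ∈ Box d ℓ ∧ Cb d u z}).toReal / bv d := by positivity
    simp only [hf]
    nlinarith
  have h2 : ∀ u ∈ Inn d ℓ, f u = 0 := by
    intro u hu
    simp only [hf]
    rw [inner_vol hu, vol_Cb, ← bv_eq, div_self hb.ne', sub_self, mul_zero]
  refine ⟨setIntegral_nonneg (Box_meas ℓ) fun u _ => h0 u, ?_⟩
  have h3 : ∫ u in Box d ℓ, f u ≤ ∫ u in Box d ℓ, (Box d ℓ \ Inn d ℓ).indicator (fun _ => c) u := by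
    refine integral_mono_of_nonneg (Filter.Eventually.of_forall h0) ?_ ?_
    · refine (integrable_indicator_iff ((Box_meas ℓ).diff (Inn_meas ℓ))).2 ?_
      refine integrableOn_const ?_
      refine ((Measure.restrict_apply_le _ _).trans_lt ?_).ne
      exact (measure_mono Set.sdiff_subset).trans_lt (vol_Box_fin ℓ).lt_top
    · filter_upwards [ae_restrict_mem (Box_meas ℓ)] with u hu
      by_cases hi : u ∈ Inn d ℓ
      · rw [h2 u hi, Set.indicator_of_notMem (fun h : u ∈ Box d ℓ \ Inn d ℓ => h.2 hi)]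
      · rw [Set.indicator_of_mem (show u ∈ Box d ℓ \ Inn d ℓ from Set.mem_sdiff_of_mem hu hi)]
        exact h1 u
  refine h3.trans (le_of_eq ?_)
  rw [setIntegral_indicator ((Box_meas ℓ).diff (Inn_meas ℓ)), setIntegral_const, smul_eq_mul,
    mul_comm]
  congr 1
  have h4 : Box d ℓ ∩ (Box d ℓ \ Inn d ℓ) = Box d ℓ \ Inn d ℓ :=
    Set.inter_eq_right.2 Set.sdiff_subset
  rw [h4, measureReal_sdiff (Inn_sub ℓ) (Inn_meas ℓ) (vol_Box_fin ℓ), Measure.real, Measure.real,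
    vol_Box (by linarith), vol_Inn hℓ]

end

end Pool.Agent.HdGas
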