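import Pool.Agent.Lib.MF.Integ
import Pool.Agent.Lib.MF.RowBdry

/-!
# Row FREE: the free energy at low density
-/

set_option autoImplicit false

namespace Pool.Agent.HdGas

open MeasureTheory Filter Topology Pool.Agent.SquareWellGas Pool.Agent.KacGas Pool.Agent.VdwGas

noncomputable section

/-- The largest activity used. -/
def FreeAux.t1 (d : ℕ) : ℝ := ((d : ℝ) / 50 + 1) * Real.exp ((d : ℝ) / 50 + 1)

theorem FreeAux.sqrt_pow' {x : ℝ} (hx : 0 ≤ x) (d : ℕ) : √(x ^ d) = √x ^ d := by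
  rw [Real.sqrt_eq_iff_mul_self_eq (pow_nonneg hx d) (pow_nonneg (Real.sqrt_nonneg x) d)]
  rw [← mul_pow, Real.mul_self_sqrt hx]

theorem FreeAux.q_lt_one : Real.exp (7 / 100) * √(√3 / 2) < 1 := by
  have h0 : 0 ≤ Real.exp (7 / 100) * √(√3 / 2) := by positivity
  have h3 : (0 : ℝ) ≤ √3 / 2 := by positivity
  have h4 : (Real.exp (7 / 100) * √(√3 / 2)) ^ 4 = Real.exp (28 / 100) * (3 / 4) := by
    rw [mul_pow, ← Real.exp_nat_mul]
    have e1 : √(√3 / 2) ^ 4 = (√3 / 2) ^ 2 := by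
      calc √(√3 / 2) ^ 4 = (√(√3 / 2) ^ 2) ^ 2 := by ring
        _ = (√3 / 2) ^ 2 := by rw [Real.sq_sqrt h3]
    rw [e1, div_pow, Real.sq_sqrt (by norm_num)]
    norm_num
  have h5 : Real.exp (28 / 100) < 4 / 3 := by
    have h6 : Real.exp (28 / 100) ^ 25 < (4 / 3 : ℝ) ^ 25 := by
      rw [← Real.exp_nat_mul]
      have : ((25 : ℕ) : ℝ) * (28 / 100) = ((7 : ℕ) : ℝ) * 1 := by norm_num
      rw [this, Real.exp_nat_mul]
      calc Real.exp 1 ^ 7 < 2.7182818286 ^ 7 :=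
            pow_lt_pow_left₀ Real.exp_one_lt_d9 (Real.exp_pos _).le (by norm_num)
        _ < (4 / 3 : ℝ) ^ 25 := by norm_num
    exact lt_of_pow_lt_pow_left₀ 25 (by norm_num) h6
  by_contra hcon
  push Not at hcon
  have h7 : (1 : ℝ) ≤ (Real.exp (7 / 100) * √(√3 / 2)) ^ 4 := one_le_pow₀ hcon
  rw [h4] at h7
  linarith

theorem FreeAux.asym : ∃ d0 : ℕ, ∀ d : ℕ, d0 ≤ d → 1 ≤ d ∧
    100 * ((1 + FreeAux.t1 d) ^ 3 * √(kap d)) ≤ Real.exp (-(d : ℝ) / 100) := by
  set q : ℝ := Real.exp (7 / 100) * √(√3 / 2) with hq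
  have hq0 : 0 ≤ q := by positivity
  have hlim : Tendsto (fun n : ℕ => (n : ℝ) ^ 3 * q ^ n) atTop (𝓝 0) :=
    tendsto_pow_const_mul_const_pow_of_abs_lt_one 3 (by
      rw [abs_of_nonneg hq0]; exact FreeAux.q_lt_one)
  have hc : (0 : ℝ) < 1 / (6400 * Real.exp 3) := by positivity
  obtain ⟨d0, hd0⟩ := eventually_atTop.1 (hlim.eventually (ge_mem_nhds hc))
  refine ⟨max d0 1, fun d hd => ⟨le_trans (le_max_right _ _) hd, ?_⟩⟩
  have h1d : 1 ≤ d := le_trans (le_max_right _ _) hd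
  have h1 := hd0 d (le_trans (le_max_left _ _) hd)
  have hdR : (1 : ℝ) ≤ d := by exact_mod_cast h1d
  have hE : (1 : ℝ) ≤ Real.exp ((d : ℝ) / 50 + 1) := Real.one_le_exp (by positivity)
  have ht1 : 1 ≤ FreeAux.t1 d := by
    unfold FreeAux.t1
    have : (1 : ℝ) ≤ (d : ℝ) / 50 + 1 := by
      have : (0 : ℝ) ≤ (d : ℝ) / 50 := by positivity
      linarith
    nlinarith
  have ht2 : 1 + FreeAux.t1 d ≤ 4 * d * Real.exp ((d : ℝ) / 50 + 1) := by
    have h2 : FreeAux.t1 d ≤ 2 * d * Real.exp ((d : ℝ) / 50 + 1) := by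
      unfold FreeAux.t1
      apply mul_le_mul_of_nonneg_right _ (Real.exp_pos _).le
      linarith
    linarith
  have ht3 : (1 + FreeAux.t1 d) ^ 3 ≤ (4 * d * Real.exp ((d : ℝ) / 50 + 1)) ^ 3 :=
    pow_le_pow_left₀ (by linarith) ht2 3
  have hexp : Real.exp ((d : ℝ) / 50 + 1) ^ 3 = Real.exp 3 * Real.exp (6 / 100) ^ d := by
    rw [← Real.exp_nat_mul, ← Real.exp_nat_mul, ← Real.exp_add]
    congr 1
    push_cast
    ring
  have hk : √(kap d) = √(√3 / 2) ^ d := by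
    unfold kap
    exact FreeAux.sqrt_pow' (by positivity) d
  have hqd : q ^ d = Real.exp (6 / 100) ^ d * √(√3 / 2) ^ d * Real.exp ((d : ℝ) / 100) := by
    rw [hq, mul_pow, ← Real.exp_nat_mul, ← Real.exp_nat_mul]
    have : Real.exp (↑d * (7 / 100)) = Real.exp (↑d * (6 / 100)) * Real.exp ((d : ℝ) / 100) := by
      rw [← Real.exp_add]; congr 1; ring
    rw [this]; ring
  have hfin : 100 * ((4 * d * Real.exp ((d : ℝ) / 50 + 1)) ^ 3 * √(kap d)) *
      Real.exp ((d : ℝ) / 100) = 6400 * Real.exp 3 * ((d : ℝ) ^ 3 * q ^ d) := by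
    rw [mul_pow, hexp, hk, hqd]
    ring
  have h2 : 6400 * Real.exp 3 * ((d : ℝ) ^ 3 * q ^ d) ≤ 1 := by
    have := mul_le_mul_of_nonneg_left h1 (show (0 : ℝ) ≤ 6400 * Real.exp 3 by positivity)
    have e : 6400 * Real.exp 3 * (1 / (6400 * Real.exp 3)) = 1 := by
      have : (6400 * Real.exp 3 : ℝ) ≠ 0 := by positivity
      field_simp
    linarith
  have h3 : 100 * ((1 + FreeAux.t1 d) ^ 3 * √(kap d)) ≤
      100 * ((4 * d * Real.exp ((d : ℝ) / 50 + 1)) ^ 3 * √(kap d)) := by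
    apply mul_le_mul_of_nonneg_left _ (by norm_num)
    exact mul_le_mul_of_nonneg_right ht3 (Real.sqrt_nonneg _)
  refine h3.trans ?_
  have h4 : Real.exp (-(d : ℝ) / 100) * Real.exp ((d : ℝ) / 100) = 1 := by
    rw [← Real.exp_add]
    have : -(d : ℝ) / 100 + (d : ℝ) / 100 = 0 := by ring
    rw [this, Real.exp_zero]
  have hp : 0 < Real.exp ((d : ℝ) / 100) := Real.exp_pos _
  have h5 : 100 * ((4 * d * Real.exp ((d : ℝ) / 50 + 1)) ^ 3 * √(kap d)) *
      Real.exp ((d : ℝ) / 100) ≤ Real.exp (-(d : ℝ) / 100) * Real.exp ((d : ℝ) / 100) := by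
    rw [hfin, h4]; exact h2
  exact le_of_mul_le_mul_right h5 hp

/-- Supporting lines of concave functions. -/
theorem FreeAux.support {f : ℝ → ℝ} {r ρ : ℝ} (hf : ConcaveOn ℝ (Set.Ioo 0 r) f)
    (hρ : ρ ∈ Set.Ioo 0 r) : ∃ m : ℝ, ∀ x ∈ Set.Ioo 0 r, f x ≤ f ρ + m * (x - ρ) := by
  have hg : ConvexOn ℝ (Set.Ioo 0 r) (-f) := hf.neg
  have hint : ρ ∈ interior (Set.Ioo 0 r) := by rwa [interior_Ioo]
  refine ⟨-derivWithin (-f) (Set.Ioi ρ) ρ, fun x hx => ?_⟩
  rcases lt_trichotomy x ρ with h | h | h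
  · have h1 := hg.slope_le_leftDeriv_of_mem_interior hx hint h
    have h2 := hg.leftDeriv_le_rightDeriv_of_mem_interior hint
    have h3 := h1.trans h2
    rw [slope_def_field, div_le_iff₀ (by linarith)] at h3
    simp only [Pi.neg_apply] at h3
    nlinarith
  · rw [h]; simp
  · have h1 := hg.rightDeriv_le_slope_of_mem_interior hint hx h
    rw [slope_def_field, le_div_iff₀ (by linarith)] at h1
    simp only [Pi.neg_apply] at h1
    nlinarith

/-- The function minimised in the lower bound. -/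
theorem FreeAux.minim {x c b : ℝ} (hx : 0 < x) (hc : 0 < c) :
    x - x ^ 2 / 2 - x * (Real.log x - Real.log b) ≤
      c + c ^ 2 / 2 - x * (Real.log c + c - Real.log b) := by
  have h1 : Real.log c - Real.log x ≤ c / x - 1 := by
    rw [← Real.log_div hc.ne' hx.ne']
    exact Real.log_le_sub_one_of_pos (div_pos hc hx)
  have h2 : x * (Real.log c - Real.log x) ≤ c - x := by
    calc x * (Real.log c - Real.log x) ≤ x * (c / x - 1) := mul_le_mul_of_nonneg_left h1 hx.le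
      _ = c - x := by field_simp
  nlinarith [sq_nonneg (c - x)]

theorem free_of (hT : THERMO) (hS : SLOPE) (hI : INTEG) (hD : DENS) : FREE := by
  obtain ⟨d0, hd0⟩ := FreeAux.asym
  refine ⟨d0, fun d hd f r hF hconc => ?_⟩
  obtain ⟨hd1, has⟩ := hd0 d hd
  obtain ⟨P, hPr, hP0, hPL⟩ := hT d hd1 f r hF
  set b : ℝ := bv d with hbdef
  have hb : 0 < b := Bdr.bv_pos
  set t₁ : ℝ := FreeAux.t1 d with ht1def
  set s : ℝ := √(kap d) with hsdef
  set X : ℝ := Real.exp (-(d : ℝ) / 100) with hXdef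
  have hs0 : 0 ≤ s := Real.sqrt_nonneg _
  have hX0 : 0 < X := Real.exp_pos _
  have hX1 : X ≤ 1 := by
    rw [hXdef]
    apply Real.exp_le_one_iff.2
    have : (0 : ℝ) ≤ d := Nat.cast_nonneg d
    linarith
  have hdR : (1 : ℝ) ≤ d := by exact_mod_cast hd1
  have ht10 : 0 ≤ t₁ := by
    rw [ht1def]; unfold FreeAux.t1; positivity
  have hkap0 : 0 ≤ kap d := by unfold kap; positivity
  have hss : s ^ 2 = kap d := Real.sq_sqrt hkap0
  -- consequences of the asymptotics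
  have hA : ∀ t : ℝ, 0 ≤ t → t ≤ t₁ → 100 * ((1 + t) ^ 3 * s) ≤ X := by
    intro t ht0 ht
    refine le_trans ?_ has
    apply mul_le_mul_of_nonneg_left _ (by norm_num)
    apply mul_le_mul_of_nonneg_right _ hs0
    exact pow_le_pow_left₀ (by linarith) (by linarith) 3
  have her : ∀ t : ℝ, 0 ≤ t → t ≤ t₁ → er d t ≤ X / 10 := by
    intro t ht0 ht
    have h1 := hA t ht0 ht
    unfold er
    have h2 : 7 * t ^ 3 + 5 * t ^ 2 ≤ 7 * (1 + t) ^ 3 := by nlinarith [pow_nonneg ht0 2, pow_nonneg ht0 3]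
    have h3 : s * (7 * t ^ 3 + 5 * t ^ 2) ≤ s * (7 * (1 + t) ^ 3) :=
      mul_le_mul_of_nonneg_left h2 hs0
    change s * (7 * t ^ 3 + 5 * t ^ 2) ≤ X / 10
    nlinarith
  have herr : ∀ t : ℝ, 0 ≤ t → t ≤ t₁ → s * (3 * t ^ 3 + 3 * t ^ 2) ≤ X := by
    intro t ht0 ht
    have h1 := hA t ht0 ht
    have h2 : 3 * t ^ 3 + 3 * t ^ 2 ≤ 3 * (1 + t) ^ 3 := by nlinarith [pow_nonneg ht0 2, pow_nonneg ht0 3]
    have h3 : s * (3 * t ^ 3 + 3 * t ^ 2) ≤ s * (3 * (1 + t) ^ 3) :=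
      mul_le_mul_of_nonneg_left h2 hs0
    have h4 : 0 ≤ (1 + t) ^ 3 * s := mul_nonneg (pow_nonneg (by linarith) 3) hs0
    nlinarith
  have hc3 : ∀ t : ℝ, 0 ≤ t → t ≤ t₁ → (1 + t) ^ 3 * s ≤ 1 / 8 := by
    intro t ht0 ht
    have := hA t ht0 ht
    linarith
  have hc1 : ∀ t : ℝ, 0 ≤ t → t ≤ t₁ → t ^ 2 * kap d ≤ 1 / 2 := by
    intro t ht0 ht
    have h1 := hc3 t ht0 ht
    have h2 : t * s ≤ (1 + t) ^ 3 * s := by
      apply mul_le_mul_of_nonneg_right _ hs0
      nlinarith [pow_nonneg ht0 2, pow_nonneg ht0 3]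
    have h3 : t * s ≤ 1 / 8 := h2.trans h1
    have h4 : 0 ≤ t * s := mul_nonneg ht0 hs0
    rw [← hss]
    nlinarith
  have heps : epd d ≤ √2 * s := by
    unfold epd
    apply mul_le_mul_of_nonneg_left _ (Real.sqrt_nonneg _)
    have h1 : s = √(√3 / 2) ^ d := by
      rw [hsdef]; unfold kap
      exact FreeAux.sqrt_pow' (by positivity) d
    rw [h1]
    have h2 : Real.exp (-(d : ℝ) / 8) = Real.exp (-(1 : ℝ) / 8) ^ d := by
      rw [← Real.exp_nat_mul]; congr 1; ring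
    rw [h2]
    apply pow_le_pow_left₀ (Real.exp_pos _).le
    apply Real.le_sqrt_of_sq_le
    rw [← Real.exp_nat_mul]
    have h3 : ((2 : ℕ) : ℝ) * (-1 / 8) = -(1 / 4) := by norm_num
    rw [h3, Real.exp_neg]
    have h4 : (5 / 4 : ℝ) ≤ Real.exp (1 / 4) := by
      have := Real.add_one_le_exp (1 / 4 : ℝ)
      linarith
    have h5 : (Real.exp (1 / 4))⁻¹ ≤ (5 / 4 : ℝ)⁻¹ := inv_anti₀ (by norm_num) h4
    have h6 : (8 / 5 : ℝ) ≤ √3 := by
      apply Real.le_sqrt_of_sq_le; norm_num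
    have h7 : (5 / 4 : ℝ)⁻¹ = 4 / 5 := by norm_num
    rw [h7] at h5
    linarith
  have hc2 : ∀ t : ℝ, 0 ≤ t → t ≤ t₁ → t * epd d ≤ 1 / 2 := by
    intro t ht0 ht
    have h1 := hc3 t ht0 ht
    have h2 : t * s ≤ (1 + t) ^ 3 * s := by
      apply mul_le_mul_of_nonneg_right _ hs0
      nlinarith [pow_nonneg ht0 2, pow_nonneg ht0 3]
    have h3 : √2 ≤ 2 := by
      rw [Real.sqrt_le_left (by norm_num)]; norm_num
    have h4 : t * epd d ≤ t * (√2 * s) := mul_le_mul_of_nonneg_left heps ht0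
    have h5 : 0 ≤ t * s := mul_nonneg ht0 hs0
    have h6 : t * (√2 * s) ≤ 2 * (t * s) := by nlinarith
    linarith
  -- slopes and pressure
  have hslope : ∀ μ c : ℝ, 0 ≤ c → c * Real.exp c = Real.exp μ * b → Real.exp μ * b ≤ t₁ →
      ∀ h : ℝ, h * c - |h| * er d (Real.exp μ * b) ≤ b * (P (μ + h) - P μ) := by
    intro μ c hc hcμ ht
    have ht0 : 0 ≤ Real.exp μ * b := mul_nonneg (Real.exp_pos _).le hb.le
    exact hS d hd1 P hPr μ c hc hcμ (hc1 _ ht0 ht) (hc2 _ ht0 ht)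
  have hpress : ∀ μ c : ℝ, 0 ≤ c → c * Real.exp c = Real.exp μ * b → Real.exp μ * b ≤ t₁ →
      |b * P μ - (c + c ^ 2 / 2)| ≤ X := by
    intro μ c hc hcμ ht
    have ht0 : 0 ≤ Real.exp μ * b := mul_nonneg (Real.exp_pos _).le hb.le
    refine (hI b s t₁ P hb hs0 hP0 ?_ μ c hc hcμ ht).trans (herr _ ht0 ht)
    intro μ' c' hc' hcμ' ht' h
    exact hslope μ' c' hc' hcμ' ht' h
  -- the reference chemical potential
  set c₁ : ℝ := (d : ℝ) / 50 + 1 with hc1def
  have hc10 : 0 ≤ c₁ := by positivity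
  set μ₁ : ℝ := Real.log (t₁ / b) with hμ1def
  have ht1pos : 0 < t₁ := by
    rw [ht1def]; unfold FreeAux.t1; positivity
  have hμ1 : Real.exp μ₁ * b = t₁ := by
    rw [hμ1def, Real.exp_log (div_pos ht1pos hb)]
    field_simp
  have hc1t : c₁ * Real.exp c₁ = Real.exp μ₁ * b := by rw [hμ1]; rfl
  have hslope1 := hslope μ₁ c₁ hc10 hc1t hμ1.le
  rw [hμ1] at hslope1
  have her1 : er d t₁ ≤ 1 / 2 := by
    have := her t₁ ht10 le_rfl
    linarith
  -- maximisers at low density have small chemical potential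
  have hlow : ∀ μ ρ : ℝ, ρ ∈ Set.Ioo 0 r → ρ * b ≤ d / 50 →
      (∀ x ∈ Set.Ioo 0 r, f x + μ * x ≤ f ρ + μ * ρ) → Real.exp μ * b ≤ t₁ := by
    intro μ ρ hρ hρb hmax
    rw [← hμ1]
    apply mul_le_mul_of_nonneg_right _ hb.le
    apply Real.exp_le_exp.2
    by_contra hlt
    push Not at hlt
    have h1 := hslope1 (μ - μ₁)
    have e : μ₁ + (μ - μ₁) = μ := by ring
    rw [e, abs_of_pos (by linarith)] at h1
    -- P μ ≤ f ρ + μ ρ
    have h2 : P μ ≤ f ρ + μ * ρ := by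
      apply le_of_forall_pos_sub_le
      intro δ hδ
      obtain ⟨x, hx, hx'⟩ := (hPL μ).2 δ hδ
      exact hx'.trans (hmax x hx)
    have h3 : f ρ + μ₁ * ρ ≤ P μ₁ := (hPL μ₁).1 ρ hρ
    have h4 : b * (P μ - P μ₁) ≤ b * ((μ - μ₁) * ρ) := by
      apply mul_le_mul_of_nonneg_left _ hb.le
      linarith
    have h5 : (μ - μ₁) * (c₁ - er d t₁) ≤ (μ - μ₁) * (ρ * b) := by nlinarith
    have h6 : c₁ - er d t₁ ≤ ρ * b := le_of_mul_le_mul_left h5 (by linarith)
    linarith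
  have hrb : (d : ℝ) / 50 < r * b := by
    have key : c₁ - er d t₁ ≤ b * r := by
      apply le_of_forall_pos_le_add
      intro δ hδ
      have h1 := hslope1 1
      rw [abs_of_pos one_pos] at h1
      obtain ⟨x, hx, hx'⟩ := (hPL (μ₁ + 1)).2 (δ / b) (div_pos hδ hb)
      have h2 := (hPL μ₁).1 x hx
      have h3 : P (μ₁ + 1) - P μ₁ ≤ x + δ / b := by linarith
      have h4 : b * (P (μ₁ + 1) - P μ₁) ≤ b * (x + δ / b) := mul_le_mul_of_nonneg_left h3 hb.le
      have h5 : b * (x + δ / b) = b * x + δ := by field_simp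
      have h6 : b * x ≤ b * r := mul_le_mul_of_nonneg_left hx.2.le hb.le
      linarith
    have : c₁ - 1 / 2 ≤ r * b := by linarith
    linarith
  refine ⟨hrb, ?_, ?_⟩
  · intro ρ hρ0 hρb
    have hρr : ρ < r := by
      have : ρ * b < r * b := lt_of_le_of_lt hρb hrb
      exact lt_of_mul_lt_mul_right this hb.le
    have hρ : ρ ∈ Set.Ioo 0 r := ⟨hρ0, hρr⟩
    set x : ℝ := ρ * b with hxdef
    have hx0 : 0 < x := mul_pos hρ0 hb
    have hlogx : Real.log x = Real.log ρ + Real.log b := Real.log_mul hρ0.ne' hb.ne'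
    -- upper bound
    have hup : b * f ρ ≤ (x - x * Real.log ρ - x ^ 2 / 2) + X := by
      set μ : ℝ := Real.log x + x - Real.log b with hμdef
      have hμ : x * Real.exp x = Real.exp μ * b := by
        rw [hμdef, Real.exp_sub, Real.exp_add, Real.exp_log hx0, Real.exp_log hb]
        field_simp
      have hxle : x ≤ c₁ := by linarith
      have ht : Real.exp μ * b ≤ t₁ := by
        rw [← hμ, ← hμ1, ← hc1t]
        apply mul_le_mul hxle (Real.exp_le_exp.2 hxle) (Real.exp_pos _).le hc10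
      have h1 := abs_le.1 (hpress μ x hx0.le hμ ht)
      have h2 := (hPL μ).1 ρ hρ
      have h3 : b * f ρ ≤ b * (P μ - μ * ρ) := mul_le_mul_of_nonneg_left (by linarith) hb.le
      have h4 : b * (P μ - μ * ρ) = b * P μ - μ * x := by rw [hxdef]; ring
      have h5 : μ * x = x * Real.log ρ + x ^ 2 := by
        rw [hμdef, hlogx]; ring
      have h6 := h1.2
      nlinarith
    -- lower bound
    have hlo : (x - x * Real.log ρ - x ^ 2 / 2) - X ≤ b * f ρ := by
      obtain ⟨m, hm⟩ := FreeAux.support hconc hρ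
      have hmax : ∀ y ∈ Set.Ioo 0 r, f y + (-m) * y ≤ f ρ + (-m) * ρ := by
        intro y hy
        have := hm y hy
        nlinarith
      have ht := hlow (-m) ρ hρ hρb hmax
      obtain ⟨c, hc0, hc⟩ := IntegAux.exists_root
        (mul_nonneg (Real.exp_pos (-m)).le hb.le)
      have hcpos : 0 < c := by
        rcases hc0.lt_or_eq with h | h
        · exact h
        · exfalso
          rw [← h] at hc
          have h2 : 0 < Real.exp (-m) * b := mul_pos (Real.exp_pos _) hb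
          simp at hc
          linarith
      have h1 := abs_le.1 (hpress (-m) c hc0 hc ht)
      have h2 : P (-m) ≤ f ρ + (-m) * ρ := by
        apply le_of_forall_pos_sub_le
        intro δ hδ
        obtain ⟨y, hy, hy'⟩ := (hPL (-m)).2 δ hδ
        exact hy'.trans (hmax y hy)
      have h3 : b * (P (-m) - (-m) * ρ) ≤ b * f ρ :=
        mul_le_mul_of_nonneg_left (by linarith) hb.le
      have h4 : b * (P (-m) - (-m) * ρ) = b * P (-m) - (-m) * x := by rw [hxdef]; ring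
      have h5 : -m = Real.log c + c - Real.log b := by
        have := congrArg Real.log hc
        rw [Real.log_mul hcpos.ne' (Real.exp_pos _).ne', Real.log_exp,
          Real.log_mul (Real.exp_pos _).ne' hb.ne', Real.log_exp] at this
        linarith
      have h6 := FreeAux.minim (b := b) hx0 hcpos
      rw [← h5, hlogx] at h6
      have h7 := h1.1
      nlinarith
    have e1 : f ρ - (ρ - ρ * Real.log ρ - b / 2 * ρ ^ 2) =
        (b * f ρ - (x - x * Real.log ρ - x ^ 2 / 2)) / b := by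
      rw [hxdef]
      field_simp
    rw [e1, abs_div, abs_of_pos hb]
    apply div_le_div_of_nonneg_right _ hb.le
    rw [abs_le]
    constructor <;> linarith
  · intro m q ρ₁ ρ₂ h1 h12 h2r hρb hle he1 he2
    have hρ1 : ρ₁ ∈ Set.Ioo 0 r := ⟨h1, h12.trans h2r⟩
    have hρ2 : ρ₂ ∈ Set.Ioo 0 r := ⟨h1.trans h12, h2r⟩
    have hmax1 : ∀ y ∈ Set.Ioo 0 r, f y + (-m) * y ≤ f ρ₁ + (-m) * ρ₁ := by
      intro y hy
      have := hle y hy
      rw [he1]; linarith
    have hmax2 : ∀ y ∈ Set.Ioo 0 r, f y + (-m) * y ≤ f ρ₂ + (-m) * ρ₂ := by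
      intro y hy
      have := hle y hy
      rw [he2]; linarith
    have ht := hlow (-m) ρ₁ hρ1 hρb hmax1
    have ht0 : 0 ≤ Real.exp (-m) * b := mul_nonneg (Real.exp_pos _).le hb.le
    obtain ⟨c, hc0, hc⟩ := IntegAux.exists_root ht0
    have h3 := hD d hd1 f r hF (-m) c ρ₁ hc0 hc (hc3 _ ht0 ht) hρ1 hmax1
    have h4 := hD d hd1 f r hF (-m) c ρ₂ hc0 hc (hc3 _ ht0 ht) hρ2 hmax2
    have h5 := her _ ht0 ht
    have h6 := abs_le.1 h3
    have h7 := abs_le.1 h4
    have h8 : (ρ₂ - ρ₁) * b = (ρ₂ * b - c) - (ρ₁ * b - c) := by ring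
    rw [h8]
    have h9 : (ρ₂ * b - c) - (ρ₁ * b - c) ≤ X / 10 + X / 10 := by
      have h10 := h7.2
      have h11 := h6.1
      change ρ₂ * b - c ≤ er d (Real.exp (-m) * b) at h10
      change -er d (Real.exp (-m) * b) ≤ ρ₁ * b - c at h11
      linarith
    linarith

end

end Pool.Agent.HdGas
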