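import Mathlib

/-! # Project MF, row GEO: the geometry of three balls.  helper26.

`E = EuclideanSpace ℝ (Fin d)`, `b = vol (ball 0 R)`, `kap = (√3 / 2) ^ d`.
-/

set_option autoImplicit false

open MeasureTheory Metric
open scoped ENNReal

namespace Pool.Agent.MF

namespace Geo

noncomputable section

variable {d : ℕ}

/-- `(√3 / 2) ^ d` -/
def kap (d : ℕ) : ℝ := (√3 / 2) ^ d

theorem kap_pos (d : ℕ) : 0 < kap d := by
  unfold kap
  positivity

theorem kap_le_one (d : ℕ) : kap d ≤ 1 := by
  unfold kap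
  refine pow_le_one₀ (by positivity) ?_
  have : √3 ≤ 2 := by
    rw [Real.sqrt_le_left (by norm_num)]
    norm_num
  linarith

/-- the volume of the balls of radius `R`. -/
def b (d : ℕ) (R : ℝ) : ℝ≥0∞ := volume (ball (0 : EuclideanSpace ℝ (Fin d)) R)

theorem vol_ball (u : EuclideanSpace ℝ (Fin d)) (R : ℝ) : volume (ball u R) = b d R :=
  Measure.addHaar_ball_center _ _ _

theorem b_ne_top (d : ℕ) (R : ℝ) : b d R ≠ ∞ := measure_ball_lt_top.ne

theorem b_pos (d : ℕ) {R : ℝ} (hR : 0 < R) : 0 < b d R := measure_ball_pos _ _ hR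

theorem vol_small (u : EuclideanSpace ℝ (Fin d)) (R : ℝ) :
    volume (ball u (√3 / 2 * R)) = ENNReal.ofReal (kap d) * b d R := by
  rw [Measure.addHaar_ball_mul_of_pos _ _ (by positivity), finrank_euclideanSpace_fin]
  rfl

/-- the parallelogram identity. -/
theorem mid_sq (z v w : EuclideanSpace ℝ (Fin d)) :
    dist z (midpoint ℝ v w) ^ 2 = dist z v ^ 2 / 2 + dist z w ^ 2 / 2 - dist v w ^ 2 / 4 := by
  have h := parallelogram_law_with_norm ℝ (z - v) (z - w)
  have e1 : z - v + (z - w) = (2 : ℝ) • (z - midpoint ℝ v w) := by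
    rw [midpoint_eq_smul_add, smul_sub, smul_smul]
    norm_num
    rw [two_smul]
    abel
  have e2 : z - v - (z - w) = w - v := by abel
  rw [e1, e2, norm_smul] at h
  rw [dist_eq_norm, dist_eq_norm, dist_eq_norm, dist_eq_norm, norm_sub_rev v w]
  have : ‖(2 : ℝ)‖ = 2 := by norm_num
  rw [this] at h
  nlinarith [h]

theorem dist_lt_of_sq {x R : ℝ} (hR : 0 < R) (h : x ^ 2 < 3 / 4 * R ^ 2) : x < √3 / 2 * R := by
  have h1 : (√3 / 2 * R) ^ 2 = 3 / 4 * R ^ 2 := by
    rw [mul_pow, div_pow, Real.sq_sqrt (by norm_num)]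
    norm_num
  rw [← h1] at h
  exact lt_of_pow_lt_pow_left₀ 2 (by positivity) h

/-- (0b): two balls whose centres are at distance at least `R`. -/
theorem inter_subset {R : ℝ} (hR : 0 < R) {v w : EuclideanSpace ℝ (Fin d)} (h : R ≤ dist v w) :
    ball v R ∩ ball w R ⊆ ball (midpoint ℝ v w) (√3 / 2 * R) := by
  rintro z ⟨h1, h2⟩
  rw [mem_ball] at h1 h2 ⊢
  refine dist_lt_of_sq hR ?_
  rw [mid_sq]
  have e1 : dist z v ^ 2 < R ^ 2 := pow_lt_pow_left₀ h1 dist_nonneg (by norm_num)
  have e2 : dist z w ^ 2 < R ^ 2 := pow_lt_pow_left₀ h2 dist_nonneg (by norm_num)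
  have e3 : R ^ 2 ≤ dist v w ^ 2 := pow_le_pow_left₀ hR.le h 2
  linarith

theorem vol_inter {R : ℝ} (hR : 0 < R) {v w : EuclideanSpace ℝ (Fin d)} (h : R ≤ dist v w) :
    volume (ball v R ∩ ball w R) ≤ ENNReal.ofReal (kap d) * b d R :=
  (measure_mono (inter_subset hR h)).trans_eq (vol_small _ _)

theorem vol_inter_le (R : ℝ) (v w : EuclideanSpace ℝ (Fin d)) :
    volume (ball v R ∩ ball w R) ≤ b d R :=
  (measure_mono Set.inter_subset_left).trans_eq (vol_ball _ _)

/-- the points closer to `u` than `v`, near `v`. -/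
theorem near_subset {R : ℝ} (hR : 0 < R) {u v : EuclideanSpace ℝ (Fin d)} (hv : v ∈ ball u R) :
    {w | dist w u ≤ dist v u ∧ dist v w < R} ⊆ ball (midpoint ℝ v u) (√3 / 2 * R) := by
  rintro w ⟨h1, h2⟩
  rw [mem_ball] at hv ⊢
  refine dist_lt_of_sq hR ?_
  rw [mid_sq]
  have e1 : dist w v ^ 2 < R ^ 2 := by
    rw [dist_comm]
    exact pow_lt_pow_left₀ h2 dist_nonneg (by norm_num)
  have e2 : dist w u ^ 2 ≤ dist v u ^ 2 := pow_le_pow_left₀ dist_nonneg h1 2
  have e3 : dist v u ^ 2 < R ^ 2 := pow_lt_pow_left₀ hv dist_nonneg (by norm_num)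
  linarith

/-- the close pairs of `T`. -/
def close (T : Set (EuclideanSpace ℝ (Fin d))) (R : ℝ) :
    Set (EuclideanSpace ℝ (Fin d) × EuclideanSpace ℝ (Fin d)) :=
  {q | q.1 ∈ T ∧ q.2 ∈ T ∧ dist q.1 q.2 < R}

theorem measurableSet_close {T : Set (EuclideanSpace ℝ (Fin d))} (hT : MeasurableSet T) (R : ℝ) :
    MeasurableSet (close T R) := by
  refine (measurable_fst hT).inter ((measurable_snd hT).inter ?_)
  exact measurableSet_lt (measurable_fst.dist measurable_snd) measurable_const

/-- (0a): few pairs of points of a ball are close. -/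
theorem vol_close {R : ℝ} (hR : 0 < R) {u : EuclideanSpace ℝ (Fin d)}
    {T : Set (EuclideanSpace ℝ (Fin d))} (hT : MeasurableSet T) (hTu : T ⊆ ball u R) :
    ((volume : Measure (EuclideanSpace ℝ (Fin d))).prod volume) (close T R) ≤
      2 * ENNReal.ofReal (kap d) * b d R * volume T := by
  set S : Set (EuclideanSpace ℝ (Fin d) × EuclideanSpace ℝ (Fin d)) :=
    {q | q.1 ∈ T ∧ dist q.2 u ≤ dist q.1 u ∧ dist q.1 q.2 < R} with hS
  have hSm : MeasurableSet S := by
    refine (measurable_fst hT).inter (MeasurableSet.inter ?_ ?_)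
    · exact measurableSet_le (measurable_snd.dist measurable_const)
        (measurable_fst.dist measurable_const)
    · exact measurableSet_lt (measurable_fst.dist measurable_snd) measurable_const
  have hSle : ((volume : Measure (EuclideanSpace ℝ (Fin d))).prod volume) S ≤
      ENNReal.ofReal (kap d) * b d R * volume T := by
    rw [Measure.prod_apply hSm]
    calc ∫⁻ v, volume (Prod.mk v ⁻¹' S)
        ≤ ∫⁻ v, T.indicator (fun _ => ENNReal.ofReal (kap d) * b d R) v := by
          refine lintegral_mono fun v => ?_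
          by_cases hv : v ∈ T
          · rw [Set.indicator_of_mem hv]
            refine (measure_mono ?_).trans_eq (vol_small (midpoint ℝ v u) R)
            refine Set.Subset.trans ?_ (near_subset hR (hTu hv))
            rintro w ⟨_, h1, h2⟩
            exact ⟨h1, h2⟩
          · rw [Set.indicator_of_notMem hv]
            have : Prod.mk v ⁻¹' S = ∅ := by
              ext w
              simp [hS, hv]
            rw [this]
            simp
      _ = ENNReal.ofReal (kap d) * b d R * volume T := by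
          rw [lintegral_indicator hT, setLIntegral_const]
  have hsub : close T R ⊆ S ∪ Prod.swap ⁻¹' S := by
    rintro ⟨v, w⟩ ⟨h1, h2, h3⟩
    rcases le_total (dist w u) (dist v u) with h | h
    · exact Or.inl ⟨h1, h, h3⟩
    · refine Or.inr ⟨h2, h, ?_⟩
      rw [dist_comm]
      exact h3
  have hsw : ((volume : Measure (EuclideanSpace ℝ (Fin d))).prod volume) (Prod.swap ⁻¹' S) =
      ((volume : Measure (EuclideanSpace ℝ (Fin d))).prod volume) S := by
    rw [← Measure.map_apply measurable_swap hSm, Measure.prod_swap]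
  calc ((volume : Measure (EuclideanSpace ℝ (Fin d))).prod volume) (close T R)
      ≤ _ := measure_mono hsub
    _ ≤ _ := measure_union_le _ _
    _ ≤ ENNReal.ofReal (kap d) * b d R * volume T + ENNReal.ofReal (kap d) * b d R * volume T := by
        rw [hsw]
        exact add_le_add hSle hSle
    _ = _ := by ring

end

end Geo

end Pool.Agent.MF
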