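import Pool.Agent.Lib.MF.Top
import Pool.Agent.Lib.MF.Geo

/-! # Project MF, row GEOB: the geometry of the hard spheres.  helper26. -/

set_option autoImplicit false

open MeasureTheory Metric
open scoped ENNReal

namespace Pool.Agent.HdGas

namespace GeobR

noncomputable section

variable {d : ℕ}

theorem kap_eq (d : ℕ) : kap d = MF.Geo.kap d := rfl

/-- the identification with Euclidean space. -/
def e (d : ℕ) : (Fin d → ℝ) ≃ᵐ EuclideanSpace ℝ (Fin d) := MeasurableEquiv.toLp 2 (Fin d → ℝ)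

theorem mp (d : ℕ) : MeasurePreserving (e d) volume volume :=
  (EuclideanSpace.volume_preserving_symm_measurableEquiv_toLp (Fin d)).symm

theorem dist_e (x y : Fin d → ℝ) : dist (e d x) (e d y) = √(∑ k, (x k - y k) ^ 2) := by
  rw [EuclideanSpace.dist_eq]
  congr 1
  refine Finset.sum_congr rfl fun k _ => ?_
  rw [Real.dist_eq, sq_abs]
  rfl

theorem Cb_iff (x y : Fin d → ℝ) : Cb d x y ↔ dist (e d x) (e d y) < 1 := by
  rw [dist_e, Real.sqrt_lt' one_pos, one_pow]
  rfl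

theorem e_zero : e d 0 = 0 := rfl

theorem vol_pre (A : Set (EuclideanSpace ℝ (Fin d))) :
    volume {x : Fin d → ℝ | e d x ∈ A} = volume A :=
  (mp d).measure_preimage_equiv A

theorem ofReal_bv (d : ℕ) : ENNReal.ofReal (bv d) = MF.Geo.b d 1 := by
  have h : volume {x : Fin d → ℝ | ∑ k, x k ^ 2 < 1} = MF.Geo.b d 1 := by
    rw [MF.Geo.b, ← vol_pre]
    congr 1
    ext x
    have := Cb_iff x 0
    rw [e_zero] at this
    rw [Set.mem_setOf_eq, Set.mem_setOf_eq, mem_ball, ← this]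
    simp [Cb]
  unfold bv
  rw [h, ENNReal.ofReal_toReal (MF.Geo.b_ne_top d 1)]

theorem bv_pos (d : ℕ) : 0 < bv d := by
  rw [← ENNReal.ofReal_pos, ofReal_bv]
  exact MF.Geo.b_pos d one_pos

theorem measurable_Cb (d : ℕ) : MeasurableSet {p : (Fin d → ℝ) × (Fin d → ℝ) | Cb d p.1 p.2} := by
  unfold Cb
  refine measurableSet_lt ?_ measurable_const
  refine Finset.measurable_sum _ fun k _ => ?_
  exact (((measurable_pi_apply k).comp measurable_fst).sub
    ((measurable_pi_apply k).comp measurable_snd)).pow_const 2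

theorem Cb_symm (x y : Fin d → ℝ) (h : Cb d x y) : Cb d y x := by
  rw [Cb_iff] at h ⊢
  rwa [dist_comm]

open Pool.Agent.SquareWellGas Pool.Agent.KacGas Pool.Agent.VdwGas in
theorem box_eq (d : ℕ) (ℓ : ℝ) : Box d ℓ = Set.univ.pi fun _ : Fin d => Set.Ico (0 : ℝ) ℓ := by
  ext x
  simp [Box]

theorem vol_ball (u : Fin d → ℝ) : volume {z | Cb d u z} = ENNReal.ofReal (bv d) := by
  rw [ofReal_bv, ← MF.Geo.vol_ball (e d u) 1, ← vol_pre]
  congr 1
  ext z
  rw [Set.mem_setOf_eq, Set.mem_setOf_eq, Cb_iff, mem_ball, dist_comm]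

theorem vol_far (v w : Fin d → ℝ) (h : ¬ Cb d v w) :
    volume {z | Cb d v z ∧ Cb d w z} ≤ ENNReal.ofReal (kap d * bv d) := by
  rw [Cb_iff, not_lt] at h
  rw [kap_eq, ENNReal.ofReal_mul (MF.Geo.kap_pos d).le, ofReal_bv]
  refine (le_of_eq ?_).trans (MF.Geo.vol_inter one_pos h)
  rw [← vol_pre]
  congr 1
  ext z
  rw [Set.mem_setOf_eq, Set.mem_setOf_eq, Cb_iff, Cb_iff, Set.mem_inter_iff, mem_ball, mem_ball,
    dist_comm (e d v), dist_comm (e d w)]

theorem vol_pair (u : Fin d → ℝ) (T : Set (Fin d → ℝ)) (hT : MeasurableSet T)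
    (hTu : T ⊆ {z | Cb d u z}) :
    ((volume : Measure (Fin d → ℝ)).prod volume)
      {p : (Fin d → ℝ) × (Fin d → ℝ) | p.1 ∈ T ∧ p.2 ∈ T ∧ Cb d p.1 p.2} ≤
      ENNReal.ofReal (2 * kap d * bv d) * volume T := by
  have hT' : MeasurableSet ((e d).symm ⁻¹' T) := (e d).symm.measurable hT
  have hsub : (e d).symm ⁻¹' T ⊆ Metric.ball (e d u) 1 := by
    intro z hz
    have h1 : Cb d u ((e d).symm z) := hTu hz
    rw [Cb_iff, MeasurableEquiv.apply_symm_apply] at h1
    rwa [mem_ball, dist_comm]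
  have h := MF.Geo.vol_close one_pos hT' hsub
  have e1 : volume ((e d).symm ⁻¹' T) = volume T := (mp d).symm.measure_preimage_equiv T
  have e2 : ((volume : Measure (Fin d → ℝ)).prod volume)
      {p : (Fin d → ℝ) × (Fin d → ℝ) | p.1 ∈ T ∧ p.2 ∈ T ∧ Cb d p.1 p.2} =
      ((volume : Measure (EuclideanSpace ℝ (Fin d))).prod volume)
        (MF.Geo.close ((e d).symm ⁻¹' T) 1) := by
    rw [← ((mp d).prod (mp d)).measure_preimage
      (MF.Geo.measurableSet_close hT' 1).nullMeasurableSet]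
    congr 1
    ext p
    simp only [Set.mem_preimage, MF.Geo.close, Set.mem_setOf_eq, Prod.map_fst, Prod.map_snd,
      MeasurableEquiv.symm_apply_apply, Cb_iff]
  rw [e2]
  refine h.trans (le_of_eq ?_)
  rw [e1, kap_eq, ENNReal.ofReal_mul (mul_nonneg two_pos.le (MF.Geo.kap_pos d).le),
    ENNReal.ofReal_mul two_pos.le, ofReal_bv, ENNReal.ofReal_ofNat]

end

end GeobR

open GeobR in
/-- Row GEOB. -/
theorem geob_of : GEOB := by
  intro d _ ℓ
  refine ⟨measurable_Cb d, fun x => ?_, Cb_symm, ?_, ?_, bv_pos d, MF.Geo.kap_pos d,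
    MF.Geo.kap_le_one d, fun u => (vol_ball u).le, vol_far, vol_pair⟩
  · rw [Cb_iff, dist_self]
    exact one_pos
  · rw [box_eq]
    exact MeasurableSet.univ_pi fun _ => measurableSet_Ico
  · rw [box_eq, Real.volume_pi_Ico]
    exact (ENNReal.prod_lt_top fun _ _ => ENNReal.ofReal_lt_top).ne

end Pool.Agent.HdGas
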