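import Pool.Agent.Lib.MF.Rows

/-!
# Integrals over configurations; the Mecke formula
-/

set_option autoImplicit false

namespace Pool.Agent.HdGas

open MeasureTheory Filter Topology

variable {S : Type} [MeasurableSpace S]

theorem measurable_mk (n : ℕ) : Measurable fun x : Fin n → S => (⟨n, x⟩ : Om S) :=
  measurable_iff_le_map.2 (iInf_le _ n)

theorem measurable_om {β : Type*} [MeasurableSpace β] {f : Om S → β}
    (h : ∀ n, Measurable fun x : Fin n → S => f ⟨n, x⟩) : Measurable f := by
  intro t ht
  rw [MeasurableSpace.measurableSet_iInf]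
  intro n
  exact h n ht

theorem measurable_cons (n : ℕ) :
    Measurable fun q : S × (Fin n → S) => (Fin.cons q.1 q.2 : Fin (n + 1) → S) := by
  refine measurable_pi_lambda _ fun i => ?_
  refine Fin.cases ?_ (fun j => ?_) i
  · simpa using measurable_fst
  · show Measurable fun c : S × (Fin n → S) => c.2 j
    exact (measurable_pi_apply j).comp measurable_snd

theorem lint_pois (m : Measure S) (lam : ℝ) (L : Set S) {F : Om S → ENNReal}
    (hF : Measurable F) : ∫⁻ ω, F ω ∂pois m lam L =
      ∑' n : ℕ, ENNReal.ofReal (lam ^ n / n.factorial) *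
        ∫⁻ x, F ⟨n, x⟩ ∂(Measure.pi fun _ : Fin n => m.restrict L) := by
  unfold pois
  rw [lintegral_sum_measure]
  refine tsum_congr fun n => ?_
  rw [lintegral_smul_measure, lintegral_map hF (measurable_mk n), smul_eq_mul]

/-- Permuting the points does not change the product measure. -/
theorem lint_perm (m : Measure S) [SigmaFinite m] (n : ℕ) (σ : Equiv.Perm (Fin n))
    (f : (Fin n → S) → ENNReal) :
    ∫⁻ x, f (x ∘ σ) ∂(Measure.pi fun _ : Fin n => m) = ∫⁻ x, f x ∂(Measure.pi fun _ => m) := by
  have h := measurePreserving_piCongrLeft (fun _ : Fin n => m) σ.symm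
  have e : ∀ x : Fin n → S, (MeasurableEquiv.piCongrLeft (fun _ : Fin n => S) σ.symm) x
      = x ∘ σ := by
    intro x
    funext i
    have := Equiv.piCongrLeft_apply_apply (fun _ : Fin n => S) σ.symm x (σ i)
    simpa [MeasurableEquiv.coe_piCongrLeft] using this
  calc ∫⁻ x, f (x ∘ σ) ∂(Measure.pi fun _ : Fin n => m)
      = ∫⁻ x, f ((MeasurableEquiv.piCongrLeft (fun _ : Fin n => S) σ.symm) x)
          ∂(Measure.pi fun _ : Fin n => m) := by simp only [e]
    _ = _ := h.lintegral_comp_emb
        (MeasurableEquiv.piCongrLeft (fun _ : Fin n => S) σ.symm).measurableEmbedding f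

theorem lint_cons (m : Measure S) [SigmaFinite m] (n : ℕ) {f : (Fin (n + 1) → S) → ENNReal}
    (hf : Measurable f) : ∫⁻ y, f y ∂(Measure.pi fun _ : Fin (n + 1) => m) =
      ∫⁻ p, ∫⁻ x, f (Fin.cons p x) ∂(Measure.pi fun _ : Fin n => m) ∂m := by
  have h := (measurePreserving_piFinSuccAbove (fun _ : Fin (n + 1) => m) 0).symm
  rw [← h.lintegral_comp hf, lintegral_prod]
  · refine lintegral_congr fun p => lintegral_congr fun x => ?_
    simp [MeasurableEquiv.piFinSuccAbove, Fin.insertNthEquiv]
  · exact (hf.comp h.measurable).aemeasurable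

theorem mecke : MECKE := by
  intro S _ m _ lam hlam L hL F hF hFs g hg
  have hG : Measurable fun ω : Om S => F ω * ∑ i, g (ω.2 i) := by
    refine measurable_om fun n => ?_
    have h2 : Measurable fun x : Fin n → S => ∑ i, g (x i) :=
      Finset.measurable_sum _ fun i _ => hg.comp (measurable_pi_apply i)
    exact (hF.comp (measurable_mk n)).mul h2
  rw [lint_pois m lam L hG, tsum_eq_zero_add' ENNReal.summable]
  -- the term without points
  have h0 : ENNReal.ofReal (lam ^ 0 / (Nat.factorial 0 : ℝ)) *
      ∫⁻ x, F ⟨0, x⟩ * ∑ i, g (x i) ∂(Measure.pi fun _ : Fin 0 => m.restrict L) = 0 := by simp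
  rw [h0, zero_add]
  -- the inner integral on the right
  have hins : ∀ p : S, Measurable fun ω : Om S => F (ins p ω) := by
    intro p
    refine measurable_om fun n => ?_
    exact hF.comp ((measurable_mk (n + 1)).comp ((measurable_cons n).comp measurable_prodMk_left))
  have hI : ∀ n : ℕ, Measurable fun p : S =>
      ∫⁻ x, F ⟨n + 1, Fin.cons p x⟩ ∂(Measure.pi fun _ : Fin n => m.restrict L) := by
    intro n
    exact Measurable.lintegral_prod_right' (f := fun q : S × (Fin n → S) =>
      F ⟨n + 1, Fin.cons q.1 q.2⟩) (hF.comp ((measurable_mk (n + 1)).comp (measurable_cons n)))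
  have hR : ∀ p : S, ∫⁻ ω, F (ins p ω) ∂pois m lam L =
      ∑' n : ℕ, ENNReal.ofReal (lam ^ n / n.factorial) *
        ∫⁻ x, F ⟨n + 1, Fin.cons p x⟩ ∂(Measure.pi fun _ : Fin n => m.restrict L) := by
    intro p
    rw [lint_pois m lam L (hins p)]
    rfl
  simp only [hR]
  simp only [← ENNReal.tsum_mul_left]
  rw [lintegral_tsum]
  · rw [← ENNReal.tsum_mul_left]
    refine tsum_congr fun n => ?_
    have hf0 : Measurable fun y : Fin (n + 1) → S => F ⟨n + 1, y⟩ * g (y 0) :=
      (hF.comp (measurable_mk (n + 1))).mul (hg.comp (measurable_pi_apply 0))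
    -- all the summands have the same integral
    have hsum : ∫⁻ y, F ⟨n + 1, y⟩ * ∑ i, g (y i)
        ∂(Measure.pi fun _ : Fin (n + 1) => m.restrict L)
        = (n + 1 : ℕ) * ∫⁻ y, F ⟨n + 1, y⟩ * g (y 0)
          ∂(Measure.pi fun _ : Fin (n + 1) => m.restrict L) := by
      simp only [Finset.mul_sum]
      rw [lintegral_finsetSum]
      · rw [Finset.sum_congr rfl (g := fun _ => ∫⁻ y, F ⟨n + 1, y⟩ * g (y 0)
          ∂(Measure.pi fun _ : Fin (n + 1) => m.restrict L))]
        · simp
        · intro i _
          have h1 := lint_perm (m.restrict L) (n + 1) (Equiv.swap 0 i)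
            (fun y => F ⟨n + 1, y⟩ * g (y 0))
          rw [← h1]
          refine lintegral_congr fun y => ?_
          rw [hFs (n + 1) y (Equiv.swap 0 i)]
          simp
      · intro i _
        exact (hF.comp (measurable_mk (n + 1))).mul (hg.comp (measurable_pi_apply i))
    have hc : ∫⁻ y, F ⟨n + 1, y⟩ * g (y 0) ∂(Measure.pi fun _ : Fin (n + 1) => m.restrict L)
        = ∫⁻ p in L, g p *
          ∫⁻ x, F ⟨n + 1, Fin.cons p x⟩ ∂(Measure.pi fun _ : Fin n => m.restrict L) ∂m := by
      rw [lint_cons (m.restrict L) n hf0]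
      refine lintegral_congr fun p => ?_
      rw [← lintegral_const_mul]
      · refine lintegral_congr fun x => ?_
        simp [mul_comm]
      · exact hF.comp ((measurable_mk (n + 1)).comp
          ((measurable_cons n).comp measurable_prodMk_left))
    have hr : ∫⁻ p in L, g p * (ENNReal.ofReal (lam ^ n / n.factorial) *
          ∫⁻ x, F ⟨n + 1, Fin.cons p x⟩ ∂(Measure.pi fun _ : Fin n => m.restrict L)) ∂m
        = ENNReal.ofReal (lam ^ n / n.factorial) * ∫⁻ p in L, g p *
          ∫⁻ x, F ⟨n + 1, Fin.cons p x⟩ ∂(Measure.pi fun _ : Fin n => m.restrict L) ∂m := by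
      have hgI : Measurable fun p : S => g p *
          ∫⁻ x, F ⟨n + 1, Fin.cons p x⟩ ∂(Measure.pi fun _ : Fin n => m.restrict L) :=
        hg.mul (hI n)
      rw [← lintegral_const_mul _ hgI]
      refine lintegral_congr fun p => ?_
      ring
    rw [hr, hsum, hc]
    have hco : ENNReal.ofReal (lam ^ (n + 1) / (n + 1).factorial) * ((n + 1 : ℕ) : ENNReal)
        = ENNReal.ofReal lam * ENNReal.ofReal (lam ^ n / n.factorial) := by
      rw [← ENNReal.ofReal_natCast, ← ENNReal.ofReal_mul (by positivity),
        ← ENNReal.ofReal_mul hlam]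
      congr 1
      rw [Nat.factorial_succ]
      push_cast
      field_simp
      ring
    rw [← mul_assoc, hco, mul_assoc]
  · intro n
    exact (hg.mul ((hI n).const_mul _)).aemeasurable

end Pool.Agent.HdGas
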