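import Mathlib
import Pool.Agent.Lib.MF.Rows
import Pool.Agent.Lib.MF.Mecke

/-! MF, row IDEAL: the gas inside one excluded region is nearly ideal.  helper33. -/

set_option autoImplicit false

namespace Pool.Agent.HdGas

open MeasureTheory

namespace Idl

variable {S : Type} [MeasurableSpace S]

lemma hc_cons {C : S → S → Prop} (hs : ∀ x y, C x y → C y x) {n : ℕ} (p : S) (y : Fin n → S) :
    hc C (⟨n + 1, Fin.cons p y⟩ : Om S) ↔ hc C (⟨n, y⟩ : Om S) ∧ ∀ i, ¬ C p (y i) := by
  constructor
  · intro h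
    refine ⟨fun i j hij => ?_, fun i => ?_⟩
    · have := h i.succ j.succ (fun e => hij (Fin.succ_injective _ e))
      simpa using this
    · have := h 0 i.succ (Fin.succ_ne_zero i).symm
      simpa using this
  · rintro ⟨h1, h2⟩ i j hij
    rcases Fin.eq_zero_or_eq_succ i with rfl | ⟨i', rfl⟩ <;>
      rcases Fin.eq_zero_or_eq_succ j with rfl | ⟨j', rfl⟩
    · exact absurd rfl hij
    · simpa using h2 j'
    · simpa using fun h => h2 i' (hs _ _ h)
    · simpa using h1 i' j' (fun e => hij (by rw [e]))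

/-- marginals -/
lemma pi_eval (μ : Measure S) [IsFiniteMeasure μ] (n : ℕ) (i : Fin n) {s : Set S}
    (hs : MeasurableSet s) :
    (Measure.pi fun _ : Fin n => μ) {y | y i ∈ s} = μ Set.univ ^ (n - 1) * μ s := by
  classical
  have e : {y : Fin n → S | y i ∈ s} =
      Set.pi Set.univ (fun j => if j = i then s else Set.univ) := by
    ext y
    simp only [Set.mem_setOf_eq, Set.mem_pi, Set.mem_univ, true_imp_iff]
    constructor
    · intro h j
      by_cases hj : j = i
      · subst hj; simpa using h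
      · simp [hj]
    · intro h
      simpa using h i
  rw [e, Measure.pi_pi]
  have e2 : ∀ j : Fin n, μ (if j = i then s else Set.univ) = if j = i then μ s else μ Set.univ := by
    intro j
    split_ifs <;> rfl
  simp only [e2]
  rw [Finset.prod_ite]
  have c1 : (Finset.univ.filter fun j : Fin n => j = i) = {i} := by
    ext j; simp
  have c2 : (Finset.univ.filter fun j : Fin n => ¬ j = i).card = n - 1 := by
    rw [Finset.filter_not, c1, Finset.card_sdiff_of_subset (Finset.subset_univ _)]
    simp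
  rw [c1, Finset.prod_const, Finset.prod_const, c2, mul_comm]
  simp

/-- some point of `y` excludes `p` -/
lemma pi_ex (μ : Measure S) [IsFiniteMeasure μ] (n : ℕ) {s : Set S} (hs : MeasurableSet s) :
    (Measure.pi fun _ : Fin n => μ) {y | ∃ i, y i ∈ s} ≤ n * μ Set.univ ^ (n - 1) * μ s := by
  have e : {y : Fin n → S | ∃ i, y i ∈ s} = ⋃ i, {y | y i ∈ s} := by
    ext y; simp
  rw [e]
  refine (measure_iUnion_fintype_le _ _).trans ?_
  rw [Finset.sum_congr rfl fun i _ => pi_eval μ n i hs]
  simp [mul_assoc]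

/-- one more point -/
lemma step {C : S → S → Prop} (hs : ∀ x y, C x y → C y x)
    (hC : MeasurableSet {p : S × S | C p.1 p.2}) (hh : MeasurableSet {ω : Om S | hc C ω})
    (μ : Measure S) [IsFiniteMeasure μ] (n : ℕ) :
    μ Set.univ * (Measure.pi fun _ : Fin n => μ) {x | hc C ⟨n, x⟩} ≤
      (Measure.pi fun _ : Fin (n + 1) => μ) {x | hc C ⟨n + 1, x⟩} +
        n * μ Set.univ ^ (n - 1) * (μ.prod μ) {p | C p.1 p.2} := by
  have hm : ∀ n : ℕ, MeasurableSet {x : Fin n → S | hc C ⟨n, x⟩} := fun n => measurable_mk n hh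
  have e1 : (Measure.pi fun _ : Fin (n + 1) => μ) {x | hc C ⟨n + 1, x⟩} =
      ∫⁻ p, (Measure.pi fun _ : Fin n => μ) {y | hc C ⟨n, y⟩ ∧ ∀ i, ¬ C p (y i)} ∂μ := by
    rw [← lintegral_indicator_one (hm (n + 1)), lint_cons μ n (measurable_one.indicator (hm (n + 1)))]
    refine lintegral_congr fun p => ?_
    have hmp : MeasurableSet {y : Fin n → S | hc C ⟨n + 1, Fin.cons p y⟩} :=
      ((measurable_cons n).comp (measurable_const.prodMk measurable_id)) (hm (n + 1))
    have e2 : {y : Fin n → S | hc C ⟨n, y⟩ ∧ ∀ i, ¬ C p (y i)} =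
        {y : Fin n → S | hc C ⟨n + 1, Fin.cons p y⟩} := by
      ext y
      exact (hc_cons hs p y).symm
    rw [e2, ← lintegral_indicator_one hmp]
    rfl
  have hsec : ∀ p, MeasurableSet {z | C p z} := fun p => measurable_prodMk_left hC
  have e3 : (μ.prod μ) {p | C p.1 p.2} = ∫⁻ p, μ {z | C p z} ∂μ := Measure.prod_apply hC
  have hmeas : Measurable fun p => μ {z | C p z} := measurable_measure_prodMk_left hC
  rw [e1, e3, ← lintegral_const_mul _ hmeas, ← lintegral_add_right _ (hmeas.const_mul _)]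
  calc μ Set.univ * (Measure.pi fun _ : Fin n => μ) {x | hc C ⟨n, x⟩}
      = ∫⁻ _, (Measure.pi fun _ : Fin n => μ) {x | hc C ⟨n, x⟩} ∂μ := by
        rw [lintegral_const, mul_comm]
    _ ≤ _ := by
        refine lintegral_mono fun p => ?_
        have hsub : {x : Fin n → S | hc C ⟨n, x⟩} ⊆
            {y | hc C ⟨n, y⟩ ∧ ∀ i, ¬ C p (y i)} ∪ {y | ∃ i, y i ∈ {z | C p z}} := by
          intro x hx
          by_cases h : ∃ i, C p (x i)
          · exact Or.inr h
          · left
            exact ⟨hx, fun i hi => h ⟨i, hi⟩⟩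
        exact ((measure_mono hsub).trans (measure_union_le _ _)).trans
          (add_le_add le_rfl (pi_ex μ n (hsec p)))

/-- lower bound for the series -/
lemma series {lam M X a : ℝ} {Q : ℕ → ℝ} (hlam : 0 ≤ lam) (hM : 0 ≤ M)
    (h0 : Q 0 = 1) (hQ : ∀ n : ℕ, M * Q n ≤ Q (n + 1) + n * M ^ (n - 1) * X)
    (hs : HasSum (fun n : ℕ => lam ^ n / n.factorial * Q n) a) :
    Real.exp (lam * M) * (1 - lam ^ 2 * X / 2) ≤ a := by
  have hlow : ∀ n : ℕ, M ^ n - n * (n - 1) / 2 * M ^ (n - 2) * X ≤ Q n := by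
    intro n
    induction n with
    | zero => simp [h0]
    | succ n ih =>
      have h1 := hQ n
      have h2 : M * (M ^ n - n * (n - 1) / 2 * M ^ (n - 2) * X) ≤ M * Q n :=
        mul_le_mul_of_nonneg_left ih hM
      have h3 : M ^ (n + 1) - (n + 1 : ℕ) * ((n + 1 : ℕ) - 1) / 2 * M ^ (n + 1 - 2) * X =
          M * (M ^ n - n * (n - 1) / 2 * M ^ (n - 2) * X) - n * M ^ (n - 1) * X := by
        rcases n with _ | _ | n
        · simp
        · norm_num
          ring
        · simp only [Nat.add_sub_cancel]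
          have e1 : n + 1 + 1 + 1 - 2 = n + 1 := by omega
          have e2 : n + 1 + 1 - 2 = n := by omega
          rw [e1, e2]
          push_cast
          ring
      rw [h3]
      linarith
  have hexp : HasSum (fun n : ℕ => (lam * M) ^ n / n.factorial) (Real.exp (lam * M)) := by
    rw [Real.exp_eq_exp_ℝ]
    exact NormedSpace.expSeries_div_hasSum_exp (lam * M)
  have h2 : HasSum (fun n : ℕ => lam ^ n / n.factorial * (n * (n - 1) / 2 * M ^ (n - 2) * X))
      (Real.exp (lam * M) * (lam ^ 2 * X / 2)) := by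
    have h3 := (hasSum_nat_add_iff (f := fun n : ℕ =>
      lam ^ n / n.factorial * (n * (n - 1) / 2 * M ^ (n - 2) * X)) 2
      (g := Real.exp (lam * M) * (lam ^ 2 * X / 2))).1 ?_
    · simpa [Finset.sum_range_succ] using h3
    · have h4 := hexp.mul_right (lam ^ 2 * X / 2)
      have e : (fun n : ℕ => lam ^ (n + 2) / (n + 2).factorial * (((n + 2 : ℕ) : ℝ) *
          (((n + 2 : ℕ) : ℝ) - 1) / 2 * M ^ (n + 2 - 2) * X)) =
          fun n : ℕ => (lam * M) ^ n / n.factorial * (lam ^ 2 * X / 2) := by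
        funext n
        rw [Nat.add_sub_cancel, Nat.factorial_succ, Nat.factorial_succ]
        have : (n.factorial : ℝ) ≠ 0 := by positivity
        push_cast
        field_simp
        ring
      rw [e]
      exact h4
  have h5 : HasSum (fun n : ℕ => lam ^ n / n.factorial *
      (M ^ n - n * (n - 1) / 2 * M ^ (n - 2) * X))
      (Real.exp (lam * M) - Real.exp (lam * M) * (lam ^ 2 * X / 2)) := by
    have := hexp.sub h2
    have e : (fun n : ℕ => lam ^ n / n.factorial *
        (M ^ n - n * (n - 1) / 2 * M ^ (n - 2) * X)) = fun n : ℕ => (lam * M) ^ n / n.factorial -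
        lam ^ n / n.factorial * (n * (n - 1) / 2 * M ^ (n - 2) * X) := by
      funext n
      rw [mul_pow]
      ring
    rw [e]
    exact this
  have h6 := hasSum_le (fun n => mul_le_mul_of_nonneg_left (hlow n) (by positivity)) h5 hs
  linarith

end Idl

open Idl in
theorem ideal_of (hbas : BAS) : IDEAL := by
  intro S _ m _ C L b κ lam hG hlam u T hT hTu
  have hmT : m T ≤ ENNReal.ofReal b := (measure_mono hTu).trans (hG.ball u)
  have hfin : m T ≠ ⊤ := (hmT.trans_lt ENNReal.ofReal_lt_top).ne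
  obtain ⟨h1, h2, h3, h4, h5, h6⟩ := hbas S m C T lam hG.meas hT hfin hlam
  refine ⟨?_, h5⟩
  set μ := m.restrict T with hμ
  have : IsFiniteMeasure μ := ⟨by rw [hμ, Measure.restrict_apply_univ]; exact hfin.lt_top⟩
  have hμu : μ Set.univ = m T := by rw [hμ, Measure.restrict_apply_univ]
  set X := (μ.prod μ) {p : S × S | C p.1 p.2} with hX
  have hXle : X ≤ ENNReal.ofReal (2 * κ * b) * m T := by
    rw [hX, hμ, Measure.prod_restrict, Measure.restrict_apply hG.meas]
    refine le_trans (measure_mono ?_) (hG.pair u T hT hTu)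
    rintro ⟨x, y⟩ ⟨hx, hxy⟩
    exact ⟨hxy.1, hxy.2, hx⟩
  have hXfin : X ≠ ⊤ := (hXle.trans_lt (ENNReal.mul_lt_top ENNReal.ofReal_lt_top hfin.lt_top)).ne
  have hQ : ∀ n : ℕ, (m T).toReal * ((Measure.pi fun _ : Fin n => μ) {x | hc C ⟨n, x⟩}).toReal ≤
      ((Measure.pi fun _ : Fin (n + 1) => μ) {x | hc C ⟨n + 1, x⟩}).toReal +
        n * (m T).toReal ^ (n - 1) * X.toReal := by
    intro n
    have h := step hG.symm hG.meas h1 μ n
    rw [hμu] at h
    have h' := ENNReal.toReal_mono (by
      refine ENNReal.add_ne_top.2 ⟨measure_ne_top _ _, ?_⟩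
      exact ENNReal.mul_ne_top (ENNReal.mul_ne_top (ENNReal.natCast_ne_top n)
        (ENNReal.pow_ne_top hfin)) hXfin) h
    rw [ENNReal.toReal_add (measure_ne_top _ _) (ENNReal.mul_ne_top (ENNReal.mul_ne_top
      (ENNReal.natCast_ne_top n) (ENNReal.pow_ne_top hfin)) hXfin)] at h'
    simpa [ENNReal.toReal_mul, ENNReal.toReal_pow] using h'
  have h0 : ((Measure.pi fun _ : Fin 0 => μ) {x | hc C ⟨0, x⟩}).toReal = 1 := by
    have : {x : Fin 0 → S | hc C ⟨0, x⟩} = Set.univ := by
      ext x
      simp [hc]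
    rw [this]
    simp
  have hser := series hlam ENNReal.toReal_nonneg h0 hQ h6
  refine le_trans ?_ hser
  apply mul_le_mul_of_nonneg_left _ (Real.exp_pos _).le
  have hXr : X.toReal ≤ 2 * κ * b * (m T).toReal := by
    have := ENNReal.toReal_mono (ENNReal.mul_ne_top ENNReal.ofReal_ne_top hfin) hXle
    rw [ENNReal.toReal_mul, ENNReal.toReal_ofReal (by
      have := hG.kap_pos; have := hG.b_pos; positivity)] at this
    exact this
  have : lam ^ 2 * X.toReal / 2 ≤ lam * (m T).toReal * (lam * b * κ) := by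
    have := mul_le_mul_of_nonneg_left hXr (sq_nonneg lam)
    nlinarith
  linarith

end Pool.Agent.HdGas
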