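import Pool.Agent.Lib.MF.Mecke

/-!
# Intensities
-/

set_option autoImplicit false

namespace Pool.Agent.HdGas

open MeasureTheory Filter Topology

variable {S : Type}

theorem sym_hc (C : S → S → Prop) : Sym (hc C) := by
  intro n x σ
  apply propext
  constructor
  · intro h i j hij
    have := h (σ.symm i) (σ.symm j) (fun e => hij (by simpa using congrArg σ e))
    simpa using this
  · intro h i j hij
    exact h (σ i) (σ j) (fun e => hij (σ.injective e))

theorem hc_ins {C : S → S → Prop} (hs : ∀ x y, C x y → C y x) (p : S) (ω : Om S) :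
    hc C (ins p ω) ↔ hc C ω ∧ fr C (Al S) p ω := by
  constructor
  · intro h
    refine ⟨fun i j hij => ?_, fun i _ => ?_⟩
    · have := h i.succ j.succ (fun e => hij (Fin.succ_injective _ e))
      simpa [ins] using this
    · have := h (0 : Fin (ω.1 + 1)) (i.succ : Fin (ω.1 + 1)) (Fin.succ_ne_zero i).symm
      simpa [ins] using this
  · rintro ⟨h1, h2⟩ i j hij
    refine Fin.cases (fun hij => ?_) (fun i hij => ?_) i hij
    · refine Fin.cases (fun hij => absurd rfl hij) (fun j _ => ?_) j hij
      simpa [ins] using h2 j trivial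
    · refine Fin.cases (fun _ => ?_) (fun j hij => ?_) j hij
      · have := h2 i trivial
        simp only [ins, Fin.cons_succ, Fin.cons_zero]
        exact fun hc => this (hs _ _ hc)
      · simpa [ins] using h1 i j (fun e => hij (by rw [e]))

theorem chi_nonneg (C : S → S → Prop) (K : S → Prop) (v : S) (ω : Om S) : 0 ≤ chi C K v ω := by
  unfold chi; split_ifs <;> norm_num

theorem chi_le_one (C : S → S → Prop) (K : S → Prop) (v : S) (ω : Om S) : chi C K v ω ≤ 1 := by
  unfold chi; split_ifs <;> norm_num

theorem int_of (h1 : MECKE) (h2 : BAS) (h3 : MEAS) : INT := by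
  intro S _ m _ C L b κ lam hG hlam
  obtain ⟨hmhc, hfp, hfg, hXi1, -, -⟩ := h2 S m C L lam hG.meas hG.measL hG.fin hlam
  obtain ⟨hmeas, -⟩ := h3 S m C L lam hG.meas hG.measL hG.fin hlam
  have hXi0 : 0 < Xi m C lam L := lt_of_lt_of_le one_pos hXi1
  have hXitop : gib m C lam L Set.univ ≠ ⊤ := measure_ne_top _ _
  have hXiE : gib m C lam L Set.univ = ENNReal.ofReal (Xi m C lam L) :=
    (ENNReal.ofReal_toReal hXitop).symm
  -- Mecke with the hard core
  have hmk : ∀ g : S → ENNReal, Measurable g →
      ∫⁻ ω, ∑ i, g (ω.2 i) ∂gib m C lam L = ENNReal.ofReal lam *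
        ∫⁻ p in L, g p * ∫⁻ ω, ENNReal.ofReal (chi C (Al S) p ω) ∂gib m C lam L ∂m := by
    intro g hg
    have hF : Measurable ({ω : Om S | hc C ω}.indicator (fun _ => (1 : ENNReal))) :=
      measurable_const.indicator hmhc
    have hFs : Sym ({ω : Om S | hc C ω}.indicator (fun _ => (1 : ENNReal))) := by
      intro n x σ
      have := sym_hc C n x σ
      by_cases h : hc C ⟨n, x⟩
      · have h' : hc C ⟨n, x ∘ σ⟩ := this ▸ h
        simp [Set.indicator, h, h']
      · have h' : ¬ hc C ⟨n, x ∘ σ⟩ := this ▸ h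
        simp [Set.indicator, h, h']
    have h := h1 S m lam hlam L hG.measL _ hF hFs g hg
    have e1 : ∀ ω : Om S, {ω : Om S | hc C ω}.indicator (fun _ => (1 : ENNReal)) ω *
        ∑ i, g (ω.2 i) = {ω : Om S | hc C ω}.indicator (fun ω => ∑ i, g (ω.2 i)) ω := by
      intro ω
      by_cases h : hc C ω <;> simp [Set.indicator, h]
    simp only [e1] at h
    rw [lintegral_indicator hmhc] at h
    unfold gib
    rw [h]
    congr 1
    refine lintegral_congr fun p => ?_
    congr 1
    rw [← lintegral_indicator hmhc]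
    refine lintegral_congr fun ω => ?_
    by_cases ha : hc C ω
    · by_cases hb : fr C (Al S) p ω
      · have : hc C (ins p ω) := (hc_ins hG.symm p ω).2 ⟨ha, hb⟩
        simp [Set.indicator, ha, this, chi, hb]
      · have : ¬ hc C (ins p ω) := fun h => hb ((hc_ins hG.symm p ω).1 h).2
        simp [Set.indicator, ha, this, chi, hb]
    · have : ¬ hc C (ins p ω) := fun h => ha ((hc_ins hG.symm p ω).1 h).1
      simp [Set.indicator, ha, this]
  have hle : ∀ p : S, ∫⁻ ω, ENNReal.ofReal (chi C (Al S) p ω) ∂gib m C lam L ≤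
      gib m C lam L Set.univ := by
    intro p
    calc ∫⁻ ω, ENNReal.ofReal (chi C (Al S) p ω) ∂gib m C lam L
        ≤ ∫⁻ _, 1 ∂gib m C lam L := by
          refine lintegral_mono fun ω => ?_
          exact ENNReal.ofReal_le_one.2 (chi_le_one _ _ _ _)
      _ = _ := by simp
  constructor
  · intro g hg hg0 hgM
    obtain ⟨M, hM⟩ := hgM
    have hgi : Integrable g (m.restrict L) := by
      have : IsFiniteMeasure (m.restrict L) := ⟨by
        rw [Measure.restrict_apply_univ]; exact lt_top_iff_ne_top.2 hG.fin⟩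
      refine Integrable.of_bound (C := M) hg.aestronglyMeasurable (Eventually.of_forall fun x => ?_)
      rw [Real.norm_of_nonneg (hg0 x)]
      exact hM x
    have hsm : Measurable fun ω : Om S => ∑ i, g (ω.2 i) := by
      refine measurable_om fun n => ?_
      have h2 : Measurable fun x : Fin n → S => ∑ i, g (x i) :=
        Finset.measurable_sum _ fun i _ => hg.comp (measurable_pi_apply i)
      exact h2
    have hs0 : ∀ ω : Om S, 0 ≤ ∑ i, g (ω.2 i) := fun ω => Finset.sum_nonneg fun i _ => hg0 _
    have hb : ∫⁻ ω, ENNReal.ofReal (∑ i, g (ω.2 i)) ∂gib m C lam L ≤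
        ENNReal.ofReal (lam * ∫ x in L, g x ∂m) * gib m C lam L Set.univ := by
      have e1 : ∀ ω : Om S, ENNReal.ofReal (∑ i, g (ω.2 i)) = ∑ i, ENNReal.ofReal (g (ω.2 i)) :=
        fun ω => ENNReal.ofReal_sum_of_nonneg fun i _ => hg0 _
      simp only [e1]
      rw [hmk _ hg.ennreal_ofReal, ENNReal.ofReal_mul hlam, mul_assoc]
      refine mul_le_mul_right ?_ _
      rw [ofReal_integral_eq_lintegral_ofReal hgi (Eventually.of_forall hg0),
        ← lintegral_mul_const _ hg.ennreal_ofReal]
      exact lintegral_mono fun p => mul_le_mul_right (hle p) _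
    have hint : Integrable (fun ω : Om S => ∑ i, g (ω.2 i)) (gib m C lam L) := by
      refine ⟨hsm.aestronglyMeasurable, ?_⟩
      rw [hasFiniteIntegral_iff_ofReal (Eventually.of_forall hs0)]
      refine lt_of_le_of_lt hb ?_
      exact ENNReal.mul_lt_top ENNReal.ofReal_lt_top (lt_top_iff_ne_top.2 hXitop)
    refine ⟨hint, ?_⟩
    unfold ex
    rw [div_le_iff₀ hXi0]
    have hi0 : 0 ≤ ∫ x in L, g x ∂m := integral_nonneg hg0
    have := ENNReal.toReal_mono (ENNReal.mul_ne_top ENNReal.ofReal_ne_top hXitop) hb
    rw [ENNReal.toReal_mul, ENNReal.toReal_ofReal (mul_nonneg hlam hi0)] at this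
    rw [integral_eq_lintegral_of_nonneg_ae (Eventually.of_forall hs0) hsm.aestronglyMeasurable]
    exact this
  · -- the mean number of points
    have hchm : Measurable fun q : S × Om S => chi C (Al S) q.1 q.2 :=
      (hmeas (Al S) (by simp [Al])).1
    have hN := hmk (fun _ => 1) measurable_const
    have hchi : ∀ p : S, ∫⁻ ω, ENNReal.ofReal (chi C (Al S) p ω) ∂gib m C lam L =
        ENNReal.ofReal (∫ ω, chi C (Al S) p ω ∂gib m C lam L) := by
      intro p
      rw [ofReal_integral_eq_lintegral_ofReal]
      · refine Integrable.of_bound (C := 1)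
          (hchm.comp measurable_prodMk_left).aestronglyMeasurable
          (Eventually.of_forall fun ω => ?_)
        rw [Real.norm_of_nonneg (chi_nonneg _ _ _ _)]
        exact chi_le_one _ _ _ _
      · exact Eventually.of_forall fun ω => chi_nonneg _ _ _ _
    have hpm : Measurable fun p : S => ∫ ω, chi C (Al S) p ω ∂gib m C lam L :=
      (hchm.stronglyMeasurable.integral_prod_right' (f := fun q : S × Om S =>
        chi C (Al S) q.1 q.2)).measurable
    have hp0 : ∀ p : S, 0 ≤ ∫ ω, chi C (Al S) p ω ∂gib m C lam L :=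
      fun p => integral_nonneg fun ω => chi_nonneg _ _ _ _
    have hp1 : ∀ p : S, ∫ ω, chi C (Al S) p ω ∂gib m C lam L ≤ Xi m C lam L := by
      intro p
      have := hle p
      rw [hchi p, hXiE] at this
      exact (ENNReal.ofReal_le_ofReal_iff hXi0.le).1 this
    have hpi : Integrable (fun p : S => ∫ ω, chi C (Al S) p ω ∂gib m C lam L) (m.restrict L) := by
      have : IsFiniteMeasure (m.restrict L) := ⟨by
        rw [Measure.restrict_apply_univ]; exact lt_top_iff_ne_top.2 hG.fin⟩
      refine Integrable.of_bound (C := Xi m C lam L) hpm.aestronglyMeasurable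
        (Eventually.of_forall fun x => ?_)
      rw [Real.norm_of_nonneg (hp0 x)]
      exact hp1 x
    simp only [one_mul, hchi] at hN
    rw [← ofReal_integral_eq_lintegral_ofReal hpi (Eventually.of_forall hp0),
      ← ENNReal.ofReal_mul hlam] at hN
    have hNm : Measurable fun ω : Om S => (ω.1 : ℝ) := by
      refine measurable_om fun n => ?_
      show Measurable fun _ : Fin n → S => (n : ℝ)
      exact measurable_const
    have e : ∫ ω : Om S, (ω.1 : ℝ) ∂gib m C lam L =
        lam * ∫ p in L, ∫ ω, chi C (Al S) p ω ∂gib m C lam L ∂m := by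
      rw [integral_eq_lintegral_of_nonneg_ae (Eventually.of_forall fun ω => Nat.cast_nonneg _)
        hNm.aestronglyMeasurable]
      have e2 : ∀ ω : Om S, ENNReal.ofReal (ω.1 : ℝ) = ∑ _i : Fin ω.1, (1 : ENNReal) := by
        intro ω
        simp
      simp only [e2]
      rw [hN, ENNReal.toReal_ofReal]
      exact mul_nonneg hlam (integral_nonneg hp0)
    unfold ex
    rw [e, integral_div]
    ring

end Pool.Agent.HdGas
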