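import Pool.Agent.Lib.MF.Top

/-!
# Row INTEG: integration of the slopes of the pressure
-/

set_option autoImplicit false

namespace Pool.Agent.HdGas

open MeasureTheory Filter Topology

/-- Existence of the root. -/
theorem IntegAux.exists_root {t : ℝ} (ht : 0 ≤ t) : ∃ c : ℝ, 0 ≤ c ∧ c * Real.exp c = t := by
  have hcont : ContinuousOn (fun x : ℝ => x * Real.exp x) (Set.Icc 0 t) :=
    (continuous_id.mul Real.continuous_exp).continuousOn
  have h1 := intermediate_value_Icc ht hcont
  have ht' : t ∈ Set.Icc ((0 : ℝ) * Real.exp 0) (t * Real.exp t) := by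
    constructor
    · simpa using ht
    · have : (1 : ℝ) ≤ Real.exp t := Real.one_le_exp ht
      nlinarith
  obtain ⟨c, hc, hc'⟩ := h1 ht'
  exact ⟨c, hc.1, hc'⟩

/-- Monotonicity of the root. -/
theorem IntegAux.mono {c c' : ℝ} (hc' : 0 ≤ c')
    (h : c * Real.exp c ≤ c' * Real.exp c') : c ≤ c' := by
  by_contra hlt
  push Not at hlt
  have h1 : Real.exp c' < Real.exp c := Real.exp_lt_exp.2 hlt
  have h0 : 0 < Real.exp c' := Real.exp_pos _
  have h2 : c' * Real.exp c' < c * Real.exp c := by
    have ha : c' * Real.exp c' ≤ c' * Real.exp c := mul_le_mul_of_nonneg_left h1.le hc'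
    have hb : c' * Real.exp c < c * Real.exp c :=
      mul_lt_mul_of_pos_right hlt (Real.exp_pos _)
    linarith
  linarith

/-- Increments of `c + c^2/2` in terms of the increment of `log (c e^c)`. -/
theorem IntegAux.inc {c c' h : ℝ} (hc : 0 < c) (hcc : c ≤ c')
    (he : c' * Real.exp c' = Real.exp h * (c * Real.exp c)) :
    h * c ≤ (c' + c' ^ 2 / 2) - (c + c ^ 2 / 2) ∧
      (c' + c' ^ 2 / 2) - (c + c ^ 2 / 2) ≤ h * c' := by
  have hc' : 0 < c' := lt_of_lt_of_le hc hcc
  have hlog : Real.log c' + c' = h + (Real.log c + c) := by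
    have := congrArg Real.log he
    rw [Real.log_mul hc'.ne' (Real.exp_pos _).ne', Real.log_exp,
      Real.log_mul (Real.exp_pos _).ne' (mul_pos hc (Real.exp_pos _)).ne', Real.log_exp,
      Real.log_mul hc.ne' (Real.exp_pos _).ne', Real.log_exp] at this
    exact this
  have h1 : Real.log c' - Real.log c ≤ c' / c - 1 := by
    rw [← Real.log_div hc'.ne' hc.ne']
    exact Real.log_le_sub_one_of_pos (div_pos hc' hc)
  have h2 : Real.log c - Real.log c' ≤ c / c' - 1 := by
    rw [← Real.log_div hc.ne' hc'.ne']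
    exact Real.log_le_sub_one_of_pos (div_pos hc hc')
  have h1' : c * (Real.log c' - Real.log c) ≤ c' - c := by
    calc c * (Real.log c' - Real.log c) ≤ c * (c' / c - 1) :=
          mul_le_mul_of_nonneg_left h1 hc.le
      _ = c' - c := by field_simp
  have h2' : c' - c ≤ c' * (Real.log c' - Real.log c) := by
    have : c' * (Real.log c - Real.log c') ≤ c' * (c / c' - 1) :=
      mul_le_mul_of_nonneg_left h2 hc'.le
    have h3 : c' * (c / c' - 1) = c - c' := by field_simp
    nlinarith
  have hh : h = (Real.log c' - Real.log c) + (c' - c) := by linarith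
  constructor
  · rw [hh]; nlinarith [mul_nonneg (sub_nonneg.2 hcc) (sub_nonneg.2 hcc)]
  · rw [hh]; nlinarith [mul_nonneg (sub_nonneg.2 hcc) (sub_nonneg.2 hcc)]

/-- Increments of a power of `e^μ b`. -/
theorem IntegAux.powinc {t h : ℝ} (ht : 0 ≤ t) (_hh : 0 ≤ h) (k : ℕ) :
    h * (k * t ^ k) ≤ (Real.exp h * t) ^ k - t ^ k ∧
      (Real.exp h * t) ^ k - t ^ k ≤ h * (k * (Real.exp h * t) ^ k) := by
  have e1 : (Real.exp h * t) ^ k = Real.exp (k * h) * t ^ k := by
    rw [mul_pow, ← Real.exp_nat_mul]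
  have h1 : k * h + 1 ≤ Real.exp (k * h) := Real.add_one_le_exp _
  have h2 : -(k * h) + 1 ≤ Real.exp (-(k * h)) := Real.add_one_le_exp _
  have ht' : 0 ≤ t ^ k := pow_nonneg ht k
  have h3 : Real.exp (-(k * h)) * Real.exp (k * h) = 1 := by
    rw [← Real.exp_add]; simp
  rw [e1]
  constructor
  · nlinarith [mul_le_mul_of_nonneg_right h1 ht']
  · have h4 : (-(k * h) + 1) * (Real.exp (k * h) * t ^ k) ≤
        Real.exp (-(k * h)) * (Real.exp (k * h) * t ^ k) :=
      mul_le_mul_of_nonneg_right h2 (mul_nonneg (Real.exp_pos _).le ht')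
    have h5 : Real.exp (-(k * h)) * (Real.exp (k * h) * t ^ k) = t ^ k := by
      rw [← mul_assoc, h3, one_mul]
    nlinarith

/-- Telescoping. -/
theorem IntegAux.tele (Ψ g : ℝ → ℝ) (a b : ℝ) (hab : a ≤ b)
    (hstep : ∀ x y : ℝ, a ≤ x → x ≤ y → y ≤ b → Ψ y - Ψ x ≤ (y - x) * (g y - g x)) :
    Ψ b ≤ Ψ a := by
  have key : ∀ n : ℕ, 0 < n → Ψ b - Ψ a ≤ (b - a) / n * (g b - g a) := by
    intro n hn
    have hn' : (0 : ℝ) < n := by exact_mod_cast hn
    have ind : ∀ k : ℕ, k ≤ n →
        Ψ (a + k * ((b - a) / n)) - Ψ a ≤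
          (b - a) / n * (g (a + k * ((b - a) / n)) - g a) := by
      intro k
      induction k with
      | zero => intro _; simp
      | succ k ih =>
        intro hk
        have ih' := ih (by omega)
        have hq : 0 ≤ (b - a) / n := div_nonneg (by linarith) hn'.le
        have hkn : ((k + 1 : ℕ) : ℝ) * ((b - a) / n) ≤ b - a := by
          have : ((k + 1 : ℕ) : ℝ) ≤ n := by exact_mod_cast hk
          calc ((k + 1 : ℕ) : ℝ) * ((b - a) / n) ≤ n * ((b - a) / n) :=
                mul_le_mul_of_nonneg_right this hq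
            _ = b - a := by field_simp
        have h1 := hstep (a + k * ((b - a) / n)) (a + ((k + 1 : ℕ) : ℝ) * ((b - a) / n))
          (by have : 0 ≤ (k : ℝ) * ((b - a) / n) := mul_nonneg (Nat.cast_nonneg k) hq
              linarith)
          (by push_cast; nlinarith) (by linarith)
        have h2 : (a + ((k + 1 : ℕ) : ℝ) * ((b - a) / n)) - (a + k * ((b - a) / n)) =
            (b - a) / n := by push_cast; ring
        rw [h2] at h1
        nlinarith
    have := ind n le_rfl
    have e : a + (n : ℝ) * ((b - a) / n) = b := by field_simp; ring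
    rw [e] at this
    exact this
  by_contra hlt
  push Not at hlt
  obtain ⟨n, hn⟩ := exists_nat_gt ((b - a) * |g b - g a| / (Ψ b - Ψ a))
  have hpos : 0 < Ψ b - Ψ a := by linarith
  have hn0 : 0 ≤ (b - a) * |g b - g a| / (Ψ b - Ψ a) :=
    div_nonneg (mul_nonneg (by linarith) (abs_nonneg _)) hpos.le
  have hn1 : (0 : ℝ) < n := lt_of_le_of_lt hn0 hn
  have hn2 : 0 < n := by exact_mod_cast hn1
  have h1 := key n hn2
  have h2 : (b - a) * |g b - g a| < n * (Ψ b - Ψ a) := by
    rwa [div_lt_iff₀ hpos] at hn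
  have h3 : (b - a) / n * (g b - g a) ≤ (b - a) * |g b - g a| / n := by
    rw [div_mul_eq_mul_div]
    apply div_le_div_of_nonneg_right _ hn1.le
    exact mul_le_mul_of_nonneg_left (le_abs_self _) (by linarith)
  have h4 : (b - a) * |g b - g a| / n < Ψ b - Ψ a := by
    rw [div_lt_iff₀ hn1]; linarith
  linarith

theorem integ : INTEG := by
  intro b A T P hb hA hP hS
  -- the root function
  have hex : ∀ μ : ℝ, ∃ c : ℝ, 0 ≤ c ∧ c * Real.exp c = Real.exp μ * b := fun μ =>
    IntegAux.exists_root (mul_nonneg (Real.exp_pos _).le hb.le)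
  choose C hC0 hC1 using hex
  have hCpos : ∀ μ, 0 < C μ := by
    intro μ
    rcases (hC0 μ).lt_or_eq with h | h
    · exact h
    · exfalso
      have := hC1 μ
      rw [← h] at this
      have h2 : 0 < Real.exp μ * b := mul_pos (Real.exp_pos _) hb
      simp at this
      linarith
  have hCmono : ∀ x y : ℝ, x ≤ y → C x ≤ C y := by
    intro x y hxy
    apply IntegAux.mono (hC0 y)
    rw [hC1, hC1]
    exact mul_le_mul_of_nonneg_right (Real.exp_le_exp.2 hxy) hb.le
  have htmono : ∀ x y : ℝ, x ≤ y → Real.exp x * b ≤ Real.exp y * b := fun x y hxy =>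
    mul_le_mul_of_nonneg_right (Real.exp_le_exp.2 hxy) hb.le
  have hF : ∀ x y : ℝ, x ≤ y →
      (y - x) * C x ≤ (C y + C y ^ 2 / 2) - (C x + C x ^ 2 / 2) ∧
        (C y + C y ^ 2 / 2) - (C x + C x ^ 2 / 2) ≤ (y - x) * C y := by
    intro x y hxy
    apply IntegAux.inc (hCpos x) (hCmono x y hxy)
    rw [hC1, hC1, ← mul_assoc, ← Real.exp_add]
    congr 2; ring
  have hE : ∀ (k : ℕ) (x y : ℝ), x ≤ y →
      (y - x) * (k * (Real.exp x * b) ^ k) ≤ (Real.exp y * b) ^ k - (Real.exp x * b) ^ k ∧
      (Real.exp y * b) ^ k - (Real.exp x * b) ^ k ≤ (y - x) * (k * (Real.exp y * b) ^ k) := by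
    intro k x y hxy
    have h0 : Real.exp y * b = Real.exp (y - x) * (Real.exp x * b) := by
      rw [← mul_assoc, ← Real.exp_add]
      congr 2; ring
    rw [h0]
    exact IntegAux.powinc (mul_nonneg (Real.exp_pos _).le hb.le) (by linarith) k
  -- slopes
  have hlo : ∀ x y : ℝ, x ≤ y → Real.exp y * b ≤ T →
      (y - x) * C x - (y - x) * (A * (7 * (Real.exp x * b) ^ 3 + 5 * (Real.exp x * b) ^ 2)) ≤
        b * (P y - P x) := by
    intro x y hxy hy
    have := hS x (C x) (hC0 x) (hC1 x) ((htmono x y hxy).trans hy) (y - x)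
    rw [abs_of_nonneg (by linarith)] at this
    have e : x + (y - x) = y := by ring
    rwa [e] at this
  have hup : ∀ x y : ℝ, x ≤ y → Real.exp y * b ≤ T →
      b * (P y - P x) ≤
      (y - x) * C y + (y - x) * (A * (7 * (Real.exp y * b) ^ 3 + 5 * (Real.exp y * b) ^ 2)) := by
    intro x y hxy hy
    have := hS y (C y) (hC0 y) (hC1 y) hy (x - y)
    rw [abs_of_nonpos (by linarith)] at this
    have e : y + (x - y) = x := by ring
    rw [e] at this
    nlinarith
  intro μ c hc hcμ hT
  have hcC : c = C μ := by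
    apply le_antisymm
    · exact IntegAux.mono (hC0 μ) (by rw [hcμ, hC1])
    · exact IntegAux.mono hc (by rw [hcμ, hC1])
  rw [hcC]
  have hTx : ∀ x, x ≤ μ → Real.exp x * b ≤ T := fun x hx => (htmono x μ hx).trans hT
  -- the function e
  set e : ℝ → ℝ := fun x => A * (7 * (Real.exp x * b) ^ 3 + 5 * (Real.exp x * b) ^ 2) with he
  set EE : ℝ → ℝ := fun x => A * (7 / 3 * (Real.exp x * b) ^ 3 + 5 / 2 * (Real.exp x * b) ^ 2)
    with hEE
  set F : ℝ → ℝ := fun x => C x + C x ^ 2 / 2 with hFdef
  have hEEinc : ∀ x y : ℝ, x ≤ y → (y - x) * e x ≤ EE y - EE x ∧ EE y - EE x ≤ (y - x) * e y := by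
    intro x y hxy
    have h3 := hE 3 x y hxy
    have h2 := hE 2 x y hxy
    push_cast at h3 h2
    simp only [he, hEE]
    constructor
    · have : 0 ≤ A * (7 / 3 * ((Real.exp y * b) ^ 3 - (Real.exp x * b) ^ 3
          - (y - x) * (3 * (Real.exp x * b) ^ 3)) + 5 / 2 * ((Real.exp y * b) ^ 2
          - (Real.exp x * b) ^ 2 - (y - x) * (2 * (Real.exp x * b) ^ 2))) := by
        apply mul_nonneg hA
        have := h3.1
        have := h2.1
        linarith
      nlinarith
    · have : 0 ≤ A * (7 / 3 * ((y - x) * (3 * (Real.exp y * b) ^ 3)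
          - ((Real.exp y * b) ^ 3 - (Real.exp x * b) ^ 3)) + 5 / 2 *
          ((y - x) * (2 * (Real.exp y * b) ^ 2)
          - ((Real.exp y * b) ^ 2 - (Real.exp x * b) ^ 2))) := by
        apply mul_nonneg hA
        have := h3.2
        have := h2.2
        linarith
      nlinarith
  have hup2 : ∀ x, x ≤ μ → b * P μ - F μ - EE μ ≤ b * P x - F x - EE x := by
    intro x hx
    apply IntegAux.tele (fun z => b * P z - F z - EE z) (fun z => C z + e z) x μ hx
    intro u v _ huv hv
    have h1 := hup u v huv (hTx v hv)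
    have h2 := (hF u v huv).1
    have h3 := (hEEinc u v huv).1
    simp only [hFdef] at *
    change b * P v - (C v + C v ^ 2 / 2) - EE v - (b * P u - (C u + C u ^ 2 / 2) - EE u) ≤
      (v - u) * (C v + e v - (C u + e u))
    have h1' : b * (P v - P u) ≤ (v - u) * C v + (v - u) * e v := h1
    nlinarith
  have hlo2 : ∀ x, x ≤ μ → b * P x - F x + EE x ≤ b * P μ - F μ + EE μ := by
    intro x hx
    have := IntegAux.tele (fun z => -(b * P z - F z + EE z)) C x μ hx
      (by
        intro u v _ huv hv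
        have h1 := hlo u v huv (hTx v hv)
        have h2 := (hF u v huv).2
        have h3 := (hEEinc u v huv).1
        change -(b * P v - (C v + C v ^ 2 / 2) + EE v) - -(b * P u - (C u + C u ^ 2 / 2) + EE u) ≤
          (v - u) * (C v - C u)
        have h1' : (v - u) * C u - (v - u) * e u ≤ b * (P v - P u) := h1
        have h2' : (C v + C v ^ 2 / 2) - (C u + C u ^ 2 / 2) ≤ (v - u) * C v := h2
        nlinarith)
    have this' : -(b * P μ - F μ + EE μ) ≤ -(b * P x - F x + EE x) := this
    linarith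
  -- bounds at minus infinity
  have hCle : ∀ x, C x ≤ Real.exp x * b := by
    intro x
    rw [← hC1 x]
    have : (1 : ℝ) ≤ Real.exp (C x) := Real.one_le_exp (hC0 x)
    nlinarith [hC0 x]
  have hEE0 : ∀ x, 0 ≤ EE x := by
    intro x
    have : 0 ≤ Real.exp x * b := mul_nonneg (Real.exp_pos _).le hb.le
    simp only [hEE]
    positivity
  have hlim : Tendsto (fun x : ℝ => Real.exp x * b) atBot (𝓝 0) := by
    simpa using Real.tendsto_exp_atBot.mul_const b
  have hlim2 : Tendsto (fun x : ℝ => Real.exp x * b + (Real.exp x * b) ^ 2 / 2) atBot (𝓝 0) := by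
    have := hlim.add ((hlim.pow 2).div_const 2)
    simpa using this
  have hA1 : b * P μ - F μ - EE μ ≤ 0 := by
    apply ge_of_tendsto hlim
    filter_upwards [eventually_le_atBot μ] with x hx
    have h1 := hup2 x hx
    have h2 : b * P x ≤ Real.exp x * b := by
      have := (hP x).2
      nlinarith
    have h3 : 0 ≤ F x := by
      simp only [hFdef]
      have := hC0 x
      positivity
    have := hEE0 x
    linarith
  have hA2 : -(b * P μ - F μ + EE μ) ≤ 0 := by
    apply ge_of_tendsto hlim2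
    filter_upwards [eventually_le_atBot μ] with x hx
    have h1 := hlo2 x hx
    have h2 : 0 ≤ b * P x := mul_nonneg hb.le (hP x).1
    have h3 : F x ≤ Real.exp x * b + (Real.exp x * b) ^ 2 / 2 := by
      simp only [hFdef]
      have h4 := hC0 x
      have h5 := hCle x
      have h6 : C x ^ 2 ≤ (Real.exp x * b) ^ 2 := pow_le_pow_left₀ h4 h5 2
      linarith
    have := hEE0 x
    linarith
  have hbound : EE μ ≤ A * (3 * (Real.exp μ * b) ^ 3 + 3 * (Real.exp μ * b) ^ 2) := by
    have h0 : 0 ≤ Real.exp μ * b := mul_nonneg (Real.exp_pos _).le hb.le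
    simp only [hEE]
    apply mul_le_mul_of_nonneg_left _ hA
    have h3 : 0 ≤ (Real.exp μ * b) ^ 3 := pow_nonneg h0 3
    have h2 : 0 ≤ (Real.exp μ * b) ^ 2 := pow_nonneg h0 2
    linarith
  rw [abs_le]
  constructor
  · change -_ ≤ b * P μ - F μ
    linarith
  · change b * P μ - F μ ≤ _
    linarith

end Pool.Agent.HdGas
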