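import Pool.Agent.Lib.MF.Mecke

/-!
# The mean number of points is a slope of `log Ξ`
-/

set_option autoImplicit false

namespace Pool.Agent.HdGas

open MeasureTheory Filter Topology

theorem measurable_num {S : Type} [MeasurableSpace S] : Measurable fun ω : Om S => (ω.1 : ℝ) := by
  refine measurable_om fun n => ?_
  show Measurable fun _ : Fin n → S => (n : ℝ)
  exact measurable_const

/-- Exponential moments of the number of points. -/
theorem exp_moment {S : Type} [MeasurableSpace S] (m : Measure S) (C : S → S → Prop) (L : Set S)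
    (hmhc : MeasurableSet {ω : Om S | hc C ω}) (μ h : ℝ) :
    ∫⁻ ω : Om S, ENNReal.ofReal (Real.exp (h * ω.1)) ∂gib m C (Real.exp μ) L =
      gib m C (Real.exp (μ + h)) L Set.univ := by
  have hm1 : Measurable fun ω : Om S => ENNReal.ofReal (Real.exp (h * ω.1)) :=
    (Real.measurable_exp.comp (measurable_num.const_mul h)).ennreal_ofReal
  have e1 : gib m C (Real.exp (μ + h)) L Set.univ =
      ∫⁻ ω, {ω : Om S | hc C ω}.indicator (fun _ => (1 : ENNReal)) ω
        ∂pois m (Real.exp (μ + h)) L := by
    rw [lintegral_indicator hmhc]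
    simp [gib]
  rw [e1, lint_pois m _ L (measurable_const.indicator hmhc)]
  unfold gib
  rw [← lintegral_indicator hmhc, lint_pois m _ L (hm1.indicator hmhc)]
  refine tsum_congr fun n => ?_
  have e2 : ∀ x : Fin n → S, {ω : Om S | hc C ω}.indicator
      (fun ω => ENNReal.ofReal (Real.exp (h * ω.1))) ⟨n, x⟩ =
      ENNReal.ofReal (Real.exp (h * n)) *
        {ω : Om S | hc C ω}.indicator (fun _ => (1 : ENNReal)) ⟨n, x⟩ := by
    intro x
    by_cases hx : hc C ⟨n, x⟩ <;> simp [Set.indicator, hx]
  have hmi : Measurable fun x : Fin n → S =>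
      {ω : Om S | hc C ω}.indicator (fun _ => (1 : ENNReal)) ⟨n, x⟩ :=
    (measurable_const.indicator hmhc).comp (measurable_mk n)
  simp only [e2]
  rw [lintegral_const_mul _ hmi, ← mul_assoc]
  congr 1
  rw [← ENNReal.ofReal_mul (by positivity)]
  congr 1
  rw [← Real.exp_nat_mul, ← Real.exp_nat_mul, div_mul_eq_mul_div, ← Real.exp_add]
  congr 2
  ring

theorem jen_of (h2 : BAS) : JEN := by
  intro S _ m _ C L hC hL hfin μ h
  obtain ⟨hmhc, -, hfg, hXi1, -, -⟩ := h2 S m C L (Real.exp μ) hC hL hfin (Real.exp_pos μ).le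
  obtain ⟨-, -, hfg', hXi1', -, -⟩ :=
    h2 S m C L (Real.exp (μ + h)) hC hL hfin (Real.exp_pos _).le
  obtain ⟨-, -, hfg1, -, -, -⟩ :=
    h2 S m C L (Real.exp (μ + 1)) hC hL hfin (Real.exp_pos _).le
  set X := Xi m C (Real.exp μ) L with hX
  set X' := Xi m C (Real.exp (μ + h)) L with hX'
  have hX0 : 0 < X := lt_of_lt_of_le one_pos hXi1
  have hX0' : 0 < X' := lt_of_lt_of_le one_pos hXi1'
  have hNm : Measurable fun ω : Om S => (ω.1 : ℝ) := measurable_num
  have hXe : gib m C (Real.exp (μ + h)) L Set.univ = ENNReal.ofReal X' :=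
    (ENNReal.ofReal_toReal (measure_ne_top _ _)).symm
  have hEm : ∀ h : ℝ, Measurable fun ω : Om S => Real.exp (h * ω.1) :=
    fun h => Real.measurable_exp.comp (hNm.const_mul h)
  have hEi : Integrable (fun ω : Om S => Real.exp (h * ω.1)) (gib m C (Real.exp μ) L) := by
    refine ⟨(hEm h).aestronglyMeasurable, ?_⟩
    rw [hasFiniteIntegral_iff_ofReal (Eventually.of_forall fun ω => (Real.exp_pos _).le),
      exp_moment m C L hmhc μ h]
    exact measure_lt_top _ _
  have hEi1 : Integrable (fun ω : Om S => Real.exp (1 * ω.1)) (gib m C (Real.exp μ) L) := by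
    refine ⟨(hEm 1).aestronglyMeasurable, ?_⟩
    rw [hasFiniteIntegral_iff_ofReal (Eventually.of_forall fun ω => (Real.exp_pos _).le),
      exp_moment m C L hmhc μ 1]
    exact measure_lt_top _ _
  have hEe : ∫ ω : Om S, Real.exp (h * ω.1) ∂gib m C (Real.exp μ) L = X' := by
    rw [integral_eq_lintegral_of_nonneg_ae (Eventually.of_forall fun ω => (Real.exp_pos _).le)
      (hEm h).aestronglyMeasurable, exp_moment m C L hmhc μ h]
    rfl
  -- the number of points is integrable
  have hNi : Integrable (fun ω : Om S => h * (ω.1 : ℝ)) (gib m C (Real.exp μ) L) := by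
    refine Integrable.const_mul ?_ h
    refine hEi1.mono' hNm.aestronglyMeasurable (Eventually.of_forall fun ω => ?_)
    rw [Real.norm_of_nonneg (Nat.cast_nonneg _), one_mul]
    have := Real.add_one_le_exp (ω.1 : ℝ)
    linarith
  set e := ex m C (Real.exp μ) L (fun ω => (ω.1 : ℝ)) with he
  have hEN : ∫ ω : Om S, (h * (ω.1 : ℝ)) ∂gib m C (Real.exp μ) L = h * (e * X) := by
    rw [integral_const_mul, he]
    unfold ex
    rw [div_mul_cancel₀ _ hX0.ne']
  have hconst : ∀ c : ℝ, ∫ _ : Om S, c ∂gib m C (Real.exp μ) L = c * X := by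
    intro c
    simp [hX, Xi, Measure.real, mul_comm]
  have hle : Real.exp (h * e) * X ≤ X' := by
    rw [← hEe]
    have hp : ∀ ω : Om S, Real.exp (h * e) * (h * (ω.1 : ℝ) + (1 - h * e)) ≤
        Real.exp (h * ω.1) := by
      intro ω
      have h1 := Real.add_one_le_exp (h * ω.1 - h * e)
      calc Real.exp (h * e) * (h * (ω.1 : ℝ) + (1 - h * e))
          ≤ Real.exp (h * e) * Real.exp (h * ω.1 - h * e) :=
            mul_le_mul_of_nonneg_left (by linarith) (Real.exp_pos _).le
        _ = Real.exp (h * ω.1) := by rw [← Real.exp_add]; congr 1; ring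
    have hci : Integrable (fun _ : Om S => 1 - h * e) (gib m C (Real.exp μ) L) :=
      integrable_const _
    have hi : Integrable (fun ω : Om S => Real.exp (h * e) * (h * (ω.1 : ℝ) + (1 - h * e)))
        (gib m C (Real.exp μ) L) := (hNi.add hci).const_mul _
    have h3 := integral_mono hi hEi hp
    have h4 : ∫ ω : Om S, Real.exp (h * e) * (h * (ω.1 : ℝ) + (1 - h * e))
        ∂gib m C (Real.exp μ) L = Real.exp (h * e) * X := by
      rw [integral_const_mul, integral_add hNi hci, hconst, hEN]
      ring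
    rw [h4] at h3
    exact h3
  have h5 := Real.log_le_log (by positivity) hle
  rw [Real.log_mul (Real.exp_pos _).ne' hX0.ne', Real.log_exp] at h5
  linarith

end Pool.Agent.HdGas
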