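import Pool.Agent.Lib.MF.Corr

/-!
# Row LLN: law of large numbers
-/

set_option autoImplicit false

namespace Pool.Agent.HdGas

open MeasureTheory Filter Topology

open Corr16 in
theorem lln_of (hB : BAS) (hM : MEAS) (hC : CORR) (hA : AVG) : LLN := by
  intro S _ m _ C L b κ lam hg hl hk u
  have hfin : ∀ u, m {z | C u z} ≠ ⊤ := fun u => ne_top_of_le_ne_top ENNReal.ofReal_ne_top (hg.ball u)
  obtain ⟨-, -, hGf, hX1, -, -⟩ := hB S m C L lam hg.meas hg.measL hg.fin hl
  haveI := hGf
  obtain ⟨hMK, -⟩ := hM S m C L lam hg.meas hg.measL hg.fin hl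
  have hKA : MeasurableSet {x : S | Al S x} := by simp [Al]
  obtain ⟨-, -, mD, -, -⟩ := hMK (Al S) hKA
  have hX : 0 < Xi m C lam L := lt_of_lt_of_le one_pos hX1
  set G := gib m C lam L with hGdef
  have mU : MeasurableSet {v | v ∈ L ∧ C u v} := hg.measL.inter (meas_sec hg.meas u)
  set μ := m.restrict {v | v ∈ L ∧ C u v} with hμ
  have hμle : μ ≤ m.restrict {v | C u v} := Measure.restrict_mono (fun v hv => hv.2) le_rfl
  have hμu : μ Set.univ ≤ ENNReal.ofReal b := by
    rw [hμ, Measure.restrict_apply_univ]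
    exact (measure_mono fun v hv => hv.2).trans (hg.ball u)
  haveI hμf : IsFiniteMeasure μ := ⟨lt_of_le_of_lt hμu ENNReal.ofReal_lt_top⟩
  set D : S → Om S → ℝ := fun v ω => Dk m C lam L (Al S) v ω with hD
  have hDb : ∀ v ω, |D v ω| ≤ 1 := fun v ω => abs_Dk_le m C hl L _ v ω
  -- the square as a double integral
  have hsq : ∀ ω, (∫ v, D v ω ∂μ) ^ 2 = ∫ p, D p.1 ω * D p.2 ω ∂(μ.prod μ) := by
    intro ω
    rw [sq, ← integral_prod_mul]
  -- joint measurability
  have mjoint : Measurable fun q : (S × S) × Om S => D q.1.1 q.2 * D q.1.2 q.2 := by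
    have h1 : Measurable fun q : (S × S) × Om S => D q.1.1 q.2 :=
      mD.comp ((measurable_fst.comp measurable_fst).prodMk measurable_snd)
    have h2 : Measurable fun q : (S × S) × Om S => D q.1.2 q.2 :=
      mD.comp ((measurable_snd.comp measurable_fst).prodMk measurable_snd)
    exact h1.mul h2
  have ijoint : Integrable (fun q : (S × S) × Om S => D q.1.1 q.2 * D q.1.2 q.2)
      ((μ.prod μ).prod G) :=
    Integrable.of_bound mjoint.aestronglyMeasurable 1 (Eventually.of_forall fun q => by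
      rw [Real.norm_eq_abs, abs_mul]
      exact mul_le_one₀ (hDb _ _) (abs_nonneg _) (hDb _ _))
  have hswap : ∫ ω, ∫ p, D p.1 ω * D p.2 ω ∂(μ.prod μ) ∂G =
      ∫ p, ∫ ω, D p.1 ω * D p.2 ω ∂G ∂(μ.prod μ) :=
    (integral_integral_swap ijoint).symm
  -- the bound
  set A1 : S × S → ENNReal := fun p => m {z | C p.1 z ∧ C p.2 z} with hA1
  set A2 : S × S → ENNReal := fun p => ∫⁻ q in {q | C p.1 q}, m {z | C q z ∧ C p.2 z} ∂m with hA2
  have mA1 : Measurable A1 := by
    have h : MeasurableSet {q : (S × S) × S | C q.1.1 q.2 ∧ C q.1.2 q.2} :=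
      (((measurable_fst.comp measurable_fst).prodMk measurable_snd) hg.meas).inter
        (((measurable_snd.comp measurable_fst).prodMk measurable_snd) hg.meas)
    exact measurable_measure_prodMk_left h
  have mA2' : Measurable fun p : (S × S) × S => Set.indicator {p : (S × S) × S | C p.1.1 p.2}
      (fun p => m {z | C p.2 z ∧ C p.1.2 z}) p := by
    have h : MeasurableSet {q : ((S × S) × S) × S | C q.1.2 q.2 ∧ C q.1.1.2 q.2} :=
      (((measurable_snd.comp measurable_fst).prodMk measurable_snd) hg.meas).inter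
        (((measurable_snd.comp (measurable_fst.comp measurable_fst)).prodMk measurable_snd)
          hg.meas)
    have h' : Measurable fun p : (S × S) × S => m {z | C p.2 z ∧ C p.1.2 z} :=
      measurable_measure_prodMk_left h
    exact h'.indicator (((measurable_fst.comp measurable_fst).prodMk measurable_snd) hg.meas)
  have mA2 : Measurable A2 := by
    have h := mA2'.lintegral_prod_right' (ν := m)
    have e : A2 = fun p => ∫⁻ q, Set.indicator {p : (S × S) × S | C p.1.1 p.2}
        (fun p => m {z | C p.2 z ∧ C p.1.2 z}) (p, q) ∂m := by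
      funext p
      rw [hA2]
      simp only
      rw [← lintegral_indicator (meas_sec hg.meas p.1)]
      rfl
    rw [e]
    exact h
  have hA1b : ∀ p, A1 p ≤ ENNReal.ofReal b := fun p =>
    (measure_mono fun z hz => hz.1).trans (hg.ball p.1)
  have hA2b : ∀ p, A2 p ≤ ENNReal.ofReal b * ENNReal.ofReal b := by
    intro p
    calc A2 p ≤ ∫⁻ q in {q | C p.1 q}, ENNReal.ofReal b ∂m :=
          lintegral_mono fun q => (measure_mono fun z hz => hz.1).trans (hg.ball q)
      _ = ENNReal.ofReal b * m {q | C p.1 q} := by rw [setLIntegral_const]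
      _ ≤ _ := by gcongr; exact hg.ball p.1
  have hA1t : ∀ p, A1 p < ⊤ := fun p => lt_of_le_of_lt (hA1b p) ENNReal.ofReal_lt_top
  have hA2t : ∀ p, A2 p < ⊤ := fun p => lt_of_le_of_lt (hA2b p)
    (ENNReal.mul_lt_top ENNReal.ofReal_lt_top ENNReal.ofReal_lt_top)
  have i1 : Integrable (fun p => (A1 p).toReal) (μ.prod μ) :=
    Integrable.of_bound mA1.ennreal_toReal.aestronglyMeasurable b (Eventually.of_forall fun p => by
      rw [Real.norm_eq_abs, abs_of_nonneg ENNReal.toReal_nonneg]
      exact (ENNReal.toReal_mono ENNReal.ofReal_ne_top (hA1b p)).trans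
        (le_of_eq (ENNReal.toReal_ofReal hg.b_pos.le)))
  have i2 : Integrable (fun p => (A2 p).toReal) (μ.prod μ) :=
    Integrable.of_bound mA2.ennreal_toReal.aestronglyMeasurable (b * b)
      (Eventually.of_forall fun p => by
      rw [Real.norm_eq_abs, abs_of_nonneg ENNReal.toReal_nonneg]
      refine (ENNReal.toReal_mono (ENNReal.mul_ne_top ENNReal.ofReal_ne_top
        ENNReal.ofReal_ne_top) (hA2b p)).trans (le_of_eq ?_)
      rw [ENNReal.toReal_mul, ENNReal.toReal_ofReal hg.b_pos.le])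
  set Bd : S × S → ℝ := fun p => lam * b * κ + lam * (A1 p).toReal + lam ^ 2 * (A2 p).toReal
    with hBd
  have iB : Integrable Bd (μ.prod μ) :=
    ((integrable_const _).add (i1.const_mul lam)).add (i2.const_mul (lam ^ 2))
  have hcorr : ∀ p : S × S, ∫ ω, D p.1 ω * D p.2 ω ∂G ≤ Xi m C lam L * Bd p := by
    intro p
    have h := hC S m C L b κ lam hg hl hk p.1 p.2
    unfold ex at h
    rw [div_le_iff₀ hX] at h
    rw [mul_comm]
    exact h
  have iH : Integrable (fun p : S × S => ∫ ω, D p.1 ω * D p.2 ω ∂G) (μ.prod μ) :=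
    ijoint.integral_prod_left
  have h1 : ∫ p, ∫ ω, D p.1 ω * D p.2 ω ∂G ∂(μ.prod μ) ≤ Xi m C lam L * ∫ p, Bd p ∂(μ.prod μ) := by
    rw [← integral_const_mul]
    exact integral_mono iH (iB.const_mul _) hcorr
  -- the integral of the bound
  have t1 : ∫ p, (A1 p).toReal ∂(μ.prod μ) ≤ 3 * κ * b ^ 3 := by
    rw [integral_toReal mA1.aemeasurable (Eventually.of_forall hA1t)]
    have h : ∫⁻ p, A1 p ∂(μ.prod μ) ≤ ENNReal.ofReal (3 * κ * b ^ 3) := by
      rw [lintegral_prod _ mA1.aemeasurable]
      refine le_trans ?_ (hA S m C L b κ hg u).1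
      refine lintegral_mono' hμle fun v => ?_
      exact lintegral_mono' hμle le_rfl
    have h2 := ENNReal.toReal_mono ENNReal.ofReal_ne_top h
    rwa [ENNReal.toReal_ofReal (by have := hg.kap_pos; have := hg.b_pos; positivity)] at h2
  have t2 : ∫ p, (A2 p).toReal ∂(μ.prod μ) ≤ 4 * κ * b ^ 4 := by
    rw [integral_toReal mA2.aemeasurable (Eventually.of_forall hA2t)]
    have h : ∫⁻ p, A2 p ∂(μ.prod μ) ≤ ENNReal.ofReal (4 * κ * b ^ 4) := by
      rw [lintegral_prod _ mA2.aemeasurable]
      refine le_trans ?_ (hA S m C L b κ hg u).2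
      refine lintegral_mono' hμle fun v => ?_
      exact lintegral_mono' hμle le_rfl
    have h2 := ENNReal.toReal_mono ENNReal.ofReal_ne_top h
    rwa [ENNReal.toReal_ofReal (by have := hg.kap_pos; have := hg.b_pos; positivity)] at h2
  have t0 : ((μ.prod μ) Set.univ).toReal ≤ b ^ 2 := by
    rw [← Set.univ_prod_univ, Measure.prod_prod, ENNReal.toReal_mul, sq]
    have h2 := ENNReal.toReal_mono ENNReal.ofReal_ne_top hμu
    rw [ENNReal.toReal_ofReal hg.b_pos.le] at h2
    exact mul_le_mul h2 h2 ENNReal.toReal_nonneg hg.b_pos.le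
  have h2 : ∫ p, Bd p ∂(μ.prod μ) ≤ 4 * (lam * b) * (1 + lam * b) * κ * b ^ 2 := by
    have e : ∫ p, Bd p ∂(μ.prod μ) = lam * b * κ * ((μ.prod μ) Set.univ).toReal +
        lam * ∫ p, (A1 p).toReal ∂(μ.prod μ) + lam ^ 2 * ∫ p, (A2 p).toReal ∂(μ.prod μ) := by
      rw [hBd]
      rw [integral_add (f := fun p => lam * b * κ + lam * (A1 p).toReal)
        (g := fun p => lam ^ 2 * (A2 p).toReal)
        ((integrable_const _).add (i1.const_mul lam)) (i2.const_mul (lam ^ 2)),
        integral_add (f := fun _ => lam * b * κ) (g := fun p => lam * (A1 p).toReal)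
        (integrable_const _) (i1.const_mul lam), integral_const_mul lam, integral_const_mul (lam ^ 2),
        integral_const, smul_eq_mul, measureReal_def]
      ring
    have hk0 := hg.kap_pos
    have hb0 := hg.b_pos
    rw [e]
    calc _ ≤ lam * b * κ * b ^ 2 + lam * (3 * κ * b ^ 3) + lam ^ 2 * (4 * κ * b ^ 4) := by
          gcongr
      _ = _ := by ring
  have hfinal : ∫ ω, (∫ v, D v ω ∂μ) ^ 2 ∂G ≤
      Xi m C lam L * (4 * (lam * b) * (1 + lam * b) * κ * b ^ 2) := by
    simp_rw [hsq]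
    rw [hswap]
    exact h1.trans (mul_le_mul_of_nonneg_left h2 hX.le)
  unfold ex
  rw [div_le_iff₀ hX, mul_comm]
  exact hfinal

end Pool.Agent.HdGas
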