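import Pool.Agent.Lib.MF.Top2
import Pool.Agent.Lib.MF.Dens

/-!
# Row LOCAL: the local density of hard spheres in a region of any shape
-/

set_option autoImplicit false

namespace Pool.Agent.HdGas

open MeasureTheory Filter Topology Pointwise Pool.Agent.SquareWellGas Pool.Agent.KacGas
  Pool.Agent.VdwGas

namespace LocalR

theorem kap_rpow (d : ℕ) : kap d = (3 / 4 : ℝ) ^ ((d : ℝ) / 2) := by
  have h : (√3 / 2 : ℝ) = (3 / 4 : ℝ) ^ (1 / 2 : ℝ) := by
    rw [← Real.sqrt_eq_rpow, Real.sqrt_div (by norm_num)]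
    congr 1
    rw [show (4 : ℝ) = 2 ^ 2 by norm_num, Real.sqrt_sq (by norm_num)]
  unfold kap
  rw [h, ← Real.rpow_natCast, ← Real.rpow_mul (by norm_num)]
  congr 1
  ring

theorem sqrt_kap (d : ℕ) : √(kap d) = (3 / 4 : ℝ) ^ ((d : ℝ) / 4) := by
  rw [kap_rpow, Real.sqrt_eq_rpow, ← Real.rpow_mul (by norm_num)]
  congr 1
  ring

variable {d : ℕ} {R : ℝ}

theorem sum_smul (v z : Fin d → ℝ) :
    ∑ k, ((R • v) k - (R • z) k) ^ 2 = R ^ 2 * ∑ k, (v k - z k) ^ 2 := by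
  rw [Finset.mul_sum]
  refine Finset.sum_congr rfl fun k _ => ?_
  simp only [Pi.smul_apply, smul_eq_mul]
  ring

theorem lt_iff (hR : 0 < R) (v z : Fin d → ℝ) :
    ∑ k, ((R • v) k - (R • z) k) ^ 2 < R ^ 2 ↔ Cb d v z := by
  rw [sum_smul]
  unfold Cb
  have h : 0 < R ^ 2 := by positivity
  constructor
  · intro h1
    by_contra hcon
    push Not at hcon
    have := mul_le_mul_of_nonneg_left hcon h.le
    linarith
  · intro h1
    have := mul_lt_mul_of_pos_left h1 h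
    linarith

theorem smul_mem (hR : 0 < R) (L : Set (Fin d → ℝ)) (z : Fin d → ℝ) :
    z ∈ R⁻¹ • L ↔ R • z ∈ L := by
  rw [Set.mem_smul_set_iff_inv_smul_mem₀ (inv_ne_zero hR.ne'), inv_inv]

theorem out_eq (hR : 0 < R) (L : Set (Fin d → ℝ)) (v : Fin d → ℝ) :
    R⁻¹ • {z | z ∈ L ∧ R ^ 2 ≤ ∑ k, ((R • v) k - z k) ^ 2} =
      (R⁻¹ • L) \ {z | Cb d v z} := by
  ext z
  rw [smul_mem hR, Set.mem_sdiff, smul_mem hR]
  constructor
  · rintro ⟨h1, h2⟩
    refine ⟨h1, fun h3 => ?_⟩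
    exact absurd ((lt_iff hR v z).2 h3) (not_lt.2 h2)
  · rintro ⟨h1, h2⟩
    refine ⟨h1, ?_⟩
    by_contra h3
    push Not at h3
    exact h2 ((lt_iff hR v z).1 h3)

theorem in_eq (hR : 0 < R) (L : Set (Fin d → ℝ)) (v : Fin d → ℝ) :
    {z | z ∈ R⁻¹ • L ∧ Cb d v z} =
      R⁻¹ • {z | z ∈ L ∧ ∑ k, ((R • v) k - z k) ^ 2 < R ^ 2} := by
  ext z
  rw [smul_mem hR]
  constructor
  · rintro ⟨h1, h2⟩
    exact ⟨(smul_mem hR L z).1 h1, (lt_iff hR v z).2 h2⟩
  · rintro ⟨h1, h2⟩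
    exact ⟨(smul_mem hR L z).2 h1, (lt_iff hR v z).1 h2⟩

theorem vol_smul (hR : 0 < R) (L : Set (Fin d → ℝ)) :
    (volume L).toReal = R ^ d * (volume (R⁻¹ • L)).toReal := by
  rw [Measure.addHaar_smul, ENNReal.toReal_mul, Module.finrank_fin_fun,
    ENNReal.toReal_ofReal (abs_nonneg _), abs_of_pos (by positivity), inv_pow, ← mul_assoc,
    mul_inv_cancel₀ (by positivity), one_mul]

theorem vol_fin (L : Set (Fin d → ℝ)) (h : volume L ≠ ⊤) :
    volume (R⁻¹ • L) ≠ ⊤ := by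
  rw [Measure.addHaar_smul]
  exact ENNReal.mul_ne_top ENNReal.ofReal_ne_top h

theorem ball_eq {a : ℝ} (ha : 0 < a) : ball d a = (2 * a) ^ d * bv d := by
  have hR : 0 < 2 * a := by positivity
  unfold ball bv
  rw [vol_smul hR]
  congr 3
  ext z
  rw [smul_mem hR]
  have h := lt_iff hR z 0
  simp only [Pi.smul_apply, smul_eq_mul, Pi.zero_apply, mul_zero, sub_zero, Cb] at h
  simpa using h

theorem int_smul (hR : 0 < R) (L : Set (Fin d → ℝ)) (F : (Fin d → ℝ) → ℝ) :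
    ∫ v in L, F v = R ^ d * ∫ v in R⁻¹ • L, F (R • v) := by
  rw [Measure.setIntegral_comp_smul_of_pos _ _ _ hR, smul_smul, mul_inv_cancel₀ hR.ne', one_smul,
    Module.finrank_fin_fun, smul_eq_mul, ← mul_assoc, mul_inv_cancel₀ (by positivity), one_mul]

end LocalR

open LocalR in
/-- Row LOCAL. -/
theorem local_of (hG : GEOL) (hP : POSL) (hE : EXCHI) (hF : PROF) (hX : SCL) : LOCAL := by
  intro d hd a lam c ha hlam hc hct hside L hL hLf
  obtain ⟨R, hR⟩ : ∃ R : ℝ, R = 2 * a := ⟨_, rfl⟩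
  have hR0 : 0 < R := by rw [hR]; positivity
  have hb := ball_eq (d := d) ha
  obtain ⟨t, ht⟩ : ∃ t : ℝ, t = lam * ball d a := ⟨_, rfl⟩
  have hbv : 0 < bv d := GeobR.bv_pos d
  have ht0 : 0 ≤ t := by
    rw [ht, hb]
    positivity
  have ht' : lam * R ^ d * bv d = t := by
    rw [ht, hb, hR]
    ring
  rw [← sqrt_kap, ← ht] at hside
  rw [← ht] at hct
  obtain ⟨s1, s2⟩ := DensR.side ht0 hside
  obtain ⟨L', hL'⟩ : ∃ L' : Set (Fin d → ℝ), L' = R⁻¹ • L := ⟨_, rfl⟩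
  have hL'm : MeasurableSet L' := by
    rw [hL']
    exact hL.const_smul₀ _
  have hL'f : volume L' ≠ ⊤ := by
    rw [hL']
    exact vol_fin L hLf
  have hlam' : 0 ≤ lam * R ^ d := by positivity
  have hGeo := hG d hd L' hL'm hL'f
  have key := hF (Fin d → ℝ) volume (Cb d) L' (bv d) (kap d) (epd d) (lam * R ^ d) c hGeo
    (hP d hd L' hL'm hL'f) hlam' (by rw [ht']; exact s1.le) (by rw [ht']; exact s2.le)
    (by unfold epd; positivity) hc (by rw [ht']; exact hct)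
  rw [ht'] at key
  -- the integrand
  have hint : ∀ v : Fin d → ℝ, (ball d a * (lam * XiR d a lam {z | z ∈ L ∧ (2 * a) ^ 2 ≤
      ∑ k, ((R • v) k - z k) ^ 2} / XiR d a lam L) - c) ^ 2 =
      (t * ex volume (Cb d) (lam * R ^ d) L' (chi (Cb d) (Al _) v) - c) ^ 2 := by
    intro v
    have hm : MeasurableSet {z : Fin d → ℝ | z ∈ L ∧ (2 * a) ^ 2 ≤
        ∑ k, ((R • v) k - z k) ^ 2} := by
      have h1 : MeasurableSet {z : Fin d → ℝ | (2 * a) ^ 2 ≤ ∑ k, ((R • v) k - z k) ^ 2} :=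
        measurableSet_le measurable_const (by fun_prop)
      exact hL.inter h1
    have hmf : volume {z : Fin d → ℝ | z ∈ L ∧ (2 * a) ^ 2 ≤
        ∑ k, ((R • v) k - z k) ^ 2} ≠ ⊤ := by
      refine ne_top_of_le_ne_top hLf (measure_mono fun z hz => hz.1)
    rw [hX d hd a lam ha hlam _ hm hmf, hX d hd a lam ha hlam L hL hLf,
      hE (Fin d → ℝ) volume (Cb d) L' (bv d) (kap d) (lam * R ^ d) hGeo hlam' v, ← hR,
      out_eq hR0, ← hL', ht]
    congr 2
    ring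
  rw [int_smul hR0 L, ← hL']
  simp only [hint]
  have hBd : ∫ v in L, c * (1 - (volume {z | z ∈ L ∧ ∑ k, (v k - z k) ^ 2 <
      (2 * a) ^ 2}).toReal / ball d a) = R ^ d * Bd volume (Cb d) L' (bv d) c := by
    rw [int_smul hR0 L, ← hL']
    congr 1
    unfold Bd
    refine integral_congr_ae (Eventually.of_forall fun v => ?_)
    simp only
    rw [← hR, vol_smul hR0 {z | z ∈ L ∧ ∑ k, ((R • v) k - z k) ^ 2 < R ^ 2}, ← in_eq hR0, ← hL',
      hb, ← hR]
    congr 2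
    field_simp
  rw [hBd, vol_smul hR0 L, ← hL', ← kap_rpow, ← ht]
  have h := mul_le_mul_of_nonneg_left key (show 0 ≤ R ^ d by positivity)
  refine h.trans (le_of_eq ?_)
  ring

end Pool.Agent.HdGas

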