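import Pool.Agent.Lib.MF.Int

/-!
# The Markov property of the hard-core gas
-/

set_option autoImplicit false

namespace Pool.Agent.HdGas

open MeasureTheory Filter Topology

namespace Mark

variable {S : Type} [MeasurableSpace S]

theorem meas_all {T : Set S} (hT : MeasurableSet T) :
    MeasurableSet {ω : Om S | ∀ i, ω.2 i ∈ T} := by
  have : Measurable fun ω : Om S => (∀ i, ω.2 i ∈ T) := by
    refine measurable_om fun n => ?_
    have e : MeasurableSet {x : Fin n → S | ∀ i, x i ∈ T} := by
      have e2 : {x : Fin n → S | ∀ i, x i ∈ T} = ⋂ i, {x | x i ∈ T} := by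
        ext x; simp
      rw [e2]
      exact MeasurableSet.iInter fun i => (measurable_pi_apply i) hT
    exact measurableSet_setOfPred.1 e
  exact measurableSet_setOfPred.2 this

theorem ae_mem (m : Measure S) [SigmaFinite m] (lam : ℝ) {B : Set S} (hB : MeasurableSet B) :
    ∀ᵐ ω ∂pois m lam B, ∀ i, ω.2 i ∈ B := by
  unfold pois
  rw [Measure.ae_sum_iff' (meas_all hB)]
  intro n
  refine Measure.ae_smul_measure ?_ _
  rw [ae_map_iff (measurable_mk n).aemeasurable (meas_all hB)]
  refine (ae_all_iff (ι := Fin n)).2 fun i => ?_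
  have h := (Measure.quasiMeasurePreserving_eval (fun _ : Fin n => m.restrict B) i)
  exact h.ae (ae_restrict_mem hB)

theorem lint_sub (m : Measure S) [SigmaFinite m] (lam : ℝ) {T B : Set S} (hT : MeasurableSet T)
    (hTB : T ⊆ B) {F : Om S → ENNReal} (hF : Measurable F) :
    ∫⁻ ω, ({ω : Om S | ∀ i, ω.2 i ∈ T}).indicator F ω ∂pois m lam B =
      ∫⁻ ω, F ω ∂pois m lam T := by
  rw [lint_pois m lam B (hF.indicator (meas_all hT)), lint_pois m lam T hF]
  refine tsum_congr fun n => ?_
  congr 1
  have e1 : ∀ x : Fin n → S, ({ω : Om S | ∀ i, ω.2 i ∈ T}).indicator F ⟨n, x⟩ =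
      (Set.univ.pi fun _ : Fin n => T).indicator (fun x => F ⟨n, x⟩) x := by
    intro x
    by_cases h : ∀ i, x i ∈ T
    · rw [Set.indicator_of_mem (by exact h), Set.indicator_of_mem (by simpa using h)]
    · rw [Set.indicator_of_notMem (by exact h), Set.indicator_of_notMem (by simpa using h)]
  simp only [e1]
  rw [lintegral_indicator (MeasurableSet.univ_pi fun _ => hT), Measure.restrict_pi_pi]
  simp only [Measure.restrict_restrict hT, Set.inter_eq_left.2 hTB]

theorem lint_zero (m : Measure S) [SigmaFinite m] (lam : ℝ) (B : Set S) (c : ENNReal) :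
    ∫⁻ η, (if η.1 = 0 then c else 0) ∂pois m lam B = c := by
  have hm : Measurable fun η : Om S => (if η.1 = 0 then c else 0) := by
    refine measurable_om fun n => ?_
    exact measurable_const (a := if n = 0 then c else 0)
  rw [lint_pois m lam B hm, tsum_eq_single 0]
  · simp
  · intro n hn
    simp [hn]

omit [MeasurableSpace S] in
theorem hc_app {C : S → S → Prop} (hs : ∀ x y, C x y → C y x) {L : Set S} {v : S} {ω η : Om S}
    (hω : ∀ i, ¬ C v (ω.2 i)) (hη : ∀ j, η.2 j ∈ L ∧ C v (η.2 j)) :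
    hc C (app ω η) ↔ hc C ω ∧ hc C η ∧ ∀ j, η.2 j ∈ Tk C L (Al S) v ω := by
  unfold hc app
  constructor
  · intro H
    refine ⟨fun i j hij => ?_, fun i j hij => ?_, fun j => ?_⟩
    · have := H (Fin.castAdd η.1 i) (Fin.castAdd η.1 j)
        (fun e => hij (Fin.castAdd_injective _ _ e))
      simpa only [Fin.append_left] using this
    · have := H (Fin.natAdd ω.1 i) (Fin.natAdd ω.1 j)
        (fun e => hij (Fin.natAdd_injective _ _ e))
      simpa only [Fin.append_right] using this
    · refine ⟨(hη j).1, (hη j).2, fun i _ _ => ?_⟩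
      have := H (Fin.natAdd ω.1 j) (Fin.castAdd η.1 i) (by
        intro e
        have := congrArg Fin.val e
        simp at this
        omega)
      simpa only [Fin.append_right, Fin.append_left] using this
  · rintro ⟨h1, h2, h3⟩
    intro i j
    refine Fin.addCases (fun i => ?_) (fun i => ?_) i <;>
      refine Fin.addCases (fun j => ?_) (fun j => ?_) j
    · intro hij
      simp only [Fin.append_left]
      exact h1 i j fun e => hij (by rw [e])
    · intro _
      simp only [Fin.append_left, Fin.append_right]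
      exact fun h => (h3 j).2.2 i trivial (hω i) (hs _ _ h)
    · intro _
      simp only [Fin.append_left, Fin.append_right]
      exact (h3 i).2.2 j trivial (hω j)
    · intro hij
      simp only [Fin.append_right]
      exact h2 i j fun e => hij (by rw [e])

omit [MeasurableSpace S] in
theorem Tk_app {C : S → S → Prop} {L : Set S} {v : S} {ω η : Om S}
    (hη : ∀ j, C v (η.2 j)) : Tk C L (Al S) v (app ω η) = Tk C L (Al S) v ω := by
  ext z
  simp only [Tk, Set.mem_ofPred_eq, app]
  refine and_congr_right fun _ => and_congr_right fun _ => ?_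
  constructor
  · intro H i hK hn
    have := H (Fin.castAdd η.1 i)
    simp only [Fin.append_left] at this
    exact this hK hn
  · intro H i
    refine Fin.addCases (fun i => ?_) (fun j => ?_) i
    · simp only [Fin.append_left]
      exact H i
    · simp only [Fin.append_right]
      intro _ hn
      exact absurd (hη j) hn

omit [MeasurableSpace S] in
open Classical in
theorem chi_app {C : S → S → Prop} {v : S} {ω η : Om S}
    (hω : ∀ i, ¬ C v (ω.2 i)) (hη : ∀ j, C v (η.2 j)) :
    chi C (Al S) v (app ω η) = if η.1 = 0 then 1 else 0 := by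
  unfold chi
  by_cases h : η.1 = 0
  · rw [if_pos h, if_pos]
    unfold fr app
    intro i
    refine Fin.addCases (fun i => ?_) (fun j => ?_) i
    · intro _
      simp only [Fin.append_left]
      exact hω i
    · exact absurd j.2 (by omega)
  · rw [if_neg h, if_neg]
    unfold fr app
    intro H
    have := H (Fin.natAdd ω.1 ⟨0, Nat.pos_of_ne_zero h⟩) trivial
    simp only [Fin.append_right] at this
    exact this (hη _)

omit [MeasurableSpace S] in
theorem hc_empty {C : S → S → Prop} {ω η : Om S} (h : η.1 = 0) :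
    hc C (app ω η) ↔ hc C ω := by
  unfold hc app
  constructor
  · intro H i j hij
    have := H (Fin.castAdd η.1 i) (Fin.castAdd η.1 j)
        (fun e => hij (Fin.castAdd_injective _ _ e))
    simpa only [Fin.append_left] using this
  · intro H i j
    refine Fin.addCases (fun i => ?_) (fun i => ?_) i <;>
      refine Fin.addCases (fun j => ?_) (fun j => ?_) j
    · intro hij
      simp only [Fin.append_left]
      exact H i j fun e => hij (by rw [e])
    · exact absurd j.2 (by omega)
    · exact absurd i.2 (by omega)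
    · exact absurd i.2 (by omega)

variable {m : Measure S} [SigmaFinite m] {C : S → S → Prop} {L : Set S} {b κ lam : ℝ}

omit [MeasurableSpace S] in
theorem Tk_sym (C : S → S → Prop) (L : Set S) (K : S → Prop) (v : S) : Sym (Tk C L K v) := by
  intro n x σ
  ext z
  simp only [Tk, Set.mem_ofPred_eq]
  refine and_congr_right fun _ => and_congr_right fun _ => ?_
  constructor
  · intro H i hK hn
    have := H (σ.symm i)
    simp only [Function.comp, Equiv.apply_symm_apply] at this
    exact this hK hn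
  · intro H i hK hn
    exact H (σ i) hK hn

/-- The free indicator integrates out the near points. -/
theorem key1 (h1 : SPLIT) (hB : BAS) (hM : MEAS) (hG : Geo m C L b κ) (hlam : 0 ≤ lam) (v : S)
    {G : Om S → ENNReal} (hGm : Measurable G) (hGs : Sym G)
    (hGl : ∀ ω η : Om S, (∀ j, C v (η.2 j)) → G (app ω η) = G ω) :
    ∫⁻ ω, {ω | hc C ω}.indicator (fun ω => ENNReal.ofReal (chi C (Al S) v ω) * G ω) ω
      ∂pois m lam L =
    ∫⁻ ω, {ω | hc C ω}.indicator G ω ∂pois m lam (L \ {z | C v z}) := by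
  classical
  obtain ⟨hmhc, -, -, -, -, -⟩ := hB S m C L lam hG.meas hG.measL hG.fin hlam
  obtain ⟨hmeas, -⟩ := hM S m C L lam hG.meas hG.measL hG.fin hlam
  obtain ⟨hchi, -, -, -, hsym⟩ := hmeas (Al S) MeasurableSet.univ
  have hV : MeasurableSet {z | C v z} := (measurable_prodMk_left (x := v)) hG.meas
  have hA : MeasurableSet (L \ {z | C v z}) := hG.measL.diff hV
  have hB' : MeasurableSet (L ∩ {z | C v z}) := hG.measL.inter hV
  have hun : (L \ {z | C v z}) ∪ (L ∩ {z | C v z}) = L := Set.sdiff_union_inter _ _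
  have hdis : Disjoint (L \ {z | C v z}) (L ∩ {z | C v z}) := Set.disjoint_sdiff_inter
  have hchim : Measurable fun ω => chi C (Al S) v ω :=
    hchi.comp (measurable_prodMk_left (x := v))
  have hFm : Measurable ({ω | hc C ω}.indicator
      (fun ω => ENNReal.ofReal (chi C (Al S) v ω) * G ω)) :=
    (hchim.ennreal_ofReal.mul hGm).indicator hmhc
  have hFs : Sym ({ω | hc C ω}.indicator
      (fun ω => ENNReal.ofReal (chi C (Al S) v ω) * G ω)) := by
    intro n x σ
    simp only [Set.indicator_apply, Set.mem_ofPred_eq, sym_hc C n x σ, (hsym v).1 n x σ,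
      hGs n x σ]
  have hs := h1 S m lam hlam _ _ hA hB' hdis _ hFm hFs
  rw [hun] at hs
  rw [hs]
  refine lintegral_congr_ae ?_
  filter_upwards [ae_mem m lam hA] with ω hω
  have hω' : ∀ i, ¬ C v (ω.2 i) := fun i => (hω i).2
  rw [← lint_zero m lam (L ∩ {z | C v z}) ({ω | hc C ω}.indicator G ω)]
  refine lintegral_congr_ae ?_
  filter_upwards [ae_mem m lam hB'] with η hη
  have hη' : ∀ j, C v (η.2 j) := fun j => (hη j).2
  by_cases h0 : η.1 = 0
  · rw [if_pos h0]
    simp only [Set.indicator_apply, Set.mem_ofPred_eq, hc_empty h0, chi_app hω' hη', if_pos h0,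
      ENNReal.ofReal_one, one_mul, hGl ω η hη']
  · rw [if_neg h0]
    simp only [Set.indicator_apply, chi_app hω' hη', if_neg h0, ENNReal.ofReal_zero, zero_mul,
      ite_self]

theorem key2 (h1 : SPLIT) (hB : BAS) (hM : MEAS) (hG : Geo m C L b κ) (hlam : 0 ≤ lam) (v : S)
    {G : Om S → ENNReal} (hGm : Measurable G) (hGs : Sym G)
    (hGl : ∀ ω η : Om S, (∀ j, C v (η.2 j)) → G (app ω η) = G ω) :
    ∫⁻ ω, {ω | hc C ω}.indicator
      (fun ω => G ω * (ENNReal.ofReal (Xi m C lam (Tk C L (Al S) v ω)))⁻¹) ω ∂pois m lam L =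
    ∫⁻ ω, {ω | hc C ω}.indicator G ω ∂pois m lam (L \ {z | C v z}) := by
  classical
  obtain ⟨hmhc, -, -, -, -, -⟩ := hB S m C L lam hG.meas hG.measL hG.fin hlam
  obtain ⟨hmeas, hXim⟩ := hM S m C L lam hG.meas hG.measL hG.fin hlam
  obtain ⟨-, -, -, hTm, -⟩ := hmeas (Al S) MeasurableSet.univ
  have hV : MeasurableSet {z | C v z} := (measurable_prodMk_left (x := v)) hG.meas
  have hA : MeasurableSet (L \ {z | C v z}) := hG.measL.diff hV
  have hB' : MeasurableSet (L ∩ {z | C v z}) := hG.measL.inter hV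
  have hun : (L \ {z | C v z}) ∪ (L ∩ {z | C v z}) = L := Set.sdiff_union_inter _ _
  have hdis : Disjoint (L \ {z | C v z}) (L ∩ {z | C v z}) := Set.disjoint_sdiff_inter
  have hFm : Measurable ({ω | hc C ω}.indicator
      (fun ω => G ω * (ENNReal.ofReal (Xi m C lam (Tk C L (Al S) v ω)))⁻¹)) :=
    (hGm.mul (hXim v).ennreal_ofReal.inv).indicator hmhc
  have hFs : Sym ({ω | hc C ω}.indicator
      (fun ω => G ω * (ENNReal.ofReal (Xi m C lam (Tk C L (Al S) v ω)))⁻¹)) := by
    intro n x σ
    simp only [Set.indicator_apply, Set.mem_ofPred_eq, sym_hc C n x σ, hGs n x σ,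
      Tk_sym C L (Al S) v n x σ]
  have hs := h1 S m lam hlam _ _ hA hB' hdis _ hFm hFs
  rw [hun] at hs
  rw [hs]
  refine lintegral_congr_ae ?_
  filter_upwards [ae_mem m lam hA] with ω hω
  have hω' : ∀ i, ¬ C v (ω.2 i) := fun i => (hω i).2
  have hT : MeasurableSet (Tk C L (Al S) v ω) := hTm v ω
  have hTB : Tk C L (Al S) v ω ⊆ L ∩ {z | C v z} := fun z hz => ⟨hz.1, hz.2.1⟩
  have hTfin : m (Tk C L (Al S) v ω) ≠ ⊤ :=
    ne_top_of_le_ne_top hG.fin (measure_mono fun z hz => hz.1)
  obtain ⟨-, -, hfg, hX1, -, -⟩ := hB S m C (Tk C L (Al S) v ω) lam hG.meas hT hTfin hlam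
  have hXE : gib m C lam (Tk C L (Al S) v ω) Set.univ =
      ENNReal.ofReal (Xi m C lam (Tk C L (Al S) v ω)) :=
    (ENNReal.ofReal_toReal (measure_ne_top _ _)).symm
  have hX0 : ENNReal.ofReal (Xi m C lam (Tk C L (Al S) v ω)) ≠ 0 := by
    rw [Ne, ENNReal.ofReal_eq_zero]; linarith
  have hone : ∫⁻ η, {ω | hc C ω}.indicator (fun _ => (1 : ENNReal)) η
      ∂pois m lam (Tk C L (Al S) v ω) = ENNReal.ofReal (Xi m C lam (Tk C L (Al S) v ω)) := by
    rw [lintegral_indicator_const hmhc, one_mul, ← hXE]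
    unfold gib
    rw [Measure.restrict_apply_univ]
  have h1m : Measurable ({ω : Om S | hc C ω}.indicator (fun _ => (1 : ENNReal))) :=
    measurable_const.indicator hmhc
  have hin : ∫⁻ η, {ω | hc C ω}.indicator
      (fun ω => G ω * (ENNReal.ofReal (Xi m C lam (Tk C L (Al S) v ω)))⁻¹) (app ω η)
      ∂pois m lam (L ∩ {z | C v z}) =
      ∫⁻ η, ({ω | hc C ω}.indicator G ω *
        (ENNReal.ofReal (Xi m C lam (Tk C L (Al S) v ω)))⁻¹) *
        ({η : Om S | ∀ j, η.2 j ∈ Tk C L (Al S) v ω}.indicator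
          ({ω : Om S | hc C ω}.indicator (fun _ => (1 : ENNReal))) η)
      ∂pois m lam (L ∩ {z | C v z}) := by
    refine lintegral_congr_ae ?_
    filter_upwards [ae_mem m lam hB'] with η hη
    have hη' : ∀ j, C v (η.2 j) := fun j => (hη j).2
    simp only [Set.indicator_apply, Set.mem_ofPred_eq, Tk_app hη', hGl ω η hη',
      hc_app hG.symm hω' (fun j => (⟨(hη j).1, (hη j).2⟩ : η.2 j ∈ L ∧ C v (η.2 j)))]
    by_cases a1 : hc C ω <;> by_cases a2 : hc C η <;>
      by_cases a3 : ∀ j, η.2 j ∈ Tk C L (Al S) v ω <;> simp [a1, a2, a3]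
  rw [hin, lintegral_const_mul _ (h1m.indicator (meas_all hT)), lint_sub m lam hT hTB h1m, hone,
    mul_assoc, ENNReal.inv_mul_cancel hX0 ENNReal.ofReal_ne_top, mul_one]

end Mark

theorem markov_of (h1 : SPLIT) (hB : BAS) (hM : MEAS) : MARKOV := by
  intro S _ m _ C L b κ lam hG hlam v h hm hsy hbd hloc
  obtain ⟨M, hMb⟩ := hbd
  obtain ⟨hmhc, hfp, hfg, hXi1, -, -⟩ := hB S m C L lam hG.meas hG.measL hG.fin hlam
  obtain ⟨hmeas, hXim⟩ := hM S m C L lam hG.meas hG.measL hG.fin hlam
  obtain ⟨hchi, -, -, hTm, -⟩ := hmeas (Al S) MeasurableSet.univ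
  have hchim : Measurable fun ω => chi C (Al S) v ω :=
    hchi.comp (measurable_prodMk_left (x := v))
  have hX1 : ∀ ω, 1 ≤ Xi m C lam (Tk C L (Al S) v ω) := by
    intro ω
    have hTfin : m (Tk C L (Al S) v ω) ≠ ⊤ :=
      ne_top_of_le_ne_top hG.fin (measure_mono fun z hz => hz.1)
    exact (hB S m C (Tk C L (Al S) v ω) lam hG.meas (hTm v ω) hTfin hlam).2.2.2.1
  -- nonnegative functions
  have key : ∀ g : Om S → ℝ, Measurable g → Sym g → (∀ ω, 0 ≤ g ω) →
      (∀ ω η : Om S, (∀ j, C v (η.2 j)) → g (app ω η) = g ω) →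
      ∫ ω, chi C (Al S) v ω * g ω ∂gib m C lam L =
        ∫ ω, g ω / Xi m C lam (Tk C L (Al S) v ω) ∂gib m C lam L := by
    intro g hgm hgs hg0 hgl
    have hGs : Sym fun ω => ENNReal.ofReal (g ω) := by
      intro n x σ
      show ENNReal.ofReal (g _) = ENNReal.ofReal (g _)
      rw [hgs n x σ]
    have k1 := Mark.key1 h1 hB hM hG hlam v (G := fun ω => ENNReal.ofReal (g ω))
      hgm.ennreal_ofReal hGs (fun ω η h => by show ENNReal.ofReal _ = _; rw [hgl ω η h])
    have k2 := Mark.key2 h1 hB hM hG hlam v (G := fun ω => ENNReal.ofReal (g ω))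
      hgm.ennreal_ofReal hGs (fun ω η h => by show ENNReal.ofReal _ = _; rw [hgl ω η h])
    rw [integral_eq_lintegral_of_nonneg_ae
      (ae_of_all _ fun ω => mul_nonneg (chi_nonneg C (Al S) v ω) (hg0 ω))
      (hchim.mul hgm).aestronglyMeasurable,
      integral_eq_lintegral_of_nonneg_ae
      (ae_of_all _ fun ω => div_nonneg (hg0 ω) (by linarith [hX1 ω]))
      (hgm.div (hXim v)).aestronglyMeasurable]
    congr 1
    unfold gib
    rw [← lintegral_indicator hmhc, ← lintegral_indicator hmhc]
    have e1 : ∀ ω, ENNReal.ofReal (chi C (Al S) v ω * g ω) =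
        ENNReal.ofReal (chi C (Al S) v ω) * ENNReal.ofReal (g ω) := fun ω =>
      ENNReal.ofReal_mul (chi_nonneg C (Al S) v ω)
    have e2 : ∀ ω, ENNReal.ofReal (g ω / Xi m C lam (Tk C L (Al S) v ω)) =
        ENNReal.ofReal (g ω) * (ENNReal.ofReal (Xi m C lam (Tk C L (Al S) v ω)))⁻¹ := by
      intro ω
      rw [ENNReal.ofReal_div_of_pos (by linarith [hX1 ω]), div_eq_mul_inv]
    simp only [e1, e2]
    rw [k1, k2]
  have hMc : 0 ≤ M := le_trans (abs_nonneg _) (hMb ⟨0, Fin.elim0⟩)
  have k1 := key (fun ω => h ω + M) (hm.add_const M)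
    (fun n x σ => by show h _ + M = h _ + M; rw [hsy n x σ])
    (fun ω => by have := (abs_le.1 (hMb ω)).1; linarith)
    (fun ω η hh => by show h _ + M = h _ + M; rw [hloc ω η hh])
  have k2 := key (fun _ => M) measurable_const (fun n x σ => rfl) (fun _ => hMc)
    (fun ω η hh => rfl)
  have i1 : Integrable (fun ω => chi C (Al S) v ω * h ω) (gib m C lam L) := by
    refine Integrable.mono' (integrable_const M) (hchim.mul hm).aestronglyMeasurable
      (ae_of_all _ fun ω => ?_)
    rw [Real.norm_eq_abs, abs_mul, abs_of_nonneg (chi_nonneg C (Al S) v ω)]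
    have a := chi_nonneg C (Al S) v ω
    have a' := chi_le_one C (Al S) v ω
    have b := hMb ω
    have b' := abs_nonneg (h ω)
    nlinarith
  have i2 : Integrable (fun ω => chi C (Al S) v ω * M) (gib m C lam L) := by
    refine Integrable.mono' (integrable_const M) (hchim.mul_const M).aestronglyMeasurable
      (ae_of_all _ fun ω => ?_)
    rw [Real.norm_eq_abs, abs_mul, abs_of_nonneg (chi_nonneg C (Al S) v ω), abs_of_nonneg hMc]
    have a := chi_nonneg C (Al S) v ω
    have a' := chi_le_one C (Al S) v ω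
    nlinarith
  have i3 : Integrable (fun ω => h ω / Xi m C lam (Tk C L (Al S) v ω)) (gib m C lam L) := by
    refine Integrable.mono' (integrable_const M) (hm.div (hXim v)).aestronglyMeasurable
      (ae_of_all _ fun ω => ?_)
    have hx := hX1 ω
    rw [Real.norm_eq_abs, abs_div, abs_of_nonneg (by linarith : (0:ℝ) ≤ Xi m C lam _),
      div_le_iff₀ (by linarith)]
    have b := hMb ω
    nlinarith
  have i4 : Integrable (fun ω => M / Xi m C lam (Tk C L (Al S) v ω)) (gib m C lam L) := by
    refine Integrable.mono' (integrable_const M)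
      (measurable_const.div (hXim v)).aestronglyMeasurable (ae_of_all _ fun ω => ?_)
    have hx := hX1 ω
    rw [Real.norm_eq_abs, abs_div, abs_of_nonneg (by linarith : (0:ℝ) ≤ Xi m C lam _),
      abs_of_nonneg hMc, div_le_iff₀ (by linarith)]
    nlinarith
  have e1 : ∀ ω, chi C (Al S) v ω * (h ω + M) = chi C (Al S) v ω * h ω + chi C (Al S) v ω * M :=
    fun ω => by ring
  have e2 : ∀ ω, (h ω + M) / Xi m C lam (Tk C L (Al S) v ω) =
      h ω / Xi m C lam (Tk C L (Al S) v ω) + M / Xi m C lam (Tk C L (Al S) v ω) :=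
    fun ω => by ring
  simp only [e1, e2] at k1
  rw [integral_add i1 i2, integral_add i3 i4] at k1
  unfold ex
  congr 1
  linarith

end Pool.Agent.HdGas
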