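import Pool.Agent.Lib.MF.Rows

/-!
# Project MF, row CONV (helper1)
-/

set_option autoImplicit false

namespace Pool.Agent.HdGas

open MeasureTheory Real Set

noncomputable section

namespace Cv

/-- `(x-y)(e^(-y)-e^(-x)) ≥ (e^(-x)-e^(-y))²` for `x, y ≥ 0`. -/
theorem exp_sq_le {x y : ℝ} (hx : 0 ≤ x) (hy : 0 ≤ y) :
    (exp (-x) - exp (-y)) ^ 2 ≤ (x - y) * (exp (-y) - exp (-x)) := by
  have key : ∀ x y : ℝ, 0 ≤ y → y ≤ x → exp (-y) - exp (-x) ≤ x - y := by
    intro x y hy hxy
    have h1 : exp (-x) = exp (-y) * exp (-(x - y)) := by rw [← exp_add]; congr 1; ring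
    have h2 : 1 - (x - y) ≤ exp (-(x - y)) := by
      have := add_one_le_exp (-(x - y))
      linarith
    have h3 : exp (-y) ≤ 1 := exp_le_one_iff.2 (by linarith)
    have h4 : 0 < exp (-y) := exp_pos _
    rw [h1]
    nlinarith
  rcases le_total y x with h | h
  · have h1 := key x y hy h
    have h2 : exp (-x) ≤ exp (-y) := exp_le_exp.2 (by linarith)
    nlinarith
  · have h1 := key y x hx h
    have h2 : exp (-y) ≤ exp (-x) := exp_le_exp.2 (by linarith)
    nlinarith


variable {S : Type} [MeasurableSpace S] {m : Measure S} [SigmaFinite m] {C : S → S → Prop}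
  {L : Set S} {b κ ε lam c : ℝ}

theorem sec_meas (hG : Geo m C L b κ) (u : S) : MeasurableSet {z | C u z} :=
  measurable_prodMk_left hG.meas

theorem LC_meas (hG : Geo m C L b κ) (u : S) : MeasurableSet {z | z ∈ L ∧ C u z} :=
  hG.measL.inter (sec_meas hG u)

theorem sec_fin (hG : Geo m C L b κ) (u : S) : m {z | C u z} ≠ ⊤ :=
  ((hG.ball u).trans_lt ENNReal.ofReal_lt_top).ne

theorem LC_fin (hG : Geo m C L b κ) (u : S) : m {z | z ∈ L ∧ C u z} ≠ ⊤ :=
  ((measure_mono fun _ h => h.2).trans_lt (sec_fin hG u).lt_top).ne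

theorem LC_le (hG : Geo m C L b κ) (u : S) : (m {z | z ∈ L ∧ C u z}).toReal ≤ b := by
  have h1 : m {z | z ∈ L ∧ C u z} ≤ ENNReal.ofReal b := (measure_mono fun _ h => h.2).trans (hG.ball u)
  exact ENNReal.toReal_le_of_le_ofReal hG.b_pos.le h1

/-- integrability of bounded functions. -/
theorem bdd {T : Set S} (hT : MeasurableSet T) (hfin : m T ≠ ⊤) {f : S → ℝ} {M : ℝ}
    (hf : Measurable f) (hM : ∀ u ∈ T, |f u| ≤ M) : IntegrableOn f T m := by
  refine Measure.integrableOn_of_bounded (M := M) hfin hf.aestronglyMeasurable ?_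
  filter_upwards [ae_restrict_mem hT] with u hu
  rw [Real.norm_eq_abs]
  exact hM u hu

/-- the section integral is measurable. -/
theorem sec_int_meas (hG : Geo m C L b κ) {g : S → ℝ} (hg : Measurable g) :
    Measurable fun u => ∫ y in {y | C u y}, g y ∂m := by
  have e : (fun u => ∫ y in {y | C u y}, g y ∂m) =
      fun u => ∫ y, ({p : S × S | C p.1 p.2}.indicator (fun p => g p.2)) (u, y) ∂m := by
    funext u
    rw [← integral_indicator (sec_meas hG u)]
    rfl
  rw [e]
  have hm : Measurable ({p : S × S | C p.1 p.2}.indicator fun p => g p.2) :=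
    (hg.comp measurable_snd).indicator hG.meas
  exact (hm.stronglyMeasurable.integral_prod_right').measurable

/-- the deterministic inequality. -/
theorem det (hG : Geo m C L b κ) (hP : Posi m C L b ε) (hl : 0 ≤ lam) (hε : lam * b * ε ≤ 1 / 2)
    (hc0 : 0 ≤ c) (hc : c * Real.exp c = lam * b) {Y : S → ℝ} (hY : Measurable Y)
    (h0 : ∀ u, 0 ≤ Y u) (h1 : ∀ u, Y u ≤ lam * b) :
    ∫ u in L, (Real.exp (-Y u) - Real.exp (-c)) ^ 2 ∂m ≤
      (2 * √(∫ u in L, (Y u - lam * ∫ v in {v | v ∈ L ∧ C u v}, Real.exp (-Y v) ∂m) ^ 2 ∂m) +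
        √(2 * Bd m C L b c)) ^ 2 := by
  have hL := hG.measL
  have hfin := hG.fin
  have hb0 := hG.b_pos
  set g : S → ℝ := L.indicator fun u => exp (-Y u) - exp (-c) with hg
  have hgm : Measurable g := (by fun_prop : Measurable fun u => exp (-Y u) - exp (-c)).indicator hL
  have hgL : ∀ u ∈ L, g u = exp (-Y u) - exp (-c) := fun u hu => indicator_of_mem hu _
  have hgn : ∀ u, u ∉ L → g u = 0 := fun u hu => indicator_of_notMem hu _
  have hg1 : ∀ u, |g u| ≤ 1 := by
    intro u
    by_cases hu : u ∈ L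
    · rw [hgL u hu, abs_le]
      have a1 : exp (-Y u) ≤ 1 := exp_le_one_iff.2 (by linarith [h0 u])
      have a2 : exp (-c) ≤ 1 := exp_le_one_iff.2 (by linarith)
      have a3 := exp_pos (-Y u)
      have a4 := exp_pos (-c)
      constructor <;> linarith
    · rw [hgn u hu]; simp
  set A : S → ℝ := fun u => ∫ y in {y | C u y}, g y ∂m with hA
  set V : S → ℝ := fun u => (m {z | z ∈ L ∧ C u z}).toReal with hV
  set r : S → ℝ := fun u => Y u - lam * ∫ v in {v | v ∈ L ∧ C u v}, exp (-Y v) ∂m with hr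
  set B : S → ℝ := fun u => c * (1 - V u / b) with hB
  have hA2 : ∀ u, A u = (∫ v in {v | v ∈ L ∧ C u v}, exp (-Y v) ∂m) - exp (-c) * V u := by
    intro u
    have e1 : A u = ∫ v in {v | v ∈ L ∧ C u v}, (exp (-Y v) - exp (-c)) ∂m := by
      simp only [hA, hg]
      rw [MeasureTheory.setIntegral_indicator hL]
      congr 2
      ext v
      simp [and_comm]
    rw [e1, integral_sub]
    · rw [setIntegral_const, smul_eq_mul, mul_comm]
      rfl
    · refine bdd (M := 1) (LC_meas hG u) (LC_fin hG u) (by fun_prop) fun v _ => ?_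
      rw [abs_of_pos (exp_pos _)]
      exact exp_le_one_iff.2 (by linarith [h0 v])
    · exact integrableOn_const (LC_fin hG u)
  have hkey : ∀ u, Y u - c = lam * A u - B u + r u := by
    intro u
    simp only [hB, hr]
    rw [hA2]
    have e1 : c = lam * b * exp (-c) := by
      rw [← hc, mul_assoc, ← exp_add]
      simp
    have e2 : c * (1 - V u / b) = c - lam * exp (-c) * V u := by
      have : c * (V u / b) = lam * exp (-c) * V u := by
        nth_rewrite 1 [e1]
        field_simp
      linarith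
    rw [e2]
    ring
  have hAm : Measurable A := sec_int_meas hG hgm
  have hVm : Measurable V := by
    have e : V = fun u => ∫ y in {y | C u y}, L.indicator (fun _ => (1 : ℝ)) y ∂m := by
      funext u
      rw [MeasureTheory.setIntegral_indicator hL, setIntegral_const, smul_eq_mul, mul_one]
      simp only [hV]
      unfold Measure.real
      congr 2
      ext v
      simp [and_comm]
    rw [e]
    exact sec_int_meas hG (measurable_const.indicator hL)
  have hAb : ∀ u, |A u| ≤ b := by
    intro u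
    have := norm_setIntegral_le_of_norm_le_const (μ := m) (s := {y | C u y}) (f := g) (C := 1)
      (sec_fin hG u).lt_top (fun v _ => by rw [Real.norm_eq_abs]; exact hg1 v)
    rw [Real.norm_eq_abs, one_mul] at this
    refine this.trans ?_
    exact ENNReal.toReal_le_of_le_ofReal hb0.le (hG.ball u)
  have hBm : Measurable B := by fun_prop
  have hV0 : ∀ u, 0 ≤ V u := fun u => ENNReal.toReal_nonneg
  have hVb : ∀ u, V u ≤ b := fun u => LC_le hG u
  have hB0 : ∀ u, 0 ≤ B u := fun u => by
    simp only [hB]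
    refine mul_nonneg hc0 ?_
    rw [sub_nonneg, div_le_one hb0]
    exact hVb u
  have hBb : ∀ u, B u ≤ c := by
    intro u
    simp only [hB]
    have : 0 ≤ V u / b := div_nonneg (hV0 u) hb0.le
    nlinarith
  have hrm : Measurable r := by
    have : r = fun u => Y u - c - lam * A u + B u := by
      funext u
      have := hkey u
      linarith
    rw [this]
    fun_prop
  have hBabs : ∀ u, |B u| ≤ c := fun u => by rw [abs_of_nonneg (hB0 u)]; exact hBb u
  have hrb : ∀ u, |r u| ≤ lam * b + c + lam * b + c := by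
    intro u
    have e1 : r u = Y u - c - lam * A u + B u := by
      have := hkey u
      linarith
    have e3 := h0 u
    have e4 := h1 u
    have e5 := hB0 u
    have e6 := hBb u
    have e7 : |lam * A u| ≤ lam * b := by
      rw [abs_mul, abs_of_nonneg hl]
      exact mul_le_mul_of_nonneg_left (hAb u) hl
    have e8 := abs_le.1 e7
    rw [e1, abs_le]
    constructor <;> linarith
  have iG2 : IntegrableOn (fun u => g u ^ 2) L m := bdd (M := 1) hL hfin (by fun_prop) fun u _ => by
    rw [abs_pow]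
    exact pow_le_one₀ (abs_nonneg _) (hg1 u)
  have iYg : IntegrableOn (fun u => (Y u - c) * g u) L m :=
    bdd (M := lam * b + c) hL hfin (by fun_prop) fun u _ => by
    rw [abs_mul]
    have e3 := h0 u
    have e4 := h1 u
    have e5 : |Y u - c| ≤ lam * b + c := by rw [abs_le]; constructor <;> linarith
    calc |Y u - c| * |g u| ≤ (lam * b + c) * 1 := mul_le_mul e5 (hg1 u) (abs_nonneg _) (by linarith)
      _ = lam * b + c := mul_one _
  have iAg : IntegrableOn (fun u => g u * A u) L m := bdd (M := b) hL hfin (by fun_prop) fun u _ => by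
    rw [abs_mul]
    calc |g u| * |A u| ≤ 1 * b := mul_le_mul (hg1 u) (hAb u) (abs_nonneg _) zero_le_one
      _ = b := one_mul _
  have iBg : IntegrableOn (fun u => B u * g u) L m := bdd (M := c) hL hfin (by fun_prop) fun u _ => by
    rw [abs_mul]
    calc |B u| * |g u| ≤ c * 1 := mul_le_mul (hBabs u) (hg1 u) (abs_nonneg _) hc0
      _ = c := mul_one _
  have irg : IntegrableOn (fun u => r u * g u) L m :=
    bdd (M := lam * b + c + lam * b + c) hL hfin (by fun_prop) fun u _ => by
    rw [abs_mul]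
    calc |r u| * |g u| ≤ (lam * b + c + lam * b + c) * 1 :=
          mul_le_mul (hrb u) (hg1 u) (abs_nonneg _) ((abs_nonneg _).trans (hrb u))
      _ = _ := mul_one _
  have iB : IntegrableOn B L m := bdd (M := c) hL hfin hBm fun u _ => hBabs u
  have ir2 : IntegrableOn (fun u => r u ^ 2) L m :=
    bdd (M := (lam * b + c + lam * b + c) ^ 2) hL hfin (by fun_prop) fun u _ => by
    rw [abs_pow]
    exact pow_le_pow_left₀ (abs_nonneg _) (hrb u) 2
  -- step 1
  have s1 : ∫ u in L, g u ^ 2 ∂m ≤ -∫ u in L, (Y u - c) * g u ∂m := by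
    rw [← integral_neg]
    refine setIntegral_mono_on iG2 iYg.neg hL fun u hu => ?_
    have := exp_sq_le (h0 u) hc0
    rw [hgL u hu]
    linarith
  -- step 2
  have s2 : ∫ u in L, (Y u - c) * g u ∂m =
      lam * (∫ u in L, g u * A u ∂m) - (∫ u in L, B u * g u ∂m) + ∫ u in L, r u * g u ∂m := by
    have q1 : ∫ u in L, (lam * (g u * A u) - B u * g u + r u * g u) ∂m =
        lam * (∫ u in L, g u * A u ∂m) - (∫ u in L, B u * g u ∂m) + ∫ u in L, r u * g u ∂m := by
      rw [integral_add (f := fun u => lam * (g u * A u) - B u * g u) ((iAg.const_mul lam).sub iBg) irg,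
        integral_sub (f := fun u => lam * (g u * A u)) (iAg.const_mul lam) iBg, integral_const_mul]
    rw [← q1]
    refine setIntegral_congr_fun hL fun u _ => ?_
    have := hkey u
    show (Y u - c) * g u = lam * (g u * A u) - B u * g u + r u * g u
    rw [this]
    ring
  -- step 3: the quadratic form
  have s3 : -(ε * b * ∫ u in L, g u ^ 2 ∂m) ≤ ∫ u in L, g u * A u ∂m := by
    have e1 := hP g hgm hg1 hgn
    have e2 : ∫ u, g u ^ 2 ∂m = ∫ u in L, g u ^ 2 ∂m :=
      (setIntegral_eq_integral_of_forall_compl_eq_zero fun u hu => by rw [hgn u hu]; simp).symm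
    have e3 : ∫ x, g x * ∫ y in {y | C x y}, g y ∂m ∂m = ∫ u in L, g u * A u ∂m :=
      (setIntegral_eq_integral_of_forall_compl_eq_zero fun u hu => by
        rw [hgn u hu]; simp).symm
    rw [e2, e3] at e1
    exact e1
  -- step 4
  have s4 : ∫ u in L, B u * g u ∂m ≤ ∫ u in L, B u ∂m := by
    refine setIntegral_mono_on iBg iB hL fun u _ => ?_
    have e1 := (abs_le.1 (hg1 u)).2
    calc B u * g u ≤ B u * 1 := mul_le_mul_of_nonneg_left e1 (hB0 u)
      _ = B u := mul_one _
  set G : ℝ := ∫ u in L, g u ^ 2 ∂m with hGd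
  set R : ℝ := ∫ u in L, r u ^ 2 ∂m with hRd
  have hG0 : 0 ≤ G := setIntegral_nonneg hL fun u _ => sq_nonneg _
  have hR0 : 0 ≤ R := setIntegral_nonneg hL fun u _ => sq_nonneg _
  -- Cauchy-Schwarz
  have s5 : -∫ u in L, r u * g u ∂m ≤ √R * √G := by
    have key : ∀ s : ℝ, 0 < s → -∫ u in L, r u * g u ∂m ≤ (s * R + s⁻¹ * G) / 2 := by
      intro s hs
      have e1 : ∫ u in L, -(r u * g u) ∂m ≤ ∫ u in L, (s * r u ^ 2 + s⁻¹ * g u ^ 2) / 2 ∂m := by
        refine setIntegral_mono_on irg.neg
          (((ir2.const_mul s).add (iG2.const_mul s⁻¹)).div_const 2) hL fun u _ => ?_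
        have e2 : 0 ≤ (√s * r u + √s⁻¹ * g u) ^ 2 := sq_nonneg _
        have e3 : √s * √s = s := Real.mul_self_sqrt hs.le
        have e4 : √s⁻¹ * √s⁻¹ = s⁻¹ := Real.mul_self_sqrt (inv_pos.2 hs).le
        have e5 : √s * √s⁻¹ = 1 := by
          rw [← Real.sqrt_mul hs.le, mul_inv_cancel₀ hs.ne', Real.sqrt_one]
        have e6 : (√s * r u + √s⁻¹ * g u) ^ 2 =
            (√s * √s) * r u ^ 2 + 2 * (√s * √s⁻¹) * (r u * g u) + (√s⁻¹ * √s⁻¹) * g u ^ 2 := by ring
        rw [e6, e3, e4, e5] at e2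
        linarith
      rw [integral_neg] at e1
      refine e1.trans (le_of_eq ?_)
      rw [integral_div, integral_add (ir2.const_mul s) (iG2.const_mul s⁻¹), integral_const_mul,
        integral_const_mul]
    rcases eq_or_lt_of_le hR0 with hR | hR
    · rw [← hR, Real.sqrt_zero, zero_mul]
      refine le_of_forall_pos_le_add fun δ hδ => ?_
      have e1 := key ((G + 1) / δ) (by positivity)
      rw [← hR, mul_zero, zero_add] at e1
      refine e1.trans ?_
      rw [inv_div, zero_add]
      have e2 : δ / (G + 1) * G ≤ δ := by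
        rw [div_mul_eq_mul_div, div_le_iff₀ (by positivity)]
        nlinarith
      linarith
    rcases eq_or_lt_of_le hG0 with hGz | hGz
    · rw [← hGz, Real.sqrt_zero, mul_zero]
      refine le_of_forall_pos_le_add fun δ hδ => ?_
      have e1 := key (δ / (R + 1)) (by positivity)
      rw [← hGz, mul_zero, add_zero] at e1
      refine e1.trans ?_
      rw [zero_add]
      have e2 : δ / (R + 1) * R ≤ δ := by
        rw [div_mul_eq_mul_div, div_le_iff₀ (by positivity)]
        nlinarith
      linarith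
    · have hsR := Real.sqrt_pos.2 hR
      have hsG := Real.sqrt_pos.2 hGz
      have e1 := key (√G / √R) (by positivity)
      refine e1.trans (le_of_eq ?_)
      have e2 : √R * √R = R := Real.mul_self_sqrt hR0
      have e3 : √G * √G = G := Real.mul_self_sqrt hG0
      rw [inv_div]
      have e4 : √G / √R * R = √R * √G := by
        nth_rewrite 2 [← e2]
        field_simp
      have e5 : √R / √G * G = √R * √G := by
        nth_rewrite 2 [← e3]
        field_simp
      rw [e4, e5]
      ring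
  have s6 : lam * (-(ε * b * G)) ≤ lam * ∫ u in L, g u * A u ∂m :=
    mul_le_mul_of_nonneg_left s3 hl
  have s9 : lam * b * ε * G ≤ 1 / 2 * G := mul_le_mul_of_nonneg_right hε hG0
  have s10 : ∫ u in L, (Real.exp (-Y u) - Real.exp (-c)) ^ 2 ∂m = G :=
    setIntegral_congr_fun hL fun u hu => by rw [hgL u hu]
  have hBd : Bd m C L b c = ∫ u in L, B u ∂m := rfl
  have hB00 : 0 ≤ Bd m C L b c := by
    rw [hBd]
    exact setIntegral_nonneg hL fun u _ => hB0 u
  have s11 : G ≤ 2 * (√R * √G) + 2 * Bd m C L b c := by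
    rw [s2] at s1
    rw [hBd]
    nlinarith
  rw [s10]
  -- the quadratic inequality
  have e3 : √G * √G = G := Real.mul_self_sqrt hG0
  have e4 : √(2 * Bd m C L b c) * √(2 * Bd m C L b c) = 2 * Bd m C L b c :=
    Real.mul_self_sqrt (by linarith)
  have hβ := Real.sqrt_nonneg (2 * Bd m C L b c)
  have hρ := Real.sqrt_nonneg R
  have hγ := Real.sqrt_nonneg G
  have e5 : √G ≤ 2 * √R + √(2 * Bd m C L b c) := by
    by_contra hcon
    push Not at hcon
    nlinarith
  calc G = √G ^ 2 := by rw [sq, e3]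
    _ ≤ _ := pow_le_pow_left₀ hγ e5 2

theorem Yk_nonneg (hl : 0 ≤ lam) (u : S) (ω : Om S) : 0 ≤ Yk m C lam L (Al S) u ω :=
  mul_nonneg hl ENNReal.toReal_nonneg

theorem Yk_le (hG : Geo m C L b κ) (hl : 0 ≤ lam) (u : S) (ω : Om S) :
    Yk m C lam L (Al S) u ω ≤ lam * b := by
  refine mul_le_mul_of_nonneg_left ?_ hl
  have h1 : m (Tk C L (Al S) u ω) ≤ ENNReal.ofReal b := (measure_mono fun _ h => h.2.1).trans (hG.ball u)
  exact ENNReal.toReal_le_of_le_ofReal hG.b_pos.le h1

/-- the error of the self-consistency equation. -/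
def rr (m : Measure S) (C : S → S → Prop) (lam : ℝ) (L : Set S) (u : S) (ω : Om S) : ℝ :=
  Yk m C lam L (Al S) u ω - lam * ∫ v in {v | v ∈ L ∧ C u v}, Real.exp (-Yk m C lam L (Al S) v ω) ∂m

theorem rr_meas (hG : Geo m C L b κ)
    (hYm : Measurable fun q : S × Om S => Yk m C lam L (Al S) q.1 q.2) :
    Measurable fun q : Om S × S => rr m C lam L q.2 q.1 := by
  unfold rr
  have h1 : Measurable fun q : Om S × S => Yk m C lam L (Al S) q.2 q.1 :=
    hYm.comp (measurable_snd.prodMk measurable_fst)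
  have h2 : Measurable fun q : Om S × S =>
      ∫ v in {v | v ∈ L ∧ C q.2 v}, Real.exp (-Yk m C lam L (Al S) v q.1) ∂m := by
    have e : (fun q : Om S × S =>
        ∫ v in {v | v ∈ L ∧ C q.2 v}, Real.exp (-Yk m C lam L (Al S) v q.1) ∂m) =
        fun q => ∫ v, ({p : (Om S × S) × S | p.2 ∈ L ∧ C p.1.2 p.2}.indicator
          fun p => Real.exp (-Yk m C lam L (Al S) p.2 p.1.1)) (q, v) ∂m := by
      funext q
      rw [← integral_indicator (LC_meas hG q.2)]
      rfl
    rw [e]
    have hs : MeasurableSet {p : (Om S × S) × S | p.2 ∈ L ∧ C p.1.2 p.2} := by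
      have a1 : MeasurableSet {p : (Om S × S) × S | p.2 ∈ L} := measurable_snd hG.measL
      have a2 : MeasurableSet {p : (Om S × S) × S | C p.1.2 p.2} :=
        ((measurable_snd.comp measurable_fst).prodMk measurable_snd : Measurable
          fun p : (Om S × S) × S => (p.1.2, p.2)) hG.meas
      exact a1.inter a2
    have hm : Measurable fun p : (Om S × S) × S => Real.exp (-Yk m C lam L (Al S) p.2 p.1.1) :=
      Real.measurable_exp.comp (hYm.comp
        (measurable_snd.prodMk (measurable_fst.comp measurable_fst))).neg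
    exact ((hm.indicator hs).stronglyMeasurable.integral_prod_right').measurable
  exact h1.sub (h2.const_mul lam)

theorem rr_abs (hG : Geo m C L b κ) (hl : 0 ≤ lam) (u : S) (ω : Om S)
    (hYm : Measurable fun v : S => Yk m C lam L (Al S) v ω) :
    |rr m C lam L u ω| ≤ lam * b := by
  have h1 := Yk_nonneg (m := m) (C := C) (L := L) hl u ω
  have h2 := Yk_le hG hl u ω
  have h3 : 0 ≤ ∫ v in {v | v ∈ L ∧ C u v}, Real.exp (-Yk m C lam L (Al S) v ω) ∂m :=
    setIntegral_nonneg (LC_meas hG u) fun v _ => (exp_pos _).le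
  have h4 : ∫ v in {v | v ∈ L ∧ C u v}, Real.exp (-Yk m C lam L (Al S) v ω) ∂m ≤ b := by
    have e1 := norm_setIntegral_le_of_norm_le_const (μ := m) (s := {v | v ∈ L ∧ C u v})
      (f := fun v => Real.exp (-Yk m C lam L (Al S) v ω)) (C := 1)
      (LC_fin hG u).lt_top (fun v _ => by
        rw [Real.norm_eq_abs, abs_of_pos (exp_pos _)]
        exact exp_le_one_iff.2 (by linarith [Yk_nonneg (m := m) (C := C) (L := L) hl v ω]))
    rw [Real.norm_eq_abs, one_mul] at e1
    exact ((le_abs_self _).trans e1).trans (LC_le hG u)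
  have h5 : lam * ∫ v in {v | v ∈ L ∧ C u v}, Real.exp (-Yk m C lam L (Al S) v ω) ∂m ≤ lam * b :=
    mul_le_mul_of_nonneg_left h4 hl
  have h6 : 0 ≤ lam * ∫ v in {v | v ∈ L ∧ C u v}, Real.exp (-Yk m C lam L (Al S) v ω) ∂m :=
    mul_nonneg hl h3
  unfold rr
  rw [abs_le]
  constructor <;> linarith

end Cv

open Cv

/-- **CONV**. -/
theorem conv_of (hS : SELF) (hM : MEAS) (hB : BAS) : CONV := by
  intro S _ m _ C L b κ ε lam c hG hP hl hκ hε _ hc0 hc
  obtain ⟨-, -, hfinG, hX1, -, -⟩ := hB S m C L lam hG.meas hG.measL hG.fin hl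
  obtain ⟨hmeas, -⟩ := hM S m C L lam hG.meas hG.measL hG.fin hl
  obtain ⟨-, hYm, -, -, -⟩ := hmeas (Al S) (by
    have : {x : S | Al S x} = univ := by ext; simp [Al]
    rw [this]
    exact MeasurableSet.univ)
  have hself := hS S m C L b κ lam hG hl hκ
  have hYs : ∀ ω, Measurable fun v : S => Yk m C lam L (Al S) v ω := fun ω =>
    hYm.comp (measurable_id.prodMk measurable_const)
  set ν := gib m C lam L with hν
  set X := Xi m C lam L with hX
  set K : ℝ := 12 * (lam * b) ^ 3 * (1 + lam * b) * κ with hK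
  have hb0 := hG.b_pos
  have hκ0 := hG.kap_pos
  have hlb : 0 ≤ lam * b := mul_nonneg hl hb0.le
  have hK0 : 0 ≤ K := by positivity
  have hX0 : 0 < X := lt_of_lt_of_le one_pos hX1
  have hXν : X = (ν univ).toReal := rfl
  have : IsFiniteMeasure (m.restrict L) := ⟨by
    rw [Measure.restrict_apply_univ]
    exact hG.fin.lt_top⟩
  set mL : ℝ := (m L).toReal with hmL
  have hmL0 : 0 ≤ mL := ENNReal.toReal_nonneg
  set β : ℝ := √(2 * Bd m C L b c) with hβ
  have hβ0 : 0 ≤ β := Real.sqrt_nonneg _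
  -- the random variables
  set R : Om S → ℝ := fun ω => ∫ u in L, rr m C lam L u ω ^ 2 ∂m with hR
  set G : Om S → ℝ := fun ω => ∫ u in L,
    (Real.exp (-Yk m C lam L (Al S) u ω) - Real.exp (-c)) ^ 2 ∂m with hGd
  have hrm := rr_meas hG hYm
  have hr2 : Measurable fun q : Om S × S => rr m C lam L q.2 q.1 ^ 2 := hrm.pow_const 2
  have hRm : Measurable R := (hr2.stronglyMeasurable.integral_prod_right').measurable
  have hR0 : ∀ ω, 0 ≤ R ω := fun ω => setIntegral_nonneg hG.measL fun u _ => sq_nonneg _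
  have hrb : ∀ u ω, rr m C lam L u ω ^ 2 ≤ (lam * b) ^ 2 := fun u ω => by
    rw [← sq_abs]
    exact pow_le_pow_left₀ (abs_nonneg _) (rr_abs hG hl u ω (hYs ω)) 2
  have hRb : ∀ ω, R ω ≤ (lam * b) ^ 2 * mL := by
    intro ω
    have e1 := norm_setIntegral_le_of_norm_le_const (μ := m) (s := L)
      (f := fun u => rr m C lam L u ω ^ 2) (C := (lam * b) ^ 2) hG.fin.lt_top (fun u _ => by
        rw [Real.norm_eq_abs, abs_of_nonneg (sq_nonneg _)]
        exact hrb u ω)
    exact (le_abs_self _).trans e1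
  have iR : Integrable R ν := Integrable.of_bound hRm.aestronglyMeasurable ((lam * b) ^ 2 * mL)
    (Filter.Eventually.of_forall fun ω => by
      rw [Real.norm_eq_abs, abs_of_nonneg (hR0 ω)]
      exact hRb ω)
  -- the mean of `R`
  have hER : ∫ ω, R ω ∂ν ≤ K * X * mL := by
    have e1 : ∫ ω, R ω ∂ν = ∫ u in L, ∫ ω, rr m C lam L u ω ^ 2 ∂ν ∂m := by
      refine integral_integral_swap (f := fun ω u => rr m C lam L u ω ^ 2) ?_
      refine Integrable.of_bound hr2.aestronglyMeasurable ((lam * b) ^ 2)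
        (Filter.Eventually.of_forall fun q => ?_)
      rw [Real.norm_eq_abs]
      simp only [Function.uncurry]
      rw [abs_of_nonneg (sq_nonneg _)]
      exact hrb q.2 q.1
    have e2 : ∀ u, ∫ ω, rr m C lam L u ω ^ 2 ∂ν ≤ K * X := by
      intro u
      have e3 := hself u
      unfold ex at e3
      rw [div_le_iff₀ hX0] at e3
      exact e3
    have e4 := norm_setIntegral_le_of_norm_le_const (μ := m) (s := L)
      (f := fun u => ∫ ω, rr m C lam L u ω ^ 2 ∂ν) (C := K * X) hG.fin.lt_top (fun u _ => by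
        rw [Real.norm_eq_abs, abs_of_nonneg (integral_nonneg fun ω => sq_nonneg _)]
        exact e2 u)
    rw [e1]
    exact (le_abs_self _).trans e4
  -- `G`
  have hGm : Measurable G := by
    have h1 : Measurable fun q : Om S × S =>
        (Real.exp (-Yk m C lam L (Al S) q.2 q.1) - Real.exp (-c)) ^ 2 := by
      have h2 : Measurable fun q : Om S × S => Yk m C lam L (Al S) q.2 q.1 :=
        hYm.comp (measurable_snd.prodMk measurable_fst)
      exact ((Real.measurable_exp.comp h2.neg).sub_const _).pow_const 2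
    exact (h1.stronglyMeasurable.integral_prod_right').measurable
  have hG0 : ∀ ω, 0 ≤ G ω := fun ω => setIntegral_nonneg hG.measL fun u _ => sq_nonneg _
  have hpt : ∀ ω, G ω ≤ (2 * √(R ω) + β) ^ 2 := fun ω =>
    det hG hP hl hε hc0 hc (hYs ω) (fun u => Yk_nonneg hl u ω) (fun u => Yk_le hG hl u ω)
  -- pointwise linearisation
  have hlin : ∀ ρ : ℝ, 0 < ρ → ∀ ω, G ω ≤ 4 * R ω + 2 * β * (R ω / ρ + ρ) + β ^ 2 := by
    intro ρ hρ ω
    refine (hpt ω).trans ?_
    have e1 : √(R ω) * √(R ω) = R ω := Real.mul_self_sqrt (hR0 ω)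
    have e2 : 2 * √(R ω) ≤ R ω / ρ + ρ := by
      have e3 : 0 ≤ (√(R ω) - ρ) ^ 2 / ρ := by positivity
      have e4 : (√(R ω) - ρ) ^ 2 / ρ = (√(R ω) * √(R ω)) / ρ + ρ - 2 * √(R ω) := by
        field_simp
        ring
      rw [e4, e1] at e3
      linarith
    have e5 : β * (2 * √(R ω)) ≤ β * (R ω / ρ + ρ) := mul_le_mul_of_nonneg_left e2 hβ0
    nlinarith
  have iG : Integrable G ν := by
    refine Integrable.of_bound hGm.aestronglyMeasurable mL (Filter.Eventually.of_forall fun ω => ?_)
    have e1 := norm_setIntegral_le_of_norm_le_const (μ := m) (s := L)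
      (f := fun u => (Real.exp (-Yk m C lam L (Al S) u ω) - Real.exp (-c)) ^ 2) (C := 1)
      hG.fin.lt_top (fun u _ => by
        rw [Real.norm_eq_abs, abs_pow]
        refine pow_le_one₀ (abs_nonneg _) ?_
        have a1 : exp (-Yk m C lam L (Al S) u ω) ≤ 1 :=
          exp_le_one_iff.2 (by linarith [Yk_nonneg (m := m) (C := C) (L := L) hl u ω])
        have a2 : exp (-c) ≤ 1 := exp_le_one_iff.2 (by linarith)
        have a3 := exp_pos (-Yk m C lam L (Al S) u ω)
        have a4 := exp_pos (-c)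
        rw [abs_le]
        constructor <;> linarith)
    rw [one_mul] at e1
    exact e1
  -- expectation
  have hmain : ∀ ρ : ℝ, 0 < ρ → K * mL ≤ ρ ^ 2 → ex m C lam L G ≤ (2 * ρ + β) ^ 2 := by
    intro ρ hρ hKρ
    unfold ex
    rw [div_le_iff₀ hX0]
    have e1 : ∫ ω, G ω ∂ν ≤ ∫ ω, (4 * R ω + 2 * β * (R ω / ρ + ρ) + β ^ 2) ∂ν := by
      refine integral_mono iG ?_ (hlin ρ hρ)
      exact ((iR.const_mul 4).add (((iR.div_const ρ).add (integrable_const ρ)).const_mul (2 * β))).add
        (integrable_const _)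
    have e2 : ∫ ω, (4 * R ω + 2 * β * (R ω / ρ + ρ) + β ^ 2) ∂ν =
        (4 + 2 * β / ρ) * (∫ ω, R ω ∂ν) + (2 * β * ρ + β ^ 2) * X := by
      have e3 : (fun ω => 4 * R ω + 2 * β * (R ω / ρ + ρ) + β ^ 2) =
          fun ω => (4 + 2 * β / ρ) * R ω + (2 * β * ρ + β ^ 2) := by
        funext ω
        ring
      rw [e3, integral_add (iR.const_mul _) (integrable_const _), integral_const_mul,
        integral_const, smul_eq_mul, hXν]
      unfold Measure.real
      ring
    have e4 : (4 + 2 * β / ρ) * (∫ ω, R ω ∂ν) ≤ (4 + 2 * β / ρ) * (ρ ^ 2 * X) := by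
      refine mul_le_mul_of_nonneg_left ?_ (by positivity)
      calc ∫ ω, R ω ∂ν ≤ K * X * mL := hER
        _ = K * mL * X := by ring
        _ ≤ ρ ^ 2 * X := mul_le_mul_of_nonneg_right hKρ hX0.le
    have e5 : (4 + 2 * β / ρ) * (ρ ^ 2 * X) + (2 * β * ρ + β ^ 2) * X = (2 * ρ + β) ^ 2 * X := by
      field_simp
      ring
    linarith
  -- the limit
  set ρ₀ : ℝ := √K * √mL with hρ₀
  have hρ₀0 : 0 ≤ ρ₀ := by positivity
  have hρsq : ρ₀ ^ 2 = K * mL := by
    rw [hρ₀, mul_pow, Real.sq_sqrt hK0, Real.sq_sqrt hmL0]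
  have hlim : ∀ δ : ℝ, 0 < δ → ex m C lam L G ≤ (2 * (ρ₀ + δ) + β) ^ 2 := fun δ hδ =>
    hmain (ρ₀ + δ) (by linarith) (by rw [← hρsq]; exact pow_le_pow_left₀ hρ₀0 (by linarith) 2)
  have htend : Filter.Tendsto (fun δ : ℝ => (2 * (ρ₀ + δ) + β) ^ 2) (nhdsWithin 0 (Ioi 0))
      (nhds ((2 * (ρ₀ + 0) + β) ^ 2)) := by
    refine Filter.Tendsto.mono_left ?_ nhdsWithin_le_nhds
    exact (by fun_prop : Continuous fun δ : ℝ => (2 * (ρ₀ + δ) + β) ^ 2).tendsto 0
  have hfinal := ge_of_tendsto htend (by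
    filter_upwards [self_mem_nhdsWithin] with δ hδ
    exact hlim δ hδ)
  rw [add_zero] at hfinal
  have e : 2 * √K * √mL = 2 * ρ₀ := by rw [hρ₀]; ring
  rw [e]
  exact hfinal

end

end Pool.Agent.HdGas
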