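import Pool.Agent.Lib.MF.RowConv

/-!
# Project MF, row GAS (helper1)
-/

set_option autoImplicit false

namespace Pool.Agent.HdGas

open MeasureTheory Real Set Cv

noncomputable section

/-- **GAS**. -/
theorem gas_of (hC : CONV) (hI : INT) (hD : DCOND) (hM : MEAS) (hB : BAS) : GAS := by
  intro S _ m _ C L b κ ε lam c hG hP hl hκ hε hε0 hc0 hc
  obtain ⟨-, -, hfinG, hX1, -, -⟩ := hB S m C L lam hG.meas hG.measL hG.fin hl
  obtain ⟨hmeas, -⟩ := hM S m C L lam hG.meas hG.measL hG.fin hl
  obtain ⟨hχm, hYm, hDm, -, -⟩ := hmeas (Al S) (by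
    have : {x : S | Al S x} = univ := by ext; simp [Al]
    rw [this]
    exact MeasurableSet.univ)
  obtain ⟨-, hN⟩ := hI S m C L b κ lam hG hl
  have hconv := hC S m C L b κ ε lam c hG hP hl hκ hε hε0 hc0 hc
  have hd := fun v => hD S m C L b κ lam hG hl hκ v (fun _ => 1) measurable_const
    (fun _ _ _ => rfl) (fun _ => by simp) (fun _ _ _ => rfl)
  set ν := gib m C lam L with hν
  set X := Xi m C lam L with hX
  set K : ℝ := 12 * (lam * b) ^ 3 * (1 + lam * b) * κ with hK
  have hb0 := hG.b_pos
  have hκ0 := hG.kap_pos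
  have hlb : 0 ≤ lam * b := mul_nonneg hl hb0.le
  have hX0 : 0 < X := lt_of_lt_of_le one_pos hX1
  have hXν : X = (ν univ).toReal := rfl
  have hXne : X ≠ 0 := hX0.ne'
  have hexd : ∀ f : Om S → ℝ, ex m C lam L f = (∫ ω, f ω ∂ν) / X := fun _ => rfl
  have : IsFiniteMeasure (m.restrict L) := ⟨by
    rw [Measure.restrict_apply_univ]
    exact hG.fin.lt_top⟩
  set mL : ℝ := (m L).toReal with hmL
  have hmL0 : 0 ≤ mL := ENNReal.toReal_nonneg
  set T : ℝ := 2 * √K * √mL + √(2 * Bd m C L b c) with hT
  have hT0 : 0 ≤ T := by positivity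
  have hY0 : ∀ v ω, 0 ≤ Yk m C lam L (Al S) v ω := fun v ω => Yk_nonneg hl v ω
  have he1 : ∀ v ω, exp (-Yk m C lam L (Al S) v ω) ≤ 1 := fun v ω =>
    exp_le_one_iff.2 (by linarith [hY0 v ω])
  have hc1 : exp (-c) ≤ 1 := exp_le_one_iff.2 (by linarith)
  have hEm : Measurable fun q : Om S × S => exp (-Yk m C lam L (Al S) q.2 q.1) :=
    Real.measurable_exp.comp (hYm.comp (measurable_snd.prodMk measurable_fst)).neg
  have hEm1 : ∀ v, Measurable fun ω => exp (-Yk m C lam L (Al S) v ω) := fun v =>
    hEm.comp (measurable_id.prodMk measurable_const)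
  have hEm2 : ∀ ω, Measurable fun v => exp (-Yk m C lam L (Al S) v ω) := fun ω =>
    hEm.comp (measurable_const.prodMk measurable_id)
  have hDm1 : ∀ v, Measurable fun ω => Dk m C lam L (Al S) v ω := fun v =>
    hDm.comp (measurable_const.prodMk measurable_id)
  have hχ1 : ∀ v ω, |chi C (Al S) v ω| ≤ 1 := fun v ω => by
    unfold chi
    split <;> simp
  have hD2 : ∀ v ω, |Dk m C lam L (Al S) v ω| ≤ 2 := fun v ω => by
    unfold Dk
    have e1 := abs_le.1 (hχ1 v ω)
    have e2 := he1 v ω
    have e3 := exp_pos (-Yk m C lam L (Al S) v ω)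
    rw [abs_le]
    constructor <;> linarith
  have iE : ∀ v, Integrable (fun ω => exp (-Yk m C lam L (Al S) v ω)) ν := fun v =>
    Integrable.of_bound (hEm1 v).aestronglyMeasurable 1 (Filter.Eventually.of_forall fun ω => by
      rw [Real.norm_eq_abs, abs_of_pos (exp_pos _)]
      exact he1 v ω)
  have iD : ∀ v, Integrable (fun ω => Dk m C lam L (Al S) v ω) ν := fun v =>
    Integrable.of_bound (hDm1 v).aestronglyMeasurable 2 (Filter.Eventually.of_forall fun ω => by
      rw [Real.norm_eq_abs]
      exact hD2 v ω)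
  -- the mean of `χ`
  have ha : ∀ v, ex m C lam L (chi C (Al S) v) =
      ex m C lam L (fun ω => exp (-Yk m C lam L (Al S) v ω)) +
        ex m C lam L (fun ω => Dk m C lam L (Al S) v ω) := by
    intro v
    unfold ex
    rw [← add_div, ← integral_add (iE v) (iD v)]
    congr 2
    funext ω
    unfold Dk
    ring
  -- measurability of the expectations in `v`
  have hem : Measurable fun v => ex m C lam L (fun ω => exp (-Yk m C lam L (Al S) v ω)) := by
    unfold ex
    refine Measurable.div_const ?_ _
    exact ((hEm.comp measurable_swap).stronglyMeasurable.integral_prod_right').measurable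
  have hdm : Measurable fun v => ex m C lam L (fun ω => Dk m C lam L (Al S) v ω) := by
    unfold ex
    refine Measurable.div_const ?_ _
    exact (hDm.stronglyMeasurable.integral_prod_right').measurable
  have heb : ∀ v, |ex m C lam L (fun ω => exp (-Yk m C lam L (Al S) v ω))| ≤ 1 := by
    intro v
    unfold ex
    rw [abs_of_nonneg (div_nonneg (integral_nonneg fun ω => (exp_pos _).le) hX0.le),
      div_le_one hX0]
    have e1 : ∫ ω, exp (-Yk m C lam L (Al S) v ω) ∂ν ≤ ∫ ω, (1 : ℝ) ∂ν :=
      integral_mono (iE v) (integrable_const _) (he1 v)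
    rw [integral_const, smul_eq_mul, mul_one] at e1
    exact e1
  have hdb : ∀ v, |ex m C lam L (fun ω => Dk m C lam L (Al S) v ω)| ≤ lam * b * κ := by
    intro v
    have := hd v
    simpa only [mul_one] using this
  have ie : IntegrableOn (fun v => ex m C lam L (fun ω => exp (-Yk m C lam L (Al S) v ω))) L m :=
    bdd (M := 1) hG.measL hG.fin hem fun v _ => heb v
  have id' : IntegrableOn (fun v => ex m C lam L (fun ω => Dk m C lam L (Al S) v ω)) L m :=
    bdd (M := lam * b * κ) hG.measL hG.fin hdm fun v _ => hdb v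
  have hN2 : ex m C lam L (fun ω => (ω.1 : ℝ)) =
      lam * ((∫ v in L, ex m C lam L (fun ω => exp (-Yk m C lam L (Al S) v ω)) ∂m) +
        ∫ v in L, ex m C lam L (fun ω => Dk m C lam L (Al S) v ω) ∂m) := by
    rw [hN, ← integral_add ie id']
    congr 2
    funext v
    exact ha v
  -- the variable `H`
  set H : Om S → ℝ := fun ω => ∫ v in L, (exp (-Yk m C lam L (Al S) v ω) - exp (-c)) ∂m with hH
  set G : Om S → ℝ := fun ω => ∫ v in L, (exp (-Yk m C lam L (Al S) v ω) - exp (-c)) ^ 2 ∂m with hGd
  have hgm : Measurable fun q : Om S × S => exp (-Yk m C lam L (Al S) q.2 q.1) - exp (-c) :=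
    hEm.sub_const _
  have hgb : ∀ v ω, |exp (-Yk m C lam L (Al S) v ω) - exp (-c)| ≤ 1 := fun v ω => by
    have a1 := he1 v ω
    have a3 := exp_pos (-Yk m C lam L (Al S) v ω)
    have a4 := exp_pos (-c)
    rw [abs_le]
    constructor <;> linarith
  have hHm : Measurable H := (hgm.stronglyMeasurable.integral_prod_right').measurable
  have hGm : Measurable G := ((hgm.pow_const 2).stronglyMeasurable.integral_prod_right').measurable
  have hHb : ∀ ω, |H ω| ≤ mL := fun ω => by
    have e1 := norm_setIntegral_le_of_norm_le_const (μ := m) (s := L)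
      (f := fun v => exp (-Yk m C lam L (Al S) v ω) - exp (-c)) (C := 1)
      hG.fin.lt_top (fun v _ => by rw [Real.norm_eq_abs]; exact hgb v ω)
    rw [one_mul, Real.norm_eq_abs] at e1
    exact e1
  have hGb : ∀ ω, |G ω| ≤ mL := fun ω => by
    have e1 := norm_setIntegral_le_of_norm_le_const (μ := m) (s := L)
      (f := fun v => (exp (-Yk m C lam L (Al S) v ω) - exp (-c)) ^ 2) (C := 1)
      hG.fin.lt_top (fun v _ => by
        rw [Real.norm_eq_abs, abs_pow]
        exact pow_le_one₀ (abs_nonneg _) (hgb v ω))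
    rw [one_mul, Real.norm_eq_abs] at e1
    exact e1
  have iH : Integrable H ν := Integrable.of_bound hHm.aestronglyMeasurable mL
    (Filter.Eventually.of_forall fun ω => by rw [Real.norm_eq_abs]; exact hHb ω)
  have iG : Integrable G ν := Integrable.of_bound hGm.aestronglyMeasurable mL
    (Filter.Eventually.of_forall fun ω => by rw [Real.norm_eq_abs]; exact hGb ω)
  -- `Z`
  set Z : ℝ := ex m C lam L H with hZ
  have hZ1 : (∫ v in L, ex m C lam L (fun ω => exp (-Yk m C lam L (Al S) v ω)) ∂m) -
      exp (-c) * mL = Z := by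
    have e1 : ∫ ω, (∫ v in L, exp (-Yk m C lam L (Al S) v ω) ∂m) ∂ν =
        ∫ v in L, ∫ ω, exp (-Yk m C lam L (Al S) v ω) ∂ν ∂m := by
      refine integral_integral_swap (f := fun ω v => exp (-Yk m C lam L (Al S) v ω)) ?_
      refine Integrable.of_bound hEm.aestronglyMeasurable 1
        (Filter.Eventually.of_forall fun q => ?_)
      rw [Real.norm_eq_abs]
      simp only [Function.uncurry]
      rw [abs_of_pos (exp_pos _)]
      exact he1 q.2 q.1
    have e2 : ∀ ω, H ω = (∫ v in L, exp (-Yk m C lam L (Al S) v ω) ∂m) - exp (-c) * mL := by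
      intro ω
      simp only [hH]
      rw [integral_sub]
      · rw [setIntegral_const, smul_eq_mul, mul_comm]
        rfl
      · exact bdd (M := 1) hG.measL hG.fin (hEm2 ω) fun v _ => by
          rw [abs_of_pos (exp_pos _)]
          exact he1 v ω
      · exact integrableOn_const hG.fin
    have iF : Integrable (fun ω => ∫ v in L, exp (-Yk m C lam L (Al S) v ω) ∂m) ν := by
      have : (fun ω => ∫ v in L, exp (-Yk m C lam L (Al S) v ω) ∂m) =
          fun ω => H ω + exp (-c) * mL := by
        funext ω
        rw [e2]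
        ring
      rw [this]
      exact iH.add (integrable_const _)
    have e3 : ∫ ω, H ω ∂ν =
        (∫ v in L, ∫ ω, exp (-Yk m C lam L (Al S) v ω) ∂ν ∂m) - exp (-c) * mL * X := by
      have : H = fun ω => (∫ v in L, exp (-Yk m C lam L (Al S) v ω) ∂m) - exp (-c) * mL :=
        funext e2
      rw [this, integral_sub iF (integrable_const _), e1, integral_const, smul_eq_mul, hXν]
      unfold Measure.real
      ring
    have e5 : ∀ v, ex m C lam L (fun ω => exp (-Yk m C lam L (Al S) v ω)) =
        (∫ ω, exp (-Yk m C lam L (Al S) v ω) ∂ν) / X := fun _ => rfl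
    rw [hZ, hexd H, e3]
    simp_rw [e5]
    rw [integral_div]
    field_simp
  -- Cauchy-Schwarz
  have hZG : Z ^ 2 ≤ mL * ex m C lam L G := by
    have key : ∀ s : ℝ, 0 ≤ mL * (s * s) + (-2 * Z) * s + ex m C lam L G := by
      intro s
      have e1 : ∀ ω, 0 ≤ G ω - 2 * s * H ω + s ^ 2 * mL := by
        intro ω
        have i1 : IntegrableOn (fun v => exp (-Yk m C lam L (Al S) v ω) - exp (-c)) L m :=
          bdd (M := 1) hG.measL hG.fin ((hEm2 ω).sub_const _) fun v _ => hgb v ω
        have i2 : IntegrableOn (fun v => (exp (-Yk m C lam L (Al S) v ω) - exp (-c)) ^ 2) L m :=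
          bdd (M := 1) hG.measL hG.fin (((hEm2 ω).sub_const _).pow_const 2) fun v _ => by
            rw [abs_pow]
            exact pow_le_one₀ (abs_nonneg _) (hgb v ω)
        have e2 : ∫ v in L, ((exp (-Yk m C lam L (Al S) v ω) - exp (-c)) - s) ^ 2 ∂m =
            G ω - 2 * s * H ω + s ^ 2 * mL := by
          have e3 : (fun v => ((exp (-Yk m C lam L (Al S) v ω) - exp (-c)) - s) ^ 2) =
              fun v => ((exp (-Yk m C lam L (Al S) v ω) - exp (-c)) ^ 2 -
                2 * s * (exp (-Yk m C lam L (Al S) v ω) - exp (-c))) + s ^ 2 := by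
            funext v
            ring
          have i3 : Integrable (fun v => (exp (-Yk m C lam L (Al S) v ω) - exp (-c)) ^ 2 -
                2 * s * (exp (-Yk m C lam L (Al S) v ω) - exp (-c))) (m.restrict L) :=
            Integrable.sub i2 (i1.const_mul (2 * s))
          rw [e3, integral_add (g := fun _ => s ^ 2) i3 (integrable_const _),
            integral_sub (f := fun v => (exp (-Yk m C lam L (Al S) v ω) - exp (-c)) ^ 2) i2
              (i1.const_mul (2 * s)), integral_const_mul, setIntegral_const, smul_eq_mul]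
          simp only [hH, hGd, hmL]
          unfold Measure.real
          ring
        rw [← e2]
        exact setIntegral_nonneg hG.measL fun v _ => sq_nonneg _
      have e4 : 0 ≤ ∫ ω, (G ω - 2 * s * H ω + s ^ 2 * mL) ∂ν := integral_nonneg e1
      have e5 : ∫ ω, (G ω - 2 * s * H ω + s ^ 2 * mL) ∂ν =
          (∫ ω, G ω ∂ν) - 2 * s * (∫ ω, H ω ∂ν) + s ^ 2 * mL * X := by
        rw [integral_add (f := fun ω => G ω - 2 * s * H ω) (iG.sub (iH.const_mul _))
            (integrable_const _),
          integral_sub (f := G) iG (iH.const_mul _), integral_const_mul, integral_const,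
          smul_eq_mul, hXν]
        unfold Measure.real
        ring
      have e6 : (∫ ω, G ω ∂ν) = ex m C lam L G * X := by
        rw [hexd G]
        field_simp
      have e7 : (∫ ω, H ω ∂ν) = Z * X := by
        rw [hZ, hexd H]
        field_simp
      rw [e5, e6, e7] at e4
      have e8 : 0 ≤ (mL * (s * s) + (-2 * Z) * s + ex m C lam L G) * X := by
        refine e4.trans (le_of_eq ?_)
        ring
      exact nonneg_of_mul_nonneg_left e8 hX0
    have := discrim_le_zero key
    unfold discrim at this
    nlinarith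
  have hZT : |Z| ≤ √mL * T := by
    have e1 : Z ^ 2 ≤ (√mL * T) ^ 2 := by
      rw [mul_pow, Real.sq_sqrt hmL0]
      exact hZG.trans (mul_le_mul_of_nonneg_left hconv hmL0)
    exact abs_le_of_sq_le_sq e1 (by positivity)
  -- the end
  have hint : |∫ v in L, ex m C lam L (fun ω => Dk m C lam L (Al S) v ω) ∂m| ≤
      lam * b * κ * mL := by
    have e1 := norm_setIntegral_le_of_norm_le_const (μ := m) (s := L)
      (f := fun v => ex m C lam L (fun ω => Dk m C lam L (Al S) v ω)) (C := lam * b * κ)
      hG.fin.lt_top (fun v _ => by rw [Real.norm_eq_abs]; exact hdb v)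
    rw [Real.norm_eq_abs] at e1
    exact e1
  have e1 : c = lam * b * exp (-c) := by
    rw [← hc, mul_assoc, ← exp_add]
    simp
  have e2 : b * ex m C lam L (fun ω => (ω.1 : ℝ)) - c * mL = lam * b *
      (Z + ∫ v in L, ex m C lam L (fun ω => Dk m C lam L (Al S) v ω) ∂m) := by
    rw [hN2, ← hZ1]
    have e3 : c * mL = lam * b * exp (-c) * mL := by rw [← e1]
    rw [e3]
    ring
  rw [e2, abs_mul, abs_of_nonneg hlb]
  refine mul_le_mul_of_nonneg_left ?_ hlb
  exact (abs_add_le _ _).trans (add_le_add hZT hint)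

end

end Pool.Agent.HdGas
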