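import Pool.Agent.Lib.MF.RowConv
import Pool.Agent.Lib.MF.Top2

/-!
# Project MF, row PROF (helper1)
-/

set_option autoImplicit false

namespace Pool.Agent.HdGas

open MeasureTheory Real Set Cv

noncomputable section

/-- **PROF**. -/
theorem prof_of (hC : CONV) (hD : DCOND) (hM : MEAS) (hB : BAS) : PROF := by
  intro S _ m _ C L b κ ε lam c hG hP hl hκ hε hε0 hc0 hc
  obtain ⟨-, -, hfinG, hX1, -, -⟩ := hB S m C L lam hG.meas hG.measL hG.fin hl
  obtain ⟨hmeas, -⟩ := hM S m C L lam hG.meas hG.measL hG.fin hl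
  obtain ⟨hχm, hYm, hDm, -, -⟩ := hmeas (Al S) (by
    have : {x : S | Al S x} = univ := by ext; simp [Al]
    rw [this]
    exact MeasurableSet.univ)
  have hconv := hC S m C L b κ ε lam c hG hP hl hκ hε hε0 hc0 hc
  have hd := fun v => hD S m C L b κ lam hG hl hκ v (fun _ => 1) measurable_const
    (fun _ _ _ => rfl) (fun _ => by simp) (fun _ _ _ => rfl)
  set ν := gib m C lam L with hν
  set X := Xi m C lam L with hX
  set K : ℝ := 12 * (lam * b) ^ 3 * (1 + lam * b) * κ with hK
  have hb0 := hG.b_pos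
  have hκ0 := hG.kap_pos
  have hκ1 := hG.kap_le
  have hlb : 0 ≤ lam * b := mul_nonneg hl hb0.le
  have hX0 : 0 < X := lt_of_lt_of_le one_pos hX1
  have hXν : X = (ν univ).toReal := rfl
  have hXne : X ≠ 0 := hX0.ne'
  have hexd : ∀ f : Om S → ℝ, ex m C lam L f = (∫ ω, f ω ∂ν) / X := fun _ => rfl
  have : IsFiniteMeasure (m.restrict L) := ⟨by
    rw [Measure.restrict_apply_univ]
    exact hG.fin.lt_top⟩
  set mL : ℝ := (m L).toReal with hmL
  have hmL0 : 0 ≤ mL := ENNReal.toReal_nonneg
  have hY0 : ∀ v ω, 0 ≤ Yk m C lam L (Al S) v ω := fun v ω => Yk_nonneg hl v ω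
  have he1 : ∀ v ω, exp (-Yk m C lam L (Al S) v ω) ≤ 1 := fun v ω =>
    exp_le_one_iff.2 (by linarith [hY0 v ω])
  have hc1 : exp (-c) ≤ 1 := exp_le_one_iff.2 (by linarith)
  have hEm : Measurable fun q : Om S × S => exp (-Yk m C lam L (Al S) q.2 q.1) :=
    Real.measurable_exp.comp (hYm.comp (measurable_snd.prodMk measurable_fst)).neg
  have hEm1 : ∀ v, Measurable fun ω => exp (-Yk m C lam L (Al S) v ω) := fun v =>
    hEm.comp (measurable_id.prodMk measurable_const)
  have hDm1 : ∀ v, Measurable fun ω => Dk m C lam L (Al S) v ω := fun v =>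
    hDm.comp (measurable_const.prodMk measurable_id)
  have hχ1 : ∀ v ω, |chi C (Al S) v ω| ≤ 1 := fun v ω => by
    unfold chi
    split <;> simp
  have hD2 : ∀ v ω, |Dk m C lam L (Al S) v ω| ≤ 2 := fun v ω => by
    unfold Dk
    have e1 := abs_le.1 (hχ1 v ω)
    have e2 := he1 v ω
    have e3 := exp_pos (-Yk m C lam L (Al S) v ω)
    rw [abs_le]
    constructor <;> linarith
  have hgb : ∀ v ω, |exp (-Yk m C lam L (Al S) v ω) - exp (-c)| ≤ 1 := fun v ω => by
    have a1 := he1 v ω
    have a3 := exp_pos (-Yk m C lam L (Al S) v ω)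
    have a4 := exp_pos (-c)
    rw [abs_le]
    constructor <;> linarith
  have ig : ∀ v, Integrable (fun ω => exp (-Yk m C lam L (Al S) v ω) - exp (-c)) ν := fun v =>
    Integrable.of_bound ((hEm1 v).sub_const _).aestronglyMeasurable 1
      (Filter.Eventually.of_forall fun ω => by
        rw [Real.norm_eq_abs]
        exact hgb v ω)
  have ig2 : ∀ v, Integrable (fun ω => (exp (-Yk m C lam L (Al S) v ω) - exp (-c)) ^ 2) ν :=
    fun v => Integrable.of_bound (((hEm1 v).sub_const _).pow_const 2).aestronglyMeasurable 1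
      (Filter.Eventually.of_forall fun ω => by
        rw [Real.norm_eq_abs, abs_pow]
        exact pow_le_one₀ (abs_nonneg _) (hgb v ω))
  have iD : ∀ v, Integrable (fun ω => Dk m C lam L (Al S) v ω) ν := fun v =>
    Integrable.of_bound (hDm1 v).aestronglyMeasurable 2 (Filter.Eventually.of_forall fun ω => by
      rw [Real.norm_eq_abs]
      exact hD2 v ω)
  have hone : ∫ _ω : Om S, (1 : ℝ) ∂ν = X := by
    rw [integral_const, smul_eq_mul, mul_one, hXν]
    rfl
  -- the mean of `χ`
  set p : S → ℝ := fun v => ex m C lam L (fun ω => exp (-Yk m C lam L (Al S) v ω) - exp (-c))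
    with hp
  set q : S → ℝ := fun v => ex m C lam L (fun ω => Dk m C lam L (Al S) v ω) with hq
  set P : S → ℝ := fun v => ex m C lam L
    (fun ω => (exp (-Yk m C lam L (Al S) v ω) - exp (-c)) ^ 2) with hPd
  have ha : ∀ v, ex m C lam L (chi C (Al S) v) = p v + q v + exp (-c) := by
    intro v
    have e1 : ∫ ω, chi C (Al S) v ω ∂ν = (∫ ω, (exp (-Yk m C lam L (Al S) v ω) - exp (-c)) ∂ν) +
        (∫ ω, Dk m C lam L (Al S) v ω ∂ν) + exp (-c) * X := by
      have e2 : (fun ω => chi C (Al S) v ω) = fun ω => ((exp (-Yk m C lam L (Al S) v ω) - exp (-c)) +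
          Dk m C lam L (Al S) v ω) + exp (-c) * 1 := by
        funext ω
        unfold Dk
        ring
      have i3 : Integrable (fun ω => (exp (-Yk m C lam L (Al S) v ω) - exp (-c)) +
          Dk m C lam L (Al S) v ω) ν := (ig v).add (iD v)
      rw [e2, integral_add i3 ((integrable_const (1 : ℝ)).const_mul _),
        integral_add (ig v) (iD v), integral_const_mul, hone]
    simp only [hp, hq]
    rw [hexd, hexd, hexd]
    rw [show (∫ ω, chi C (Al S) v ω ∂ν) = _ from e1]
    field_simp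
  have hqb : ∀ v, |q v| ≤ lam * b * κ := by
    intro v
    have := hd v
    simpa only [mul_one] using this
  have hqm : Measurable q := by
    simp only [hq]
    unfold ex
    refine Measurable.div_const ?_ _
    exact (hDm.stronglyMeasurable.integral_prod_right').measurable
  have hpm : Measurable p := by
    simp only [hp]
    unfold ex
    refine Measurable.div_const ?_ _
    exact (((hEm.sub_const (exp (-c))).comp measurable_swap).stronglyMeasurable.integral_prod_right').measurable
  have hPm : Measurable P := by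
    simp only [hPd]
    unfold ex
    refine Measurable.div_const ?_ _
    exact ((((hEm.sub_const (exp (-c))).pow_const 2).comp
      measurable_swap).stronglyMeasurable.integral_prod_right').measurable
  have hpb : ∀ v, |p v| ≤ 1 := by
    intro v
    simp only [hp]
    rw [hexd, abs_div, abs_of_pos hX0, div_le_one hX0]
    refine (abs_integral_le_integral_abs).trans ?_
    rw [← hone]
    exact integral_mono (ig v).abs (integrable_const _) (hgb v)
  have hPb : ∀ v, |P v| ≤ 1 := by
    intro v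
    simp only [hPd]
    rw [hexd, abs_div, abs_of_pos hX0, div_le_one hX0]
    refine (abs_integral_le_integral_abs).trans ?_
    rw [← hone]
    refine integral_mono (ig2 v).abs (integrable_const _) fun ω => ?_
    simp only [abs_pow]
    exact pow_le_one₀ (abs_nonneg _) (hgb v ω)
  -- Jensen
  have hJ : ∀ v, p v ^ 2 ≤ P v := by
    intro v
    have e1 : 0 ≤ ∫ ω, ((exp (-Yk m C lam L (Al S) v ω) - exp (-c)) - p v) ^ 2 ∂ν :=
      integral_nonneg fun ω => sq_nonneg _
    have e2 : ∫ ω, ((exp (-Yk m C lam L (Al S) v ω) - exp (-c)) - p v) ^ 2 ∂ν =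
        P v * X - 2 * p v * (p v * X) + p v ^ 2 * X := by
      have e3 : (fun ω => ((exp (-Yk m C lam L (Al S) v ω) - exp (-c)) - p v) ^ 2) =
          fun ω => ((exp (-Yk m C lam L (Al S) v ω) - exp (-c)) ^ 2 -
            2 * p v * (exp (-Yk m C lam L (Al S) v ω) - exp (-c))) + p v ^ 2 * 1 := by
        funext ω
        ring
      have i3 : Integrable (fun ω => (exp (-Yk m C lam L (Al S) v ω) - exp (-c)) ^ 2 -
            2 * p v * (exp (-Yk m C lam L (Al S) v ω) - exp (-c))) ν :=
        (ig2 v).sub ((ig v).const_mul _)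
      rw [e3, integral_add i3 ((integrable_const (1 : ℝ)).const_mul _),
        integral_sub (ig2 v) ((ig v).const_mul _), integral_const_mul, integral_const_mul, hone]
      have e4 : (∫ ω, (exp (-Yk m C lam L (Al S) v ω) - exp (-c)) ^ 2 ∂ν) = P v * X := by
        simp only [hPd]
        rw [hexd]
        field_simp
      have e5 : (∫ ω, (exp (-Yk m C lam L (Al S) v ω) - exp (-c)) ∂ν) = p v * X := by
        simp only [hp]
        rw [hexd]
        field_simp
      rw [e4, e5]
    rw [e2] at e1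
    have e6 : 0 ≤ (P v - p v ^ 2) * X := by
      refine e1.trans (le_of_eq ?_)
      ring
    have := nonneg_of_mul_nonneg_left e6 hX0
    linarith
  -- the pointwise bound
  have hct : c = lam * b * exp (-c) := by
    rw [← hc, mul_assoc, ← exp_add]
    simp
  have hpt : ∀ v, (lam * b * ex m C lam L (chi C (Al S) v) - c) ^ 2 ≤
      2 * (lam * b) ^ 2 * P v + 2 * (lam * b) ^ 2 * (lam * b * κ) ^ 2 := by
    intro v
    have e1 : lam * b * ex m C lam L (chi C (Al S) v) - c = lam * b * (p v + q v) := by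
      have e2 : lam * b * ex m C lam L (chi C (Al S) v) - c =
          lam * b * ex m C lam L (chi C (Al S) v) - lam * b * exp (-c) := by rw [← hct]
      rw [e2, ha]
      ring
    rw [e1, mul_pow]
    have e3 : q v ^ 2 ≤ (lam * b * κ) ^ 2 := by
      rw [← sq_abs]
      exact pow_le_pow_left₀ (abs_nonneg _) (hqb v) 2
    have e4 := hJ v
    have e5 : (p v + q v) ^ 2 ≤ 2 * P v + 2 * (lam * b * κ) ^ 2 := by
      nlinarith [sq_nonneg (p v - q v)]
    calc (lam * b) ^ 2 * (p v + q v) ^ 2 ≤ (lam * b) ^ 2 * (2 * P v + 2 * (lam * b * κ) ^ 2) :=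
          mul_le_mul_of_nonneg_left e5 (sq_nonneg _)
      _ = _ := by ring
  have hLHSm : Measurable fun v => (lam * b * ex m C lam L (chi C (Al S) v) - c) ^ 2 := by
    have : (fun v => (lam * b * ex m C lam L (chi C (Al S) v) - c) ^ 2) =
        fun v => (lam * b * (p v + q v + exp (-c)) - c) ^ 2 := by
      funext v
      rw [ha]
    rw [this]
    fun_prop
  have iP : IntegrableOn P L m := bdd (M := 1) hG.measL hG.fin hPm fun v _ => hPb v
  have hmono : ∫ v in L, (lam * b * ex m C lam L (chi C (Al S) v) - c) ^ 2 ∂m ≤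
      ∫ v in L, (2 * (lam * b) ^ 2 * P v + 2 * (lam * b) ^ 2 * (lam * b * κ) ^ 2) ∂m := by
    have iR : IntegrableOn (fun v => 2 * (lam * b) ^ 2 * P v +
        2 * (lam * b) ^ 2 * (lam * b * κ) ^ 2) L m :=
      Integrable.add (iP.const_mul _) (integrable_const _)
    refine setIntegral_mono_on ?_ iR hG.measL fun v _ => hpt v
    refine bdd (M := 2 * (lam * b) ^ 2 * 1 + 2 * (lam * b) ^ 2 * (lam * b * κ) ^ 2) hG.measL hG.fin
      hLHSm fun v _ => ?_
    rw [abs_of_nonneg (sq_nonneg _)]
    refine (hpt v).trans ?_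
    have := (abs_le.1 (hPb v)).2
    gcongr
  have hval : ∫ v in L, (2 * (lam * b) ^ 2 * P v + 2 * (lam * b) ^ 2 * (lam * b * κ) ^ 2) ∂m =
      2 * (lam * b) ^ 2 * (∫ v in L, P v ∂m) + 2 * (lam * b) ^ 2 * (lam * b * κ) ^ 2 * mL := by
    rw [integral_add (iP.const_mul _) (integrable_const _), integral_const_mul, setIntegral_const,
      smul_eq_mul]
    simp only [hmL]
    unfold Measure.real
    ring
  -- Fubini
  have hF : ∫ v in L, P v ∂m ≤ (2 * √K * √mL + √(2 * Bd m C L b c)) ^ 2 := by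
    refine le_trans (le_of_eq ?_) hconv
    have e1 : ∫ ω, (∫ v in L, (exp (-Yk m C lam L (Al S) v ω) - exp (-c)) ^ 2 ∂m) ∂ν =
        ∫ v in L, ∫ ω, (exp (-Yk m C lam L (Al S) v ω) - exp (-c)) ^ 2 ∂ν ∂m := by
      refine integral_integral_swap
        (f := fun ω v => (exp (-Yk m C lam L (Al S) v ω) - exp (-c)) ^ 2) ?_
      refine Integrable.of_bound ((hEm.sub_const (exp (-c))).pow_const 2).aestronglyMeasurable 1
        (Filter.Eventually.of_forall fun q => ?_)
      rw [Real.norm_eq_abs]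
      simp only [Function.uncurry, abs_pow]
      exact pow_le_one₀ (abs_nonneg _) (hgb q.2 q.1)
    rw [hexd, e1, ← integral_div]
    rfl
  have hBd0 : 0 ≤ Bd m C L b c := by
    unfold Bd
    refine setIntegral_nonneg hG.measL fun u _ => mul_nonneg hc0 ?_
    rw [sub_nonneg, div_le_one hb0]
    exact LC_le hG u
  have hK0 : 0 ≤ K := by positivity
  have hT : (2 * √K * √mL + √(2 * Bd m C L b c)) ^ 2 ≤ 8 * K * mL + 4 * Bd m C L b c := by
    have e1 : √K ^ 2 = K := Real.sq_sqrt hK0
    have e2 : √mL ^ 2 = mL := Real.sq_sqrt hmL0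
    have e3 : √(2 * Bd m C L b c) ^ 2 = 2 * Bd m C L b c := Real.sq_sqrt (by linarith)
    calc (2 * √K * √mL + √(2 * Bd m C L b c)) ^ 2
        ≤ 2 * (2 * √K * √mL) ^ 2 + 2 * √(2 * Bd m C L b c) ^ 2 := by
          nlinarith [sq_nonneg (2 * √K * √mL - √(2 * Bd m C L b c))]
      _ = 8 * (√K ^ 2) * (√mL ^ 2) + 2 * √(2 * Bd m C L b c) ^ 2 := by ring
      _ = _ := by rw [e1, e2, e3]; ring
  refine hmono.trans ?_
  rw [hval]
  have hPle := hF.trans hT
  have e1 : 2 * (lam * b) ^ 2 * (∫ v in L, P v ∂m) ≤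
      2 * (lam * b) ^ 2 * (8 * K * mL + 4 * Bd m C L b c) :=
    mul_le_mul_of_nonneg_left hPle (by positivity)
  refine (add_le_add_left e1 _).trans ?_
  set t : ℝ := lam * b with ht
  have e2 : 2 * t ^ 2 * (8 * K * mL + 4 * Bd m C L b c) + 2 * t ^ 2 * (t * κ) ^ 2 * mL =
      (t ^ 4 * κ * mL) * (192 * t * (1 + t) + 2 * κ) + 8 * t ^ 2 * Bd m C L b c := by
    rw [hK]
    ring
  rw [e2]
  have e3 : 192 * t * (1 + t) + 2 * κ ≤ 200 * (1 + t) ^ 2 := by nlinarith
  have e4 : (t ^ 4 * κ * mL) * (192 * t * (1 + t) + 2 * κ) ≤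
      (t ^ 4 * κ * mL) * (200 * (1 + t) ^ 2) := mul_le_mul_of_nonneg_left e3 (by positivity)
  have e5 : (t ^ 4 * κ * mL) * (200 * (1 + t) ^ 2) = 200 * t ^ 4 * (1 + t) ^ 2 * κ * mL := by ring
  linarith

end

end Pool.Agent.HdGas
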