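import Pool.Agent.Lib.MF.Top
import Pool.Agent.Lib.MF.RowBdry

/-!
# The partition function as a series
-/

set_option autoImplicit false

namespace Pool.Agent.HdGas

open MeasureTheory Filter Topology Pool.Agent.SquareWellGas Pool.Agent.KacGas

theorem meas_Cb' (d : ℕ) :
    MeasurableSet {p : (Fin d → ℝ) × (Fin d → ℝ) | Cb d p.1 p.2} := by
  unfold Cb
  exact measurableSet_lt (by fun_prop) measurable_const

/-- Row XIZ. -/
theorem xiz_of (hB : BAS) : XIZ := by
  intro d _ lam hlam ℓ hℓ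
  obtain ⟨hm, _, _, _, _, hs⟩ := hB (Fin d → ℝ) volume (Cb d) (Box d ℓ) lam (meas_Cb' d)
    (Bdr.Box_meas ℓ) (Bdr.vol_Box_fin ℓ) hlam
  have h1 : ∀ n : ℕ, MeasurableSet {x : Fin n → Fin d → ℝ | hc (Cb d) ⟨n, x⟩} := by
    intro n
    have h := (MeasurableSpace.measurableSet_iInf.1 hm) n
    exact h
  convert hs using 2 with n
  have h2 : {x : Fin n → Fin d → ℝ | (∀ i, x i ∈ Box d ℓ) ∧
      ∀ i j, i ≠ j → (2 * (1 / 2 : ℝ)) ^ 2 ≤ ∑ k, (x i k - x j k) ^ 2} =
      {x : Fin n → Fin d → ℝ | hc (Cb d) ⟨n, x⟩} ∩ Set.univ.pi fun _ : Fin n => Box d ℓ := by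
    ext x
    simp only [Set.mem_ofPred_eq, Set.mem_inter_iff, Set.mem_univ_pi, hc, Cb, not_lt]
    norm_num
    exact and_comm
  have h3 : (Measure.pi fun _ : Fin n => (volume : Measure (Fin d → ℝ)).restrict (Box d ℓ)) =
      (volume : Measure (Fin n → Fin d → ℝ)).restrict (Set.univ.pi fun _ : Fin n => Box d ℓ) := by
    exact (Measure.restrict_pi_pi (fun _ : Fin n => (volume : Measure (Fin d → ℝ)))
      (fun _ => Box d ℓ)).symm
  unfold Z
  rw [h2, h3, Measure.restrict_apply (h1 n)]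
  simp only [Finset.sum_const_zero, Real.exp_zero, integral_const, smul_eq_mul, mul_one]
  rw [measureReal_restrict_apply_univ, Measure.real]
  ring

end Pool.Agent.HdGas
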