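import Pool.Agent.Lib.MF.Top2
import Pool.Agent.Lib.MF.Bas
import Pool.Agent.Lib.MF.Xiz

/-!
# Scaling of the partition function
-/

set_option autoImplicit false

namespace Pool.Agent.HdGas

open MeasureTheory Filter Topology Pointwise

/-- Row SCL. -/
theorem scl : SCL := by
  intro d _ a lam ha hlam L hL hfin
  have h2a : (0 : ℝ) < 2 * a := by positivity
  have h2a' : (2 * a)⁻¹ ≠ 0 := (inv_pos.2 h2a).ne'
  have hL' : MeasurableSet ((2 * a)⁻¹ • L) := hL.const_smul₀ _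
  have hfin' : volume ((2 * a)⁻¹ • L) ≠ ⊤ := by
    rw [Measure.addHaar_smul]
    exact ENNReal.mul_ne_top ENNReal.ofReal_ne_top hfin
  obtain ⟨hm, _, _, _, _, hs⟩ := bas (Fin d → ℝ) volume (Cb d) ((2 * a)⁻¹ • L)
    (lam * (2 * a) ^ d) (meas_Cb' d) hL' hfin' (by positivity)
  rw [← hs.tsum_eq]
  unfold XiR
  refine tsum_congr fun n => ?_
  have h1 : MeasurableSet {x : Fin n → Fin d → ℝ | hc (Cb d) ⟨n, x⟩} :=
    (MeasurableSpace.measurableSet_iInf.1 hm) n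
  have h3 : (Measure.pi fun _ : Fin n =>
      (volume : Measure (Fin d → ℝ)).restrict ((2 * a)⁻¹ • L)) =
      (volume : Measure (Fin n → Fin d → ℝ)).restrict
        (Set.univ.pi fun _ : Fin n => (2 * a)⁻¹ • L) := by
    exact (Measure.restrict_pi_pi (fun _ : Fin n => (volume : Measure (Fin d → ℝ)))
      (fun _ => (2 * a)⁻¹ • L)).symm
  rw [h3, Measure.restrict_apply h1]
  have h4 : {x : Fin n → Fin d → ℝ | (∀ i, x i ∈ L) ∧
      ∀ i j, i ≠ j → (2 * a) ^ 2 ≤ ∑ k, (x i k - x j k) ^ 2} =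
      (2 * a) • ({x : Fin n → Fin d → ℝ | hc (Cb d) ⟨n, x⟩} ∩
        Set.univ.pi fun _ : Fin n => (2 * a)⁻¹ • L) := by
    ext x
    rw [Set.mem_smul_set_iff_inv_smul_mem₀ h2a.ne']
    have e1 : ∀ i, (((2 * a)⁻¹ • x) i ∈ (2 * a)⁻¹ • L) ↔ x i ∈ L := fun i =>
      Set.smul_mem_smul_set_iff₀ h2a' L (x i)
    have e2 : ∀ i j, (2 * a) ^ 2 ≤ ∑ k, (x i k - x j k) ^ 2 ↔
        ¬ Cb d (((2 * a)⁻¹ • x) i) (((2 * a)⁻¹ • x) j) := by
      intro i j
      unfold Cb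
      rw [not_lt]
      have e3 : ∑ k, (((2 * a)⁻¹ • x) i k - ((2 * a)⁻¹ • x) j k) ^ 2 =
          ((2 * a) ^ 2)⁻¹ * ∑ k, (x i k - x j k) ^ 2 := by
        rw [Finset.mul_sum]
        refine Finset.sum_congr rfl fun k _ => ?_
        simp only [Pi.smul_apply, smul_eq_mul]
        field_simp
      rw [e3, inv_mul_eq_div, le_div_iff₀ (by positivity), one_mul]
    simp only [Set.mem_ofPred_eq, Set.mem_inter_iff, Set.mem_univ_pi, hc]
    constructor
    · rintro ⟨g1, g2⟩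
      exact ⟨fun i j hij => (e2 i j).1 (g2 i j hij), fun i => (e1 i).2 (g1 i)⟩
    · rintro ⟨g1, g2⟩
      exact ⟨fun i => (e1 i).1 (g2 i), fun i j hij => (e2 i j).2 (g1 i j hij)⟩
  rw [h4, Measure.addHaar_smul, ENNReal.toReal_mul, ENNReal.toReal_ofReal (abs_nonneg _)]
  have h5 : Module.finrank ℝ (Fin n → Fin d → ℝ) = d * n := by
    rw [Module.finrank_pi_fintype]
    simp [mul_comm]
  rw [h5, abs_of_pos (by positivity), mul_pow, pow_mul]
  ring

end Pool.Agent.HdGas
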