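import Pool.Agent.Lib.MF.Rows
import Pool.Agent.Lib.MP_09cbbd_vw.Def

/-!
# Hard spheres: the concrete rows and the theorem
-/

set_option autoImplicit false

namespace Pool.Agent.HdGas

open MeasureTheory Filter Topology Pool.Agent.SquareWellGas Pool.Agent.KacGas Pool.Agent.VdwGas

noncomputable section

/-- Centres of spheres of diameter one exclude each other. -/
def Cb (d : ℕ) (x y : Fin d → ℝ) : Prop := ∑ k, (x k - y k) ^ 2 < 1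

/-- Volume of the ball of radius one. -/
def bv (d : ℕ) : ℝ := (volume {x : Fin d → ℝ | ∑ k, x k ^ 2 < 1}).toReal

/-- `(√3/2)^d`. -/
def kap (d : ℕ) : ℝ := (√3 / 2) ^ d

/-- The negative part of the Fourier transform of the ball. -/
def epd (d : ℕ) : ℝ := √2 * Real.exp (-(d : ℝ) / 8)

/-- Geometry. -/
def GEOB : Prop := ∀ d : ℕ, 1 ≤ d → ∀ ℓ : ℝ, Geo volume (Cb d) (Box d ℓ) (bv d) (kap d)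

/-- Fourier transform of the ball over its volume, as a function of the length `s`. -/
def Phi (d : ℕ) (s : ℝ) : ℝ :=
  (∫ u in (-1 : ℝ)..1, Real.cos (s * u) * √(1 - u ^ 2) ^ (d - 1)) /
    ∫ u in (-1 : ℝ)..1, √(1 - u ^ 2) ^ (d - 1)

/-- Fourier transform of the ball. -/
def BALLF : Prop := ∀ d : ℕ, 1 ≤ d → ∀ ξ : Fin d → ℝ,
  ∫ x in {x : Fin d → ℝ | ∑ k, x k ^ 2 < 1}, Real.cos (∑ k, x k * ξ k) =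
    bv d * Phi d (√(∑ k, ξ k ^ 2))

/-- The Fourier transform of the ball is almost positive. -/
def PHI : Prop := ∀ d : ℕ, 1 ≤ d → ∀ s : ℝ, 0 ≤ s → -epd d ≤ Phi d s

/-- Positivity from the Fourier transform. -/
def PARS : Prop := ∀ (d : ℕ) (ε : ℝ), 1 ≤ d → 0 ≤ ε → (∀ ξ : Fin d → ℝ,
  -(ε * bv d) ≤ ∫ x in {x : Fin d → ℝ | ∑ k, x k ^ 2 < 1}, Real.cos (∑ k, x k * ξ k)) →
    ∀ ℓ : ℝ, Posi volume (Cb d) (Box d ℓ) (bv d) ε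

/-- Boundary term. -/
def BDRY : Prop := ∀ d : ℕ, 1 ≤ d → ∀ c : ℝ, 0 ≤ c → ∀ ℓ : ℝ, 2 ≤ ℓ →
  0 ≤ Bd volume (Cb d) (Box d ℓ) (bv d) c ∧
    Bd volume (Cb d) (Box d ℓ) (bv d) c ≤ c * (ℓ ^ d - (ℓ - 2) ^ d)

/-- The partition function as a series. -/
def XIZ : Prop := ∀ d : ℕ, 1 ≤ d → ∀ lam : ℝ, 0 ≤ lam → ∀ ℓ : ℝ, 0 ≤ ℓ →
  HasSum (fun n : ℕ => lam ^ n * Z d (1 / 2) (fun _ => 0) ℓ n)
    (Xi volume (Cb d) lam (Box d ℓ))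

/-- `P` is the pressure. -/
def IsPr (d : ℕ) (P : ℝ → ℝ) : Prop := ∀ μ : ℝ, Tendsto
  (fun ℓ : ℝ => Real.log (Xi volume (Cb d) (Real.exp μ) (Box d ℓ)) / ℓ ^ d) atTop (𝓝 (P μ))

/-- The pressure is the Legendre transform of the free energy. -/
def THERMO : Prop := ∀ d : ℕ, 1 ≤ d → ∀ (f : ℝ → ℝ) (r : ℝ), IsF d (1 / 2) (fun _ => 0) f r →
  ∃ P : ℝ → ℝ, IsPr d P ∧ (∀ μ, 0 ≤ P μ ∧ P μ ≤ Real.exp μ) ∧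
    ∀ μ : ℝ, (∀ x ∈ Set.Ioo 0 r, f x + μ * x ≤ P μ) ∧
      ∀ δ : ℝ, 0 < δ → ∃ x ∈ Set.Ioo 0 r, P μ - δ ≤ f x + μ * x

/-- Error term. -/
def er (d : ℕ) (t : ℝ) : ℝ := √(kap d) * (7 * t ^ 3 + 5 * t ^ 2)

/-- Slopes of the pressure. -/
def SLOPE : Prop := ∀ d : ℕ, 1 ≤ d → ∀ P : ℝ → ℝ, IsPr d P → ∀ μ c : ℝ, 0 ≤ c →
  c * Real.exp c = Real.exp μ * bv d → (Real.exp μ * bv d) ^ 2 * kap d ≤ 1 / 2 →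
  Real.exp μ * bv d * epd d ≤ 1 / 2 →
    ∀ h : ℝ, h * c - |h| * er d (Real.exp μ * bv d) ≤ bv d * (P (μ + h) - P μ)

/-- Integration of the slopes. -/
def INTEG : Prop := ∀ (b A T : ℝ) (P : ℝ → ℝ), 0 < b → 0 ≤ A →
  (∀ μ, 0 ≤ P μ ∧ P μ ≤ Real.exp μ) →
  (∀ μ c : ℝ, 0 ≤ c → c * Real.exp c = Real.exp μ * b → Real.exp μ * b ≤ T → ∀ h : ℝ,
    h * c - |h| * (A * (7 * (Real.exp μ * b) ^ 3 + 5 * (Real.exp μ * b) ^ 2)) ≤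
      b * (P (μ + h) - P μ)) →
  ∀ μ c : ℝ, 0 ≤ c → c * Real.exp c = Real.exp μ * b → Real.exp μ * b ≤ T →
    |b * P μ - (c + c ^ 2 / 2)| ≤
      A * (3 * (Real.exp μ * b) ^ 3 + 3 * (Real.exp μ * b) ^ 2)

/-- Densities at a chemical potential (diameter one). -/
def DENS : Prop := ∀ d : ℕ, 1 ≤ d → ∀ (f : ℝ → ℝ) (r : ℝ), IsF d (1 / 2) (fun _ => 0) f r →
  ∀ μ c ρ : ℝ, 0 ≤ c → c * Real.exp c = Real.exp μ * bv d →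
    (1 + Real.exp μ * bv d) ^ 3 * √(kap d) ≤ 1 / 8 → ρ ∈ Set.Ioo 0 r →
    (∀ x ∈ Set.Ioo 0 r, f x + μ * x ≤ f ρ + μ * ρ) →
      |ρ * bv d - c| ≤ er d (Real.exp μ * bv d)

/-- Free energy at low density (diameter one). -/
def FREE : Prop := ∃ d0 : ℕ, ∀ d : ℕ, d0 ≤ d → ∀ (f : ℝ → ℝ) (r : ℝ),
  IsF d (1 / 2) (fun _ => 0) f r → ConcaveOn ℝ (Set.Ioo 0 r) f →
    (d : ℝ) / 50 < r * bv d ∧
    (∀ ρ : ℝ, 0 < ρ → ρ * bv d ≤ d / 50 →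
      |f ρ - (ρ - ρ * Real.log ρ - bv d / 2 * ρ ^ 2)| ≤ Real.exp (-(d : ℝ) / 100) / bv d) ∧
    ∀ m q ρ₁ ρ₂ : ℝ, 0 < ρ₁ → ρ₁ < ρ₂ → ρ₂ < r → ρ₁ * bv d ≤ d / 50 →
      (∀ x ∈ Set.Ioo 0 r, f x ≤ m * x + q) → f ρ₁ = m * ρ₁ + q → f ρ₂ = m * ρ₂ + q →
        (ρ₂ - ρ₁) * bv d ≤ Real.exp (-(d : ℝ) / 100)

/-- Volume of the ball of radius `2 a`. -/
def ball (d : ℕ) (a : ℝ) : ℝ := (volume {x : Fin d → ℝ | ∑ k, x k ^ 2 < (2 * a) ^ 2}).toReal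

/-- The theorem. -/
def THEOREM : Prop := ∃ d0 : ℕ, ∀ d : ℕ, 1 ≤ d → ∀ a : ℝ, 0 < a → ∃ (f : ℝ → ℝ) (ρ₀ : ℝ),
  IsF d a (fun _ => 0) f ρ₀ ∧
  (∀ μ c ρ : ℝ, 0 ≤ c → c * Real.exp c = Real.exp μ * ball d a →
    (1 + Real.exp μ * ball d a) ^ 3 * (3 / 4 : ℝ) ^ ((d : ℝ) / 4) ≤ 1 / 8 → ρ ∈ Set.Ioo 0 ρ₀ →
    (∀ x ∈ Set.Ioo 0 ρ₀, f x + μ * x ≤ f ρ + μ * ρ) →
      |ρ * ball d a - c| ≤ (3 / 4 : ℝ) ^ ((d : ℝ) / 4) *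
        (7 * (Real.exp μ * ball d a) ^ 3 + 5 * (Real.exp μ * ball d a) ^ 2)) ∧
  (d0 ≤ d → (d : ℝ) / 50 < ρ₀ * ball d a ∧
    (∀ ρ : ℝ, 0 < ρ → ρ * ball d a ≤ d / 50 →
      |f ρ - (ρ - ρ * Real.log ρ - ball d a / 2 * ρ ^ 2)| ≤
        Real.exp (-(d : ℝ) / 100) / ball d a) ∧
    ∀ m q ρ₁ ρ₂ : ℝ, 0 < ρ₁ → ρ₁ < ρ₂ → ρ₂ < ρ₀ → ρ₁ * ball d a ≤ d / 50 →
      (∀ x ∈ Set.Ioo 0 ρ₀, f x ≤ m * x + q) → f ρ₁ = m * ρ₁ + q → f ρ₂ = m * ρ₂ + q →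
        (ρ₂ - ρ₁) * ball d a ≤ Real.exp (-(d : ℝ) / 100))

end

end Pool.Agent.HdGas
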