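import Pool.Agent.Lib.MF.FouQ
import Pool.Agent.Lib.MF.Top

/-!
# Project MF, row PARS (helper62): positivity from the Fourier transform of the ball
-/

set_option autoImplicit false

namespace Pool.Agent.HdGas

open MeasureTheory Filter Topology FourierTransform Pool.Agent.SquareWellGas

open scoped RealInnerProductSpace

noncomputable section

namespace Pars

/-- the unit ball -/
def B1 (d : ℕ) : Set (EuclideanSpace ℝ (Fin d)) := Metric.ball 0 1

/-- its indicator -/
def kB (d : ℕ) : EuclideanSpace ℝ (Fin d) → ℝ := (B1 d).indicator fun _ => 1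

theorem mem_B1 {d : ℕ} (x : EuclideanSpace ℝ (Fin d)) : x ∈ B1 d ↔ ∑ k, x k ^ 2 < 1 := by
  rw [B1, mem_ball_zero_iff, EuclideanSpace.norm_eq]
  simp only [Real.norm_eq_abs, sq_abs]
  rw [Real.sqrt_lt' one_pos, one_pow]

theorem kB_le {d : ℕ} (x : EuclideanSpace ℝ (Fin d)) : |kB d x| ≤ 1 := by
  unfold kB
  by_cases h : x ∈ B1 d
  · rw [Set.indicator_of_mem h, abs_one]
  · rw [Set.indicator_of_notMem h, abs_zero]
    exact zero_le_one

theorem kB_int (d : ℕ) : Integrable (kB d) := by
  unfold kB B1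
  rw [integrable_indicator_iff measurableSet_ball]
  exact integrableOn_const (measure_ball_lt_top).ne

/-- translations of the ball -/
theorem kB_trans {d : ℕ} (hd : 1 ≤ d) :
    Tendsto (fun z : EuclideanSpace ℝ (Fin d) => ∫ x, |kB d (z + x) - kB d x|) (𝓝 0) (𝓝 0) := by
  have hne : Nonempty (Fin d) := ⟨⟨0, hd⟩⟩
  have h := tendsto_integral_filter_of_dominated_convergence (l := 𝓝 (0 : EuclideanSpace ℝ (Fin d)))
    (F := fun z x => |kB d (z + x) - kB d x|) (f := fun _ => (0 : ℝ))
    (bound := (Metric.ball (0 : EuclideanSpace ℝ (Fin d)) 2).indicator fun _ => 2) ?_ ?_ ?_ ?_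
    (μ := (volume : Measure (EuclideanSpace ℝ (Fin d))))
  · simpa using h
  · refine Eventually.of_forall fun z => ?_
    have h1 := ((kB_int d).comp_add_left z).sub (kB_int d)
    exact h1.abs.aestronglyMeasurable
  · filter_upwards [Metric.ball_mem_nhds (0 : EuclideanSpace ℝ (Fin d)) one_pos] with z hz
    refine Eventually.of_forall fun x => ?_
    rw [mem_ball_zero_iff] at hz
    by_cases hx : x ∈ Metric.ball (0 : EuclideanSpace ℝ (Fin d)) 2
    · rw [Set.indicator_of_mem hx, Real.norm_eq_abs, abs_abs]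
      calc |kB d (z + x) - kB d x| ≤ |kB d (z + x)| + |kB d x| := abs_sub _ _
        _ ≤ 1 + 1 := add_le_add (kB_le _) (kB_le _)
        _ = 2 := by norm_num
    · rw [Set.indicator_of_notMem hx]
      rw [mem_ball_zero_iff, not_lt] at hx
      have h1 : x ∉ B1 d := by
        rw [B1, mem_ball_zero_iff, not_lt]
        linarith
      have h2 : z + x ∉ B1 d := by
        rw [B1, mem_ball_zero_iff, not_lt]
        have := norm_sub_norm_le x (-z)
        rw [norm_neg, sub_neg_eq_add, add_comm x z] at this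
        linarith
      simp [kB, Set.indicator_of_notMem h1, Set.indicator_of_notMem h2]
  · rw [integrable_indicator_iff measurableSet_ball]
    exact integrableOn_const (measure_ball_lt_top).ne
  · have hs : volume (Metric.sphere (0 : EuclideanSpace ℝ (Fin d)) 1) = 0 :=
      Measure.addHaar_sphere _ _ _
    have hs2 : ∀ᵐ x : EuclideanSpace ℝ (Fin d), x ∉ Metric.sphere (0 : EuclideanSpace ℝ (Fin d)) 1 :=
      measure_eq_zero_iff_ae_notMem.1 hs
    filter_upwards [hs2] with x hx
    rw [mem_sphere_zero_iff_norm] at hx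
    have hc : Tendsto (fun z : EuclideanSpace ℝ (Fin d) => ‖z + x‖) (𝓝 0) (𝓝 ‖x‖) := by
      have hcc : Continuous fun z : EuclideanSpace ℝ (Fin d) => ‖z + x‖ := by fun_prop
      simpa using hcc.tendsto 0
    refine tendsto_const_nhds.congr' ?_
    rcases lt_or_gt_of_ne hx with h1 | h1
    · filter_upwards [hc.eventually (gt_mem_nhds h1)] with z hz
      have m1 : x ∈ B1 d := by rw [B1, mem_ball_zero_iff]; exact h1
      have m2 : z + x ∈ B1 d := by rw [B1, mem_ball_zero_iff]; exact hz
      simp [kB, Set.indicator_of_mem m1, Set.indicator_of_mem m2]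
    · filter_upwards [hc.eventually (lt_mem_nhds h1)] with z hz
      have m1 : x ∉ B1 d := by rw [B1, mem_ball_zero_iff, not_lt]; exact h1.le
      have m2 : z + x ∉ B1 d := by rw [B1, mem_ball_zero_iff, not_lt]; exact hz.le
      simp [kB, Set.indicator_of_notMem m1, Set.indicator_of_notMem m2]

/-- the Fourier transform of the ball, as an integral of cosines over the set of `Fin d → ℝ` -/
theorem four_re {d : ℕ} (ξ : EuclideanSpace ℝ (Fin d)) :
    (𝓕 (fun x : EuclideanSpace ℝ (Fin d) => ((kB d x : ℝ) : ℂ)) ξ).re =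
      ∫ x in {x : Fin d → ℝ | ∑ k, x k ^ 2 < 1}, Real.cos (∑ k, x k * (2 * Real.pi * ξ k)) := by
  have hm : MeasurableSet {x : Fin d → ℝ | ∑ k, x k ^ 2 < 1} :=
    measurableSet_lt (by fun_prop) measurable_const
  rw [← integral_indicator hm, ← (PiLp.volume_preserving_ofLp (Fin d)).integral_comp
    (MeasurableEquiv.toLp 2 (Fin d → ℝ)).symm.measurableEmbedding, Real.fourier_eq']
  have hi : Integrable fun v : EuclideanSpace ℝ (Fin d) =>
      Complex.exp (↑(-2 * Real.pi * ⟪v, ξ⟫) * Complex.I) • ((kB d v : ℝ) : ℂ) := by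
    refine ((kB_int d).ofReal (𝕜 := ℂ)).bdd_mul (c := 1) ?_ (Eventually.of_forall fun v => ?_)
    · refine Continuous.aestronglyMeasurable ?_
      fun_prop
    · rw [Complex.norm_exp_ofReal_mul_I]
  have e1 : (∫ v : EuclideanSpace ℝ (Fin d),
      Complex.exp (↑(-2 * Real.pi * ⟪v, ξ⟫) * Complex.I) • ((kB d v : ℝ) : ℂ)).re =
      ∫ v : EuclideanSpace ℝ (Fin d),
        (Complex.exp (↑(-2 * Real.pi * ⟪v, ξ⟫) * Complex.I) • ((kB d v : ℝ) : ℂ)).re :=
    (integral_re hi).symm
  rw [e1]
  refine integral_congr_ae (Eventually.of_forall fun v => ?_)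
  simp only []
  rw [smul_eq_mul, Complex.re_mul_ofReal, Complex.exp_ofReal_mul_I_re]
  by_cases hv : v ∈ B1 d
  · have hv2 : (WithLp.ofLp v) ∈ {x : Fin d → ℝ | ∑ k, x k ^ 2 < 1} := (mem_B1 v).1 hv
    rw [Set.indicator_of_mem hv2, kB, Set.indicator_of_mem hv, mul_one]
    have e2 : -2 * Real.pi * ⟪v, ξ⟫ = -∑ k, v k * (2 * Real.pi * ξ k) := by
      rw [PiLp.inner_apply, Finset.mul_sum, ← Finset.sum_neg_distrib]
      refine Finset.sum_congr rfl fun k _ => ?_
      simp only [RCLike.inner_apply, conj_trivial]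
      ring
    rw [e2, Real.cos_neg]
  · have hv2 : (WithLp.ofLp v) ∉ {x : Fin d → ℝ | ∑ k, x k ^ 2 < 1} := fun h => hv ((mem_B1 v).2 h)
    rw [Set.indicator_of_notMem hv2, kB, Set.indicator_of_notMem hv, mul_zero]

end Pars

open Pars

theorem box_fin (d : ℕ) (ℓ : ℝ) : volume (Box d ℓ) ≠ ⊤ := by
  have : Box d ℓ = Set.pi Set.univ fun _ => Set.Ico (0 : ℝ) ℓ := by
    ext x
    simp [Box]
  rw [this, Real.volume_pi_Ico]
  simp

/-- Row PARS. -/
theorem pars_of : PARS := by
  intro d ε hd hε hF ℓ g hg hb h0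
  have hbv : 0 ≤ bv d := ENNReal.toReal_nonneg
  have hmp := PiLp.volume_preserving_ofLp (Fin d)
  have hme := (MeasurableEquiv.toLp 2 (Fin d → ℝ)).symm.measurableEmbedding
  have hBm : MeasurableSet (Box d ℓ) := by
    have : Box d ℓ = Set.pi Set.univ fun _ => Set.Ico (0 : ℝ) ℓ := by
      ext x
      simp [Box]
    rw [this]
    exact MeasurableSet.univ_pi fun _ => measurableSet_Ico
  have hgi : Integrable g := by
    refine Integrable.mono' (g := (Box d ℓ).indicator fun _ => (1 : ℝ)) ?_
      hg.aestronglyMeasurable (Eventually.of_forall fun x => ?_)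
    · rw [integrable_indicator_iff hBm]
      exact integrableOn_const (box_fin d ℓ)
    · by_cases hx : x ∈ Box d ℓ
      · rw [Set.indicator_of_mem hx, Real.norm_eq_abs]
        exact hb x
      · rw [Set.indicator_of_notMem hx, h0 x hx, norm_zero]
  have hgi2 : Integrable fun x : EuclideanSpace ℝ (Fin d) => g (WithLp.ofLp x) :=
    (hmp.integrable_comp_emb hme).2 hgi
  have key := Pool.Agent.MF.quad_ge (kB_int d) (kB_trans hd) (m := ε * bv d) (by positivity)
    (fun ξ => by rw [four_re]; exact hF _) hgi2 (C := 1) (fun x => hb _)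
  have e1 : ∫ x : EuclideanSpace ℝ (Fin d), g (WithLp.ofLp x) ^ 2 = ∫ x, g x ^ 2 :=
    hmp.integral_comp hme (fun x => g x ^ 2)
  have e2 : ∀ u : EuclideanSpace ℝ (Fin d),
      ∫ v : EuclideanSpace ℝ (Fin d), kB d (u - v) * g (WithLp.ofLp v) =
        ∫ y in {y | Cb d (WithLp.ofLp u) y}, g y := by
    intro u
    have hm : MeasurableSet {y | Cb d (WithLp.ofLp u) y} := by
      unfold Cb
      exact measurableSet_lt (by fun_prop) measurable_const
    rw [← integral_indicator hm, ← hmp.integral_comp hme]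
    refine integral_congr_ae (Eventually.of_forall fun v => ?_)
    simp only []
    by_cases hv : u - v ∈ B1 d
    · have hv2 : (WithLp.ofLp v) ∈ {y | Cb d (WithLp.ofLp u) y} := by
        have := (mem_B1 _).1 hv
        simpa [Cb] using this
      rw [Set.indicator_of_mem hv2, kB, Set.indicator_of_mem hv, one_mul]
    · have hv2 : (WithLp.ofLp v) ∉ {y | Cb d (WithLp.ofLp u) y} := by
        intro h
        apply hv
        rw [mem_B1]
        simpa [Cb] using h
      rw [Set.indicator_of_notMem hv2, kB, Set.indicator_of_notMem hv, zero_mul]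
  have e3 : ∫ u : EuclideanSpace ℝ (Fin d), g (WithLp.ofLp u) *
      ∫ v : EuclideanSpace ℝ (Fin d), kB d (u - v) * g (WithLp.ofLp v) =
        ∫ x, g x * ∫ y in {y | Cb d x y}, g y := by
    simp only [e2]
    exact hmp.integral_comp hme (fun x => g x * ∫ y in {y | Cb d x y}, g y)
  rw [e1, e3] at key
  exact key

end

end Pool.Agent.HdGas
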