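import Pool.Agent.Lib.MF.Geob
import Pool.Agent.Lib.MF.RowBdry
import Pool.Agent.Lib.MF.RowPhi
import Pool.Agent.Lib.MF.BallF
import Pool.Agent.Lib.MF.Pars

/-! # Project MF, row SLOPE: the slopes of the pressure.  helper26. -/

set_option autoImplicit false

namespace Pool.Agent.HdGas

open MeasureTheory Filter Topology Pool.Agent.SquareWellGas Pool.Agent.KacGas Pool.Agent.VdwGas

namespace SlopeR

variable {d : ℕ}

theorem epd_nonneg (d : ℕ) : 0 ≤ epd d := by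
  unfold epd
  positivity

theorem kap_nonneg (d : ℕ) : 0 ≤ kap d := by
  unfold kap
  positivity

theorem posi (hd : 1 ≤ d) (ℓ : ℝ) : Posi volume (Cb d) (Box d ℓ) (bv d) (epd d) := by
  refine pars_of d (epd d) hd (epd_nonneg d) (fun ξ => ?_) ℓ
  rw [ballF d hd ξ]
  have h := phi d hd (√(∑ k, ξ k ^ 2)) (Real.sqrt_nonneg _)
  have hb := GeobR.bv_pos d
  nlinarith

/-- the error in one box. -/
noncomputable def G (d : ℕ) (t c δ : ℝ) : ℝ :=
  t * (2 * √(12 * t ^ 3 * (1 + t) * kap d) + √(2 * (c * δ)) + t * kap d)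

theorem box_err {t c V B δ κ A : ℝ} (hV : 0 ≤ V) (hB : B ≤ c * δ * V) :
    √V * (2 * A * √V + √(2 * B)) + t * κ * V ≤ V * (2 * A + √(2 * (c * δ)) + t * κ) := by
  have hs : √V * √V = V := Real.mul_self_sqrt hV
  have h1 : √(2 * B) ≤ √(2 * (c * δ)) * √V := by
    rw [← Real.sqrt_mul' _ hV]
    refine Real.sqrt_le_sqrt ?_
    linarith
  have h2 : √V * √(2 * B) ≤ √V * (√(2 * (c * δ)) * √V) :=
    mul_le_mul_of_nonneg_left h1 (Real.sqrt_nonneg _)
  have e : √V * (√(2 * (c * δ)) * √V) = V * √(2 * (c * δ)) := by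
    calc √V * (√(2 * (c * δ)) * √V) = (√V * √V) * √(2 * (c * δ)) := by ring
      _ = _ := by rw [hs]
  have e2 : √V * (2 * A * √V) = V * (2 * A) := by
    calc √V * (2 * A * √V) = (√V * √V) * (2 * A) := by ring
      _ = _ := by rw [hs]
  calc √V * (2 * A * √V + √(2 * B)) + t * κ * V
      = √V * (2 * A * √V) + √V * √(2 * B) + t * κ * V := by ring
    _ ≤ V * (2 * A) + V * √(2 * (c * δ)) + t * κ * V := by
        rw [e2]
        linarith
    _ = _ := by ring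

/-- the inequality in one box. -/
theorem box (hG : GAS) (hJ : JEN) (hd : 1 ≤ d) {μ c : ℝ} (hc : 0 ≤ c)
    (hμ : c * Real.exp c = Real.exp μ * bv d)
    (h1 : (Real.exp μ * bv d) ^ 2 * kap d ≤ 1 / 2) (h2 : Real.exp μ * bv d * epd d ≤ 1 / 2)
    (h : ℝ) {ℓ : ℝ} (hℓ : 2 ≤ ℓ) :
    h * c - |h| * G d (Real.exp μ * bv d) c (1 - (1 - 2 / ℓ) ^ d) ≤
      bv d * (Real.log (Xi volume (Cb d) (Real.exp (μ + h)) (Box d ℓ)) / ℓ ^ d -
        Real.log (Xi volume (Cb d) (Real.exp μ) (Box d ℓ)) / ℓ ^ d) := by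
  have hb : 0 < bv d := GeobR.bv_pos d
  have hgeo := geob_of d hd ℓ
  have hV : (volume (Box d ℓ)).toReal = ℓ ^ d := Bdr.vol_Box (by linarith)
  have hVpos : 0 < ℓ ^ d := pow_pos (by linarith) d
  have hgas := hG _ volume (Cb d) (Box d ℓ) (bv d) (kap d) (epd d) (Real.exp μ) c hgeo
    (posi hd ℓ) (Real.exp_pos μ).le h1 h2 (epd_nonneg d) hc hμ
  have hjen := hJ _ volume (Cb d) (Box d ℓ) hgeo.meas hgeo.measL hgeo.fin μ h
  obtain ⟨hB0, hB⟩ := bdry d hd c hc ℓ hℓ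
  rw [hV] at hgas
  set t := Real.exp μ * bv d with ht
  have ht0 : 0 < t := mul_pos (Real.exp_pos _) hb
  set N := ex volume (Cb d) (Real.exp μ) (Box d ℓ) (fun ω => (ω.1 : ℝ)) with hN
  set V := ℓ ^ d with hVd
  set B := Bd volume (Cb d) (Box d ℓ) (bv d) c with hBd
  have hδ : B ≤ c * (1 - (1 - 2 / ℓ) ^ d) * V := by
    refine hB.trans (le_of_eq ?_)
    have : (1 - 2 / ℓ) ^ d * ℓ ^ d = (ℓ - 2) ^ d := by
      rw [← mul_pow]
      congr 1
      have : ℓ ≠ 0 := by linarith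
      field_simp
    rw [← this, hVd]
    ring
  have hE : √V * (2 * √(12 * t ^ 3 * (1 + t) * kap d) * √V + √(2 * B)) + t * kap d * V ≤
      V * (2 * √(12 * t ^ 3 * (1 + t) * kap d) + √(2 * (c * (1 - (1 - 2 / ℓ) ^ d))) +
        t * kap d) := box_err hVpos.le hδ
  have hgas' : |bv d * N - c * V| ≤ V * G d t c (1 - (1 - 2 / ℓ) ^ d) := by
    refine hgas.trans ((mul_le_mul_of_nonneg_left hE ht0.le).trans (le_of_eq ?_))
    unfold G
    ring
  have hh : h * c * V - |h| * (V * G d t c (1 - (1 - 2 / ℓ) ^ d)) ≤ h * (bv d * N) := by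
    have k1 : |h * (bv d * N - c * V)| ≤ |h| * (V * G d t c (1 - (1 - 2 / ℓ) ^ d)) := by
      rw [abs_mul]
      exact mul_le_mul_of_nonneg_left hgas' (abs_nonneg _)
    have k2 := (abs_le.1 k1).1
    linarith
  rw [← sub_div, mul_div_assoc', le_div_iff₀ hVpos]
  have k3 : bv d * (h * N) ≤ bv d * (Real.log (Xi volume (Cb d) (Real.exp (μ + h)) (Box d ℓ)) -
      Real.log (Xi volume (Cb d) (Real.exp μ) (Box d ℓ))) := mul_le_mul_of_nonneg_left hjen hb.le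
  linarith

theorem G_lim (hd : 1 ≤ d) (t c : ℝ) :
    Tendsto (fun ℓ : ℝ => G d t c (1 - (1 - 2 / ℓ) ^ d)) atTop (𝓝 (G d t c 0)) := by
  have h1 : Tendsto (fun ℓ : ℝ => 1 - (1 - 2 / ℓ) ^ d) atTop (𝓝 0) := by
    have h2 : Tendsto (fun ℓ : ℝ => 2 / ℓ) atTop (𝓝 0) :=
      tendsto_const_nhds.div_atTop tendsto_id
    have h3 : Tendsto (fun ℓ : ℝ => 1 - (1 - 2 / ℓ) ^ d) atTop (𝓝 (1 - (1 - 0) ^ d)) :=
      tendsto_const_nhds.sub ((tendsto_const_nhds.sub h2).pow d)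
    simpa using h3
  have hc : Continuous (G d t c) := by
    unfold G
    fun_prop
  exact (hc.tendsto 0).comp h1

theorem G_le {t c : ℝ} (ht : 0 ≤ t) : G d t c 0 ≤ er d t := by
  have hk0 := kap_nonneg d
  have hk1 : kap d ≤ 1 := MF.Geo.kap_le_one d
  have hq : 0 ≤ √(kap d) := Real.sqrt_nonneg _
  have hkq : kap d ≤ √(kap d) := by
    refine Real.le_sqrt_of_sq_le ?_
    nlinarith
  have h1 : √(12 * t ^ 3 * (1 + t) * kap d) ≤ (7 / 2 * t ^ 2 + 2 * t) * √(kap d) := by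
    rw [Real.sqrt_mul' _ hk0]
    refine mul_le_mul_of_nonneg_right ?_ hq
    refine Real.sqrt_le_iff.2 ⟨by positivity, ?_⟩
    nlinarith [mul_nonneg ht ht, mul_nonneg (mul_nonneg ht ht) ht,
      mul_nonneg (mul_nonneg ht ht) (mul_nonneg ht ht)]
  unfold G er
  rw [mul_zero, mul_zero, Real.sqrt_zero, add_zero]
  have h2 : t * (2 * √(12 * t ^ 3 * (1 + t) * kap d) + t * kap d) ≤
      t * (2 * ((7 / 2 * t ^ 2 + 2 * t) * √(kap d)) + t * √(kap d)) := by
    refine mul_le_mul_of_nonneg_left ?_ ht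
    have := mul_le_mul_of_nonneg_left hkq ht
    linarith
  refine h2.trans (le_of_eq ?_)
  ring

end SlopeR

open SlopeR in
/-- Row SLOPE. -/
theorem slope_of (hG : GAS) (hJ : JEN) : SLOPE := by
  intro d hd P hP μ c hc hμ h1 h2 h
  have hb : 0 < bv d := GeobR.bv_pos d
  set t := Real.exp μ * bv d with ht
  have ht0 : 0 < t := mul_pos (Real.exp_pos _) hb
  have l1 : Tendsto (fun ℓ : ℝ => h * c - |h| * G d t c (1 - (1 - 2 / ℓ) ^ d)) atTop
      (𝓝 (h * c - |h| * G d t c 0)) :=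
    tendsto_const_nhds.sub ((G_lim hd t c).const_mul _)
  have l2 : Tendsto (fun ℓ : ℝ => bv d *
      (Real.log (Xi volume (Cb d) (Real.exp (μ + h)) (Box d ℓ)) / ℓ ^ d -
        Real.log (Xi volume (Cb d) (Real.exp μ) (Box d ℓ)) / ℓ ^ d)) atTop
      (𝓝 (bv d * (P (μ + h) - P μ))) := ((hP (μ + h)).sub (hP μ)).const_mul _
  have h3 : h * c - |h| * G d t c 0 ≤ bv d * (P (μ + h) - P μ) := by
    refine le_of_tendsto_of_tendsto l1 l2 ?_
    filter_upwards [eventually_ge_atTop (2 : ℝ)] with ℓ hℓ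
    exact box hG hJ hd hc hμ h1 h2 h hℓ
  have h4 : |h| * G d t c 0 ≤ |h| * er d t :=
    mul_le_mul_of_nonneg_left (G_le ht0.le) (abs_nonneg _)
  linarith

end Pool.Agent.HdGas
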