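import Pool.Agent.Lib.MF.Mecke

/-!
# Configurations in a disjoint union
-/

set_option autoImplicit false

namespace Pool.Agent.HdGas

open MeasureTheory Filter Topology

section
variable {S : Type}

theorem Sym.eq_mk {α : Type} {F : Om S → α} (hF : Sym F) {n k : ℕ} {x : Fin n → S}
    {y : Fin k → S} (e : Fin n ≃ Fin k) (h : ∀ i, x i = y (e i)) :
    F ⟨n, x⟩ = F ⟨k, y⟩ := by
  have hnk : n = k := by simpa using Fintype.card_congr e
  subst hnk
  have hx : x = y ∘ e := funext h
  rw [hx]
  exact hF n y e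

theorem Sym.ins {α : Type} {F : Om S → α} (hF : Sym F) (p : S) :
    Sym fun ω => F (Pool.Agent.HdGas.ins p ω) := by
  intro n x σ
  refine hF.eq_mk (Equiv.Perm.decomposeFin.symm (0, σ)) fun i => ?_
  refine Fin.cases ?_ (fun c => ?_) i
  · simp
  · simp

theorem Sym.append_comm {α : Type} {F : Om S → α} (hF : Sym F) {j k : ℕ} (x : Fin j → S)
    (y : Fin k → S) : F ⟨j + k, Fin.append x y⟩ = F ⟨k + j, Fin.append y x⟩ := by
  refine hF.eq_mk finAddFlip fun i => ?_
  refine Fin.addCases (fun a => ?_) (fun b => ?_) i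
  · rw [finAddFlip_apply_castAdd, Fin.append_left, Fin.append_right]
  · rw [finAddFlip_apply_natAdd, Fin.append_right, Fin.append_left]

/-- A point added on the left. -/
theorem Sym.cons_append {α : Type} {F : Om S → α} (hF : Sym F) {j k : ℕ} (p : S) (x : Fin j → S)
    (y : Fin k → S) : F ⟨j + 1 + k, Fin.append (Fin.cons p x : Fin (j + 1) → S) y⟩
      = F ⟨j + k + 1, Fin.cons p (Fin.append x y)⟩ := by
  refine hF.eq_mk (finCongr (by omega)) fun i => ?_
  refine Fin.addCases (fun a => ?_) (fun b => ?_) i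
  · rw [Fin.append_left]
    refine Fin.cases ?_ (fun c => ?_) a
    · rfl
    · have he : (finCongr (by omega : j + 1 + k = j + k + 1)) (Fin.castAdd k c.succ)
          = (Fin.castAdd k c).succ := by
        apply Fin.ext; simp
      rw [he, Fin.cons_succ, Fin.cons_succ, Fin.append_left]
  · rw [Fin.append_right]
    have he : (finCongr (by omega : j + 1 + k = j + k + 1)) (Fin.natAdd (j + 1) b)
        = (Fin.natAdd j b).succ := by
      apply Fin.ext; simp; omega
    rw [he, Fin.cons_succ, Fin.append_right]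

/-- A point added on the right. -/
theorem Sym.append_cons {α : Type} {F : Om S → α} (hF : Sym F) {j k : ℕ} (p : S) (x : Fin j → S)
    (y : Fin k → S) : F ⟨j + (k + 1), Fin.append x (Fin.cons p y : Fin (k + 1) → S)⟩
      = F ⟨j + k + 1, Fin.cons p (Fin.append x y)⟩ := by
  rw [hF.append_comm, hF.cons_append]
  exact (hF.ins p).append_comm y x

end

variable {S : Type} [MeasurableSpace S]

theorem measurable_append (j k : ℕ) :
    Measurable fun q : (Fin j → S) × (Fin k → S) => (Fin.append q.1 q.2 : Fin (j + k) → S) := by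
  refine measurable_pi_lambda _ fun i => ?_
  refine Fin.addCases (fun a => ?_) (fun b => ?_) i
  · simp only [Fin.append_left]
    exact (measurable_pi_apply a).comp measurable_fst
  · simp only [Fin.append_right]
    exact (measurable_pi_apply b).comp measurable_snd

theorem measurable_ap {F : Om S → ENNReal} (hF : Measurable F) (j k : ℕ) :
    Measurable fun q : (Fin j → S) × (Fin k → S) => F ⟨j + k, Fin.append q.1 q.2⟩ :=
  hF.comp ((measurable_mk (j + k)).comp (measurable_append j k))

/-- `j` points with law `μ`, `k` points with law `ν`. -/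
noncomputable def Jj (μ ν : Measure S) (F : Om S → ENNReal) (j k : ℕ) : ENNReal :=
  ∫⁻ x, ∫⁻ y, F ⟨j + k, Fin.append x y⟩ ∂(Measure.pi fun _ : Fin k => ν)
    ∂(Measure.pi fun _ : Fin j => μ)

theorem Jj_left (μ ν : Measure S) [SigmaFinite μ] [SigmaFinite ν] {F : Om S → ENNReal}
    (hF : Measurable F) (hs : Sym F) (j k : ℕ) :
    ∫⁻ p, Jj μ ν (fun ω => F (ins p ω)) j k ∂μ = Jj μ ν F (j + 1) k := by
  unfold Jj
  rw [lint_cons μ j]
  · refine lintegral_congr fun p => lintegral_congr fun x => lintegral_congr fun y => ?_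
    exact (hs.cons_append p x y).symm
  · exact Measurable.lintegral_prod_right' (measurable_ap hF (j + 1) k)

theorem Jj_right (μ ν : Measure S) [SigmaFinite μ] [SigmaFinite ν] {F : Om S → ENNReal}
    (hF : Measurable F) (hs : Sym F) (j k : ℕ) :
    ∫⁻ p, Jj μ ν (fun ω => F (ins p ω)) j k ∂ν = Jj μ ν F j (k + 1) := by
  unfold Jj
  have h1 : ∀ x : Fin j → S, ∫⁻ y, F ⟨j + (k + 1), Fin.append x y⟩
      ∂(Measure.pi fun _ : Fin (k + 1) => ν)
      = ∫⁻ p, ∫⁻ y, F ⟨j + k + 1, Fin.cons p (Fin.append x y)⟩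
        ∂(Measure.pi fun _ : Fin k => ν) ∂ν := by
    intro x
    rw [lint_cons ν k]
    · refine lintegral_congr fun p => lintegral_congr fun y => ?_
      exact hs.append_cons p x y
    · exact (measurable_ap hF j (k + 1)).comp measurable_prodMk_left
  have hsw := lintegral_lintegral_swap (μ := Measure.pi fun _ : Fin j => μ) (ν := ν)
    (f := fun (x : Fin j → S) (p : S) => ∫⁻ y, F ⟨j + k + 1, Fin.cons p (Fin.append x y)⟩
        ∂(Measure.pi fun _ : Fin k => ν))
  simp only [h1]
  rw [hsw]
  · rfl
  · refine Measurable.aemeasurable ?_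
    have h3 : Measurable fun q : ((Fin j → S) × S) × (Fin k → S) =>
        (Fin.cons q.1.2 (Fin.append q.1.1 q.2) : Fin (j + k + 1) → S) :=
      (measurable_cons (j + k)).comp ((measurable_snd.comp measurable_fst).prodMk
        ((measurable_append j k).comp ((measurable_fst.comp measurable_fst).prodMk measurable_snd)))
    have h2 : Measurable fun q : ((Fin j → S) × S) × (Fin k → S) =>
        F ⟨j + k + 1, Fin.cons q.1.2 (Fin.append q.1.1 q.2)⟩ :=
      hF.comp ((measurable_mk (j + k + 1)).comp h3)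
    exact Measurable.lintegral_prod_right' h2

theorem measurable_Jj (μ ν : Measure S) [SigmaFinite μ] [SigmaFinite ν] {F : Om S → ENNReal}
    (hF : Measurable F) (j k : ℕ) : Measurable fun p => Jj μ ν (fun ω => F (ins p ω)) j k := by
  unfold Jj
  have h3 : Measurable fun q : (S × (Fin j → S)) × (Fin k → S) =>
      (Fin.cons q.1.1 (Fin.append q.1.2 q.2) : Fin (j + k + 1) → S) :=
    (measurable_cons (j + k)).comp ((measurable_fst.comp measurable_fst).prodMk
      ((measurable_append j k).comp ((measurable_snd.comp measurable_fst).prodMk measurable_snd)))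
  have h2 : Measurable fun q : (S × (Fin j → S)) × (Fin k → S) =>
      F ⟨j + k + 1, Fin.cons q.1.1 (Fin.append q.1.2 q.2)⟩ :=
    hF.comp ((measurable_mk (j + k + 1)).comp h3)
  exact Measurable.lintegral_prod_right' (Measurable.lintegral_prod_right' h2)

theorem lint_add (μ ν : Measure S) [SigmaFinite μ] [SigmaFinite ν] (N : ℕ) :
    ∀ {F : Om S → ENNReal}, Measurable F → Sym F →
    ∫⁻ x, F ⟨N, x⟩ ∂(Measure.pi fun _ : Fin N => μ + ν) =
      ∑ q ∈ Finset.HasAntidiagonal.antidiagonal N, (N.choose q.1 : ENNReal) * Jj μ ν F q.1 q.2 := by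
  induction N with
  | zero =>
    intro F hF hs
    have h0 : Finset.HasAntidiagonal.antidiagonal 0 = {((0 : ℕ), (0 : ℕ))} := rfl
    rw [h0, Finset.sum_singleton, Measure.pi_of_empty, lintegral_dirac]
    unfold Jj
    rw [Measure.pi_of_empty, Measure.pi_of_empty, lintegral_dirac, lintegral_dirac]
    simp only [Nat.choose_self, Nat.cast_one, one_mul]
    exact hs.eq_mk (Equiv.refl (Fin 0)) fun i => i.elim0
  | succ N ih =>
    intro F hF hs
    have hm : ∀ p : S, Measurable fun ω => F (ins p ω) := by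
      intro p
      refine measurable_om fun n => ?_
      exact hF.comp ((measurable_mk (n + 1)).comp ((measurable_cons n).comp
        measurable_prodMk_left))
    have hFN : Measurable fun x : Fin (N + 1) → S => F ⟨N + 1, x⟩ := hF.comp (measurable_mk (N + 1))
    rw [lint_cons (μ + ν) N hFN]
    have h1 : ∀ p : S, ∫⁻ x, F ⟨N + 1, Fin.cons p x⟩
        ∂(Measure.pi fun _ : Fin N => μ + ν) =
        ∑ q ∈ Finset.HasAntidiagonal.antidiagonal N, (N.choose q.1 : ENNReal) *
          Jj μ ν (fun ω => F (ins p ω)) q.1 q.2 := fun p => ih (hm p) (hs.ins p)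
    simp only [h1]
    rw [lintegral_add_measure, lintegral_finsetSum, lintegral_finsetSum]
    · have hl : ∀ q : ℕ × ℕ, ∫⁻ p, (N.choose q.1 : ENNReal) *
          Jj μ ν (fun ω => F (ins p ω)) q.1 q.2 ∂μ
          = (N.choose q.1 : ENNReal) * Jj μ ν F (q.1 + 1) q.2 := by
        intro q
        rw [lintegral_const_mul _ (measurable_Jj μ ν hF q.1 q.2), Jj_left μ ν hF hs]
      have hr : ∀ q : ℕ × ℕ, ∫⁻ p, (N.choose q.1 : ENNReal) *
          Jj μ ν (fun ω => F (ins p ω)) q.1 q.2 ∂ν
          = (N.choose q.1 : ENNReal) * Jj μ ν F q.1 (q.2 + 1) := by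
        intro q
        rw [lintegral_const_mul _ (measurable_Jj μ ν hF q.1 q.2), Jj_right μ ν hF hs]
      simp only [hl, hr]
      have hp := Finset.sum_antidiagonal_choose_succ_nsmul (fun a b => Jj μ ν F a b) N
      simp only [nsmul_eq_mul] at hp
      rw [hp, add_comm]
      congr 1
      refine Finset.sum_congr rfl fun q hq => ?_
      have hq' : q.1 + q.2 = N := Finset.HasAntidiagonal.mem_antidiagonal.1 hq
      rw [← hq', Nat.choose_symm_add]
    · intro q _
      exact ((measurable_Jj μ ν hF q.1 q.2).const_mul _)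
    · intro q _
      exact ((measurable_Jj μ ν hF q.1 q.2).const_mul _)

theorem split : SPLIT := by
  intro S _ m _ lam hlam A B hA hB hAB F hF hs
  have hm : ∀ ω : Om S, Measurable fun η => F (app ω η) := by
    intro ω
    obtain ⟨j, x⟩ := ω
    refine measurable_om fun k => ?_
    exact (measurable_ap hF j k).comp measurable_prodMk_left
  have hG : Measurable fun ω : Om S => ∫⁻ η, F (app ω η) ∂pois m lam B := by
    refine measurable_om fun j => ?_
    have h1 : ∀ x : Fin j → S, ∫⁻ η, F (app ⟨j, x⟩ η) ∂pois m lam B =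
        ∑' k : ℕ, ENNReal.ofReal (lam ^ k / k.factorial) *
          ∫⁻ y, F ⟨j + k, Fin.append x y⟩ ∂(Measure.pi fun _ : Fin k => m.restrict B) :=
      fun x => lint_pois m lam B (hm ⟨j, x⟩)
    simp only [h1]
    refine Measurable.tsum fun k => Measurable.const_mul ?_ _
    exact Measurable.lintegral_prod_right' (measurable_ap hF j k)
  rw [lint_pois m lam (A ∪ B) hF, lint_pois m lam A hG]
  have hR : ∀ j : ℕ, ∫⁻ x, ∫⁻ η, F (app ⟨j, x⟩ η) ∂pois m lam B
      ∂(Measure.pi fun _ : Fin j => m.restrict A) =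
      ∑' k : ℕ, ENNReal.ofReal (lam ^ k / k.factorial) *
        Jj (m.restrict A) (m.restrict B) F j k := by
    intro j
    have h1 : ∀ x : Fin j → S, ∫⁻ η, F (app ⟨j, x⟩ η) ∂pois m lam B =
        ∑' k : ℕ, ENNReal.ofReal (lam ^ k / k.factorial) *
          ∫⁻ y, F ⟨j + k, Fin.append x y⟩ ∂(Measure.pi fun _ : Fin k => m.restrict B) :=
      fun x => lint_pois m lam B (hm ⟨j, x⟩)
    simp only [h1]
    rw [lintegral_tsum]
    · refine tsum_congr fun k => ?_
      rw [lintegral_const_mul]
      · rfl
      · exact Measurable.lintegral_prod_right' (measurable_ap hF j k)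
    · intro k
      exact (Measurable.const_mul
        (Measurable.lintegral_prod_right' (measurable_ap hF j k)) _).aemeasurable
  simp only [hR]
  have hL : ∀ N : ℕ, ∫⁻ x, F ⟨N, x⟩ ∂(Measure.pi fun _ : Fin N => m.restrict (A ∪ B)) =
      ∑ q ∈ Finset.HasAntidiagonal.antidiagonal N, (N.choose q.1 : ENNReal) *
        Jj (m.restrict A) (m.restrict B) F q.1 q.2 := by
    intro N
    have h1 : m.restrict (A ∪ B) = m.restrict A + m.restrict B :=
      Measure.restrict_union hAB hB
    rw [h1]
    exact lint_add _ _ N hF hs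
  simp only [hL, ← ENNReal.tsum_mul_left]
  rw [← ENNReal.tsum_prod (f := fun j k => ENNReal.ofReal (lam ^ j / j.factorial) *
    (ENNReal.ofReal (lam ^ k / k.factorial) * Jj (m.restrict A) (m.restrict B) F j k)),
    ← Finset.HasAntidiagonal.sigmaAntidiagonalEquivProd.tsum_eq, ENNReal.tsum_sigma']
  refine tsum_congr fun N => ?_
  rw [tsum_fintype, Finset.mul_sum, ← Finset.sum_coe_sort]
  refine Finset.sum_congr rfl fun q _ => ?_
  obtain ⟨⟨j, k⟩, hq⟩ := q
  have hq' : j + k = N := by simpa using hq
  simp only [Finset.HasAntidiagonal.sigmaAntidiagonalEquivProd_apply]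
  rw [← mul_assoc, ← mul_assoc]
  congr 1
  rw [← ENNReal.ofReal_natCast, ← ENNReal.ofReal_mul (by positivity),
    ← ENNReal.ofReal_mul (by positivity)]
  congr 1
  subst hq'
  have h1 := Nat.add_choose_mul_factorial_mul_factorial j k
  have h2 : (((j + k).choose j : ℕ) : ℝ) * j.factorial * k.factorial = (j + k).factorial := by
    rw [← Nat.choose_symm_add] at h1
    exact_mod_cast h1
  have h3 : ((j + k).factorial : ℝ) ≠ 0 := by positivity
  have h4 : (j.factorial : ℝ) ≠ 0 := by positivity
  have h5 : (k.factorial : ℝ) ≠ 0 := by positivity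
  field_simp
  rw [← h2, pow_add]
  ring

end Pool.Agent.HdGas
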