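import Pool.Agent.Lib.MF.Top
import Pool.Agent.Lib.MP_09cbbd_vw.HsS

/-!
# The pressure of hard spheres is the Legendre transform of the free energy
-/

set_option autoImplicit false

namespace Pool.Agent.HdGas

open MeasureTheory Filter Topology Pool.Agent.SquareWellGas Pool.Agent.KacGas Pool.Agent.VdwGas
  Pool.Agent.Vdw

namespace Thermo

variable {d : ℕ}

theorem meas_Cb (d : ℕ) : MeasurableSet {p : (Fin d → ℝ) × (Fin d → ℝ) | Cb d p.1 p.2} := by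
  have h : IsOpen {p : (Fin d → ℝ) × (Fin d → ℝ) | ∑ k, (p.1 k - p.2 k) ^ 2 < 1} := by
    apply isOpen_lt
    · fun_prop
    · fun_prop
  exact h.measurableSet

theorem vol_Box {ℓ : ℝ} (hℓ : 0 ≤ ℓ) : (volume (Box d ℓ)).toReal = ℓ ^ d := by
  rw [Kac.Can.volume_Box, ENNReal.toReal_pow, ENNReal.toReal_ofReal hℓ]

theorem Z_nonneg (ℓ : ℝ) (n : ℕ) : 0 ≤ Z d (1 / 2) (fun _ => 0) ℓ n := by
  unfold Z
  refine mul_nonneg (by positivity) (integral_nonneg fun x => (Real.exp_pos _).le)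

theorem meas_Box (d : ℕ) (ℓ : ℝ) : MeasurableSet (Box d ℓ) := by
  have h : Box d ℓ = Set.pi Set.univ fun _ => Set.Ico (0 : ℝ) ℓ := by
    ext x
    simp [Box]
  rw [h]
  exact MeasurableSet.univ_pi fun _ => measurableSet_Ico

theorem Xi_bd (hB : BAS) {lam ℓ : ℝ} (hlam : 0 ≤ lam) (hℓ : 0 ≤ ℓ) :
    1 ≤ Xi volume (Cb d) lam (Box d ℓ) ∧
      Xi volume (Cb d) lam (Box d ℓ) ≤ Real.exp (lam * ℓ ^ d) := by
  obtain ⟨-, -, -, h1, h2, -⟩ := hB (Fin d → ℝ) volume (Cb d) (Box d ℓ) lam (meas_Cb d)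
    (meas_Box d ℓ) (Kac.Can.volume_Box_ne _) hlam
  rw [vol_Box hℓ] at h2
  exact ⟨h1, h2⟩

theorem term_le (hX : XIZ) (hd : 1 ≤ d) {lam ℓ : ℝ} (hlam : 0 ≤ lam) (hℓ : 0 ≤ ℓ) (n : ℕ) :
    lam ^ n * Z d (1 / 2) (fun _ => 0) ℓ n ≤ Xi volume (Cb d) lam (Box d ℓ) :=
  le_hasSum (hX d hd lam hlam ℓ hℓ) n fun _ _ => mul_nonneg (pow_nonneg hlam _) (Z_nonneg _ _)

/-- Lower bound for the partition function of a large box. -/
theorem low (hX : XIZ) (hd : 1 ≤ d) {f : ℝ → ℝ} {r : ℝ}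
    (hf : IsF d (1 / 2) (fun _ => 0) f r) {x : ℝ} (hx : x ∈ Set.Ioo 0 r) (μ : ℝ) {ε : ℝ}
    (hε : 0 < ε) : ∃ ℓ0 : ℝ, ∀ ℓ : ℝ, ℓ0 ≤ ℓ →
      (ℓ + 4) ^ d * (f x + μ * x - ε) ≤
        Real.log (Xi volume (Cb d) (Real.exp μ) (Box d ℓ)) := by
  have hm : 0 < 1 + |μ| := by positivity
  obtain ⟨ℓ0, h0⟩ := approx_F hd hf hx (ε := ε / (1 + |μ|)) (by positivity)
  refine ⟨max ℓ0 0, fun ℓ hℓ => ?_⟩
  have hℓ0 : ℓ0 ≤ ℓ := (le_max_left _ _).trans hℓ
  have hℓ1 : 0 ≤ ℓ := (le_max_right _ _).trans hℓ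
  obtain ⟨n, h1, h2, h3⟩ := h0 (ℓ + 2) (by linarith)
  rw [add_sub_cancel_right] at h2 h3
  have e : ℓ + 2 + 2 = ℓ + 4 := by ring
  rw [e] at h1 h3
  have h4 : (0 : ℝ) < (ℓ + 4) ^ d := by positivity
  have h5 := term_le hX hd (Real.exp_pos μ).le hℓ1 n
  have h6 := Real.log_le_log (mul_pos (pow_pos (Real.exp_pos μ) n) h2) h5
  rw [Real.log_mul (pow_pos (Real.exp_pos μ) n).ne' h2.ne', Real.log_pow, Real.log_exp] at h6
  refine le_trans ?_ h6
  have h7 : (n : ℝ) * μ = (ℓ + 4) ^ d * (μ * (n / (ℓ + 4) ^ d)) := by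
    field_simp
  rw [h7]
  have h8 : μ * x - |μ| * (ε / (1 + |μ|)) ≤ μ * (n / (ℓ + 4) ^ d) := by
    have h9 : |μ * (n / (ℓ + 4) ^ d - x)| ≤ |μ| * (ε / (1 + |μ|)) := by
      rw [abs_mul]
      exact mul_le_mul_of_nonneg_left h1 (abs_nonneg _)
    have h10 := (abs_le.1 h9).1
    linarith
  have h11 : |μ| * (ε / (1 + |μ|)) + ε / (1 + |μ|) = ε := by
    field_simp
    ring
  have h12 : (ℓ + 4) ^ d * (f x + μ * x - ε) ≤
      (ℓ + 4) ^ d * (μ * (n / (ℓ + 4) ^ d) + (f x - ε / (1 + |μ|))) :=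
    mul_le_mul_of_nonneg_left (by linarith) h4.le
  rw [mul_add] at h12
  linarith

theorem le_exp (hB : BAS) (hX : XIZ) (hd : 1 ≤ d) {f : ℝ → ℝ} {r : ℝ}
    (hf : IsF d (1 / 2) (fun _ => 0) f r) {x : ℝ} (hx : x ∈ Set.Ioo 0 r) (μ : ℝ) :
    f x + μ * x ≤ Real.exp μ := by
  refine le_of_forall_pos_le_add fun ε hε => ?_
  obtain ⟨ℓ0, h0⟩ := low hX hd hf hx μ hε
  have hℓ : 0 ≤ max ℓ0 0 := le_max_right _ _
  have h1 := h0 (max ℓ0 0) (le_max_left _ _)
  obtain ⟨h2, h3⟩ := Xi_bd (d := d) hB (Real.exp_pos μ).le hℓ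
  have h4 := Real.log_le_log (by linarith) h3
  rw [Real.log_exp] at h4
  have h5 : (0 : ℝ) < (max ℓ0 0 + 4) ^ d := by positivity
  have h6 : Real.exp μ * max ℓ0 0 ^ d ≤ (max ℓ0 0 + 4) ^ d * Real.exp μ := by
    rw [mul_comm]
    exact mul_le_mul_of_nonneg_right (pow_le_pow_left₀ hℓ (by linarith) _) (Real.exp_pos μ).le
  have h7 := le_of_mul_le_mul_left (h1.trans (h4.trans h6)) h5
  linarith

/-- Upper bound for the partition function. -/
theorem upp (hB : BAS) (hX : XIZ) (hd : 1 ≤ d) {f : ℝ → ℝ} {r : ℝ}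
    (hf : IsF d (1 / 2) (fun _ => 0) f r) {μ P : ℝ} (hP0 : 0 ≤ P)
    (hP : ∀ x ∈ Set.Ioo 0 r, f x + μ * x ≤ P) {ℓ : ℝ} (hℓ : 1 < ℓ) :
    Xi volume (Cb d) (Real.exp μ) (Box d ℓ) ≤
      (r * (ℓ + 2) ^ d + 1) * Real.exp ((ℓ + 2) ^ d * P) := by
  have hr : 0 < r := hf.1
  have hL : (0 : ℝ) < (ℓ + 2) ^ d := by positivity
  have h1 := hX d hd (Real.exp μ) (Real.exp_pos μ).le ℓ (by linarith)
  obtain ⟨M, hM⟩ : ∃ M : ℕ, M = ⌊r * (ℓ + 2) ^ d⌋₊ + 1 := ⟨_, rfl⟩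
  have hone : ∀ n : ℕ, Real.exp μ ^ n * Z d (1 / 2) (fun _ => 0) ℓ n ≤
      Real.exp ((ℓ + 2) ^ d * P) := by
    intro n
    rcases Nat.eq_zero_or_pos n with rfl | hn
    · have h2 : Z d (1 / 2) (fun _ => 0) ℓ 0 ≤ 1 := by
        have h3 := term_le (d := d) hX hd (lam := 0) le_rfl (ℓ := ℓ) (by linarith) 0
        have h4 := (Xi_bd (d := d) hB (lam := 0) le_rfl (ℓ := ℓ) (by linarith)).2
        rw [zero_mul, Real.exp_zero] at h4
        rw [pow_zero, one_mul] at h3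
        exact h3.trans h4
      rw [pow_zero, one_mul]
      exact h2.trans (Real.one_le_exp (by positivity))
    · rcases (Z_nonneg (d := d) ℓ n).eq_or_lt with h2 | h2
      · rw [← h2, mul_zero]
        exact (Real.exp_pos _).le
      · obtain ⟨h3, h4⟩ := super_F hd hf hℓ hn h2
        have h5 := hP _ h3
        have h6 : Real.exp μ ^ n * Z d (1 / 2) (fun _ => 0) ℓ n =
            Real.exp (n * μ + Real.log (Z d (1 / 2) (fun _ => 0) ℓ n)) := by
          rw [Real.exp_add, Real.exp_log h2, Real.exp_nat_mul]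
        rw [h6, Real.exp_le_exp]
        have h7 : (n : ℝ) * μ = (ℓ + 2) ^ d * (μ * (n / (ℓ + 2) ^ d)) := by
          field_simp
        rw [h7]
        have h8 := mul_le_mul_of_nonneg_left h5 hL.le
        rw [mul_add] at h8
        linarith
  have hzero : ∀ n ∉ Finset.range M, Real.exp μ ^ n * Z d (1 / 2) (fun _ => 0) ℓ n = 0 := by
    intro n hn
    rw [Finset.mem_range, not_lt] at hn
    rcases (Z_nonneg (d := d) ℓ n).eq_or_lt with h2 | h2
    · rw [← h2, mul_zero]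
    · exfalso
      have hn1 : 1 ≤ n := by omega
      obtain ⟨h3, -⟩ := super_F hd hf hℓ hn1 h2
      have h4 := h3.2
      rw [div_lt_iff₀ hL] at h4
      have h5 : r * (ℓ + 2) ^ d < M := by
        rw [hM]
        push_cast
        exact Nat.lt_floor_add_one _
      have h6 : (M : ℝ) ≤ n := by exact_mod_cast hn
      linarith
  have h2 : Xi volume (Cb d) (Real.exp μ) (Box d ℓ) =
      ∑ n ∈ Finset.range M, Real.exp μ ^ n * Z d (1 / 2) (fun _ => 0) ℓ n :=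
    h1.unique (hasSum_sum_of_ne_finset_zero hzero)
  rw [h2]
  refine (Finset.sum_le_card_nsmul _ _ _ fun n _ => hone n).trans ?_
  rw [Finset.card_range, nsmul_eq_mul]
  refine mul_le_mul_of_nonneg_right ?_ (Real.exp_pos _).le
  rw [hM]
  push_cast
  have := Nat.floor_le (show 0 ≤ r * (ℓ + 2) ^ d by positivity)
  linarith

theorem ratio (d : ℕ) (c : ℝ) : Tendsto (fun ℓ : ℝ => (ℓ + c) ^ d / ℓ ^ d) atTop (𝓝 1) := by
  have h1 : Tendsto (fun ℓ : ℝ => 1 + c * ℓ⁻¹) atTop (𝓝 (1 + c * 0)) :=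
    tendsto_const_nhds.add (tendsto_inv_atTop_zero.const_mul c)
  rw [mul_zero, add_zero] at h1
  have h2 := h1.pow d
  rw [one_pow] at h2
  refine h2.congr' ?_
  filter_upwards [eventually_gt_atTop 0] with ℓ hℓ
  rw [← div_pow]
  congr 1
  field_simp

theorem loga (hd : 1 ≤ d) {r : ℝ} (hr : 0 < r) :
    Tendsto (fun ℓ : ℝ => Real.log (r * (ℓ + 2) ^ d + 1) / ℓ ^ d) atTop (𝓝 0) := by
  have hd0 : d ≠ 0 := by omega
  have h1 : Tendsto (fun ℓ : ℝ => r * (ℓ + 2) ^ d + 1) atTop atTop := by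
    refine tendsto_atTop_add_const_right _ _ (Tendsto.const_mul_atTop hr ?_)
    exact (tendsto_pow_atTop hd0).comp (tendsto_atTop_add_const_right _ _ tendsto_id)
  have h2 : Tendsto (fun u : ℝ => Real.log u / u) atTop (𝓝 0) :=
    Real.isLittleO_log_id_atTop.tendsto_div_nhds_zero
  have h3 := h2.comp h1
  have h4 : Tendsto (fun ℓ : ℝ => (r * (ℓ + 2) ^ d + 1) / ℓ ^ d) atTop (𝓝 (r * 1 + 0)) := by
    have h5 := ((ratio d 2).const_mul r).add (tendsto_inv_atTop_zero.comp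
      (tendsto_pow_atTop (α := ℝ) hd0))
    refine h5.congr fun ℓ => ?_
    simp only [Function.comp_apply]
    rw [add_div, one_div, mul_div_assoc]
  have h5 := h3.mul h4
  rw [zero_mul] at h5
  refine h5.congr' ?_
  filter_upwards [eventually_gt_atTop 0] with ℓ hℓ
  simp only [Function.comp_apply]
  have h6 : (0 : ℝ) < r * (ℓ + 2) ^ d + 1 := by positivity
  field_simp

end Thermo

open Thermo in
/-- The pressure is the Legendre transform of the free energy. -/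
theorem thermo_of (hB : BAS) (hX : XIZ) : THERMO := by
  intro d hd f r hf
  have hr : 0 < r := hf.1
  obtain ⟨S, hS⟩ : ∃ S : ℝ → Set ℝ, S = fun μ => (fun x => f x + μ * x) '' Set.Ioo 0 r := ⟨_, rfl⟩
  have hSne : ∀ μ, (S μ).Nonempty := by
    intro μ
    rw [hS]
    exact ⟨_, r / 2, ⟨by linarith, by linarith⟩, rfl⟩
  have hSb : ∀ μ, BddAbove (S μ) := by
    intro μ
    refine ⟨Real.exp μ, ?_⟩
    rw [hS]
    rintro _ ⟨x, hx, rfl⟩
    exact le_exp hB hX hd hf hx μ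
  have hle : ∀ μ, ∀ x ∈ Set.Ioo 0 r, f x + μ * x ≤ sSup (S μ) := by
    intro μ x hx
    refine le_csSup (hSb μ) ?_
    rw [hS]
    exact ⟨x, hx, rfl⟩
  have hge : ∀ μ a, a < sSup (S μ) → ∃ x ∈ Set.Ioo 0 r, a < f x + μ * x := by
    intro μ a ha
    obtain ⟨y, hy, hay⟩ := exists_lt_of_lt_csSup (hSne μ) ha
    rw [hS] at hy
    obtain ⟨x, hx, rfl⟩ := hy
    exact ⟨x, hx, hay⟩
  have h0 : ∀ μ, 0 ≤ sSup (S μ) := by
    intro μ
    obtain ⟨y, hy, hfy⟩ := F_zero hd hf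
    refine le_of_forall_pos_le_add fun ε hε => ?_
    obtain ⟨x, hx⟩ : ∃ x : ℝ, x = min (min y r / 2) (ε / (1 + |μ|)) := ⟨_, rfl⟩
    have hm : 0 < 1 + |μ| := by positivity
    have hx0 : 0 < x := by
      rw [hx]
      exact lt_min (by have := lt_min hy hr; linarith) (by positivity)
    have hx1 : x < min y r := by
      have h1 : x ≤ min y r / 2 := by rw [hx]; exact min_le_left _ _
      have := lt_min hy hr
      linarith
    have hx2 : x * (1 + |μ|) ≤ ε := by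
      rw [← le_div_iff₀ hm, hx]
      exact min_le_right _ _
    have h1 := hle μ x ⟨hx0, hx1.trans_le (min_le_right _ _)⟩
    have h2 := hfy x ⟨hx0, hx1.trans_le (min_le_left _ _)⟩
    have h3 : -(|μ| * x) ≤ μ * x := by
      have h4 := neg_abs_le μ
      have := mul_le_mul_of_nonneg_right h4 hx0.le
      linarith
    nlinarith
  refine ⟨fun μ => sSup (S μ), ?_, ?_, ?_⟩
  · intro μ
    refine tendsto_order.2 ⟨fun a ha => ?_, fun a ha => ?_⟩
    · obtain ⟨x, hx, hax⟩ := hge μ a ha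
      obtain ⟨ε, hε⟩ : ∃ ε : ℝ, ε = (f x + μ * x - a) / 2 := ⟨_, rfl⟩
      obtain ⟨ℓ0, h1⟩ := low hX hd hf hx μ (ε := ε) (by rw [hε]; linarith)
      have h2 := (ratio d 4).mul_const (f x + μ * x - ε)
      rw [one_mul] at h2
      have h3 := h2.eventually (lt_mem_nhds (show a < f x + μ * x - ε by rw [hε]; linarith))
      filter_upwards [h3, eventually_ge_atTop ℓ0, eventually_gt_atTop 0] with ℓ g1 g2 g3
      refine g1.trans_le ?_
      rw [div_mul_eq_mul_div]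
      exact div_le_div_of_nonneg_right (h1 ℓ g2) (by positivity)
    · have h1 := (loga hd hr).add ((ratio d 2).mul_const (sSup (S μ)))
      rw [zero_add, one_mul] at h1
      have h2 := h1.eventually (gt_mem_nhds ha)
      filter_upwards [h2, eventually_gt_atTop 1] with ℓ g1 g2
      refine lt_of_le_of_lt ?_ g1
      have g3 := upp hB hX hd hf (h0 μ) (hle μ) g2
      obtain ⟨g4, -⟩ := Xi_bd (d := d) hB (Real.exp_pos μ).le (show 0 ≤ ℓ by linarith)
      have g5 := Real.log_le_log (by linarith) g3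
      have g6 : (0 : ℝ) < r * (ℓ + 2) ^ d + 1 := by positivity
      rw [Real.log_mul g6.ne' (Real.exp_pos _).ne', Real.log_exp] at g5
      rw [div_mul_eq_mul_div, ← add_div]
      exact div_le_div_of_nonneg_right g5 (by positivity)
  · intro μ
    refine ⟨h0 μ, csSup_le (hSne μ) ?_⟩
    rw [hS]
    rintro _ ⟨x, hx, rfl⟩
    exact le_exp hB hX hd hf hx μ
  · intro μ
    refine ⟨hle μ, fun δ hδ => ?_⟩
    obtain ⟨x, hx, h1⟩ := hge μ (sSup (S μ) - δ) (by linarith)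
    exact ⟨x, hx, h1.le⟩

end Pool.Agent.HdGas

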