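import Pool.Agent.Lib.MF.Rows

/-!
# Hard-core gases on a measure space: rows YCHI and SELF
-/

set_option autoImplicit false

namespace Pool.Agent.HdGas

open MeasureTheory Filter Topology

section ychi

variable {S : Type} [MeasurableSpace S] {m : Measure S} {C : S → S → Prop} {L : Set S} {b κ : ℝ}

theorem Geo.meas_left (hG : Geo m C L b κ) (p : S) : MeasurableSet {v | C v p} :=
  (measurable_prodMk_right (y := p)) hG.meas

theorem Geo.meas_right (hG : Geo m C L b κ) (p : S) : MeasurableSet {v | C p v} :=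
  (measurable_prodMk_left (x := p)) hG.meas

/-- The free places near `u`. -/
def Fset (C : S → S → Prop) (L : Set S) (u : S) (ω : Om S) : Set S :=
  {v | (v ∈ L ∧ C u v) ∧ fr C (Al S) v ω}

theorem Geo.meas_fr (hG : Geo m C L b κ) (ω : Om S) : MeasurableSet {v | fr C (Al S) v ω} := by
  have : {v | fr C (Al S) v ω} = ⋂ i, {v | C v (ω.2 i)}ᶜ := by
    ext v
    simp [fr, Al]
  rw [this]
  exact MeasurableSet.iInter fun i => (hG.meas_left _).compl

theorem Geo.meas_near (hG : Geo m C L b κ) (u : S) : MeasurableSet {v | v ∈ L ∧ C u v} :=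
  hG.measL.inter (hG.meas_right u)

theorem Geo.meas_Tk (hG : Geo m C L b κ) (u : S) (ω : Om S) :
    MeasurableSet (Tk C L (Al S) u ω) := by
  classical
  have : Tk C L (Al S) u ω = {v | v ∈ L ∧ C u v} ∩
      ⋂ i, (if C u (ω.2 i) then Set.univ else {v | C v (ω.2 i)}ᶜ) := by
    ext z
    simp only [Tk, Al, Set.mem_ofPred_eq, Set.mem_inter_iff, Set.mem_iInter, true_implies]
    constructor
    · rintro ⟨h1, h2, h3⟩
      refine ⟨⟨h1, h2⟩, fun i => ?_⟩
      by_cases h : C u (ω.2 i)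
      · simp [h]
      · simpa [h] using h3 i h
    · rintro ⟨⟨h1, h2⟩, h3⟩
      refine ⟨h1, h2, fun i h => ?_⟩
      simpa [h] using h3 i
  rw [this]
  apply (hG.meas_near u).inter
  apply MeasurableSet.iInter
  intro i
  split_ifs
  · exact MeasurableSet.univ
  · exact (hG.meas_left _).compl

theorem Geo.near_le (hG : Geo m C L b κ) (u : S) :
    m {v | v ∈ L ∧ C u v} ≤ ENNReal.ofReal b :=
  (measure_mono fun _ h => h.2).trans (hG.ball u)

theorem Geo.near_ne_top (hG : Geo m C L b κ) (u : S) : m {v | v ∈ L ∧ C u v} ≠ ⊤ :=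
  ((hG.near_le u).trans_lt ENNReal.ofReal_lt_top).ne

theorem Geo.intchi (hG : Geo m C L b κ) (u : S) (ω : Om S) :
    ∫ v in {v | v ∈ L ∧ C u v}, chi C (Al S) v ω ∂m = (m (Fset C L u ω)).toReal := by
  classical
  have h1 : (fun v => chi C (Al S) v ω) =
      Set.indicator {v | fr C (Al S) v ω} (fun _ => (1 : ℝ)) := by
    funext v
    simp [chi, Set.indicator]
  rw [h1, integral_indicator (hG.meas_fr ω), Measure.restrict_restrict (hG.meas_fr ω),
    integral_const, smul_eq_mul, mul_one, Measure.real, Measure.restrict_apply_univ]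
  congr 2
  ext v
  simp [Fset, and_comm]

omit [MeasurableSpace S] in
theorem Fset_sub (u : S) (ω : Om S) : Fset C L u ω ⊆ Tk C L (Al S) u ω := by
  rintro z ⟨⟨h1, h2⟩, h3⟩
  exact ⟨h1, h2, fun i hi _ => h3 i hi⟩

omit [MeasurableSpace S] in
theorem Tk_sub (u : S) (ω : Om S) : Tk C L (Al S) u ω ⊆ {v | v ∈ L ∧ C u v} :=
  fun _ h => ⟨h.1, h.2.1⟩

/-- The set counted by `gk`. -/
def Ek (C : S → S → Prop) (u : S) : Set (S × S) := {q | C u q.2 ∧ C q.1 q.2 ∧ C u q.1}

theorem Geo.meas_Ek (hG : Geo m C L b κ) (u : S) : MeasurableSet (Ek C u) :=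
  (measurable_snd (hG.meas_right u)).inter (hG.meas.inter (measurable_fst (hG.meas_right u)))

/-- The places near `u` excluded by `p` near `u`. -/
noncomputable def gk (m : Measure S) (C : S → S → Prop) (u : S) (p : S) : ℝ :=
  (m (Prod.mk p ⁻¹' Ek C u)).toReal

theorem Geo.Ek_le (hG : Geo m C L b κ) (u p : S) :
    m (Prod.mk p ⁻¹' Ek C u) ≤ ENNReal.ofReal b :=
  (measure_mono fun _ h => h.1).trans (hG.ball u)

theorem Geo.gk_le (hG : Geo m C L b κ) (u p : S) : gk m C u p ≤ b :=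
  ENNReal.toReal_le_of_le_ofReal hG.b_pos.le (hG.Ek_le u p)

theorem Geo.gk_meas [SFinite m] (hG : Geo m C L b κ) (u : S) : Measurable (gk m C u) :=
  (measurable_measure_prodMk_left (hG.meas_Ek u)).ennreal_toReal

theorem Geo.int_gk [SFinite m] (hG : Geo m C L b κ) (u : S) :
    ∫ p in L, gk m C u p ∂m ≤ 2 * κ * b ^ 2 := by
  have hb := hG.b_pos
  have hk := hG.kap_pos
  have h1 : ∫ p in L, gk m C u p ∂m = (∫⁻ p in L, m (Prod.mk p ⁻¹' Ek C u) ∂m).toReal := by
    unfold gk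
    rw [integral_toReal]
    · exact (measurable_measure_prodMk_left (hG.meas_Ek u)).aemeasurable
    · exact ae_of_all _ fun p => (hG.Ek_le u p).trans_lt ENNReal.ofReal_lt_top
  rw [h1]
  apply ENNReal.toReal_le_of_le_ofReal (by positivity)
  calc ∫⁻ p in L, m (Prod.mk p ⁻¹' Ek C u) ∂m ≤ ∫⁻ p, m (Prod.mk p ⁻¹' Ek C u) ∂m :=
        setLIntegral_le_lintegral _ _
    _ = (m.prod m) (Ek C u) := (Measure.prod_apply (hG.meas_Ek u)).symm
    _ ≤ (m.prod m) {p : S × S | p.1 ∈ {z | C u z} ∧ p.2 ∈ {z | C u z} ∧ C p.1 p.2} :=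
        measure_mono fun q h => ⟨h.2.2, h.1, h.2.1⟩
    _ ≤ ENNReal.ofReal (2 * κ * b) * m {z | C u z} :=
        hG.pair u _ (hG.meas_right u) (fun _ h => h)
    _ ≤ ENNReal.ofReal (2 * κ * b) * ENNReal.ofReal b := by gcongr; exact hG.ball u
    _ = ENNReal.ofReal (2 * κ * b ^ 2) := by
        rw [← ENNReal.ofReal_mul (by positivity)]
        congr 1
        ring

theorem Geo.Tk_le (hG : Geo m C L b κ) (u : S) (ω : Om S) :
    m (Tk C L (Al S) u ω) ≤ m (Fset C L u ω) + ∑ i, m (Prod.mk (ω.2 i) ⁻¹' Ek C u) := by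
  calc m (Tk C L (Al S) u ω)
      ≤ m (Fset C L u ω ∪ ⋃ i, (Prod.mk (ω.2 i) ⁻¹' Ek C u)) := by
        apply measure_mono
        rintro z ⟨h1, h2, h3⟩
        by_cases h : fr C (Al S) z ω
        · exact Or.inl ⟨⟨h1, h2⟩, h⟩
        · right
          simp only [fr, Al, not_forall, not_not, true_implies] at h
          obtain ⟨i, hi⟩ := h
          rw [Set.mem_iUnion]
          refine ⟨i, h2, hG.symm _ _ hi, ?_⟩
          by_contra hc
          exact h3 i trivial hc hi
    _ ≤ m (Fset C L u ω) + m (⋃ i, (Prod.mk (ω.2 i) ⁻¹' Ek C u)) := measure_union_le _ _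
    _ ≤ _ := by gcongr; exact measure_iUnion_fintype_le _ _

theorem Geo.diff_le (hG : Geo m C L b κ) (u : S) (ω : Om S) :
    (m (Tk C L (Al S) u ω)).toReal - (m (Fset C L u ω)).toReal ≤ ∑ i, gk m C u (ω.2 i) := by
  have hF : m (Fset C L u ω) ≠ ⊤ :=
    ((measure_mono ((Fset_sub u ω).trans (Tk_sub u ω))).trans_lt (hG.near_ne_top u).lt_top).ne
  have hE : ∀ i, m (Prod.mk (ω.2 i) ⁻¹' Ek C u) ≠ ⊤ := fun i =>
    ((hG.Ek_le u _).trans_lt ENNReal.ofReal_lt_top).ne
  have hS : ∑ i, m (Prod.mk (ω.2 i) ⁻¹' Ek C u) ≠ ⊤ := by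
    simpa using fun i => hE i
  have := ENNReal.toReal_mono (ENNReal.add_ne_top.2 ⟨hF, hS⟩) (hG.Tk_le u ω)
  rw [ENNReal.toReal_add hF hS, ENNReal.toReal_sum fun i _ => hE i] at this
  simp only [gk]
  linarith

theorem Geo.Tk_real_le (hG : Geo m C L b κ) (u : S) (ω : Om S) :
    (m (Tk C L (Al S) u ω)).toReal ≤ b :=
  ENNReal.toReal_le_of_le_ofReal hG.b_pos.le ((measure_mono (Tk_sub u ω)).trans (hG.near_le u))

end ychi

theorem ychi_of (hI : INT) : YCHI := by
  intro S _ m _ C L b κ lam hG hlam u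
  have hb := hG.b_pos
  have key : ∀ ω, 0 ≤ Yk m C lam L (Al S) u ω -
      lam * ∫ v in {v | v ∈ L ∧ C u v}, chi C (Al S) v ω ∂m ∧
      Yk m C lam L (Al S) u ω - lam * ∫ v in {v | v ∈ L ∧ C u v}, chi C (Al S) v ω ∂m ≤
        lam * b ∧
      Yk m C lam L (Al S) u ω - lam * ∫ v in {v | v ∈ L ∧ C u v}, chi C (Al S) v ω ∂m ≤
        lam * ∑ i, gk m C u (ω.2 i) := by
    intro ω
    rw [hG.intchi u ω, Yk, ← mul_sub]
    have hT : m (Tk C L (Al S) u ω) ≠ ⊤ :=
      ((measure_mono (Tk_sub u ω)).trans_lt (hG.near_ne_top u).lt_top).ne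
    have h1 := ENNReal.toReal_mono hT (measure_mono (Fset_sub (L := L) (C := C) u ω))
    have h2 : 0 ≤ (m (Fset C L u ω)).toReal := ENNReal.toReal_nonneg
    refine ⟨mul_nonneg hlam (by linarith), ?_, ?_⟩
    · apply mul_le_mul_of_nonneg_left _ hlam
      linarith [hG.Tk_real_le u ω]
    · exact mul_le_mul_of_nonneg_left (hG.diff_le u ω) hlam
  refine ⟨fun ω => ⟨(key ω).1, (key ω).2.1⟩, ?_⟩
  obtain ⟨hint, hle⟩ := (hI S m C L b κ lam hG hlam).1 (gk m C u) (hG.gk_meas u)
    (fun _ => ENNReal.toReal_nonneg) ⟨b, hG.gk_le u⟩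
  have h1 : ex m C lam L (fun ω => Yk m C lam L (Al S) u ω -
      lam * ∫ v in {v | v ∈ L ∧ C u v}, chi C (Al S) v ω ∂m) ≤
      lam * ex m C lam L (fun ω => ∑ i, gk m C u (ω.2 i)) := by
    unfold ex
    rw [← mul_div_assoc]
    apply div_le_div_of_nonneg_right _ ENNReal.toReal_nonneg
    rw [← integral_const_mul]
    exact integral_mono_of_nonneg (ae_of_all _ fun ω => (key ω).1) (hint.const_mul _)
      (ae_of_all _ fun ω => (key ω).2.2)
  calc _ ≤ lam * ex m C lam L (fun ω => ∑ i, gk m C u (ω.2 i)) := h1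
    _ ≤ lam * (lam * ∫ x in L, gk m C u x ∂m) := mul_le_mul_of_nonneg_left hle hlam
    _ ≤ lam * (lam * (2 * κ * b ^ 2)) := by
        gcongr
        exact hG.int_gk u
    _ = 2 * (lam * b) ^ 2 * κ := by ring

section self

variable {S : Type} [MeasurableSpace S] {m : Measure S} {C : S → S → Prop} {L : Set S} {b κ lam : ℝ}

theorem ex_mono_of {f g : Om S → ℝ} (hf : Integrable f (gib m C lam L))
    (hg : Integrable g (gib m C lam L)) (h : ∀ ω, f ω ≤ g ω) :
    ex m C lam L f ≤ ex m C lam L g :=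
  div_le_div_of_nonneg_right (integral_mono hf hg h) ENNReal.toReal_nonneg

theorem ex_mul_left (c : ℝ) (f : Om S → ℝ) :
    ex m C lam L (fun ω => c * f ω) = c * ex m C lam L f := by
  unfold ex
  rw [integral_const_mul, mul_div_assoc]

theorem ex_add_of {f g : Om S → ℝ} (hf : Integrable f (gib m C lam L))
    (hg : Integrable g (gib m C lam L)) :
    ex m C lam L (fun ω => f ω + g ω) = ex m C lam L f + ex m C lam L g := by
  unfold ex
  rw [integral_add hf hg, add_div]

theorem Yk_nonneg (hlam : 0 ≤ lam) (K : S → Prop) (v : S) (ω : Om S) :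
    0 ≤ Yk m C lam L K v ω := mul_nonneg hlam ENNReal.toReal_nonneg

omit [MeasurableSpace S] in
theorem chi_mem (K : S → Prop) (v : S) (ω : Om S) : 0 ≤ chi C K v ω ∧ chi C K v ω ≤ 1 := by
  unfold chi
  split_ifs <;> norm_num

theorem exp_Yk_mem (hlam : 0 ≤ lam) (K : S → Prop) (v : S) (ω : Om S) :
    0 ≤ Real.exp (-Yk m C lam L K v ω) ∧ Real.exp (-Yk m C lam L K v ω) ≤ 1 :=
  ⟨(Real.exp_pos _).le, Real.exp_le_one_iff.2 (neg_nonpos.2 (Yk_nonneg hlam K v ω))⟩

theorem abs_Dk_le (hlam : 0 ≤ lam) (K : S → Prop) (v : S) (ω : Om S) :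
    |Dk m C lam L K v ω| ≤ 1 := by
  have h1 := chi_mem (C := C) K v ω
  have h2 := exp_Yk_mem (m := m) (C := C) (L := L) hlam K v ω
  unfold Dk
  rw [abs_le]
  constructor <;> linarith [h1.1, h1.2, h2.1, h2.2]

end self

theorem self_of (hY : YCHI) (hLL : LLN) (hM : MEAS) (hB : BAS) : SELF := by
  intro S _ m _ C L b κ lam hG hlam hsmall u
  have hb := hG.b_pos
  have hk := hG.kap_pos
  obtain ⟨-, -, hfin, hXi, -, -⟩ := hB S m C L lam hG.meas hG.measL hG.fin hlam
  obtain ⟨mchi, mY, mD, -, -⟩ :=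
    (hM S m C L lam hG.meas hG.measL hG.fin hlam).1 (Al S) MeasurableSet.univ
  set A : Set S := {v | v ∈ L ∧ C u v} with hA
  have hAfin : m A < ⊤ := (hG.near_ne_top u).lt_top
  have hAm : MeasurableSet A := hG.meas_near u
  have hAr : m.real A ≤ b := ENNReal.toReal_le_of_le_ofReal hb.le (hG.near_le u)
  have : IsFiniteMeasure (m.restrict A) := ⟨by rw [Measure.restrict_apply_univ]; exact hAfin⟩
  set r1 : Om S → ℝ := fun ω => Yk m C lam L (Al S) u ω -
      lam * ∫ v in A, chi C (Al S) v ω ∂m with hr1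
  set r2 : Om S → ℝ := fun ω => ∫ v in A, Dk m C lam L (Al S) v ω ∂m with hr2
  have hr : ∀ ω, Yk m C lam L (Al S) u ω -
      lam * ∫ v in A, Real.exp (-Yk m C lam L (Al S) v ω) ∂m = r1 ω + lam * r2 ω := by
    intro ω
    have i1 : Integrable (fun v => chi C (Al S) v ω) (m.restrict A) := by
      refine Integrable.of_bound (mchi.comp measurable_prodMk_right).aestronglyMeasurable 1
        (ae_of_all _ fun v => ?_)
      have := chi_mem (C := C) (Al S) v ω
      rw [Real.norm_eq_abs, abs_le]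
      constructor <;> linarith [this.1, this.2]
    have i2 : Integrable (fun v => Real.exp (-Yk m C lam L (Al S) v ω)) (m.restrict A) := by
      refine Integrable.of_bound
        ((mY.comp measurable_prodMk_right).neg.exp).aestronglyMeasurable 1
        (ae_of_all _ fun v => ?_)
      have := exp_Yk_mem (m := m) (C := C) (L := L) hlam (Al S) v ω
      rw [Real.norm_eq_abs, abs_le]
      constructor <;> linarith [this.1, this.2]
    simp only [hr1, hr2, Dk]
    rw [integral_sub i1 i2]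
    ring
  have m1 : Measurable r1 := by
    apply (mY.comp measurable_prodMk_left).sub
    apply Measurable.const_mul
    exact (mchi.stronglyMeasurable.integral_prod_left (μ := m.restrict A)
      (f := fun v ω => chi C (Al S) v ω)).measurable
  have m2 : Measurable r2 :=
    (mD.stronglyMeasurable.integral_prod_left (μ := m.restrict A)
      (f := fun v ω => Dk m C lam L (Al S) v ω)).measurable
  have b2 : ∀ ω, |r2 ω| ≤ b := by
    intro ω
    have := norm_setIntegral_le_of_norm_le_const (μ := m) (s := A) (C := 1) hAfin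
      (f := fun v => Dk m C lam L (Al S) v ω)
      (fun v _ => by rw [Real.norm_eq_abs]; exact abs_Dk_le hlam (Al S) v ω)
    rw [Real.norm_eq_abs, one_mul] at this
    exact this.trans hAr
  obtain ⟨hbd, hex⟩ := hY S m C L b κ lam hG hlam u
  have b1 : ∀ ω, 0 ≤ r1 ω ∧ r1 ω ≤ lam * b := hbd
  have hlb : 0 ≤ lam * b := mul_nonneg hlam hb.le
  have I1 : Integrable r1 (gib m C lam L) := by
    refine Integrable.of_bound m1.aestronglyMeasurable (lam * b) (ae_of_all _ fun ω => ?_)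
    rw [Real.norm_eq_abs, abs_of_nonneg (b1 ω).1]
    exact (b1 ω).2
  have I11 : Integrable (fun ω => r1 ω ^ 2) (gib m C lam L) := by
    refine Integrable.of_bound (m1.pow_const 2).aestronglyMeasurable ((lam * b) ^ 2)
      (ae_of_all _ fun ω => ?_)
    rw [Real.norm_eq_abs, abs_of_nonneg (sq_nonneg _)]
    exact pow_le_pow_left₀ (b1 ω).1 (b1 ω).2 2
  have I22 : Integrable (fun ω => r2 ω ^ 2) (gib m C lam L) := by
    refine Integrable.of_bound (m2.pow_const 2).aestronglyMeasurable (b ^ 2)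
      (ae_of_all _ fun ω => ?_)
    rw [Real.norm_eq_abs, abs_of_nonneg (sq_nonneg _), ← sq_abs]
    exact pow_le_pow_left₀ (abs_nonneg _) (b2 ω) 2
  have e1 : ex m C lam L (fun ω => r1 ω ^ 2) ≤ lam * b * (2 * (lam * b) ^ 2 * κ) := by
    calc ex m C lam L (fun ω => r1 ω ^ 2) ≤ ex m C lam L (fun ω => lam * b * r1 ω) := by
          apply ex_mono_of I11 (I1.const_mul _)
          intro ω
          rw [sq]
          exact mul_le_mul_of_nonneg_right (b1 ω).2 (b1 ω).1
      _ = lam * b * ex m C lam L r1 := ex_mul_left _ _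
      _ ≤ _ := mul_le_mul_of_nonneg_left hex hlb
  have e2 : ex m C lam L (fun ω => r2 ω ^ 2) ≤ 4 * (lam * b) * (1 + lam * b) * κ * b ^ 2 :=
    hLL S m C L b κ lam hG hlam hsmall u
  have e3 : ex m C lam L (fun ω => (r1 ω + lam * r2 ω) ^ 2) ≤
      2 * ex m C lam L (fun ω => r1 ω ^ 2) + 2 * lam ^ 2 * ex m C lam L (fun ω => r2 ω ^ 2) := by
    rw [← ex_mul_left, ← ex_mul_left, ← ex_add_of (I11.const_mul _) (I22.const_mul _)]
    refine ex_mono_of ?_ ((I11.const_mul _).add (I22.const_mul _)) ?_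
    · refine Integrable.of_bound ((m1.add (m2.const_mul lam)).pow_const 2).aestronglyMeasurable
        ((lam * b + lam * b) ^ 2) (ae_of_all _ fun ω => ?_)
      rw [Real.norm_eq_abs, abs_of_nonneg (sq_nonneg _), ← sq_abs]
      apply pow_le_pow_left₀ (abs_nonneg _)
      calc |r1 ω + lam * r2 ω| ≤ |r1 ω| + |lam * r2 ω| := abs_add_le _ _
        _ = r1 ω + lam * |r2 ω| := by
            rw [abs_of_nonneg (b1 ω).1, abs_mul, abs_of_nonneg hlam]
        _ ≤ lam * b + lam * b :=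
            add_le_add (b1 ω).2 (mul_le_mul_of_nonneg_left (b2 ω) hlam)
    · intro ω
      nlinarith [sq_nonneg (r1 ω - lam * r2 ω)]
  have hfun : (fun ω => (Yk m C lam L (Al S) u ω -
      lam * ∫ v in A, Real.exp (-Yk m C lam L (Al S) v ω) ∂m) ^ 2) =
      fun ω => (r1 ω + lam * r2 ω) ^ 2 := by
    funext ω
    rw [hr ω]
  rw [hfun]
  calc _ ≤ 2 * ex m C lam L (fun ω => r1 ω ^ 2) +
        2 * lam ^ 2 * ex m C lam L (fun ω => r2 ω ^ 2) := e3
    _ ≤ 2 * (lam * b * (2 * (lam * b) ^ 2 * κ)) +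
        2 * lam ^ 2 * (4 * (lam * b) * (1 + lam * b) * κ * b ^ 2) := by gcongr
    _ ≤ 12 * (lam * b) ^ 3 * (1 + lam * b) * κ := by
        have h1 : 0 ≤ (lam * b) ^ 3 * κ := by positivity
        have h2 : 0 ≤ (lam * b) ^ 3 * κ * (lam * b) := mul_nonneg h1 hlb
        nlinarith [h1, h2]

end Pool.Agent.HdGas
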