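import Pool.Agent.Lib.MF.Avg
import Pool.Agent.Lib.MF.Bas
import Pool.Agent.Lib.MF.Corr
import Pool.Agent.Lib.MF.Dcond
import Pool.Agent.Lib.MF.Dens
import Pool.Agent.Lib.MF.Exchi
import Pool.Agent.Lib.MF.Final
import Pool.Agent.Lib.MF.Free
import Pool.Agent.Lib.MF.Ideal
import Pool.Agent.Lib.MF.Int
import Pool.Agent.Lib.MF.Integ
import Pool.Agent.Lib.MF.Jen
import Pool.Agent.Lib.MF.Lln
import Pool.Agent.Lib.MF.Local
import Pool.Agent.Lib.MF.Markov
import Pool.Agent.Lib.MF.Meas
import Pool.Agent.Lib.MF.Mecke
import Pool.Agent.Lib.MF.PosL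
import Pool.Agent.Lib.MF.RowConv
import Pool.Agent.Lib.MF.RowGas
import Pool.Agent.Lib.MF.RowProf
import Pool.Agent.Lib.MF.Scl
import Pool.Agent.Lib.MF.Slope
import Pool.Agent.Lib.MF.Split
import Pool.Agent.Lib.MF.Thermo
import Pool.Agent.Lib.MF.Xiz
import Pool.Agent.Lib.MF.YChi

/-!
# Mean field theory for hard spheres in high dimension: assembly of the rows
-/

set_option autoImplicit false

namespace Pool.Agent.HdGas

theorem int_row : INT := int_of mecke bas meas

theorem dcond_row : DCOND := dcond_of (markov_of split bas meas) (ideal_of bas) meas bas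

theorem lln_row : LLN := lln_of bas meas (corr_of bas meas int_row dcond_row) avg_of

theorem conv_row : CONV := conv_of (self_of (ychi_of int_row) lln_row meas bas) meas bas

theorem gas_row : GAS := gas_of conv_row int_row dcond_row meas bas

theorem slope_row : SLOPE := slope_of gas_row (jen_of bas)

theorem thermo_row : THERMO := thermo_of bas (xiz_of bas)

theorem dens_row : DENS := dens_of thermo_row slope_row

theorem main : THEOREM :=
  final_of dens_row (free_of thermo_row slope_row integ dens_row) geob_of

theorem local_row : LOCAL :=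
  local_of geol_of posl_of (exchi_of bas meas) (prof_of conv_row dcond_row meas bas) scl

end Pool.Agent.HdGas
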