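import Pool.Agent.Lib.MF.Mecke

/-!
# Project MF (MP_09cbbd_mp), row MEAS (helper59)
-/

set_option autoImplicit false

namespace Pool.Agent.HdGas.Ms

open MeasureTheory Set

variable {S : Type} [MeasurableSpace S]

theorem mk_emb (n : ℕ) : MeasurableEmbedding (fun x : Fin n → S => (⟨n, x⟩ : Om S)) where
  injective := fun x y h => by simpa using h
  measurable := measurable_mk n
  measurableSet_image' := by
    intro s hs
    refine MeasurableSpace.measurableSet_iInf.2 fun k => ?_
    rw [MeasurableSpace.map_def]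
    by_cases hk : k = n
    · subst hk
      have : (Sigma.mk k ⁻¹' ((fun x : Fin k → S => (⟨k, x⟩ : Om S)) '' s)) = s := by
        ext x; simp
      rw [this]; exact hs
    · have : (Sigma.mk k ⁻¹' ((fun x : Fin n → S => (⟨n, x⟩ : Om S)) '' s)) = ∅ := by
        ext x
        simp only [mem_preimage, mem_image, mem_empty_iff_false, iff_false, not_exists, not_and]
        intro y _ h
        exact hk (congrArg Sigma.fst h).symm
      rw [this]; exact MeasurableSet.empty

theorem meas_joint {T β : Type*} [MeasurableSpace T] [MeasurableSpace β] {f : T × Om S → β}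
    (h : ∀ n, Measurable fun p : T × (Fin n → S) => f (p.1, ⟨n, p.2⟩)) : Measurable f := by
  intro s hs
  have : f ⁻¹' s = ⋃ n, (Prod.map id (fun x : Fin n → S => (⟨n, x⟩ : Om S))) ''
      ((fun p : T × (Fin n → S) => f (p.1, ⟨n, p.2⟩)) ⁻¹' s) := by
    ext ⟨v, n, x⟩
    simp only [mem_preimage, mem_iUnion, mem_image]
    constructor
    · intro hq
      exact ⟨n, (v, x), hq, rfl⟩
    · rintro ⟨k, p, hp, he⟩
      rw [← he]
      exact hp
  rw [this]
  refine MeasurableSet.iUnion fun n => ?_
  exact (MeasurableEmbedding.id.prodMap (mk_emb n)).measurableSet_image' (h n hs)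

section

variable {m : Measure S} [SigmaFinite m] {C : S → S → Prop} {L : Set S} {lam : ℝ}

theorem meas_C2 (hC : MeasurableSet {p : S × S | C p.1 p.2}) {T : Type*} [MeasurableSpace T]
    {f g : T → S} (hf : Measurable f) (hg : Measurable g) : MeasurableSet {t | C (f t) (g t)} :=
  hC.preimage (hf.prodMk hg)

theorem meas_free (hC : MeasurableSet {p : S × S | C p.1 p.2}) {K : S → Prop}
    (hK : MeasurableSet {x | K x}) (n : ℕ) :
    MeasurableSet {p : S × (Fin n → S) | ∀ i, K (p.2 i) → ¬ C p.1 (p.2 i)} := by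
  have : {p : S × (Fin n → S) | ∀ i, K (p.2 i) → ¬ C p.1 (p.2 i)} =
      ⋂ i, ({p : S × (Fin n → S) | K (p.2 i)}ᶜ ∪ {p : S × (Fin n → S) | C p.1 (p.2 i)}ᶜ) := by
    ext p
    simp only [mem_ofPred_eq, mem_iInter, mem_union, mem_compl_iff]
    exact forall_congr' fun i => imp_iff_not_or
  rw [this]
  refine MeasurableSet.iInter fun i => MeasurableSet.union ?_ ?_
  · exact (hK.preimage (by fun_prop : Measurable fun p : S × (Fin n → S) => p.2 i)).compl
  · exact (meas_C2 hC (by fun_prop) (by fun_prop)).compl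

/-- The joint set of the places `Tk`. -/
theorem meas_TK (hC : MeasurableSet {p : S × S | C p.1 p.2}) (hL : MeasurableSet L) {K : S → Prop}
    (hK : MeasurableSet {x | K x}) (n : ℕ) {T : Type*} [MeasurableSpace T]
    {v z : T → S} {x : T → (Fin n → S)} (hv : Measurable v) (hz : Measurable z)
    (hx : Measurable x) :
    MeasurableSet {t | z t ∈ Tk C L K (v t) ⟨n, x t⟩} := by
  have hxi : ∀ i, Measurable fun t => x t i := fun i => (measurable_pi_apply i).comp hx
  have : {t | z t ∈ Tk C L K (v t) ⟨n, x t⟩} =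
      (z ⁻¹' L) ∩ ({t | C (v t) (z t)} ∩ ⋂ i : Fin n, (({t | K (x t i)}ᶜ ∪
        {t | C (v t) (x t i)}) ∪ {t | C (z t) (x t i)}ᶜ)) := by
    ext t
    simp only [Tk, mem_ofPred_eq, mem_inter_iff, mem_preimage, mem_iInter, mem_union,
      mem_compl_iff]
    refine and_congr_right fun _ => and_congr_right fun _ => forall_congr' fun i => ?_
    tauto
  rw [this]
  refine (hL.preimage hz).inter ((meas_C2 hC hv hz).inter (MeasurableSet.iInter fun i => ?_))
  exact ((hK.preimage (hxi i)).compl.union (meas_C2 hC hv (hxi i))).union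
    (meas_C2 hC hz (hxi i)).compl

theorem meas_hc (hC : MeasurableSet {p : S × S | C p.1 p.2}) (n : ℕ) :
    MeasurableSet {x : Fin n → S | hc C ⟨n, x⟩} := by
  have : {x : Fin n → S | hc C ⟨n, x⟩} =
      ⋂ i, ⋂ j, {x : Fin n → S | i ≠ j → ¬ C (x i) (x j)} := by
    ext x
    simp [hc]
  rw [this]
  refine MeasurableSet.iInter fun i => MeasurableSet.iInter fun j => ?_
  by_cases hij : i = j
  · have : {x : Fin n → S | i ≠ j → ¬ C (x i) (x j)} = univ := by
      ext x; simp [hij]
    rw [this]; exact MeasurableSet.univ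
  · have : {x : Fin n → S | i ≠ j → ¬ C (x i) (x j)} = {x : Fin n → S | C (x i) (x j)}ᶜ := by
      ext x; simp [hij]
    rw [this]
    exact (meas_C2 hC (measurable_pi_apply i) (measurable_pi_apply j)).compl

theorem meas_hc' (hC : MeasurableSet {p : S × S | C p.1 p.2}) :
    MeasurableSet {ω : Om S | hc C ω} := by
  have : Measurable fun ω : Om S => (hc C ω : Prop) := measurable_om fun n => by
    exact measurableSet_setOfPred.1 (meas_hc hC n)
  exact measurableSet_setOfPred.2 this

theorem Xi_eq (hC : MeasurableSet {p : S × S | C p.1 p.2}) {T : Set S} (_ : MeasurableSet T) :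
    Xi m C lam T = (∑' n : ℕ, ENNReal.ofReal (lam ^ n / n.factorial) *
      (Measure.pi fun _ : Fin n => m) {x | hc C ⟨n, x⟩ ∧ ∀ i, x i ∈ T}).toReal := by
  unfold Xi gib pois
  rw [Measure.restrict_apply MeasurableSet.univ, univ_inter, Measure.sum_apply _ (meas_hc' hC)]
  congr 1
  refine tsum_congr fun n => ?_
  rw [Measure.smul_apply, smul_eq_mul, Measure.map_apply (measurable_mk n) (meas_hc' hC)]
  congr 1
  have hpre : ((fun x : Fin n → S => (⟨n, x⟩ : Om S)) ⁻¹' {ω | hc C ω}) =
      {x : Fin n → S | hc C ⟨n, x⟩} := rfl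
  rw [hpre, ← Measure.restrict_pi_pi, Measure.restrict_apply (meas_hc hC n)]
  congr 1
  ext x
  simp [mem_pi]

omit [MeasurableSpace S] in
theorem chi_sym (C : S → S → Prop) (K : S → Prop) (v : S) {n : ℕ} (x : Fin n → S)
    (σ : Equiv.Perm (Fin n)) : chi C K v ⟨n, x ∘ σ⟩ = chi C K v ⟨n, x⟩ := by
  unfold chi fr
  have : (∀ i : Fin n, K ((x ∘ σ) i) → ¬ C v ((x ∘ σ) i)) ↔ ∀ i : Fin n, K (x i) → ¬ C v (x i) :=
    ⟨fun h i => by simpa using h (σ.symm i), fun h i => h (σ i)⟩
  by_cases h : ∀ i : Fin n, K (x i) → ¬ C v (x i)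
  · rw [if_pos h, if_pos (this.2 h)]
  · rw [if_neg h, if_neg (fun h' => h (this.1 h'))]

omit [MeasurableSpace S] in
theorem Tk_sym (C : S → S → Prop) (L : Set S) (K : S → Prop) (v : S) {n : ℕ} (x : Fin n → S)
    (σ : Equiv.Perm (Fin n)) : Tk C L K v ⟨n, x ∘ σ⟩ = Tk C L K v ⟨n, x⟩ := by
  ext z
  simp only [Tk, mem_ofPred_eq]
  refine and_congr_right fun _ => and_congr_right fun _ => ⟨fun h i => ?_, fun h i => h (σ i)⟩
  have := h (σ.symm i)
  simpa using this

/-- **Row MEAS.** -/
theorem meas_row : MEAS := by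
  intro S _ m _ C L lam hC hL hLf hlam
  refine ⟨fun K hK => ?_, fun v => ?_⟩
  · have h1 : Measurable fun q : S × Om S => chi C K q.1 q.2 := by
      refine meas_joint fun n => ?_
      unfold chi
      refine Measurable.ite ?_ measurable_const measurable_const
      exact meas_free hC hK n
    have h2 : Measurable fun q : S × Om S => Yk m C lam L K q.1 q.2 := by
      refine meas_joint fun n => ?_
      unfold Yk
      refine Measurable.const_mul (Measurable.ennreal_toReal ?_) _
      have h3 : MeasurableSet {t : (S × (Fin n → S)) × S | t.2 ∈ Tk C L K t.1.1 ⟨n, t.1.2⟩} :=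
        meas_TK hC hL hK n (by fun_prop) (by fun_prop) (by fun_prop)
      exact measurable_measure_prodMk_left h3
    refine ⟨h1, h2, ?_, fun v ω => ?_, fun v => ⟨?_, ?_, ?_⟩⟩
    · exact h1.sub (Real.measurable_exp.comp h2.neg)
    · obtain ⟨n, x⟩ := ω
      exact meas_TK hC hL hK n measurable_const measurable_id measurable_const
    · intro n x σ
      exact chi_sym C K v x σ
    · intro n x σ
      simp only [Yk, Tk_sym C L K v x σ]
    · intro n x σ
      simp only [Dk, Yk, Tk_sym C L K v x σ, chi_sym C K v x σ]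
  · refine measurable_om fun n => ?_
    have hT : ∀ x : Fin n → S, MeasurableSet (Tk C L (Al S) v ⟨n, x⟩) := fun x =>
      meas_TK hC hL (by simp [Al]) n measurable_const measurable_id measurable_const
    have : (fun x : Fin n → S => Xi m C lam (Tk C L (Al S) v ⟨n, x⟩)) = fun x =>
        (∑' k : ℕ, ENNReal.ofReal (lam ^ k / k.factorial) *
          (Measure.pi fun _ : Fin k => m)
            {y | hc C ⟨k, y⟩ ∧ ∀ i, y i ∈ Tk C L (Al S) v ⟨n, x⟩}).toReal := by
      funext x
      exact Xi_eq hC (hT x)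
    rw [this]
    refine Measurable.ennreal_toReal (Measurable.tsum fun k => ?_)
    refine Measurable.const_mul ?_ _
    have h3 : MeasurableSet {t : (Fin n → S) × (Fin k → S) |
        hc C ⟨k, t.2⟩ ∧ ∀ i, t.2 i ∈ Tk C L (Al S) v ⟨n, t.1⟩} := by
      have : {t : (Fin n → S) × (Fin k → S) |
        hc C ⟨k, t.2⟩ ∧ ∀ i, t.2 i ∈ Tk C L (Al S) v ⟨n, t.1⟩} =
        (Prod.snd ⁻¹' {y : Fin k → S | hc C ⟨k, y⟩}) ∩
          ⋂ i, {t : (Fin n → S) × (Fin k → S) | t.2 i ∈ Tk C L (Al S) v ⟨n, t.1⟩} := by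
        ext t; simp
      rw [this]
      refine ((meas_hc hC k).preimage measurable_snd).inter (MeasurableSet.iInter fun i => ?_)
      exact meas_TK hC hL (by simp [Al]) n measurable_const (by fun_prop) (by fun_prop)
    exact measurable_measure_prodMk_left h3

end

end Pool.Agent.HdGas.Ms
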