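import Pool.Agent.Lib.MF.BRows
import Pool.Agent.Lib.MF.Bas
import Pool.Agent.Lib.MF.Int
import Pool.Agent.Lib.MF.RowMeas

/-!
# Mecke formula for the gas
-/

set_option autoImplicit false

namespace Pool.Agent.HdGas

open MeasureTheory Filter Topology

namespace Mk

variable {S : Type}

/-- `rem` for functions with values in `[0, ∞]`. -/
noncomputable def remE (G : S → Om S → ENNReal) : Om S → ENNReal
  | ⟨0, _⟩ => 0
  | ⟨n + 1, x⟩ => ∑ i : Fin (n + 1), G (x i) ⟨n, fun j => x (i.succAbove j)⟩

theorem rem_abs_le {H : S → Om S → ℝ} {B : ℝ} (hB : ∀ p ω, |H p ω| ≤ B) (ω : Om S) :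
    |rem H ω| ≤ ω.1 * B := by
  obtain ⟨n, x⟩ := ω
  cases n with
  | zero => simp [rem]
  | succ n =>
    show |∑ i : Fin (n + 1), H (x i) ⟨n, fun j => x (i.succAbove j)⟩| ≤ _
    refine (Finset.abs_sum_le_sum_abs _ _).trans ?_
    refine (Finset.sum_le_sum fun i _ => hB _ _).trans ?_
    simp

theorem rem_sub (H H' : S → Om S → ℝ) (ω : Om S) :
    rem (fun p η => H p η - H' p η) ω = rem H ω - rem H' ω := by
  obtain ⟨n, x⟩ := ω
  cases n with
  | zero => simp [rem]
  | succ n => simp [rem]

theorem rem_nonneg {H : S → Om S → ℝ} (hH : ∀ p ω, 0 ≤ H p ω) (ω : Om S) : 0 ≤ rem H ω := by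
  obtain ⟨n, x⟩ := ω
  cases n with
  | zero => simp [rem]
  | succ n => exact Finset.sum_nonneg fun i _ => hH _ _

theorem ofReal_rem {H : S → Om S → ℝ} (hH : ∀ p ω, 0 ≤ H p ω) (ω : Om S) :
    ENNReal.ofReal (rem H ω) = remE (fun p η => ENNReal.ofReal (H p η)) ω := by
  obtain ⟨n, x⟩ := ω
  cases n with
  | zero => simp [rem, remE]
  | succ n => exact ENNReal.ofReal_sum_of_nonneg fun i _ => hH _ _

variable [MeasurableSpace S]

theorem meas_del {β : Type*} [MeasurableSpace β] {G : S → Om S → β}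
    (hG : Measurable fun q : S × Om S => G q.1 q.2) (n : ℕ) (i : Fin (n + 1)) :
    Measurable fun x : Fin (n + 1) → S => G (x i) ⟨n, fun j => x (i.succAbove j)⟩ := by
  have h1 : Measurable fun x : Fin (n + 1) → S => (fun j => x (i.succAbove j) : Fin n → S) :=
    measurable_pi_lambda _ fun j => measurable_pi_apply _
  exact hG.comp ((measurable_pi_apply i).prodMk ((measurable_mk n).comp h1))

theorem measurable_remE {G : S → Om S → ENNReal}
    (hG : Measurable fun q : S × Om S => G q.1 q.2) : Measurable (remE G) := by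
  refine measurable_om fun n => ?_
  cases n with
  | zero => exact measurable_const
  | succ n => exact Finset.measurable_sum _ fun i _ => meas_del hG n i

theorem measurable_rem {H : S → Om S → ℝ}
    (hH : Measurable fun q : S × Om S => H q.1 q.2) : Measurable (rem H) := by
  refine measurable_om fun n => ?_
  cases n with
  | zero => exact measurable_const
  | succ n => exact Finset.measurable_sum _ fun i _ => meas_del hH n i

theorem meas_slice {β : Type*} [MeasurableSpace β] {G : S → Om S → β}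
    (hG : Measurable fun q : S × Om S => G q.1 q.2) (n : ℕ) :
    Measurable fun q : S × (Fin n → S) => G q.1 ⟨n, q.2⟩ :=
  hG.comp (measurable_fst.prodMk ((measurable_mk n).comp measurable_snd))

theorem lint_del (m : Measure S) [SigmaFinite m] (n : ℕ) (i : Fin (n + 1))
    {G : S → Om S → ENNReal} (hG : Measurable fun q : S × Om S => G q.1 q.2) :
    ∫⁻ x, G (x i) ⟨n, fun j => x (i.succAbove j)⟩ ∂(Measure.pi fun _ : Fin (n + 1) => m) =
      ∫⁻ p, ∫⁻ x, G p ⟨n, x⟩ ∂(Measure.pi fun _ : Fin n => m) ∂m := by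
  have h := measurePreserving_piFinSuccAbove (fun _ : Fin (n + 1) => m) i
  have hm := meas_slice hG n
  rw [← lintegral_prod _ hm.aemeasurable, ← h.lintegral_comp hm]
  rfl

/-- Mecke formula for functions of the point and of the other points. -/
theorem meckeE (m : Measure S) [SigmaFinite m] {lam : ℝ} (hlam : 0 ≤ lam) (L : Set S)
    {G : S → Om S → ENNReal} (hG : Measurable fun q : S × Om S => G q.1 q.2) :
    ∫⁻ ω, remE G ω ∂pois m lam L =
      ENNReal.ofReal lam * ∫⁻ p in L, ∫⁻ ω, G p ω ∂pois m lam L ∂m := by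
  rw [lint_pois m lam L (measurable_remE hG), tsum_eq_zero_add' ENNReal.summable]
  have h0 : ENNReal.ofReal (lam ^ 0 / (Nat.factorial 0 : ℝ)) *
      ∫⁻ x, remE G ⟨0, x⟩ ∂(Measure.pi fun _ : Fin 0 => m.restrict L) = 0 := by
    simp [remE]
  rw [h0, zero_add]
  have hI : ∀ n : ℕ, Measurable fun p : S =>
      ∫⁻ x, G p ⟨n, x⟩ ∂(Measure.pi fun _ : Fin n => m.restrict L) := fun n =>
    Measurable.lintegral_prod_right' (f := fun q : S × (Fin n → S) => G q.1 ⟨n, q.2⟩)
      (meas_slice hG n)
  have hR : ∀ p : S, ∫⁻ ω, G p ω ∂pois m lam L =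
      ∑' n : ℕ, ENNReal.ofReal (lam ^ n / n.factorial) *
        ∫⁻ x, G p ⟨n, x⟩ ∂(Measure.pi fun _ : Fin n => m.restrict L) := fun p =>
    lint_pois m lam L (hG.comp measurable_prodMk_left)
  simp only [hR]
  rw [lintegral_tsum fun n => ((hI n).const_mul _).aemeasurable, ← ENNReal.tsum_mul_left]
  refine tsum_congr fun n => ?_
  have h1 : ∫⁻ x, remE G ⟨n + 1, x⟩ ∂(Measure.pi fun _ : Fin (n + 1) => m.restrict L) =
      ((n + 1 : ℕ) : ENNReal) *
        ∫⁻ p in L, ∫⁻ x, G p ⟨n, x⟩ ∂(Measure.pi fun _ : Fin n => m.restrict L) ∂m := by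
    show ∫⁻ x, ∑ i : Fin (n + 1), G (x i) ⟨n, fun j => x (i.succAbove j)⟩
      ∂(Measure.pi fun _ : Fin (n + 1) => m.restrict L) = _
    rw [lintegral_finsetSum _ fun i _ => meas_del hG n i]
    rw [Finset.sum_congr rfl fun i _ => lint_del (m.restrict L) n i hG]
    simp
  rw [h1, lintegral_const_mul _ (hI n), ← mul_assoc, ← mul_assoc]
  congr 1
  rw [← ENNReal.ofReal_natCast, ← ENNReal.ofReal_mul (by positivity),
    ← ENNReal.ofReal_mul hlam]
  congr 1
  rw [Nat.factorial_succ, pow_succ]
  push_cast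
  field_simp

omit [MeasurableSpace S] in
/-- The same configuration, up to the order of the points. -/
theorem hc_del (C : S → S → Prop) (n : ℕ) (x : Fin (n + 1) → S) (i : Fin (n + 1)) :
    hc C ⟨n + 1, x⟩ ↔ hc C (ins (x i) ⟨n, fun j => x (i.succAbove j)⟩) := by
  constructor
  · intro h a b hab
    have key : ∀ a : Fin (n + 1), (ins (x i) ⟨n, fun j => x (i.succAbove j)⟩ : Om S).2 a =
        x (Fin.cases i (fun j => i.succAbove j) a) := by
      intro a
      refine Fin.cases ?_ (fun j => ?_) a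
      · rfl
      · rfl
    have hne : (Fin.cases i (fun j => i.succAbove j) a : Fin (n + 1)) ≠
        Fin.cases i (fun j => i.succAbove j) b := by
      induction a using Fin.cases with
      | zero =>
        induction b using Fin.cases with
        | zero => exact absurd rfl hab
        | succ b => exact (Fin.succAbove_ne i b).symm
      | succ a =>
        induction b using Fin.cases with
        | zero => exact Fin.succAbove_ne i a
        | succ b =>
          intro e
          exact hab (congrArg Fin.succ (Fin.succAbove_right_injective e))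
    rw [key a, key b]
    exact h _ _ hne
  · intro h a b hab
    have key : ∀ a : Fin (n + 1), ∃ a' : Fin (n + 1),
        (ins (x i) ⟨n, fun j => x (i.succAbove j)⟩ : Om S).2 a' = x a ∧
          (Fin.cases i (fun j => i.succAbove j) a' : Fin (n + 1)) = a := by
      intro a
      rcases Fin.eq_self_or_eq_succAbove i a with h | ⟨j, h⟩
      · exact ⟨0, by rw [h]; rfl, h.symm⟩
      · exact ⟨j.succ, by rw [h]; rfl, h.symm⟩
    obtain ⟨a', ha, ha'⟩ := key a
    obtain ⟨b', hb, hb'⟩ := key b
    have hne : a' ≠ b' := by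
      rintro rfl
      exact hab (ha'.symm.trans hb')
    have := h a' b' hne
    rwa [ha, hb] at this

open Classical in
/-- Mecke formula for the gas. -/
theorem gibE (m : Measure S) [SigmaFinite m] {C : S → S → Prop} {lam : ℝ} {L : Set S}
    (hC : MeasurableSet {p : S × S | C p.1 p.2}) (hs : ∀ x y, C x y → C y x)
    (hlam : 0 ≤ lam) {G : S → Om S → ENNReal} (hG : Measurable fun q : S × Om S => G q.1 q.2) :
    ∫⁻ ω, remE G ω ∂gib m C lam L = ENNReal.ofReal lam * ∫⁻ p in L, ∫⁻ ω,
      ENNReal.ofReal (chi C (Al S) p ω) * G p ω ∂gib m C lam L ∂m := by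
  have hm : MeasurableSet {ω : Om S | hc C ω} := meas_hc hC
  have hinsm : Measurable fun q : S × Om S => ins q.1 q.2 := by
    have h : ∀ n : ℕ, Measurable fun q : S × (Fin n → S) => (ins q.1 ⟨n, q.2⟩ : Om S) := fun n =>
      (measurable_mk (n + 1)).comp (measurable_cons n)
    intro t ht
    have e : (fun q : S × Om S => ins q.1 q.2) ⁻¹' t =
        ⋃ n : ℕ, {q : S × Om S | q.2.1 = n} ∩ (fun q : S × Om S => ins q.1 q.2) ⁻¹' t := by
      ext q
      simp
    exact Ms.meas_joint (f := fun q : S × Om S => ins q.1 q.2) h ht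
  have hG' : Measurable fun q : S × Om S =>
      {ω : Om S | hc C ω}.indicator (fun _ => (1 : ENNReal)) (ins q.1 q.2) * G q.1 q.2 :=
    ((measurable_const.indicator hm).comp hinsm).mul hG
  have h1 := meckeE m hlam L (G := fun p ω =>
    {ω : Om S | hc C ω}.indicator (fun _ => (1 : ENNReal)) (ins p ω) * G p ω) hG'
  have h2 : ∀ ω : Om S, remE (fun p ω =>
      {ω : Om S | hc C ω}.indicator (fun _ => (1 : ENNReal)) (ins p ω) * G p ω) ω =
      {ω : Om S | hc C ω}.indicator (remE G) ω := by
    rintro ⟨n, x⟩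
    cases n with
    | zero => simp [remE, Set.indicator]
    | succ n =>
      show ∑ i : Fin (n + 1), {ω : Om S | hc C ω}.indicator (fun _ => (1 : ENNReal))
        (ins (x i) ⟨n, fun j => x (i.succAbove j)⟩) * G (x i) ⟨n, fun j => x (i.succAbove j)⟩ = _
      by_cases h : hc C ⟨n + 1, x⟩
      · rw [Set.indicator_of_mem (show (⟨n + 1, x⟩ : Om S) ∈ {ω : Om S | hc C ω} from h)]
        refine Finset.sum_congr rfl fun i _ => ?_
        rw [Set.indicator_of_mem (show ins (x i) ⟨n, fun j => x (i.succAbove j)⟩ ∈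
          {ω : Om S | hc C ω} from (hc_del C n x i).1 h), one_mul]
      · rw [Set.indicator_of_notMem (show (⟨n + 1, x⟩ : Om S) ∉ {ω : Om S | hc C ω} from h)]
        refine Finset.sum_eq_zero fun i _ => ?_
        rw [Set.indicator_of_notMem (show ins (x i) ⟨n, fun j => x (i.succAbove j)⟩ ∉
          {ω : Om S | hc C ω} from fun h' => h ((hc_del C n x i).2 h')), zero_mul]
  simp only [h2] at h1
  rw [lintegral_indicator hm] at h1
  unfold gib
  rw [h1]
  congr 1
  refine lintegral_congr fun p => ?_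
  rw [← lintegral_indicator hm]
  refine lintegral_congr fun ω => ?_
  by_cases ha : hc C ω
  · by_cases hb : fr C (Al S) p ω
    · have : hc C (ins p ω) := (hc_ins hs p ω).2 ⟨ha, hb⟩
      simp [Set.indicator, ha, this, chi, hb]
    · have : ¬ hc C (ins p ω) := fun h => hb ((hc_ins hs p ω).1 h).2
      simp [Set.indicator, ha, this, chi, hb]
  · have : ¬ hc C (ins p ω) := fun h => ha ((hc_ins hs p ω).1 h).1
    simp [Set.indicator, ha, this]

end Mk

/-- Row MK. -/
theorem mk_of : MK := by
  intro S _ m _ C lam L M hF H hH _ hB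
  obtain ⟨B, hB⟩ := hB
  obtain ⟨hmhc, hfp, hfg, hXi1, -, -⟩ := bas S m C L lam hF.meas hF.measL hF.fin hF.pos.le
  obtain ⟨hmeas, -⟩ := Ms.meas_row S m C L lam hF.meas hF.measL hF.fin hF.pos.le
  have hchm : Measurable fun q : S × Om S => chi C (Al S) q.1 q.2 :=
    (hmeas (Al S) (by simp [Al])).1
  have hfm : IsFiniteMeasure (m.restrict L) := ⟨by
    rw [Measure.restrict_apply_univ]; exact lt_top_iff_ne_top.2 hF.fin⟩
  -- integrability
  have hint : ∀ (K : S → Om S → ℝ) (D : ℝ), (Measurable fun q : S × Om S => K q.1 q.2) →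
      (∀ p ω, |K p ω| ≤ D) → Integrable (rem K) (gib m C lam L) := by
    intro K D hK hD
    refine Integrable.of_bound (C := M * |D|) (Mk.measurable_rem hK).aestronglyMeasurable ?_
    filter_upwards [hF.few] with ω hω
    rw [Real.norm_eq_abs]
    refine (Mk.rem_abs_le (B := |D|) (fun p ω => (hD p ω).trans (le_abs_self D)) ω).trans ?_
    exact mul_le_mul_of_nonneg_right (Nat.cast_le.2 hω) (abs_nonneg D)
  have hbd : ∀ (K : S → Om S → ℝ) (D : ℝ), (∀ p ω, |K p ω| ≤ D) →
      ∀ p ω, |chi C (Al S) p ω * K p ω| ≤ |D| := by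
    intro K D hD p ω
    rw [abs_mul, abs_of_nonneg (chi_nonneg _ _ _ _)]
    calc chi C (Al S) p ω * |K p ω| ≤ 1 * |D| :=
          mul_le_mul (chi_le_one _ _ _ _) ((hD p ω).trans (le_abs_self D)) (abs_nonneg _) zero_le_one
      _ = |D| := one_mul _
  have hint2 : ∀ (K : S → Om S → ℝ) (D : ℝ), (Measurable fun q : S × Om S => K q.1 q.2) →
      (∀ p ω, |K p ω| ≤ D) → ∀ p, Integrable (fun ω => chi C (Al S) p ω * K p ω)
        (gib m C lam L) := by
    intro K D hK hD p
    refine Integrable.of_bound (C := |D|)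
      ((hchm.mul hK).comp measurable_prodMk_left).aestronglyMeasurable
      (Eventually.of_forall fun ω => ?_)
    rw [Real.norm_eq_abs]
    exact hbd K D hD p ω
  have hint3 : ∀ (K : S → Om S → ℝ) (D : ℝ), (Measurable fun q : S × Om S => K q.1 q.2) →
      (∀ p ω, |K p ω| ≤ D) → Integrable
        (fun p => ∫ ω, chi C (Al S) p ω * K p ω ∂gib m C lam L) (m.restrict L) := by
    intro K D hK hD
    have hm : Measurable fun p => ∫ ω, chi C (Al S) p ω * K p ω ∂gib m C lam L :=
      ((hchm.mul hK).stronglyMeasurable.integral_prod_right' (f := fun q : S × Om S =>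
        chi C (Al S) q.1 q.2 * K q.1 q.2)).measurable
    refine Integrable.of_bound (C := |D| * (gib m C lam L).real Set.univ)
      hm.aestronglyMeasurable (Eventually.of_forall fun p => ?_)
    exact norm_integral_le_of_norm_le_const (Eventually.of_forall fun ω => by
      rw [Real.norm_eq_abs]
      exact hbd K D hD p ω)
  -- nonnegative functions
  have hpos : ∀ (K : S → Om S → ℝ) (D : ℝ), (Measurable fun q : S × Om S => K q.1 q.2) →
      (∀ p ω, |K p ω| ≤ D) → (∀ p ω, 0 ≤ K p ω) → ∫ ω, rem K ω ∂gib m C lam L =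
        lam * ∫ p in L, ∫ ω, chi C (Al S) p ω * K p ω ∂gib m C lam L ∂m := by
    intro K D hK hD h0
    rw [integral_eq_lintegral_of_nonneg_ae (Eventually.of_forall fun ω => Mk.rem_nonneg h0 ω)
      (Mk.measurable_rem hK).aestronglyMeasurable]
    simp only [Mk.ofReal_rem h0]
    rw [Mk.gibE m hF.meas hF.symm hF.pos.le (G := fun p η => ENNReal.ofReal (K p η))
      hK.ennreal_ofReal, ENNReal.toReal_mul, ENNReal.toReal_ofReal hF.pos.le]
    congr 1
    rw [integral_eq_lintegral_of_nonneg_ae (Eventually.of_forall fun p =>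
      integral_nonneg fun ω => mul_nonneg (chi_nonneg _ _ _ _) (h0 _ _))
      (hint3 K D hK hD).aestronglyMeasurable]
    congr 1
    refine lintegral_congr fun p => ?_
    rw [ofReal_integral_eq_lintegral_ofReal (hint2 K D hK hD p) (Eventually.of_forall fun ω =>
      mul_nonneg (chi_nonneg _ _ _ _) (h0 _ _))]
    refine lintegral_congr fun ω => ?_
    rw [ENNReal.ofReal_mul (chi_nonneg _ _ _ _)]
  refine ⟨hint H B hH hB, ?_⟩
  have hB0 : ∀ p ω, 0 ≤ H p ω + |B| := fun p ω => by
    have := abs_le.1 (hB p ω)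
    linarith [this.1, le_abs_self B]
  have hH1 : Measurable fun q : S × Om S => H q.1 q.2 + |B| := hH.add_const _
  have hH2 : Measurable fun _ : S × Om S => |B| := measurable_const
  have hD1 : ∀ p ω, |H p ω + (|B|)| ≤ 2 * |B| := fun p ω => by
    have := abs_le.1 (hB p ω)
    rw [abs_of_nonneg (hB0 p ω)]
    linarith [this.2, le_abs_self B]
  have hD2 : ∀ (p : S) (ω : Om S), |(|B|)| ≤ |B| := fun p ω => (abs_abs B).le
  have e1 := hpos (fun p ω => H p ω + |B|) (2 * |B|) hH1 hD1 hB0
  have e2 := hpos (fun _ _ => |B|) |B| hH2 hD2 (fun _ _ => abs_nonneg B)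
  have e3 : ∀ ω, rem H ω = rem (fun p ω => H p ω + |B|) ω - rem (fun _ _ => |B|) ω := by
    intro ω
    rw [← Mk.rem_sub]
    simp
  have e4 : ∀ p, ∫ ω, chi C (Al S) p ω * H p ω ∂gib m C lam L =
      (∫ ω, chi C (Al S) p ω * (H p ω + |B|) ∂gib m C lam L) -
        ∫ ω, chi C (Al S) p ω * |B| ∂gib m C lam L := by
    intro p
    rw [← integral_sub (hint2 (fun p ω => H p ω + |B|) (2 * |B|) hH1 hD1 p)
      (hint2 (fun _ _ => |B|) |B| hH2 hD2 p)]
    refine integral_congr_ae (Eventually.of_forall fun ω => ?_)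
    simp only
    ring
  simp only [e3, e4]
  rw [integral_sub (hint _ _ hH1 hD1) (hint (fun _ _ => |B|) |B| hH2 hD2), e1, e2,
    integral_sub (hint3 (fun p ω => H p ω + |B|) (2 * |B|) hH1 hD1)
      (hint3 (fun _ _ => |B|) |B| hH2 hD2)]
  ring

end Pool.Agent.HdGas
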