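import Pool.Agent.Lib.MF.Em

/-!
# Hard spheres, row MON: balls are mixtures of lower dimensional balls (helper59)
-/

set_option autoImplicit false

namespace Pool.Agent.HdGas

open MeasureTheory Filter Topology Set

noncomputable section

namespace Mon

/-- `∫_{-1}^1 cos (s u) √(1-u²)^m du`. -/
def J (m : ℕ) (s : ℝ) : ℝ := ∫ u in (-1 : ℝ)..1, Real.cos (s * u) * √(1 - u ^ 2) ^ m

theorem J_cont (m : ℕ) : Continuous (J m) := by
  unfold J
  exact intervalIntegral.continuous_parametric_intervalIntegral_of_continuous'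
    (by fun_prop : Continuous (Function.uncurry fun (s u : ℝ) =>
      Real.cos (s * u) * √(1 - u ^ 2) ^ m)) _ _

/-- Scaling. -/
theorem scal (m : ℕ) (s : ℝ) {r : ℝ} (hr : 0 < r) :
    ∫ u, (Ioo (-r) r).indicator (fun u => Real.cos (s * u) * √(r ^ 2 - u ^ 2) ^ m) u =
      r ^ (m + 1) * J m (s * r) := by
  have h := Measure.integral_comp_mul_left
    ((Ioo (-r) r).indicator (fun u => Real.cos (s * u) * √(r ^ 2 - u ^ 2) ^ m)) r
  rw [abs_of_pos (inv_pos.2 hr), smul_eq_mul] at h
  have h1 : ∀ v : ℝ, (Ioo (-r) r).indicator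
      (fun u => Real.cos (s * u) * √(r ^ 2 - u ^ 2) ^ m) (r * v) =
      r ^ m * (Ioo (-1 : ℝ) 1).indicator
        (fun v => Real.cos (s * r * v) * √(1 - v ^ 2) ^ m) v := by
    intro v
    by_cases hv : v ∈ Ioo (-1 : ℝ) 1
    · have hv' : r * v ∈ Ioo (-r) r := ⟨by nlinarith [hv.1], by nlinarith [hv.2]⟩
      rw [indicator_of_mem hv, indicator_of_mem hv']
      have h2 : r ^ 2 - (r * v) ^ 2 = r ^ 2 * (1 - v ^ 2) := by ring
      rw [h2, Real.sqrt_mul (by positivity), Real.sqrt_sq hr.le, mul_pow, ← mul_assoc s r v]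
      ring
    · have hv' : r * v ∉ Ioo (-r) r := by
        intro h3
        apply hv
        constructor
        · have := h3.1; by_contra hc; push Not at hc; nlinarith
        · have := h3.2; by_contra hc; push Not at hc; nlinarith
      rw [indicator_of_notMem hv, indicator_of_notMem hv', mul_zero]
  simp_rw [h1] at h
  rw [integral_const_mul, integral_indicator measurableSet_Ioo, ← integral_Ioc_eq_integral_Ioo,
    ← intervalIntegral.integral_of_le (by norm_num)] at h
  have h4 : r ^ m * J m (s * r) = r⁻¹ * ∫ u, (Ioo (-r) r).indicator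
      (fun u => Real.cos (s * u) * √(r ^ 2 - u ^ 2) ^ m) u := h
  field_simp at h4
  rw [← h4]
  ring

theorem swap (m : ℕ) (s : ℝ) :
    J m 0 * J (m + 1) s = ∫ x in (-1 : ℝ)..1, √(1 - x ^ 2) ^ (m + 1) * J m (s * √(1 - x ^ 2)) := by
  set B : Set (ℝ × ℝ) := {p | p.1 ^ 2 + p.2 ^ 2 < 1} with hB
  have hBo : IsOpen B := isOpen_lt (by fun_prop) continuous_const
  set G : ℝ × ℝ → ℝ := B.indicator fun p =>
    Real.cos (s * p.2) * √(1 - p.1 ^ 2 - p.2 ^ 2) ^ m with hG
  have hBs : B ⊆ Icc ((-1 : ℝ), (-1 : ℝ)) (1, 1) := by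
    intro p hp
    have hp' : p.1 ^ 2 + p.2 ^ 2 < 1 := hp
    have h1 := abs_le_of_sq_le_sq' (a := p.1) (b := 1) (by nlinarith [sq_nonneg p.2]) one_pos.le
    have h2 := abs_le_of_sq_le_sq' (a := p.2) (b := 1) (by nlinarith [sq_nonneg p.1]) one_pos.le
    exact ⟨⟨h1.1, h2.1⟩, ⟨h1.2, h2.2⟩⟩
  have hint : Integrable G (volume.prod volume) := by
    rw [hG, integrable_indicator_iff hBo.measurableSet]
    have hfin : IsFiniteMeasure ((volume.prod volume : Measure (ℝ × ℝ)).restrict B) :=
      ⟨by rw [Measure.restrict_apply_univ]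
          exact (measure_mono hBs).trans_lt isCompact_Icc.measure_lt_top⟩
    refine Integrable.of_bound (C := 1) ?_ ?_
    · exact (by fun_prop : Continuous fun p : ℝ × ℝ =>
        Real.cos (s * p.2) * √(1 - p.1 ^ 2 - p.2 ^ 2) ^ m).aestronglyMeasurable
    · refine Eventually.of_forall fun p => ?_
      rw [norm_mul, Real.norm_eq_abs, norm_pow, Real.norm_eq_abs, abs_of_nonneg (Real.sqrt_nonneg _)]
      have h1 := Real.abs_cos_le_one (s * p.2)
      have h2 : √(1 - p.1 ^ 2 - p.2 ^ 2) ≤ 1 :=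
        Real.sqrt_le_one.2 (by nlinarith [sq_nonneg p.1, sq_nonneg p.2])
      have h3 : √(1 - p.1 ^ 2 - p.2 ^ 2) ^ m ≤ 1 := pow_le_one₀ (Real.sqrt_nonneg _) h2
      have h4 : 0 ≤ √(1 - p.1 ^ 2 - p.2 ^ 2) ^ m := by positivity
      calc _ ≤ (1 : ℝ) * 1 := mul_le_mul h1 h3 h4 zero_le_one
        _ = 1 := one_mul 1
  -- a slice
  have key : ∀ (x u : ℝ), x ^ 2 < 1 → (u ∈ Ioo (-√(1 - x ^ 2)) (√(1 - x ^ 2)) ↔ x ^ 2 + u ^ 2 < 1) := by
    intro x u hx
    have h1 : 0 < 1 - x ^ 2 := by linarith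
    rw [mem_Ioo, ← abs_lt, Real.lt_sqrt (abs_nonneg u), sq_abs]
    constructor <;> intro h <;> linarith
  have e1 : ∀ x : ℝ, ∫ u, G (x, u) = (Ioo (-1 : ℝ) 1).indicator
      (fun x => √(1 - x ^ 2) ^ (m + 1) * J m (s * √(1 - x ^ 2))) x := by
    intro x
    by_cases hx : x ∈ Ioo (-1 : ℝ) 1
    · have hx1 : x ^ 2 < 1 := by nlinarith [hx.1, hx.2]
      have h0 : 0 < 1 - x ^ 2 := by linarith
      rw [indicator_of_mem hx, ← scal m s (Real.sqrt_pos.2 h0)]
      congr 1
      funext u
      rw [hG]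
      by_cases hu : (x, u) ∈ B
      · rw [indicator_of_mem hu, indicator_of_mem ((key x u hx1).2 hu), Real.sq_sqrt h0.le]
      · rw [indicator_of_notMem hu, indicator_of_notMem (fun h => hu ((key x u hx1).1 h))]
    · rw [indicator_of_notMem hx]
      have hx1 : 1 ≤ x ^ 2 := by
        by_contra hc
        push Not at hc
        exact hx (abs_lt.1 ((sq_lt_one_iff_abs_lt_one x).1 hc))
      have : (fun u => G (x, u)) = fun _ => 0 := by
        funext u
        rw [hG, indicator_of_notMem]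
        intro h
        have h' : x ^ 2 + u ^ 2 < 1 := h
        nlinarith [sq_nonneg u]
      rw [this, integral_zero]
  have e2 : ∀ u : ℝ, ∫ x, G (x, u) = (Ioo (-1 : ℝ) 1).indicator
      (fun u => J m 0 * (Real.cos (s * u) * √(1 - u ^ 2) ^ (m + 1))) u := by
    intro u
    by_cases hu : u ∈ Ioo (-1 : ℝ) 1
    · have hu1 : u ^ 2 < 1 := by nlinarith [hu.1, hu.2]
      have h0 : 0 < 1 - u ^ 2 := by linarith
      rw [indicator_of_mem hu]
      have h1 := scal m 0 (Real.sqrt_pos.2 h0)
      rw [zero_mul] at h1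
      have h2 : (fun x => G (x, u)) = fun x => Real.cos (s * u) *
          (Ioo (-√(1 - u ^ 2)) (√(1 - u ^ 2))).indicator
            (fun x => Real.cos (0 * x) * √(√(1 - u ^ 2) ^ 2 - x ^ 2) ^ m) x := by
        funext x
        rw [hG]
        by_cases hx : (x, u) ∈ B
        · have hx' : u ^ 2 + x ^ 2 < 1 := by
            have : x ^ 2 + u ^ 2 < 1 := hx
            linarith
          rw [indicator_of_mem hx, indicator_of_mem ((key u x hu1).2 hx'), Real.sq_sqrt h0.le]
          have h3 : 1 - x ^ 2 - u ^ 2 = 1 - u ^ 2 - x ^ 2 := by ring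
          simp only [zero_mul, Real.cos_zero, one_mul]
          rw [h3]
        · rw [indicator_of_notMem hx, indicator_of_notMem, mul_zero]
          intro h
          have h' := (key u x hu1).1 h
          exact hx (by show x ^ 2 + u ^ 2 < 1; linarith)
      rw [h2, integral_const_mul, h1]
      ring
    · rw [indicator_of_notMem hu]
      have hu1 : 1 ≤ u ^ 2 := by
        by_contra hc
        push Not at hc
        exact hu (abs_lt.1 ((sq_lt_one_iff_abs_lt_one u).1 hc))
      have : (fun x => G (x, u)) = fun _ => 0 := by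
        funext x
        rw [hG, indicator_of_notMem]
        intro h
        have h' : x ^ 2 + u ^ 2 < 1 := h
        nlinarith [sq_nonneg x]
      rw [this, integral_zero]
  have hf := integral_integral_swap (f := fun x u => G (x, u)) (μ := volume) (ν := volume)
    (by exact hint)
  simp_rw [e1, e2] at hf
  rw [integral_indicator measurableSet_Ioo, ← integral_Ioc_eq_integral_Ioo,
    ← intervalIntegral.integral_of_le (by norm_num), integral_indicator measurableSet_Ioo,
    ← integral_Ioc_eq_integral_Ioo, ← intervalIntegral.integral_of_le (by norm_num),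
    intervalIntegral.integral_const_mul] at hf
  rw [hf]
  rfl

theorem J_zero (m : ℕ) : J m 0 = ∫ u in (-1 : ℝ)..1, √(1 - u ^ 2) ^ m := by
  unfold J
  apply intervalIntegral.integral_congr
  intro u _
  simp

theorem J_zero_pos (m : ℕ) : 0 < J m 0 := by
  rw [J_zero]
  apply intervalIntegral.intervalIntegral_pos_of_pos_on
  · apply Continuous.intervalIntegrable; fun_prop
  · intro u hu
    apply pow_pos
    apply Real.sqrt_pos.2
    nlinarith [hu.1, hu.2]
  · norm_num

end Mon

open Mon in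
/-- **Row MON.** -/
theorem mon : MON := by
  intro d ε hd hε h s hs
  obtain ⟨m, rfl⟩ : ∃ m, d = m + 1 := ⟨d - 1, by omega⟩
  have e1 : ∀ s, Phi (m + 1) s = J m s / J m 0 := by
    intro s
    rw [J_zero, Phi, Nat.add_sub_cancel]
    rfl
  have e2 : ∀ s, Phi (m + 1 + 1) s = J (m + 1) s / J (m + 1) 0 := by
    intro s
    rw [J_zero, Phi, Nat.add_sub_cancel]
    rfl
  have h1 : ∀ s, 0 ≤ s → -ε * J m 0 ≤ J m s := by
    intro s hs
    have := h s hs
    rw [e1, le_div_iff₀ (J_zero_pos m)] at this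
    exact this
  rw [e2, le_div_iff₀ (J_zero_pos (m + 1))]
  have hJ := J_cont m
  have h2 : ∫ x in (-1 : ℝ)..1, √(1 - x ^ 2) ^ (m + 1) * (-ε * J m 0) ≤
      ∫ x in (-1 : ℝ)..1, √(1 - x ^ 2) ^ (m + 1) * J m (s * √(1 - x ^ 2)) := by
    apply intervalIntegral.integral_mono_on (by norm_num)
    · apply Continuous.intervalIntegrable; fun_prop
    · apply Continuous.intervalIntegrable; fun_prop
    · intro x _
      exact mul_le_mul_of_nonneg_left (h1 _ (mul_nonneg hs (Real.sqrt_nonneg _))) (by positivity)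
  rw [← swap, intervalIntegral.integral_mul_const, ← J_zero] at h2
  have h3 : J m 0 * (-ε * J (m + 1) 0) ≤ J m 0 * J (m + 1) s := by linarith
  exact le_of_mul_le_mul_left h3 (J_zero_pos m)

end

end Pool.Agent.HdGas
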