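import Pool.Agent.Lib.MF.PosL
import Pool.Agent.Lib.MF.Em

/-!
# Row POE: positivity of the exclusion relation of hard spheres (helper39)
-/

set_option autoImplicit false

namespace Pool.Agent.HdGas

open MeasureTheory Filter Topology

theorem epd_pos (d : ℕ) : 0 < epd d := by
  unfold epd
  positivity

theorem em_pos (d : ℕ) : 0 < emd d := by
  unfold emd
  split_ifs
  · norm_num
  · exact lt_min (by norm_num) (epd_pos d)
  · exact epd_pos d

theorem Phi_em (h2 : EP2) (h3 : EP3) (hM : MON) {d : ℕ} (hd : 1 ≤ d) {s : ℝ} (hs : 0 ≤ s) :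
    -emd d ≤ Phi d s := by
  have h4 : ∀ d : ℕ, 3 ≤ d → ∀ s : ℝ, 0 ≤ s → -(1 / 11) ≤ Phi d s := by
    intro d hd
    induction d, hd using Nat.le_induction with
    | base => exact h3
    | succ n hn ih => exact hM n (1 / 11) (by omega) (by norm_num) ih
  unfold emd
  split_ifs with h5 h6
  · rw [h5]
    exact h2 s hs
  · rcases min_choice (1 / 11 : ℝ) (epd d) with h | h
    · rw [h]
      exact h4 d h6 s hs
    · rw [h]
      exact phi d hd s hs
  · exact phi d hd s hs

/-- Row POE. -/
theorem poe_of (h2 : EP2) (h3 : EP3) (hM : MON) : POE := by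
  intro d hd
  refine ⟨em_pos d, fun L hL hf => ?_⟩
  refine posi_of hd (em_pos d).le (fun ξ => ?_) hL hf
  rw [ballF d hd ξ]
  have h := Phi_em h2 h3 hM hd (Real.sqrt_nonneg (∑ k, ξ k ^ 2))
  have hbv : 0 ≤ bv d := ENNReal.toReal_nonneg
  nlinarith [mul_le_mul_of_nonneg_left h hbv]

end Pool.Agent.HdGas

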