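import Pool.Agent.Lib.MF.Pars
import Pool.Agent.Lib.MF.Geob
import Pool.Agent.Lib.MF.BallF
import Pool.Agent.Lib.MF.RowPhi
import Pool.Agent.Lib.MF.Top2

/-!
# Project MF, rows GEOL and POSL (helper62): geometry and positivity in any region
-/

set_option autoImplicit false

namespace Pool.Agent.HdGas

open MeasureTheory Filter Topology FourierTransform

open Pars

noncomputable section

open GeobR in
/-- Row GEOL. -/
theorem geol_of : GEOL := by
  intro d _ L hL hf
  refine ⟨measurable_Cb d, fun x => ?_, Cb_symm, hL, hf, bv_pos d, MF.Geo.kap_pos d,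
    MF.Geo.kap_le_one d, fun u => (vol_ball u).le, vol_far, vol_pair⟩
  rw [Cb_iff, dist_self]
  exact one_pos

/-- Positivity from the Fourier transform, in any region. -/
theorem posi_of {d : ℕ} (hd : 1 ≤ d) {ε : ℝ} (hε : 0 ≤ ε) (hF : ∀ ξ : Fin d → ℝ,
    -(ε * bv d) ≤ ∫ x in {x : Fin d → ℝ | ∑ k, x k ^ 2 < 1}, Real.cos (∑ k, x k * ξ k))
    {L : Set (Fin d → ℝ)} (hL : MeasurableSet L) (hLf : volume L ≠ ⊤) :
    Posi volume (Cb d) L (bv d) ε := by
  intro g hg hb h0
  have hbv : 0 ≤ bv d := ENNReal.toReal_nonneg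
  have hmp := PiLp.volume_preserving_ofLp (Fin d)
  have hme := (MeasurableEquiv.toLp 2 (Fin d → ℝ)).symm.measurableEmbedding
  have hgi : Integrable g := by
    refine Integrable.mono' (g := L.indicator fun _ => (1 : ℝ)) ?_
      hg.aestronglyMeasurable (Eventually.of_forall fun x => ?_)
    · rw [integrable_indicator_iff hL]
      exact integrableOn_const hLf
    · by_cases hx : x ∈ L
      · rw [Set.indicator_of_mem hx, Real.norm_eq_abs]
        exact hb x
      · rw [Set.indicator_of_notMem hx, h0 x hx, norm_zero]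
  have hgi2 : Integrable fun x : EuclideanSpace ℝ (Fin d) => g (WithLp.ofLp x) :=
    (hmp.integrable_comp_emb hme).2 hgi
  have key := Pool.Agent.MF.quad_ge (kB_int d) (kB_trans hd) (m := ε * bv d) (by positivity)
    (fun ξ => by rw [four_re]; exact hF _) hgi2 (C := 1) (fun x => hb _)
  have e1 : ∫ x : EuclideanSpace ℝ (Fin d), g (WithLp.ofLp x) ^ 2 = ∫ x, g x ^ 2 :=
    hmp.integral_comp hme (fun x => g x ^ 2)
  have e2 : ∀ u : EuclideanSpace ℝ (Fin d),
      ∫ v : EuclideanSpace ℝ (Fin d), kB d (u - v) * g (WithLp.ofLp v) =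
        ∫ y in {y | Cb d (WithLp.ofLp u) y}, g y := by
    intro u
    have hm : MeasurableSet {y | Cb d (WithLp.ofLp u) y} := by
      unfold Cb
      exact measurableSet_lt (by fun_prop) measurable_const
    rw [← integral_indicator hm, ← hmp.integral_comp hme]
    refine integral_congr_ae (Eventually.of_forall fun v => ?_)
    simp only []
    by_cases hv : u - v ∈ B1 d
    · have hv2 : (WithLp.ofLp v) ∈ {y | Cb d (WithLp.ofLp u) y} := by
        have := (mem_B1 _).1 hv
        simpa [Cb] using this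
      rw [Set.indicator_of_mem hv2, kB, Set.indicator_of_mem hv, one_mul]
    · have hv2 : (WithLp.ofLp v) ∉ {y | Cb d (WithLp.ofLp u) y} := by
        intro h
        apply hv
        rw [mem_B1]
        simpa [Cb] using h
      rw [Set.indicator_of_notMem hv2, kB, Set.indicator_of_notMem hv, zero_mul]
  have e3 : ∫ u : EuclideanSpace ℝ (Fin d), g (WithLp.ofLp u) *
      ∫ v : EuclideanSpace ℝ (Fin d), kB d (u - v) * g (WithLp.ofLp v) =
        ∫ x, g x * ∫ y in {y | Cb d x y}, g y := by
    simp only [e2]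
    exact hmp.integral_comp hme (fun x => g x * ∫ y in {y | Cb d x y}, g y)
  rw [e1, e3] at key
  exact key

/-- Row POSL. -/
theorem posl_of : POSL := by
  intro d hd L hL hf
  have hε : 0 ≤ epd d := by
    unfold epd
    positivity
  refine posi_of hd hε (fun ξ => ?_) hL hf
  rw [ballF d hd ξ]
  have h := phi d hd (√(∑ k, ξ k ^ 2)) (Real.sqrt_nonneg _)
  have hbv : 0 ≤ bv d := ENNReal.toReal_nonneg
  nlinarith [mul_le_mul_of_nonneg_left h hbv]

end

end Pool.Agent.HdGas
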